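import Pool.Agent.H745.HV.Stm

/-!
# Project HV: assembly
-/

set_option autoImplicit false

open MeasureTheory Set Metric Filter Topology
open scoped ENNReal Real

noncomputable section

namespace Pool.Agent.H745.HV

open Pool.Agent.TH304.MI Pool.Agent.TH703.HU

/-! ## Scaling of the weight -/

lemma mu_scale (N : ℝ) (w : ℂ → ℝ) (A : Set ℂ) : mu (fun z => N * w z) A = N * mu w A := by
  unfold mu
  rw [integral_const_mul]

lemma dv2_smul' (N : ℝ) (Y : ℂ → ℂ) (hY : ContDiff ℝ 1 Y) (z : ℂ) :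
    dv2 (fun x => N • Y x) z = N * dv2 Y z := by
  unfold dv2
  have h1 : fderiv ℝ (fun x => N • Y x) z = N • fderiv ℝ Y z :=
    fderiv_const_smul (hY.differentiable (by norm_num)).differentiableAt N
  rw [h1]
  simp
  ring

lemma tw_scale {N : ℝ} (hN : 0 < N) {w : ℂ → ℝ} {Y : ℂ → ℂ} (h : TW w Y) :
    TW (fun z => N * w z) (fun z => N • Y z) := by
  refine ⟨h.cd.const_smul N, ?_, ?_, ?_⟩
  · exact h.cs.mono' (fun z hz => by
      apply subset_tsupport
      intro h0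
      apply hz
      simp only [h0, smul_zero])
  · intro z hz
    have h1 : z ∈ tsupport Y := by
      refine closure_mono ?_ hz
      intro y hy hy'
      apply hy
      simp only [hy', smul_zero]
    exact mul_pos hN (h.sub h1)
  · intro z
    rw [norm_smul, Real.norm_of_nonneg hN.le]
    exact mul_le_mul_of_nonneg_left (h.le z) hN.le

lemma pw_of_scale {N : ℝ} (hN : 0 < N) {w : ℂ → ℝ} {A : Set ℂ} {C : ℝ}
    (h : PW (fun z => N * w z) A (N * C)) : PW w A C := by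
  intro Y hY
  have h1 := h _ (tw_scale hN hY)
  have h2 : ∫ x in A, dv2 (fun z => N • Y z) x = N * ∫ x in A, dv2 Y x := by
    rw [← integral_const_mul]
    exact integral_congr_ae (Eventually.of_forall fun x => dv2_smul' N Y hY.cd x)
  rw [h2] at h1
  exact le_of_mul_le_mul_left h1 hN

lemma pw_scale {N : ℝ} (hN : 0 < N) {w : ℂ → ℝ} {A : Set ℂ} {C : ℝ} (h : PW w A C) :
    PW (fun z => N * w z) A (N * C) := by
  have hN' : 0 < N⁻¹ := inv_pos.2 hN
  have h1 : PW (fun z => N⁻¹ * (N * w z)) A (N⁻¹ * (N * C)) := by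
    have e1 : (fun z => N⁻¹ * (N * w z)) = w := by
      funext z
      field_simp
    have e2 : N⁻¹ * (N * C) = C := by field_simp
    rw [e1, e2]
    exact h
  exact pw_of_scale hN' h1

lemma minw_of_scale {N : ℝ} (hN : 0 < N) {w : ℂ → ℝ} {Λ v : ℝ} {A : Set ℂ}
    (h : MinW (fun z => N * w z) Λ (N * v) A) : MinW w Λ v A := by
  refine ⟨h.meas, ?_, ?_⟩
  · have := h.le
    rw [mu_scale] at this
    exact le_of_mul_le_mul_left this hN
  · intro F C hF hFv hFC
    have h1 := h.min F (N * C) hF (by rw [mu_scale]; exact mul_le_mul_of_nonneg_left hFv hN.le)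
      (pw_scale hN hFC)
    rw [mu_scale, mu_scale] at h1
    have e : N * C + Λ * (N * mu w A - N * mu w F) = N * (C + Λ * (mu w A - mu w F)) := by ring
    rw [e] at h1
    exact pw_of_scale hN h1

/-! ## From the plane to the body -/

theorem gcore (gc1 : S_GC1) (gc2 : S_GC2) (b : ℕ) (Ω : Set (PP b)) (ho : IsOpen Ω)
    (hc : Convex ℝ Ω) (hb : Bornology.IsBounded Ω) (hne : Ω.Nonempty)
    (hcont : ContinuousOn (fibv Ω) {x | 0 < fibv Ω x}) (Λ v R α₁ : ℝ) (c₁ c₂ : ℂ) (hΛ : 0 < Λ)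
    (hv : 0 < v) (hvΩ : v < volume.real Ω) (hR : 0 < R) (hα₁ : α₁ ≤ 1)
    (hG : ∃ (G : Set ℂ) (C : ℝ), MeasurableSet G ∧ mu (fibv Ω) G ≤ v ∧ PW (fibv Ω) G C ∧
      C < Λ * (mu (fibv Ω) G - (1 - α₁) * volume.real Ω))
    (hA : ∀ A : Set ℂ, MinW (fibv Ω) Λ v A →
      volume (A ∩ {x | 0 < fibv Ω x} ∩ ball c₁ R) = 0 ∧
      volume (A ∩ {x | 0 < fibv Ω x} ∩ ball c₂ R) = 0)
    (hhull : convexHull ℝ {p | p ∈ Ω ∧ (‖xc p - c₁‖ < R / 2 ∨ ‖xc p - c₂‖ < R / 2)} = Ω) :
    ∃ (Ω' E : Set (PP b)) (α : ℝ), IsOpen Ω' ∧ Convex ℝ Ω' ∧ Bornology.IsBounded Ω' ∧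
      Ω'.Nonempty ∧ 0 < α ∧ 1 - v / volume.real Ω ≤ α ∧ α < α₁ ∧ IsIso Ω' E α ∧ Per Ω' E < ⊤ ∧
      convexHull ℝ (dens1 Ω' E) = Ω' := by
  obtain ⟨ε, F, hε, hF, hFΩ, hFv, hFα, hmin, hC, hnull⟩ :=
    gc1 b Ω ho hc hb hne hcont Λ v R α₁ c₁ c₂ hΛ hv hvΩ hR hG hA
  have hFpos : 0 < volume.real F := by
    refine lt_of_le_of_lt ?_ hFα
    exact mul_nonneg (by linarith) measureReal_nonneg
  exact gc2 b Ω F ε v R α₁ c₁ c₂ ho hc hb hne hε hv hvΩ hF hFΩ hFv hFα hFpos hmin hC hnull hhull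

/-! ## Choice of the constants -/

lemma rr_le_one {κ x : ℝ} (hκ : 0 < κ) (hκ1 : κ ≤ 1 / 2) (hx : 0 ≤ x) : rr κ (κ ^ 2) x ≤ 1 := by
  unfold rr
  nlinarith [mul_nonneg hκ.le hx, mul_nonneg (mul_nonneg hκ.le hx) (mul_nonneg hκ.le hx),
    mul_nonneg (mul_nonneg hκ.le hx) (sub_nonneg.2 hκ1)]

lemma rr_cont (κ β : ℝ) : Continuous (rr κ β) := by
  unfold rr
  fun_prop

lemma MM_le {κ t : ℝ} (hκ : 0 < κ) (hκ1 : κ ≤ 1 / 2) (ht : 0 ≤ t) : MM κ (κ ^ 2) t ≤ t := by
  unfold MM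
  calc ∫ x in (0 : ℝ)..t, rr κ (κ ^ 2) x ≤ ∫ x in (0 : ℝ)..t, (1 : ℝ) := by
        refine intervalIntegral.integral_mono_on ht ((rr_cont _ _).intervalIntegrable _ _)
          (continuous_const.intervalIntegrable _ _) ?_
        intro x hx
        exact rr_le_one hκ hκ1 hx.1
    _ = t := by simp

lemma le_MM {κ t : ℝ} (hκ : 0 < κ) (ht : 0 ≤ t) (hκt : κ * t ≤ 1) :
    t - κ * t ^ 2 ≤ MM κ (κ ^ 2) t := by
  unfold MM
  calc t - κ * t ^ 2 = ∫ x in (0 : ℝ)..t, (1 - κ * t : ℝ) := by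
        rw [intervalIntegral.integral_const]
        simp
        ring
    _ ≤ ∫ x in (0 : ℝ)..t, rr κ (κ ^ 2) x := by
        refine intervalIntegral.integral_mono_on ht (continuous_const.intervalIntegrable _ _)
          ((rr_cont _ _).intervalIntegrable _ _) ?_
        intro x hx
        unfold rr
        have h1 : κ * x ≤ κ * t := mul_le_mul_of_nonneg_left hx.2 hκ.le
        have h2 : 0 ≤ 2 * κ ^ 2 * x := by
          have := hx.1
          positivity
        nlinarith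

lemma pw_mono {w : ℂ → ℝ} {A : Set ℂ} {C C' : ℝ} (h : PW w A C) (hC : C ≤ C') : PW w A C' :=
  fun Y hY => (h Y hY).trans hC

theorem final (ga1 : S_GA1) (gc1 : S_GC1) (gc2 : S_GC2) (body1 : S_BODY1) (body2 : S_BODY2)
    (hull : S_HULL) (ker : S_KER) (w0 : S_W0) (w1 : S_W1) (plane : S_PLANE) : S_FINAL := by
  intro a b ha hab hb
  set α₀ : ℝ := (a + b) / 2 with hα₀
  have hα0 : 0 < α₀ := by rw [hα₀]; linarith
  have hα1 : α₀ < 1 / 2 := by rw [hα₀]; linarith
  have haα : a < α₀ := by rw [hα₀]; linarith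
  have hαb : α₀ < b := by rw [hα₀]; linarith
  set L : ℝ := 4 / α₀ with hL
  have hLα : α₀ * L = 4 := by rw [hL]; field_simp
  have hL8 : 8 < L := by
    rw [hL, lt_div_iff₀ hα0]
    linarith
  have hL0 : 0 < L := by linarith
  set t : ℝ := L - 4 with ht
  have htL : L / 2 < t := by rw [ht]; linarith
  have ht0 : 0 < t := by linarith
  set Λ : ℝ := 4 / (t - L / 2) + 4 / ((b - α₀) * L) with hΛd
  have hd1 : 0 < t - L / 2 := by linarith
  have hd2 : 0 < (b - α₀) * L := mul_pos (by linarith) hL0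
  have hΛ : 0 < Λ := by rw [hΛd]; positivity
  have hΛ1 : 4 ≤ Λ * (t - L / 2) := by
    have : Λ * (t - L / 2) = 4 + 4 / ((b - α₀) * L) * (t - L / 2) := by
      rw [hΛd, add_mul, div_mul_cancel₀ _ hd1.ne']
    rw [this]
    have h1 : 0 ≤ 4 / ((b - α₀) * L) * (t - L / 2) := by positivity
    linarith
  have hΛ2 : 4 ≤ Λ * ((b - α₀) * L) := by
    have : Λ * ((b - α₀) * L) = 4 / (t - L / 2) * ((b - α₀) * L) + 4 := by
      rw [hΛd, add_mul, div_mul_cancel₀ _ hd2.ne']
    rw [this]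
    have h1 : 0 ≤ 4 / (t - L / 2) * ((b - α₀) * L) := by positivity
    linarith
  obtain ⟨κ₀, hκ₀, hpl⟩ := plane L t Λ (by linarith) htL (by rw [ht]; linarith) hΛ1
  -- choice of κ
  obtain ⟨κ, hκ, hκκ₀, hκ1, hκ2⟩ : ∃ κ : ℝ, 0 < κ ∧ κ ≤ κ₀ ∧ κ * L ≤ (b - α₀) / 2 ∧
      κ * L ≤ (α₀ - a) / 2 := by
    refine ⟨min κ₀ (min ((b - α₀) / 2 / L) ((α₀ - a) / 2 / L)), ?_, min_le_left _ _, ?_, ?_⟩
    · refine lt_min hκ₀ (lt_min ?_ ?_)
      · exact div_pos (by linarith) hL0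
      · exact div_pos (by linarith) hL0
    · calc _ ≤ (b - α₀) / 2 / L * L := mul_le_mul_of_nonneg_right
            ((min_le_right _ _).trans (min_le_left _ _)) hL0.le
        _ = _ := div_mul_cancel₀ _ hL0.ne'
    · calc _ ≤ (α₀ - a) / 2 / L * L := mul_le_mul_of_nonneg_right
            ((min_le_right _ _).trans (min_le_right _ _)) hL0.le
        _ = _ := div_mul_cancel₀ _ hL0.ne'
  obtain ⟨hpar, H, K, δ, hH, hK, hδ, hδ8, hpl⟩ := hpl κ hκ hκκ₀
  obtain ⟨m₀, hm₀⟩ := ker H K δ hH (by linarith) hδ (by linarith)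
  set m : ℕ := max m₀ 1 with hm
  have hm1 : 1 ≤ m := le_max_right _ _
  obtain ⟨hNN, hker⟩ := hm₀ m (le_max_left _ _) hm1
  set w : ℂ → ℝ := ww L κ (κ ^ 2) (kk H m) with hw
  set N : ℝ := 2 ^ (2 * m + 1) * NN m with hN
  have hN0 : 0 < N := by rw [hN]; positivity
  have hκL : κ * L ≤ 1 / 4 := hpar.κL
  have hκ12 : κ ≤ 1 / 2 := by nlinarith
  obtain ⟨ho, hc, hbd, hne⟩ := body1 L κ (κ ^ 2) H m hL0 hκ (by linarith) (by positivity)
    (by linarith) hm1
  have hfib : fibv (Bd L κ (κ ^ 2) H m) = fun z => N * w z := by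
    funext z
    exact body2 L κ (κ ^ 2) H m hL0 hκ (by linarith) (by positivity) (by linarith) hm1 hNN z
  obtain ⟨hw0, hw1, hpos, hDo, hcd, hwm, hwi, -⟩ := w0 L κ (κ ^ 2) H K δ (kk H m) hpar hH
    (by linarith) hδ hker
  obtain ⟨hstr, htot, hper⟩ := w1 L κ (κ ^ 2) H K δ (kk H m) hpar hH (by linarith) hδ hker
  have hset : {x | 0 < fibv (Bd L κ (κ ^ 2) H m) x} = DD L (κ ^ 2) H := by
    rw [← hpos, hfib]
    ext z
    exact mul_pos_iff_of_pos_left hN0
  have hvolΩ : volume.real (Bd L κ (κ ^ 2) H m) = N * MM κ (κ ^ 2) L := by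
    have h1 := ga1 _ (Bd L κ (κ ^ 2) H m) ho hbd univ MeasurableSet.univ
    have h2 : cylO (Bd L κ (κ ^ 2) H m) univ = Bd L κ (κ ^ 2) H m := by
      ext p
      simp [cylO]
    rw [h2, hfib, mu_scale] at h1
    rw [h1]
    unfold mu
    rw [setIntegral_univ, htot]
  -- masses
  have hMt1 : MM κ (κ ^ 2) t ≤ t := MM_le hκ hκ12 ht0.le
  have hκt : κ * t ≤ 1 := by nlinarith
  have hMt2 : t - κ * t ^ 2 ≤ MM κ (κ ^ 2) t := le_MM hκ ht0.le hκt
  have hML1 : MM κ (κ ^ 2) L ≤ L := MM_le hκ hκ12 hL0.le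
  have hML2 : L - κ * L ^ 2 ≤ MM κ (κ ^ 2) L := le_MM hκ hL0.le (by linarith)
  have hMtpos : 0 < MM κ (κ ^ 2) t := by
    have : t - κ * t ^ 2 = t * (1 - κ * t) := by ring
    have h2 : κ * t ≤ κ * L := mul_le_mul_of_nonneg_left (by linarith) hκ.le
    have : 0 < t * (1 - κ * t) := mul_pos ht0 (by linarith)
    linarith
  have hMLpos : 0 < MM κ (κ ^ 2) L := by
    have : L - κ * L ^ 2 = L * (1 - κ * L) := by ring
    have : 0 < L * (1 - κ * L) := mul_pos hL0 (by linarith)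
    linarith
  have htα : t = (1 - α₀) * L := by rw [ht]; linarith
  have hMtL : MM κ (κ ^ 2) t < MM κ (κ ^ 2) L := by
    have h2 : κ * L ^ 2 ≤ (α₀ - a) / 2 * L := by
      have : κ * L ^ 2 = κ * L * L := by ring
      rw [this]
      exact mul_le_mul_of_nonneg_right hκ2 hL0.le
    have h3 : (α₀ - a) / 2 * L ≤ α₀ * L / 2 := by
      have : (α₀ - a) / 2 * L = α₀ * L / 2 - a * L / 2 := by ring
      have : 0 ≤ a * L := mul_nonneg ha hL0.le
      linarith
    linarith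
  have hfrac : a < 1 - N * MM κ (κ ^ 2) t / (N * MM κ (κ ^ 2) L) := by
    rw [mul_div_mul_left _ _ hN0.ne']
    have h1 : MM κ (κ ^ 2) t / MM κ (κ ^ 2) L < 1 - a := by
      rw [div_lt_iff₀ hMLpos]
      have h2 : κ * L ^ 2 ≤ (α₀ - a) / 2 * L := by
        have : κ * L ^ 2 = κ * L * L := by ring
        rw [this]
        exact mul_le_mul_of_nonneg_right hκ2 hL0.le
      have h3 : (1 - a) * (L - κ * L ^ 2) ≤ (1 - a) * MM κ (κ ^ 2) L :=
        mul_le_mul_of_nonneg_left hML2 (by linarith)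
      have h4 : (1 - a) * (κ * L ^ 2) ≤ κ * L ^ 2 := by
        have : 0 ≤ a * (κ * L ^ 2) := by positivity
        linarith
      have h5 : 0 < (α₀ - a) / 2 * L := mul_pos (by linarith) hL0
      have h6 : (1 - a) * (L - κ * L ^ 2) = (1 - a) * L - (1 - a) * (κ * L ^ 2) := by ring
      have h7 : (1 - a) * L = (1 - α₀) * L + ((α₀ - a) / 2 * L + (α₀ - a) / 2 * L) := by ring
      have h8 : MM κ (κ ^ 2) L * (1 - a) = (1 - a) * MM κ (κ ^ 2) L := by ring
      have h9 : (1 - a) * MM κ (κ ^ 2) L = MM κ (κ ^ 2) L * (1 - a) := by ring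
      linarith
    linarith
  -- the competitor
  have hmuG : mu w {z : ℂ | z.re < t} = MM κ (κ ^ 2) t := by
    have h1 := hstr 0 t le_rfl ht0.le (by linarith)
    have h2 : MM κ (κ ^ 2) 0 = 0 := by unfold MM; simp
    rw [h2, sub_zero] at h1
    rw [← h1]
    unfold mu
    have hm1 : MeasurableSet {z : ℂ | z.re < t} :=
      (isOpen_lt Complex.continuous_re continuous_const).measurableSet
    have hm2 : MeasurableSet {z : ℂ | 0 < z.re ∧ z.re < t} :=
      ((isOpen_lt continuous_const Complex.continuous_re).inter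
        (isOpen_lt Complex.continuous_re continuous_const)).measurableSet
    rw [← integral_indicator hm1, ← integral_indicator hm2]
    refine integral_congr_ae (Eventually.of_forall fun z => ?_)
    by_cases h3 : 0 < z.re
    · by_cases h4 : z.re < t
      · rw [indicator_of_mem (show z ∈ {z : ℂ | z.re < t} from h4),
          indicator_of_mem (show z ∈ {z : ℂ | 0 < z.re ∧ z.re < t} from ⟨h3, h4⟩)]
      · rw [indicator_of_notMem (show z ∉ {z : ℂ | z.re < t} from h4),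
          indicator_of_notMem (show z ∉ {z : ℂ | 0 < z.re ∧ z.re < t} from fun h => h4 h.2)]
    · have h5 : w z = 0 := by
        rw [hw]
        unfold ww
        rw [if_neg (fun h => h3 h.1)]
      rw [indicator_of_notMem (show z ∉ {z : ℂ | 0 < z.re ∧ z.re < t} from fun h => h3 h.1)]
      by_cases h4 : z.re < t
      · rw [indicator_of_mem (show z ∈ {z : ℂ | z.re < t} from h4), h5]
      · rw [indicator_of_notMem (show z ∉ {z : ℂ | z.re < t} from h4)]
  obtain ⟨Ω', E, α, h1, h2, h3, h4, h5, h6, h7, h8, h9, h10⟩ :=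
    gcore gc1 gc2 (2 * m + 2) (Bd L κ (κ ^ 2) H m) ho hc hbd hne (by
      rw [hset, hfib]
      exact continuousOn_const.mul hcd.continuousOn) Λ (N * MM κ (κ ^ 2) t) (2 * L) b
      ⟨L / 2, H⟩ ⟨L / 2, -H⟩ hΛ (mul_pos hN0 hMtpos) (by
        rw [hvolΩ]
        exact mul_lt_mul_of_pos_left hMtL hN0) (by linarith) (by linarith)
      ⟨{z : ℂ | z.re < t}, N * rr κ (κ ^ 2) t,
        (isOpen_lt Complex.continuous_re continuous_const).measurableSet, by
          rw [hfib, mu_scale, hmuG], by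
          rw [hfib]
          exact pw_scale hN0 (hper t ht0 (by linarith)), by
          rw [hfib, mu_scale, hmuG, hvolΩ]
          have hr : rr κ (κ ^ 2) t ≤ 1 := rr_le_one hκ hκ12 ht0.le
          have e1 : Λ * (N * MM κ (κ ^ 2) t - (1 - b) * (N * MM κ (κ ^ 2) L)) =
            N * (Λ * (MM κ (κ ^ 2) t - (1 - b) * MM κ (κ ^ 2) L)) := by ring
          rw [e1]
          refine mul_lt_mul_of_pos_left ?_ hN0
          have e2 : (b - α₀) * L / 2 ≤ MM κ (κ ^ 2) t - (1 - b) * MM κ (κ ^ 2) L := by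
            have e3 : (1 - b) * MM κ (κ ^ 2) L ≤ (1 - b) * L :=
              mul_le_mul_of_nonneg_left hML1 (by linarith)
            have e4 : κ * t ^ 2 ≤ (b - α₀) / 2 * L := by
              have e5 : κ * t ^ 2 = (κ * t) * t := by ring
              rw [e5]
              have e6 : κ * t ≤ κ * L := mul_le_mul_of_nonneg_left (by linarith) hκ.le
              calc (κ * t) * t ≤ ((b - α₀) / 2) * t :=
                    mul_le_mul_of_nonneg_right (e6.trans hκ1) ht0.le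
                _ ≤ (b - α₀) / 2 * L := mul_le_mul_of_nonneg_left (by linarith) (by linarith)
            have e7 : t - (1 - b) * L = (b - α₀) * L := by rw [htα]; ring
            have e8 : (b - α₀) * L / 2 = (b - α₀) / 2 * L := by ring
            linarith
          have e3 : Λ * ((b - α₀) * L / 2) ≤
              Λ * (MM κ (κ ^ 2) t - (1 - b) * MM κ (κ ^ 2) L) :=
            mul_le_mul_of_nonneg_left e2 hΛ.le
          have e4 : Λ * ((b - α₀) * L / 2) = Λ * ((b - α₀) * L) / 2 := by ring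
          rw [e4] at e3
          linarith⟩
      (by
        intro A hA
        rw [hfib] at hA
        have hA' := minw_of_scale hN0 hA
        rw [hset]
        exact hpl (kk H m) hker A hA')
      (by
        have e : (2 * L) / 2 = L := by ring
        rw [e]
        exact hull L κ (κ ^ 2) H m (by linarith) hκ (by linarith) (by positivity) (by
          nlinarith [hpar.βκ, hpar.κL]) hH hm1)
  refine ⟨_, Ω', E, α, ?_, h7, h1, h2, h3, h4, h8, h9, h10⟩
  rw [hvolΩ] at h6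
  linarith

end Pool.Agent.H745.HV
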