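import Pool.Graph.R_seed8.TH703.HU.Stm
import Pool.Graph.R_seed8.TH703.HU.Defs2
import Pool.Graph.R_seed8.TH703.Cone.Stm

/-!
# Project HV (helper745): MP_b478d8_an, Q2 (negative answer)

For a dense set of `α` in `(0, 1/2)` there is a bounded open convex set `Ω ⊆ ℝⁿ` with an
isoperimetric set `E` of volume fraction `α` whose convex hull is all of `Ω`.

Body: `x ∈ (0, L)`, `|v - H q| < a(x) = 1/2 + β x`, `|y_i| < 1 + q` (`i < m`), `|y_i| < 1 - q`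
(`m ≤ i < 2m`), `|y_{2m}| < 1 - κ x`; the coordinates `q, y` are scaled by a small `ε`.
The weight on the plane of the `z = (x, v)` is
`w(z) = (1 - κ x) ∫_{v-a(x)}^{v+a(x)} k`, `k` a kernel concentrated at `0` with support `[-H, H]`.
The minimizer `F` of `P - Λ vol` among the sets with `vol ≤ v` (`v` more than half of the mass) is
the strip `{x < t}` in the bulk `T = {|v| < a(x)}`, and its boundary bends towards `x = 0` in the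
tail `|v| > a(x)` (gradient flow of `log w`), so `F` does not meet the zone `|v| > H - 2L`.

The definitions `PP, xc, yc, sc, dv, dv2, Fld, PLe` are those of `Pool.Agent.TH304.MI`, and
`cylO, TW, PW, mu, MinW, MinB, ev` those of `Pool.Agent.TH703.HU`.
-/

set_option autoImplicit false

open MeasureTheory Set Metric Filter Topology
open scoped ENNReal Real

noncomputable section

namespace Pool.Agent.H745.HV

open Pool.Agent.TH304.MI Pool.Agent.TH703.HU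

/-! ## General bodies -/

/-- The volume of the fibre of `Ω` over the point `x` of the plane. -/
def fibv {b : ℕ} (Ω : Set (PP b)) (x : ℂ) : ℝ :=
  volume.real {y : Fin b → ℝ | ∃ p ∈ Ω, xc p = x ∧ yc p = y}

/-- **GA1.** Volumes of cylindrical sets (Fubini).

Proof: the measure preserving equivalence `PP b ≃ ℂ × (Fin b → ℝ)`, `p ↦ (xc p, yc p)`, Tonelli, and
`fibv Ω` is bounded with bounded support and measurable (`Ω` bounded and open), so that the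
lower integral is the real integral.  ADAPT `Pool/Graph/R_seed8/TH959/HU/A12.lean` (there
`volume of fibre = NN m * wt m x`; here `fibv Ω x` by definition).  The lemma that
`fibv Ω` is `0` outside a bounded set and `≤ C` everywhere, and measurable, is part of it. -/
def S_GA1 : Prop := ∀ (b : ℕ) (Ω : Set (PP b)), IsOpen Ω → Bornology.IsBounded Ω →
  ∀ A : Set ℂ, MeasurableSet A → volume.real (cylO Ω A) = mu (fibv Ω) A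

/-- **GA2.** The perimeter of a cylindrical set is at most the weighted perimeter of its base.

Proof (as in `Pool/Graph/R_seed8/TH959/HU/A12.lean`, ADAPT): for a field `φ` the marginal
`Y(x) = ∫ xc (φ (x, y)) dy` is `C¹` with compact support, `‖Y x‖ ≤ volume of the fibre = fibv Ω x`,
`tsupport Y ⊆ image of tsupport φ under xc ⊆ xc '' Ω = {0 < fibv Ω}` (the image of a compact set is
closed; a fibre over a point of `xc '' Ω` is open and nonempty, so it has positive volume), the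
`y`-part of the divergence integrates to `0` over each fibre, so
`∫_{cylO Ω A} dv φ = ∫_A dv2 Y ≤ C`. -/
def S_GA2 : Prop := ∀ (b : ℕ) (Ω : Set (PP b)), IsOpen Ω → Bornology.IsBounded Ω →
  ∀ (ε : ℝ), 0 < ε → ∀ A : Set ℂ, MeasurableSet A → ∀ C : ℝ, PW (fibv Ω) A C →
    PLe ε Ω (cylO Ω A) C

/-- **GA3.** Conversely: `x`-fields on the body bound the weighted perimeter of the base.

Proof (ADAPT `Pool/Graph/R_seed8/TH554/HU/A3.lean`): let `Y` be a field for the weight `fibv Ω`,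
`S = tsupport Y` compact in `{0 < fibv Ω}`.  Smooth cutoffs `0 ≤ χ_n ≤ 1`, compactly supported in
`Ω`, increasing to the indicator of `Ω`; `g_n(x) = ∫ χ_n(x, y) dy` is `C¹` and increases to
`fibv Ω x`, which is continuous on `S`; by Dini (or directly with compactness) `g_n ≥ (1 - e) fibv Ω`
on `S` for large `n`.  The field `φ(x, y) = (1 - e) χ_n(x, y) Y(x) / g_n(x)` (in the `x`-directions)
has norm `≤ 1` and `∫_{cylO Ω A} dv φ = (1 - e) ∫_A dv2 Y`.  Let `e → 0`. -/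
def S_GA3 : Prop := ∀ (b : ℕ) (Ω : Set (PP b)), IsOpen Ω → Bornology.IsBounded Ω →
  ContinuousOn (fibv Ω) {x | 0 < fibv Ω x} → ∀ A : Set ℂ, MeasurableSet A → ∀ C : ℝ,
  (∀ φ : PP b → PP b, Fld 1 Ω φ → (∀ p, yc (φ p) = 0) → ∫ p in cylO Ω A, dv φ p ≤ C) →
  PW (fibv Ω) A C

/-- **GB8.** Passage to the limit `ε → 0` (prove it from `S_GA1, S_GA2, S_GA3`, and the library
theorems `S_B1, S_B2, S_B4`, which are stated for every open bounded convex `Ω`).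

Proof: ADAPT `Pool/Graph/R_seed8/TH340/HU/B8.lean` (same statement for `Ω = Bd m`, with the
normalising factor `NN m` which disappears here).  Prove
`theorem gb8 (ga1 : S_GA1) (ga2 : S_GA2) (ga3 : S_GA3) (b1 : S_B1) (b2 : S_B2) (b4 : S_B4) : S_GB8`. -/
def S_GB8 : Prop := ∀ (b : ℕ) (Ω : Set (PP b)), IsOpen Ω → Convex ℝ Ω → Bornology.IsBounded Ω →
  ContinuousOn (fibv Ω) {x | 0 < fibv Ω x} →
  ∀ (Λ v : ℝ), 0 ≤ Λ → 0 ≤ v → ∀ (ε : ℕ → ℝ) (F : ℕ → Set (PP b)),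
  (∀ k, 0 < ε k ∧ ε k ≤ 1) → Tendsto ε atTop (𝓝 0) → (∀ k, MinB (ε k) Ω Λ v (F k)) →
  ∃ (A : Set ℂ) (ψ : ℕ → ℕ), MinW (fibv Ω) Λ v A ∧ StrictMono ψ ∧
    Tendsto (fun k => volume (symmDiff (F (ψ k)) (cylO Ω A))) atTop (𝓝 0)

/-- **GC1.** A minimizer on the body without volume over the two discs of radius `R / 2`.
Prove `theorem gc1 (ga1 : S_GA1) (ga2 : S_GA2) (gb8 : S_GB8) (b3 : S_B3) (b7 : S_B7) : S_GC1`.

Proof: ADAPT the theorem `core` of `Pool/Graph/R_seed8/TH703/HU/Final.lean`.  Take the minimizers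
`F k` (`S_B3`) of `PLe - Λ vol` for `ε = 1/(k+1)`, the planar limit `A` (`S_GB8`), the constants of
`S_B7` for `c₁` and `c₂` and radius `R`, and a large `k`.  The competitor `cylO Ω G` shows
`PLe ε Ω F (C + Λ (vol F - mu (fibv Ω) G))`; the number on the right is `≥ 0` (zero field), hence
`vol F ≥ mu (fibv Ω) G - C / Λ > (1 - α₁) vol Ω`. -/
def S_GC1 : Prop := ∀ (b : ℕ) (Ω : Set (PP b)), IsOpen Ω → Convex ℝ Ω →
  Bornology.IsBounded Ω → Ω.Nonempty → ContinuousOn (fibv Ω) {x | 0 < fibv Ω x} →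
  ∀ (Λ v R α₁ : ℝ) (c₁ c₂ : ℂ), 0 < Λ → 0 < v → v < volume.real Ω → 0 < R →
  (∃ (G : Set ℂ) (C : ℝ), MeasurableSet G ∧ mu (fibv Ω) G ≤ v ∧ PW (fibv Ω) G C ∧
    C < Λ * (mu (fibv Ω) G - (1 - α₁) * volume.real Ω)) →
  (∀ A : Set ℂ, MinW (fibv Ω) Λ v A →
    volume (A ∩ {x | 0 < fibv Ω x} ∩ ball c₁ R) = 0 ∧
    volume (A ∩ {x | 0 < fibv Ω x} ∩ ball c₂ R) = 0) →
  ∃ (ε : ℝ) (F : Set (PP b)), 0 < ε ∧ MeasurableSet F ∧ F ⊆ Ω ∧ volume.real F ≤ v ∧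
    (1 - α₁) * volume.real Ω < volume.real F ∧
    (∀ G : Set (PP b), MeasurableSet G → G ⊆ Ω → volume G = volume F →
      ∀ C : ℝ, PLe ε Ω G C → PLe ε Ω F C) ∧
    (∃ C : ℝ, PLe ε Ω F C) ∧
    volume (F ∩ {p | ‖xc p - c₁‖ < R / 2 ∨ ‖xc p - c₂‖ < R / 2}) = 0

/-- **GC2.** Transfer to the thin body `sc ε '' Ω`, and passage to the complement of `F`.
Prove `theorem gc2 (b9 : S_B9) : S_GC2`.

Proof: ADAPT the theorem `fin2` of `Pool/Graph/R_seed8/TH703/HU/Fin2.lean`: `Ω' = sc ε '' Ω`,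
`E = Ω' \ sc ε '' F`, `α = vol E / vol Ω' = 1 - vol F / vol Ω`. -/
def S_GC2 : Prop := ∀ (b : ℕ) (Ω F : Set (PP b)) (ε v R α₁ : ℝ) (c₁ c₂ : ℂ), IsOpen Ω →
  Convex ℝ Ω → Bornology.IsBounded Ω → Ω.Nonempty → 0 < ε → 0 < v → v < volume.real Ω →
  MeasurableSet F → F ⊆ Ω → volume.real F ≤ v →
  (1 - α₁) * volume.real Ω < volume.real F → 0 < volume.real F →
  (∀ G : Set (PP b), MeasurableSet G → G ⊆ Ω → volume G = volume F →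
      ∀ C : ℝ, PLe ε Ω G C → PLe ε Ω F C) →
  (∃ C : ℝ, PLe ε Ω F C) →
  volume (F ∩ {p | ‖xc p - c₁‖ < R / 2 ∨ ‖xc p - c₂‖ < R / 2}) = 0 →
  convexHull ℝ {p | p ∈ Ω ∧ (‖xc p - c₁‖ < R / 2 ∨ ‖xc p - c₂‖ < R / 2)} = Ω →
  ∃ (Ω' E : Set (PP b)) (α : ℝ), IsOpen Ω' ∧ Convex ℝ Ω' ∧ Bornology.IsBounded Ω' ∧
    Ω'.Nonempty ∧ 0 < α ∧ 1 - v / volume.real Ω ≤ α ∧ α < α₁ ∧ IsIso Ω' E α ∧ Per Ω' E < ⊤ ∧
    convexHull ℝ (dens1 Ω' E) = Ω'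

/-- **GCORE.** From the plane to the body (immediate from `GC1` and `GC2`, done by helper745). -/
def S_GCORE : Prop := ∀ (b : ℕ) (Ω : Set (PP b)), IsOpen Ω → Convex ℝ Ω →
  Bornology.IsBounded Ω → Ω.Nonempty → ContinuousOn (fibv Ω) {x | 0 < fibv Ω x} →
  ∀ (Λ v R α₁ : ℝ) (c₁ c₂ : ℂ), 0 < Λ → 0 < v → v < volume.real Ω → 0 < R →
  (∃ (G : Set ℂ) (C : ℝ), MeasurableSet G ∧ mu (fibv Ω) G ≤ v ∧ PW (fibv Ω) G C ∧
    C < Λ * (mu (fibv Ω) G - (1 - α₁) * volume.real Ω)) →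
  (∀ A : Set ℂ, MinW (fibv Ω) Λ v A →
    volume (A ∩ {x | 0 < fibv Ω x} ∩ ball c₁ R) = 0 ∧
    volume (A ∩ {x | 0 < fibv Ω x} ∩ ball c₂ R) = 0) →
  convexHull ℝ {p | p ∈ Ω ∧ (‖xc p - c₁‖ < R / 2 ∨ ‖xc p - c₂‖ < R / 2)} = Ω →
  ∃ (Ω' E : Set (PP b)) (α : ℝ), IsOpen Ω' ∧ Convex ℝ Ω' ∧ Bornology.IsBounded Ω' ∧
    Ω'.Nonempty ∧ 0 < α ∧ 1 - v / volume.real Ω ≤ α ∧ α < α₁ ∧ IsIso Ω' E α ∧ Per Ω' E < ⊤ ∧
    convexHull ℝ (dens1 Ω' E) = Ω'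

/-! ## The body -/

/-- Half height of the bulk. -/
def aa (β x : ℝ) : ℝ := 1 / 2 + β * x

/-- The convex body. -/
def Bd (L κ β H : ℝ) (m : ℕ) : Set (PP (2 * m + 2)) :=
  {p | 0 < (xc p).re ∧ (xc p).re < L ∧ |(xc p).im - H * yc p 0| < aa β (xc p).re ∧
    ∀ i : Fin (2 * m + 1), if (i : ℕ) < m then |yc p i.succ| < 1 + yc p 0
      else if (i : ℕ) < 2 * m then |yc p i.succ| < 1 - yc p 0
      else |yc p i.succ| < 1 - κ * (xc p).re}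

/-- Normalising constant. -/
def NN (m : ℕ) : ℝ := ∫ q in (-1 : ℝ)..1, (1 - q ^ 2) ^ m

/-- The kernel. -/
def kk (H : ℝ) (m : ℕ) (s : ℝ) : ℝ := (max 0 (1 - (s / H) ^ 2)) ^ m / (H * NN m)

/-- The weight of the plane, for a kernel `k`. -/
def ww (L κ β : ℝ) (k : ℝ → ℝ) (z : ℂ) : ℝ :=
  if 0 < z.re ∧ z.re < L then
    (1 - κ * z.re) * ∫ s in (z.im - aa β z.re)..(z.im + aa β z.re), k s
  else 0

/-- The domain. -/
def DD (L β H : ℝ) : Set ℂ := {z | 0 < z.re ∧ z.re < L ∧ |z.im| < H + aa β z.re}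

/-- The bulk. -/
def TT (L β : ℝ) : Set ℂ := {z | 0 < z.re ∧ z.re < L ∧ |z.im| < aa β z.re}

/-- The kernels. -/
structure Ker (H K δ : ℝ) (k : ℝ → ℝ) : Prop where
  cont : Continuous k
  even : ∀ s, k (-s) = k s
  nonneg : ∀ s, 0 ≤ k s
  pos : ∀ s, 0 < k s ↔ |s| < H
  int : ∫ s, k s = 1
  anti : ∀ r s, 0 ≤ r → r ≤ s → k s ≤ k r
  sub : ∀ r u, 0 ≤ r → 0 ≤ u → k (r + u) * k 0 ≤ k r * k u
  big : K ≤ k 0
  conc : ∫ s in {s | δ ≤ |s|}, k s ≤ δ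
  tail : ∀ s, 1 / 2 ≤ |s| → k s ≤ δ

/-- **BODY1.** Elementary geometry of the body.

Proof: all conditions are strict inequalities between continuous functions (finitely many), each
condition describes a convex set (`|affine| < affine`), for `m ≥ 1` the conditions with `i = 0` and
`i = m` give `-1 < q < 1`, so all coordinates are bounded (`|v| ≤ H + 1/2 + β L`), and the point
`x = L / 2`, `v = 0`, `y = 0` belongs to it. -/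
def S_BODY1 : Prop := ∀ (L κ β H : ℝ) (m : ℕ), 0 < L → 0 < κ → κ * L < 1 → 0 ≤ β → 0 < H →
  1 ≤ m → IsOpen (Bd L κ β H m) ∧ Convex ℝ (Bd L κ β H m) ∧
    Bornology.IsBounded (Bd L κ β H m) ∧ (Bd L κ β H m).Nonempty

/-- **BODY2.** The volumes of the fibres of the body.

Proof: for `x = (x₁, v)` with `0 < x₁ < L` the fibre is the set of the `y : Fin (2m+2) → ℝ` with
`|v - H q| < a` (`q = y 0`, `a = 1/2 + β x₁`), `|y (i+1)| < 1 + q` (`i < m`), `|y (i+1)| < 1 - q`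
(`m ≤ i < 2 m`), `|y (2m+1)| < 1 - κ x₁`.  By `Fubini` in `q` (measurable equivalence
`(Fin (2m+2) → ℝ) ≃ ℝ × (Fin (2m+1) → ℝ)`, `MeasurableEquiv.piFinSuccAbove`,
`volume_preserving_piFinSuccAbove`, and `Real.volume_pi_Ioo` for the slices) the volume is
`∫_{q : |q| < 1, |v - H q| < a} (2 (1 + q))^m (2 (1 - q))^m 2 (1 - κ x₁) dq`
(for `q ∉ (-1, 1)` the slice is empty as `m ≥ 1`)
`= 2^(2m+1) (1 - κ x₁) ∫_{|v - H q| < a} (max 0 (1 - q²))^m dq`, and the substitution `s = H q` gives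
`2^(2m+1) (1 - κ x₁) ∫_{v-a}^{v+a} (max 0 (1 - (s/H)²))^m ds / H`, i.e. the claim.  Outside
`0 < x₁ < L` both sides vanish.  (A similar computation: `S_A1` in
`Pool/Graph/R_seed8/TH959/HU/A12.lean`.) -/
def S_BODY2 : Prop := ∀ (L κ β H : ℝ) (m : ℕ), 0 < L → 0 < κ → κ * L < 1 → 0 ≤ β → 0 < H →
  1 ≤ m → 0 < NN m → ∀ x : ℂ,
    fibv (Bd L κ β H m) x = 2 ^ (2 * m + 1) * NN m * ww L κ β (kk H m) x

/-- **HULL.** The parts of the body with `q` close to `± 1` span it.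

Proof: `⊆` because `Bd` is convex (elementary).  `⊇`: let `p = (x, v, q, y) ∈ Bd`, `v' = v - H q`.
Since `m ≥ 1`, `|q| < 1`; choose `0 < e` with `|q| ≤ 1 - e` and `H e ≤ 1/10`.  For
`q' = 1 - e` and `q' = -(1 - e)` let `p(q') = (x, v' + H q', q', y')` with
`y'_i = y_i (1 + q') / (1 + q)` for `i < m`, `y'_i = y_i (1 - q') / (1 - q)` for `m ≤ i < 2m` and
`y'_{2m} = y_{2m}`.  All entries are affine in `q'` and `p(q) = p`, so `p` lies on the segment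
`[p(-(1-e)), p(1-e)]`; both points are in `Bd`.  `‖(x, v' + H (1-e)) - (L/2, H)‖² ≤
(L/2)² + (|v'| + H e)² ≤ L²/4 + (1.1)² < L²`, because `|v'| < 1/2 + β x ≤ 1`; the other point
similarly. -/
def S_HULL : Prop := ∀ (L κ β H : ℝ) (m : ℕ), 4 ≤ L → 0 < κ → κ * L < 1 → 0 ≤ β →
  β * L ≤ 1 / 2 → 1 ≤ H → 1 ≤ m →
  convexHull ℝ {p | p ∈ Bd L κ β H m ∧ (‖xc p - ⟨L / 2, H⟩‖ < L ∨ ‖xc p - ⟨L / 2, -H⟩‖ < L)} =
    Bd L κ β H m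

/-- **KER.** The kernels `kk H m` concentrate at `0`.

Proof: `int`: substitution `s = H q`.  `sub`: for `r, u ≥ 0` (after scaling by `H`)
`(1 - (r+u)²)₊ ≤ (1 - r²)₊ (1 - u²)₊`: if `r + u ≥ 1` the left side is `0`, otherwise
`(1 - r²)(1 - u²) = 1 - r² - u² + r² u² ≥ 1 - (r+u)²`; take `m`-th powers and
divide by `(H NN m)²`.  `big`: `k 0 = 1 / (H NN m)`, and `NN m → 0`
(dominated convergence, or `(1 - q²)^m ≤ exp (- m q²)`).  `conc`, `tail`: for `|s| ≥ δ' > 0`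
(`δ' = δ` resp. `1/2`) `k s ≤ (1 - (δ'/H)²)₊^m / (H NN m)`, and
`NN m ≥ (δ'/H) (1 - (δ'/(2H))²)^m` (the integrand is `≥ (1 - (δ'/(2H))²)^m` on `|q| ≤ δ'/(2H)`), so that
`k s ≤ ρ^m / δ'` with `ρ = (1 - (δ'/H)²)₊ / (1 - (δ'/(2H))²) < 1`; the support of `k` has length
`2 H`. -/
def S_KER : Prop := ∀ H K δ : ℝ, 1 ≤ H → 0 < K → 0 < δ → δ ≤ 1 / 2 →
  ∃ m₀ : ℕ, ∀ m : ℕ, m₀ ≤ m → 1 ≤ m → 0 < NN m ∧ Ker H K δ (kk H m)

/-! ## The weight -/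

/-- the mass per unit length -/
def rr (κ β x : ℝ) : ℝ := (1 - κ * x) * (1 + 2 * β * x)

/-- the mass of the strip `{re < t}` -/
def MM (κ β t : ℝ) : ℝ := ∫ x in (0 : ℝ)..t, rr κ β x

/-- the parameters -/
structure Par (L κ β : ℝ) : Prop where
  L4 : 4 ≤ L
  κ0 : 0 < κ
  κL : κ * L ≤ 1 / 4
  β0 : 0 < β
  βκ : 4 * β ≤ κ

/-- **W0.** Elementary properties of the weight.

Proof: `k` is continuous with support in `[-H, H]` (`pos`, `nonneg`), so integrable with integral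
`1`; on `0 < x < L` one has `1 - κ x ≥ 3/4`, `a = aa β x ≥ 1/2`.  `0 < w` iff `(v - a, v + a)` meets
`(-H, H)` iff `|v| < H + a`.  `w = (1 - κ x) (Φ (v + a) - Φ (v - a))` on the open set `0 < x < L`
with the `C¹` function `Φ t = ∫_0^t k`; derivatives by the chain rule. -/
def S_W0 : Prop := ∀ (L κ β H K δ : ℝ) (k : ℝ → ℝ), Par L κ β → 1 ≤ H → 0 < K → 0 < δ →
  Ker H K δ k →
  (∀ z, 0 ≤ ww L κ β k z) ∧ (∀ z, ww L κ β k z ≤ 1) ∧ {z | 0 < ww L κ β k z} = DD L β H ∧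
  IsOpen (DD L β H) ∧ ContDiffOn ℝ 1 (ww L κ β k) (DD L β H) ∧ Measurable (ww L κ β k) ∧
  Integrable (ww L κ β k) ∧
  (∀ z ∈ DD L β H,
    fderiv ℝ (ww L κ β k) z 1 = -κ * (∫ s in (z.im - aa β z.re)..(z.im + aa β z.re), k s) +
      (1 - κ * z.re) * (β * (k (z.im + aa β z.re) + k (z.im - aa β z.re))) ∧
    fderiv ℝ (ww L κ β k) z Complex.I =
      (1 - κ * z.re) * (k (z.im + aa β z.re) - k (z.im - aa β z.re)))

/-- **W1.** Masses, and the perimeter of a strip.  Prove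
`theorem w1 (w0 : S_W0) : S_W1`.

Proof: for fixed `0 < x < L`: `∫_v ∫_{v-a}^{v+a} k = 2 a = 1 + 2 β x` (Fubini), so
`∫_v w(x, v) dv = rr κ β x`; integrate in `x` (`MM` is the integral of `rr`, an interval integral;
`volume_preserving` identification of `ℂ` with `ℝ × ℝ`: `Complex.volume_preserving_equiv_real_prod`).
Perimeter of `{re < t}`: for a field `Y` (`C¹`, compact support in `DD`)
`∫_{re < t} dv2 Y = ∫_v (Y (t, v)).re dv` (Fubini, the fundamental theorem of calculus in `x`, and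
the `v`-derivative integrates to `0`) `≤ ∫_v w(t, v) dv = rr κ β t`. -/
def S_W1 : Prop := ∀ (L κ β H K δ : ℝ) (k : ℝ → ℝ), Par L κ β → 1 ≤ H → 0 < K → 0 < δ →
  Ker H K δ k →
  (∀ s t : ℝ, 0 ≤ s → s ≤ t → t ≤ L →
    mu (ww L κ β k) {z | s < z.re ∧ z.re < t} = MM κ β t - MM κ β s) ∧
  (∫ z, ww L κ β k z) = MM κ β L ∧
  (∀ t : ℝ, 0 < t → t < L → PW (ww L κ β k) {z | z.re < t} (rr κ β t))

/-- **W2.** The weight in the bulk and in the tail.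

Proof: write `W = ∫_{v-a}^{v+a} k`, `a = aa β x`.  (1) `(v-a, v+a) ⊇ [-δ, δ]`, and
`∫_{|s| ≤ δ} k ≥ 1 - δ`.  (2) by symmetry `v ≥ 0`; `(v - a, v + a) ⊇ (0, 1/2)` and
`∫_0^{1/2} k = (1 - ∫_{|s| ≥ 1/2} k)/2 ≥ (1 - δ)/2 ≥ 7/16`, `1 - κ x ≥ 3/4`.
(3) by symmetry `v ≥ 0`, `r = v - a ≥ 0`: by `sub` `k (r + u) k 0 ≤ k r k u`; integrate over
`u > 0`: `k 0 * ∫_r^∞ k ≤ k r / 2`, and `W ≤ ∫_r^∞ k`, `K ≤ k 0`.
(4) `k (r + 2a) k 0 ≤ k r k (2a)`, `2a ≥ 1`, `k (2a) ≤ δ ≤ 1/8`, `k 0 ≥ K ≥ 1`. -/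
def S_W2 : Prop := ∀ (L κ β H K δ : ℝ) (k : ℝ → ℝ), Par L κ β → 1 ≤ H → 1 ≤ K → 0 < δ →
  δ ≤ 1 / 8 → Ker H K δ k →
  (∀ z ∈ TT L β, |z.im| ≤ aa β z.re - δ → (1 - δ) * (1 - κ * z.re) ≤ ww L κ β k z) ∧
  (∀ z ∈ TT L β, 1 / 4 ≤ ww L κ β k z) ∧
  (∀ z : ℂ, aa β z.re ≤ |z.im| → 0 ≤ aa β z.re →
    2 * K * (∫ s in (z.im - aa β z.re)..(z.im + aa β z.re), k s) ≤ k (|z.im| - aa β z.re)) ∧
  (∀ z ∈ DD L β H, aa β z.re ≤ |z.im| → k (|z.im| + aa β z.re) ≤ k (|z.im| - aa β z.re) / 8)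

/-! ## Lines -/

/-- **C2a.** Variation along lines, with two factors.

Proof: ADAPT `Pool/Graph/R_seed8/TH742/HU/C2.lean` (the theorem `c2 : S_C2`), where the fields are
`(f, g) / √2`: replace the pair `(1/√2, 1/√2)` by `(α₁, α₂)`, whose norm is `≤ 1`. -/
def S_C2a : Prop := ∀ (w u : ℂ → ℝ) (A : Set ℂ) (P α₁ α₂ : ℝ), Continuous w → (∀ x, 0 ≤ w x) →
  Continuous u → HasCompactSupport u → tsupport u ⊆ {x | 0 < w x} → (∀ x, 0 ≤ u x) →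
  (∀ x, u x ≤ w x) → MeasurableSet A → PW w A P → 0 ≤ α₁ → 0 ≤ α₂ → α₁ ^ 2 + α₂ ^ 2 ≤ 1 →
  ENNReal.ofReal α₁ * (∫⁻ y : ℝ, ev (fun t => u ⟨t, y⟩) {t | (⟨t, y⟩ : ℂ) ∈ A}) +
    ENNReal.ofReal α₂ * (∫⁻ x : ℝ, ev (fun t => u ⟨x, t⟩) {t | (⟨x, t⟩ : ℂ) ∈ A}) ≤
      ENNReal.ofReal P

/-- `x` such that the vertical segment over `x` is (almost) in `A`. -/
def SS (L δ : ℝ) (A : Set ℂ) : Set ℝ :=
  {x | 2 * δ < x ∧ x < L - 2 * δ ∧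
    volume {y : ℝ | |y| < 1 / 2 - 2 * δ ∧ (⟨x, y⟩ : ℂ) ∉ A} = 0}

/-- `x` such that the vertical segment over `x` is (almost) outside `A`. -/
def NS (L δ : ℝ) (A : Set ℂ) : Set ℝ :=
  {x | 2 * δ < x ∧ x < L - 2 * δ ∧
    volume {y : ℝ | |y| < 1 / 2 - 2 * δ ∧ (⟨x, y⟩ : ℂ) ∈ A} = 0}

/-- **LINES.** Prove `theorem lines (c2a : S_C2a) (c3 : S_C3) : S_LINES` (`S_C3` is the proposition
of `Pool/Graph/R_seed8/TH703/HU/Stm.lean`, proved in `TH663/HU/C3.lean`).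
Consequences of `C2a`, `C3` for a weight `w ≥ (1 - δ) (1 - κ x)` on the rectangle.
(1) the measure `X` of the exceptional verticals; (2) if `S` and `N` meet `(a, b)` and every
horizontal line has at least one change in `(a, b)`; (3) two changes on disjoint intervals.

Proof: `d(z) = max 0 (min (min x (L - x)) (1/2 - δ - |v|))`,
`w₀ = (1 - δ)(1 - κ x) min 1 (2 d / δ)`, `u = (1 - δ)(1 - κ x) min 1 (max 0 (d - δ/2) * 2 / δ)`: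
continuous, compact support, `0 ≤ u ≤ w₀ ≤ w`, `tsupport u ⊆ {d ≥ δ/2} ⊆ {0 < w₀}`, and
`u = (1 - δ)(1 - κ x)` on `I × J`, `I = (2δ, L - 2δ)`, `J = (-(1/2 - 2δ), 1/2 - 2δ)`.  `PW w A P`
implies `PW w₀ A P` (every field for `w₀` is one for `w`).  Apply `C2a` to `w₀, u`.
(1) `α = (0, 1)`: for `x ∈ I \ (SS ∪ NS)` the vertical line has a change in `J`, so by `C3` (first
part) the `ev` is `≥ (1 - δ)(1 - κ x) ≥ (1 - δ)(1 - κ L)`.  Measurability of `SS, NS`: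
`measurable_measure_prodMk_left`.  (2) for a.e. `y ∈ J`, `volume ({t | (t, y) ∈ A} ∩ (a, b)) > 0`
because it contains a.e. point of `SS ∩ (a, b)` (Fubini), and the complement in `(a, b)` contains
a.e. point of `NS ∩ (a, b)`, so `C3` gives `ev ≥ (1 - δ)(1 - κ b)` for a.e. `y ∈ J`, `|J| = 1 - 4δ`;
for the second term use (1)'s argument.  (3) `α = (1, 0)` and the second part of `C3`. -/
def S_LINES : Prop := ∀ (L κ δ : ℝ) (w : ℂ → ℝ) (A : Set ℂ) (P : ℝ), 4 ≤ L → 0 < κ →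
  κ * L ≤ 1 / 4 → 0 < δ → δ ≤ 1 / 100 → (∀ z, 0 ≤ w z) → MeasurableSet A →
  (∀ z : ℂ, 0 < z.re → z.re < L → |z.im| ≤ 1 / 2 - δ → (1 - δ) * (1 - κ * z.re) ≤ w z) →
  PW w A P →
  MeasurableSet (SS L δ A) ∧ MeasurableSet (NS L δ A) ∧
  (1 - δ) * (1 - κ * L) * volume.real (Ioo (2 * δ) (L - 2 * δ) \ (SS L δ A ∪ NS L δ A)) ≤ P ∧
  (∀ a b : ℝ, 2 * δ ≤ a → a < b → b ≤ L - 2 * δ → 0 < volume (SS L δ A ∩ Ioo a b) →
    0 < volume (NS L δ A ∩ Ioo a b) → ∀ α₁ α₂ : ℝ, 0 ≤ α₁ → 0 ≤ α₂ → α₁ ^ 2 + α₂ ^ 2 ≤ 1 →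
    α₁ * ((1 - 4 * δ) * ((1 - δ) * (1 - κ * b))) + α₂ * ((1 - δ) * (1 - κ * L) *
      volume.real (Ioo (2 * δ) (L - 2 * δ) \ (SS L δ A ∪ NS L δ A))) ≤ P) ∧
  (∀ a b a' b' : ℝ, 2 * δ ≤ a → a < b → b ≤ a' → a' < b' → b' ≤ L - 2 * δ →
    0 < volume (SS L δ A ∩ Ioo a b) → 0 < volume (NS L δ A ∩ Ioo a b) →
    0 < volume (SS L δ A ∩ Ioo a' b') → 0 < volume (NS L δ A ∩ Ioo a' b') →
    2 * ((1 - 4 * δ) * ((1 - δ) * (1 - κ * L))) ≤ P)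

/-- **OUT.** The mass outside the rectangle.

Proof: `rr κ (κ²) x = (1 - κ x)(1 + 2 κ² x) ≤ 1`, so `∫ w = MM κ (κ²) L ≤ L`; the mass of the rectangle
is at least `(1 - κ²)(1 - κ L) (L - 4 κ²)(1 - 4 κ²) ≥ L - κ L² - κ² (4 + 5 L)`, and
`κ² (4 + 5 L) ≤ κ L²` since `κ ≤ 1/16`, `L ≥ 4`. -/
def S_OUT : Prop := ∀ (L κ : ℝ) (w : ℂ → ℝ), 4 ≤ L → 0 < κ → κ * L ≤ 1 / 4 → κ ≤ 1 / 16 →
  (∀ z, 0 ≤ w z) → (∀ z, w z ≤ 1) → Integrable w → (∫ z, w z) = MM κ (κ ^ 2) L →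
  (∀ z : ℂ, 0 < z.re → z.re < L → |z.im| ≤ 1 / 2 - κ ^ 2 →
    (1 - κ ^ 2) * (1 - κ * z.re) ≤ w z) →
  mu w {z : ℂ | 2 * κ ^ 2 < z.re ∧ z.re < L - 2 * κ ^ 2 ∧ |z.im| < 1 / 2 - 2 * κ ^ 2}ᶜ ≤ 2 * κ * L ^ 2

/-- **ORD.** Two sets on a line are ordered, or can be separated into two pairs.

Proof: let `n₋ = inf {c | 0 < volume (N ∩ Ioo a c)}`, `s₋` similarly for `S`; by symmetry
`s₋ ≤ n₋`.  `N ∩ Ioo a n₋` is null.  If `S ∩ Ioo n₋ b` is null take `c = n₋` (first alternative).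
Otherwise there is `c' > n₋` with `0 < volume (S ∩ Ioo c' b)` (continuity from below), and
`0 < volume (N ∩ Ioo n₋ c')`; choose `c ∈ (n₋, c')` with `0 < volume (N ∩ Ioo n₋ c)` and
`0 < volume (N ∩ Ioo c c')` (continuity of the measure in `c`); then `S` has positive measure in
`Ioo a c` (as `s₋ ≤ n₋ < c`) and in `Ioo c b`, and so has `N`: third alternative. -/
def S_ORD : Prop := ∀ (S N : Set ℝ) (a b : ℝ), a < b → MeasurableSet S → MeasurableSet N →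
  0 < volume (S ∩ Ioo a b) → 0 < volume (N ∩ Ioo a b) →
  (∃ c : ℝ, a ≤ c ∧ c ≤ b ∧ volume (N ∩ Ioo a c) = 0 ∧ volume (S ∩ Ioo c b) = 0 ∧
    ∀ e : ℝ, c < e → e < b → 0 < volume (N ∩ Ioo c e)) ∨
  (∃ c : ℝ, a ≤ c ∧ c ≤ b ∧ volume (S ∩ Ioo a c) = 0 ∧ volume (N ∩ Ioo c b) = 0 ∧
    ∀ e : ℝ, c < e → e < b → 0 < volume (S ∩ Ioo c e)) ∨
  (∃ c : ℝ, a < c ∧ c < b ∧ 0 < volume (S ∩ Ioo a c) ∧ 0 < volume (N ∩ Ioo a c) ∧
    0 < volume (S ∩ Ioo c b) ∧ 0 < volume (N ∩ Ioo c b))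

/-- **STEP1.** Minimizers are close to the strip `{re < t}` in the bulk.  Prove
`theorem step1 (lines : S_LINES) (out : S_OUT) (ord : S_ORD) : S_STEP1`.

Proof (`C` denotes constants depending on `L, t, Λ`; `κ` small; `δ = κ²`; `X` is the set of the
`x ∈ (2δ, L-2δ)` outside `S = SS L δ A` and `N = NS L δ A`; `v = MM κ κ² t`;
`P = rr κ κ² t + Λ (mu w A - v)`).
* `P ≤ rr κ κ² t ≤ 1 - κ t + 2 κ² t ≤ 1`, and `0 ≤ P` (the zero field), so `mu w A ≥ v - 1/Λ`;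
  `t - κ t²/2 ≤ v ≤ t`; the mass `m` outside the rectangle is `≤ 2 κ L²` (`OUT`).
* LINES (1): `(1-δ)(1-κL)|X| ≤ 1`, so `|X| ≤ 7/5`.  Since the part of `A` over `N` inside the
  rectangle is null, `mu w A ≤ |S| + |X| + m`, so `|S| ≥ v - 1/Λ - 7/5 - m > 0` because
  `v ≥ t - C κ`, `1/Λ ≤ (t - L/2)/4`, `t > L/2 ≥ 2`.  The mass of the complement of `A` is
  `MM κ κ² L - mu w A ≥ MM κ κ² L - v ≥ (L - t)(1 - κ L) ≥ 2 (1 - κ L)` and is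
  `≤ |N| + |X| + m`, so `|N| > 0`.
* LINES (2) with `(a, b) = (2δ, L-2δ)`, `α₂ = √κ`, `α₁ = √(1-κ) ≥ 1 - κ`: `√κ |X| / 2 ≤ C κ`, so
  `|X| ≤ C √κ`.
* `ORD` for `S, N` on `(2δ, L-2δ)`; the third alternative is impossible by LINES (3):
  `2 (1-4δ)(1-δ)(1-κL) > 1 ≥ P`.
* Second alternative (`N` left of `c`, `S` right of `c`): LINES (2) with `(a, b) = (2δ, e)`,
  `e ↓ c`, `α = (1, 0)` (note `0 < volume (N ∩ (2δ, e))` since `N ∩ (c, ..)` is null and `|N| > 0`):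
  `(1-4δ)(1-δ)(1-κc) ≤ P = rr κ κ² t - Λ (v - mu w A)`, so
  `Λ (v - mu w A) ≤ κ (c - t) + C κ²`.  Moreover `mu w A ≤ (L - c) + |X| + m ≤ L - c + C √κ`
  and the previous inequality with `c ≤ L` gives `mu w A ≥ v - C κ ≥ t - C κ`, so
  `c ≤ L - t + C √κ`, `c - t ≤ L - 2 t + C √κ < 0`, hence
  `Λ (v - mu w A) ≤ -κ (2 t - L)/2 < 0`: contradiction with `mu w A ≤ v`.
* First alternative (`S` left of `c`, `N` right of `c`): `|S| ≥ c - 2δ - |X| ≥ c - C √κ` and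
  `mu w A ≥ (1-δ)(1-κL)(1-4δ)|S| ` with `mu w A ≤ v ≤ t` give `c ≤ t + C √κ`.  Then the part of `A`
  over `{re > c}` has mass `≤ |X| + m ≤ C √κ`. -/
def S_STEP1 : Prop := ∀ L t Λ : ℝ, 4 ≤ L → L / 2 < t → t ≤ L - 2 → 4 ≤ Λ * (t - L / 2) →
  ∃ κ₀ C₀ : ℝ, 0 < κ₀ ∧ 0 < C₀ ∧ ∀ κ : ℝ, 0 < κ → κ ≤ κ₀ → ∀ (w : ℂ → ℝ) (A : Set ℂ),
  (∀ z, 0 ≤ w z) → (∀ z, w z ≤ 1) → Integrable w → (∫ z, w z) = MM κ (κ ^ 2) L →
  (∀ z : ℂ, 0 < z.re → z.re < L → |z.im| ≤ 1 / 2 - κ ^ 2 →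
    (1 - κ ^ 2) * (1 - κ * z.re) ≤ w z) →
  MeasurableSet A → mu w A ≤ MM κ (κ ^ 2) t →
  PW w A (rr κ (κ ^ 2) t + Λ * (mu w A - MM κ (κ ^ 2) t)) →
  mu w (A ∩ {z | t + C₀ * √κ < z.re}) ≤ C₀ * √κ

/-! ## The tail -/

/-- the slope of the cut in the tail (`σ = 2τ/(1+τ²)`, `c = (1-τ²)/(1+τ²)`, `τ = β/4`) -/
def sg (β : ℝ) : ℝ := 2 * (β / 4) / (1 + (β / 4) ^ 2)

def cg (β : ℝ) : ℝ := (1 - (β / 4) ^ 2) / (1 + (β / 4) ^ 2)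

/-- `x + c₂ (|v| - a(x))` with `c₂ = σ / (c + β σ)` -/
def hh (β : ℝ) (z : ℂ) : ℝ := z.re + sg β / (cg β + β * sg β) * (|z.im| - aa β z.re)

/-- the part of the tail beyond the cut -/
def UT (L β H s : ℝ) : Set ℂ := {z | z ∈ DD L β H ∧ aa β z.re ≤ |z.im| ∧ s < hh β z}

/-- the part of the bulk beyond the cut -/
def UB (L β s : ℝ) : Set ℂ := {z | z ∈ TT L β ∧ s < z.re}

/-- `η = c β - σ > 0` -/
def et (β : ℝ) : ℝ := cg β * β - sg β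

/-- the sign of `v` -/
def sgn (v : ℝ) : ℝ := if 0 ≤ v then 1 else -1

/-- `0` in the bulk, `1` in the tail at height `≥ δ` above the bulk -/
def lm (β δ : ℝ) (z : ℂ) : ℝ := Real.smoothTransition ((|z.im| - aa β z.re) / δ)

/-- `1` for `x ≤ L - 1/2`, `0` for `x ≥ L - 1/4` -/
def nu (L : ℝ) (z : ℂ) : ℝ := Real.smoothTransition (4 * (L - z.re) - 1)

/-- the calibrating direction in the bulk -/
def NB (L β : ℝ) (z : ℂ) : ℂ :=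
  ⟨-(nu L z * (et β / β)), (1 - nu L z) * (et β * (z.im / aa β z.re))⟩

/-- the calibrating direction in the tail -/
def NT (L β : ℝ) (z : ℂ) : ℂ :=
  ⟨-(nu L z * cg β), sgn z.im * ((1 - nu L z) * et β - nu L z * sg β)⟩

/-- the calibrating direction -/
def NF (L β δ : ℝ) (z : ℂ) : ℂ := (1 - lm β δ z) • NB L β z + lm β δ z • NT L β z

/-- a cutoff near the boundary of `DD` -/
def ch (L β H ρ : ℝ) (z : ℂ) : ℝ :=
  Real.smoothTransition (z.re / ρ - 1) * Real.smoothTransition ((L - z.re) / ρ - 1) *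
    Real.smoothTransition ((H + aa β z.re - |z.im|) / ρ - 1)

/-- the calibrating field `χ w N` -/
def XF (L κ β H : ℝ) (k : ℝ → ℝ) (δ ρ : ℝ) (z : ℂ) : ℂ :=
  (ch L β H ρ z * ww L κ β k z) • NF L β δ z

/-- a smoothed version of `hh` -/
def hd (β δ : ℝ) (z : ℂ) : ℝ :=
  z.re + sg β / (cg β + β * sg β) * ((|z.im| - aa β z.re) *
    Real.smoothTransition ((|z.im| - aa β z.re) / δ))

/-- the cutoff: `1` on `{hd ≤ s}`, `0` on `{hd ≥ s + η}` -/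
def ze (β s η δ : ℝ) (z : ℂ) : ℝ := 1 - Real.smoothTransition ((hd β δ z - s) / η)

/-- the competing field -/
def ZF (L κ β H : ℝ) (k : ℝ → ℝ) (s η δ ρ : ℝ) (Y₁ Y : ℂ → ℂ) (z : ℂ) : ℂ :=
  ze β s η δ z • Y₁ z + (1 - ze β s η δ z) • (Y z - XF L κ β H k δ ρ z)

/-- the test fields in the bulk -/
structure TB (L β : ℝ) (Y : ℂ → ℂ) : Prop where
  cd : ContDiff ℝ 1 Y
  cs : HasCompactSupport Y
  sub : tsupport Y ⊆ TT L β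
  le : ∀ z, ‖Y z‖ ≤ 1 / 16

/-- **CALA.** The calibrating field is a field, and the combined field is an admissible field.
Prove `theorem cala (w0 : S_W0) (w2 : S_W2) : S_CALA`.

Proof: notation `τ = β/4`, `σ = sg β`, `c = cg β`, `σ² + c² = 1`, `et β = β (1/2 - τ²)/(1 + τ²)`, so
`0 < et β ≤ β/2`, `et β / β ≤ 1/2`.  All functions `lm, nu, ch, sgn · (..), hd, ze` are smooth near
the points of `DD` with `|v|` instead of `v`: near the points with `|v| < a` one has `lm = 0`,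
`hd = x` and `ch` does not involve the third factor (it is `1` since `H + a - |v| ≥ H ≥ 1 ≥ 2ρ`);
near the other points `v ≠ 0` and `|v|`, `sgn v` are smooth; `a = aa β x ≥ 1/2` on `DD`.
`Real.smoothTransition` is smooth with values in `[0, 1]`.
The support of `ch` in `DD` is in the compact set `{ρ ≤ x ≤ L - ρ, |v| ≤ H + a - ρ} ⊆ DD`, and
`w = ww L κ β k` is `C¹` on `DD` (`W0`), so `XF` is `C¹` with compact support in `DD = {0 < w}`.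
Norms: `‖NB‖² ≤ (1/2)² + (et β · |v|/a)²`, `‖NT‖ ≤ 1` (convex combination of vectors of norm `1` and
`et β`), so `‖NF‖ ≤ 1` where `|v| ≤ a + δ` (`|v|/a ≤ 3/2`), and beyond `NF = NT`; in `TT`
`NF = NB` has norm `≤ 3/4`.  Combined field: convex combination; in `TT`
`‖Y - XF‖ ≤ 1/16 + (3/4) w ≤ w` because `w ≥ 1/4` there (`W2`), outside `TT` `Y = 0`. -/
def S_CALA : Prop := ∀ (L κ β H K δ₀ : ℝ) (k : ℝ → ℝ), Par L κ β → β ≤ 1 / 8 → 1 ≤ H → 1 ≤ K →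
  0 < δ₀ → δ₀ ≤ 1 / 8 → Ker H K δ₀ k → ∀ δ ρ : ℝ, 0 < δ → δ ≤ 1 / 4 → 0 < ρ → ρ ≤ 1 / 8 →
  TW (ww L κ β k) (XF L κ β H k δ ρ) ∧ (∀ z ∈ TT L β, ‖XF L κ β H k δ ρ z‖ ≤ 3 / 4 * ww L κ β k z) ∧
  ∀ s η : ℝ, 0 < η → (∀ z ∈ DD L β H, ContDiffAt ℝ 1 (ze β s η δ) z) ∧
    ∀ Y₁ Y : ℂ → ℂ, TW (ww L κ β k) Y₁ → TB L β Y →
      TW (ww L κ β k) (ZF L κ β H k s η δ ρ Y₁ Y)

/-- **CALB.** The divergence of the calibrating field.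
Prove `theorem calb (w0 : S_W0) (w2 : S_W2) (cala : S_CALA) : S_CALB`.

Proof: let `B₀` be a bound of the (nonnegative) derivative `st'` of `st = Real.smoothTransition`,
`W = ∫_{v-a}^{v+a} k`, `w = (1 - κ x) W`, `w_x = -κ W + (1-κx) β (k(v+a) + k(v-a)) ≥ -κ W`,
`w_v = (1-κx)(k(v+a) - k(v-a))`, so `v w_v ≤ 0`; `θ = et β / β ≤ 1/2`, `β θ = et β = c β - σ`.
`div (χ w N) = χ (∇w · N + w div N) + w ∇χ · N`.
* `w ∇χ · N ≤ 0`: `∇χ = (st'/ρ)(χ₂χ₃) (1, 0) - (st'/ρ)(χ₁χ₃)(1, 0) + (st'/ρ)(χ₁χ₂)(β, -sgn v)`;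
  the `x`-component of `N` is `≤ 0`; the second term lives on `x > L - 2ρ ≥ L - 1/4` where `nu = 0` and
  the `x`-component of `N` vanishes; `(β, -sgn v) · NT = -ν c β - (1-ν) et + ν σ = -et β < 0`, and
  `(β, -sgn v) · NB = -ν et - (1-ν) et |v|/a ≤ 0`.
* `div N = (1-λ) div NB + λ div NT + ∇λ · (NT - NB)`, `div NB = -ν_x θ + (1-ν) et/a`,
  `div NT = -ν_x c`, `0 ≤ -ν_x ≤ 4 B₀`, and (where `∇λ ≠ 0`, `|v| > a`) `∇λ = (st'/δ)(-β, sgn v)`,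
  `∇λ · (NT - NB) = (st'/δ)(ν (β c - β θ - σ) + (1-ν) et (1 - |v|/a)) ≤ 0`.
  So `div N ≤ 4 B₀ + 1`.
* `∇w · NB ≤ θ κ W ≤ κ W`;  for `|v| ≥ a`, `r = |v| - a`:
  `∇w · NT ≤ κ W - ν (1-κx)((cβ-σ) k(r) + (cβ+σ) k(r+2a)) - (1-ν) et (1-κx)(k(r) - k(r+2a))
  ≤ κ W - (3/4)(7/8) et k(r) ≤ κ W - (21/16) et K W` by `W2` (3), (4).
Since `W ≤ (4/3) w` and `κ ≤ 1`, the first claim holds with `B = 4 B₀ + 3`; for `λ = 1` (tail at
height `≥ δ`) `div (w N) ≤ W (κ + 4 B₀ - (21/16) et K) ≤ -(Λ+1) W ≤ -(Λ+1) w` for `K ≥ K₁` (note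
`w div N ≤ 4 B₀ W`), and `div (χ w N) ≤ χ div (w N)`.
At the points with `|v| = a` or `|v| = a + δ` use that all derivatives of `st` vanish at `0, 1`. -/
def S_CALB : Prop := ∃ B : ℝ, 1 ≤ B ∧ ∀ L κ β H Λ : ℝ, Par L κ β → β ≤ 1 / 8 → 1 ≤ H → 0 < Λ →
  ∃ K₁ : ℝ, 1 ≤ K₁ ∧ ∀ (K δ₀ : ℝ) (k : ℝ → ℝ), K₁ ≤ K → 0 < δ₀ → δ₀ ≤ 1 / 8 → Ker H K δ₀ k →
  ∀ δ ρ : ℝ, 0 < δ → δ ≤ 1 / 4 → 0 < ρ → ρ ≤ 1 / 8 → ∀ z ∈ DD L β H,
    dv2 (XF L κ β H k δ ρ) z ≤ B * ww L κ β k z ∧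
    (aa β z.re + δ ≤ |z.im| →
      dv2 (XF L κ β H k δ ρ) z ≤ -((Λ + 1) * (ch L β H ρ z * ww L κ β k z)))

/-- **CALC.** The divergence of the combined field.
Prove `theorem calc (w0 : S_W0) (w2 : S_W2) (cala : S_CALA) : S_CALC`.

Proof: `div Z = ζ div Y₁ + (1-ζ)(div Y - div X) + ∇ζ · (Y₁ - Y + X)`, `X = XF`, `ζ = ze`,
`∇ζ = -(st'((hd-s)/η)/η) ∇hd`.  Three cases.
(i) `z ∈ TT`: `hd = x` near `z`, `∇ζ = 0` unless `s < x < s + η` (`st' = 0` outside `(0, 1)`), and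
`‖Y₁ - Y + X‖ ≤ w + 1/16 + (3/4) w ≤ 2 w` (`w ≥ 1/4`), `‖∇ζ‖ ≤ B₀ / η`.
(ii) `a ≤ |v| ≤ a + δ`: `Y = 0`, `‖Y₁ + X‖ ≤ 2 w`, `‖∇hd‖ ≤ C` (the derivative of `r st(r/δ)` is
`st(r/δ) + (r/δ) st'(r/δ) ∈ [0, 1 + B₀]`), and `∇ζ ≠ 0` only if `s < hd < s + η`, where
`x ≤ hd ≤ x + δ` (`c₂ = σ/(c+βσ) ≤ 1`), so `s - δ < x < s + η`.
(iii) `|v| > a + δ`: `hd = hh` near `z`, `Y = 0`, `∇hh = (c, sgn v σ)/(c + βσ)`.  If
`s < hh < s + η` then `x ≤ hh < L - 1/2`, so `ν = 1` and `NF = NT = (-c, -sgn v σ)`, `∇hh · NT = -‖∇hh‖`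
(`c² + σ² = 1`), so `∇ζ · X = χ w ‖∇ζ‖`, `∇ζ · Y₁ ≥ -‖∇ζ‖ w`; the sum is
`≥ -‖∇ζ‖ w (1 - χ) ≥ -(B/η) w (1 - χ)`.
The indicator terms and `1 - ch` are nonnegative, so a weaker bound in each case suffices. -/
def S_CALC : Prop := ∃ B : ℝ, 1 ≤ B ∧ ∀ (L κ β H K δ₀ : ℝ) (k : ℝ → ℝ), Par L κ β → β ≤ 1 / 8 →
  1 ≤ H → 1 ≤ K → 0 < δ₀ → δ₀ ≤ 1 / 8 → Ker H K δ₀ k →
  ∀ s η δ ρ : ℝ, 0 < s → s < L - 1 → 0 < η → η ≤ 1 / 2 → 0 < δ → δ ≤ 1 / 4 → 0 < ρ → ρ ≤ 1 / 8 →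
  ∀ Y₁ Y : ℂ → ℂ, TW (ww L κ β k) Y₁ → TB L β Y → ∀ z ∈ DD L β H,
    ze β s η δ z * dv2 Y₁ z + (1 - ze β s η δ z) * (dv2 Y z - dv2 (XF L κ β H k δ ρ) z) -
      B / η * (ww L κ β k z * ({z | z ∈ TT L β ∧ s < z.re ∧ z.re < s + η}.indicator 1 z +
        {z | aa β z.re ≤ |z.im| ∧ |z.im| ≤ aa β z.re + δ ∧ s - δ < z.re ∧
          z.re < s + η}.indicator 1 z + (1 - ch L β H ρ z))) ≤
      dv2 (ZF L κ β H k s η δ ρ Y₁ Y) z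

/-- **CUTR.** The limit `ρ → 0` in the test with the combined field.
Prove `theorem cutr (w0 : S_W0) (cala : S_CALA) (calb : S_CALB) (calc : S_CALC) : S_CUTR`.

Proof: the field `ZF` is admissible (`CALA`), so `∫_A div ZF ≤ C`.  Outside `DD` all fields vanish in
a neighbourhood, so all divergences are `0` there; `CALC` and `CALB` (with `1 - ζ ≥ 0`) give
`C ≥ ∫_A ζ div Y₁ + ∫_A (1-ζ) div Y - B ∫_{A, |v| < a+δ} (1-ζ) w +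
(Λ+1) ∫_{A, |v| ≥ a+δ} (1-ζ) χ_ρ w - (B/η)(mu (A ∩ ..) + mu (layer) + ∫_{DD} (1 - χ_ρ) w)`.
As `ρ ↓ 0` (`ρ = 1/(n+8)`) `χ_ρ → 1` pointwise on `DD`; dominated convergence (`w` integrable).
`B` is the maximum of the constants of `CALB`, `CALC`.  Here `mu (A ∩ ..) = mu (A ∩ (UB ∩ {re < s+η}))`
as `{z ∈ TT, s < re} = UB L β s`.  Integrability of the terms: `div Y₁`, `div Y` are continuous
with compact support, `ζ` is measurable and bounded. -/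
def S_CUTR : Prop := ∃ B : ℝ, 1 ≤ B ∧ ∀ L κ β H Λ : ℝ, Par L κ β → β ≤ 1 / 8 → 1 ≤ H → 0 < Λ →
  ∃ K₁ : ℝ, 1 ≤ K₁ ∧ ∀ (K δ₀ : ℝ) (k : ℝ → ℝ), K₁ ≤ K → 0 < δ₀ → δ₀ ≤ 1 / 8 → Ker H K δ₀ k →
  ∀ (A : Set ℂ) (C : ℝ), MeasurableSet A → PW (ww L κ β k) A C →
  ∀ s η δ : ℝ, 0 < s → s < L - 1 → 0 < η → η ≤ 1 / 2 → 0 < δ → δ ≤ 1 / 4 →
  ∀ Y₁ Y : ℂ → ℂ, TW (ww L κ β k) Y₁ → TB L β Y →
  (∫ z in A, ze β s η δ z * dv2 Y₁ z) + (∫ z in A, (1 - ze β s η δ z) * dv2 Y z) +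
    (Λ + 1) * (∫ z in A ∩ {z | aa β z.re + δ ≤ |z.im|}, (1 - ze β s η δ z) * ww L κ β k z) -
    B * (∫ z in A ∩ {z | |z.im| < aa β z.re + δ}, (1 - ze β s η δ z) * ww L κ β k z) -
    B / η * (mu (ww L κ β k) (A ∩ (UB L β s ∩ {z | z.re < s + η})) +
      mu (ww L κ β k) {z | aa β z.re ≤ |z.im| ∧ |z.im| ≤ aa β z.re + δ ∧ s - δ < z.re ∧
        z.re < s + η}) ≤ C

/-- **CUT.** Cutting a set of finite perimeter along `{x = s}` in the bulk and `{hh = s}` in the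
tail.  Prove `theorem cut (w0 : S_W0) (cutr : S_CUTR) : S_CUT`.

Proof: let `Y₁` be a field for the weight; we must bound `∫_{A \ U} div Y₁`, `U = UB ∪ UT`.
Apply `CUTR` with `η = η_n ↓ 0` and `δ = η²`.  Pointwise limits (dominated convergence):
`ζ → 1` and `1 - ζ → 0` on `DD \ U` and `ζ → 0` on `U`, except on the null sets `{|v| = a}`
(for `z ∈ TT` `hd = x`; for `|v| > a` eventually `δ < |v| - a` and `hd = hh`; `ζ = 1` if `hd ≤ s`,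
`ζ = 0` if `hd ≥ s + η`).
So the first integral tends to `∫_{A \ U} div Y₁` (`div Y₁ = 0` outside `DD`), the second to
`∫_{A ∩ UB} div Y` (`div Y = 0` outside `TT`), the third to `mu (A ∩ UT)` (`w = 0` outside `DD`), the
fourth to `mu (A ∩ UB)`, the fifth term is `≤ B (d + e)` by the growth hypothesis, and the layer has
area `≤ 2 δ (η + δ)`, `w ≤ 1`, so its term is `≤ (B/η) 2 η² (η + η²) → 0`.  Finally `e ↓ 0`. -/
def S_CUT : Prop := ∃ B : ℝ, 1 ≤ B ∧ ∀ L κ β H Λ : ℝ, Par L κ β → β ≤ 1 / 8 → 1 ≤ H → 0 < Λ →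
  ∃ K₁ : ℝ, 1 ≤ K₁ ∧ ∀ (K δ : ℝ) (k : ℝ → ℝ), K₁ ≤ K → 0 < δ → δ ≤ 1 / 8 → Ker H K δ k →
  ∀ (A : Set ℂ) (C : ℝ), MeasurableSet A → PW (ww L κ β k) A C → ∀ s d : ℝ, 0 < s → s < L - 1 →
  (∀ e : ℝ, 0 < e → ∃ η₀ : ℝ, 0 < η₀ ∧ ∀ η : ℝ, 0 < η → η < η₀ →
    mu (ww L κ β k) (A ∩ (UB L β s ∩ {z | z.re < s + η})) ≤ (d + e) * η) →
  ∀ Y : ℂ → ℂ, TB L β Y →
  PW (ww L κ β k) (A \ (UB L β s ∪ UT L β H s))
    (C - (∫ z in A ∩ UB L β s, dv2 Y z) - (Λ + 1) * mu (ww L κ β k) (A ∩ UT L β H s) +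
      B * mu (ww L κ β k) (A ∩ UB L β s) + B * d)

/-- **STAR.** The main inequality: cutting a minimizer along `{x = s}` in the bulk and along the
lines `hh = s` in the tail, with a calibration in the tail.
Prove `theorem star (w0 : S_W0) (cut : S_CUT) : S_STAR`.

Proof: `PW w A C` holds for some `C` (`MinW` with the competitor `∅`, `PW w ∅ 0`), and every such
`C` is `≥ 0` (zero field); let `C₀` be the infimum of these `C`; `PW w A C₀`.  By `CUT`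
`PW w (A \ U) (C₀ + R)`, `R = -∫_{A ∩ UB} div Y - (Λ+1) mu (A ∩ UT) + B mu (A ∩ UB) + B d`, and
`mu (A \ U) ≤ mu A ≤ v`, so by minimality `PW w A (C₀ + R + Λ (mu A - mu (A \ U)))`, hence
`0 ≤ R + Λ mu (A ∩ U)`, and `mu (A ∩ U) = mu (A ∩ UB) + mu (A ∩ UT)` (disjoint). -/
def S_STAR : Prop := ∃ B : ℝ, 1 ≤ B ∧ ∀ L κ β H Λ : ℝ, Par L κ β → β ≤ 1 / 8 → 1 ≤ H → 0 < Λ →
  ∃ K₁ : ℝ, 1 ≤ K₁ ∧ ∀ (K δ : ℝ) (k : ℝ → ℝ), K₁ ≤ K → 0 < δ → δ ≤ 1 / 8 → Ker H K δ k →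
  ∀ (v : ℝ) (A : Set ℂ), MinW (ww L κ β k) Λ v A → ∀ s d : ℝ, 0 < s → s < L - 1 →
  (∀ e : ℝ, 0 < e → ∃ η₀ : ℝ, 0 < η₀ ∧ ∀ η : ℝ, 0 < η → η < η₀ →
    mu (ww L κ β k) (A ∩ (UB L β s ∩ {z | z.re < s + η})) ≤ (d + e) * η) →
  ∀ Y : ℂ → ℂ, TB L β Y →
  (∫ z in A ∩ UB L β s, dv2 Y z) + mu (ww L κ β k) (A ∩ UT L β H s) ≤
    B * d + (Λ + B) * mu (ww L κ β k) (A ∩ UB L β s)

/-- **ISO.** Relative isoperimetric inequality in the bulk.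

Proof: `TT L β` is open, convex (a trapezoid), bounded, with distances `≤ L + 2`, and contains
`ball (L/2) (1/2)`.  Apply the library lemma `Pool.Agent.TH993.HU.basic`
(`Pool/Graph/R_seed8/TH993/HU/B6.lean`; in the namespace given there; `E = ℂ`, `finrank = 2`,
`D = L + 2`, `r0 = 1/2`) with `ρ = D √(8 g / π)`, `g = volume.real G ≤ 1/4` (so `ρ ≤ D`):
`(ρ²/D² · π/4 - g) g ≤ π ρ³ P`, i.e. `g² ≤ π D³ (8 g / π)^(3/2) P`, `√g ≤ 8^(3/2)/√π · D³ P ≤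
13 D³ P`.  The hypothesis on the fields is `Cone.PLE (TT L β) G P` for `E = ℂ` (`Cone.dv = dv2`: trace of
a real linear map of `ℂ` in the basis `1, I`). -/
def S_ISO : Prop := ∀ (L β : ℝ), 4 ≤ L → 0 < β → β * L ≤ 1 / 2 → ∀ (G : Set ℂ) (P : ℝ),
  MeasurableSet G → G ⊆ TT L β → volume.real G ≤ 1 / 4 → 0 ≤ P →
  (∀ Y : ℂ → ℂ, ContDiff ℝ 1 Y → HasCompactSupport Y → tsupport Y ⊆ TT L β →
    (∀ z, ‖Y z‖ ≤ 1) → ∫ z in G, dv2 Y z ≤ P) →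
  √(volume.real G) ≤ 13 * (L + 2) ^ 3 * P

/-- **EXT.** Extinction.  Prove
`theorem ext (w0 : S_W0) (w1 : S_W1) (w2 : S_W2) (star : S_STAR) (iso : S_ISO)
(c10 : Pool.Agent.TH703.HU.S_C10) : S_EXT`.

Proof: `B` the constant of `STAR` (universal).  `g τ = mu (A ∩ UB (-τ))` on
`[r, R] = [-(t + 1/2), -(t + 1/4)]`: monotone, nonnegative, and Lipschitz with constant `1`, since by
`W1` `mu {s ≤ re ≤ s'} = MM s' - MM s ≤ s' - s` (`rr ≤ 1` by `4β ≤ κ`).  Let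
`τ ∈ (r, R)` with `HasDerivAt g d τ`, `s = -τ ∈ (0, L - 1)`.  The growth hypothesis of `STAR` holds:
`mu (A ∩ (UB s ∩ {re < s + η'})) = g τ - g (τ - η') ≤ (d + e) η'` for small `η' > 0`.  Since
`mu (A ∩ UT) ≥ 0`, for all `C¹` fields `Y` with compact support in `TT`, `‖Y‖ ≤ 1/16`:
`∫_{A ∩ UB s} div Y ≤ B d + (Λ + B) g τ`; by homogeneity `≤ 16 (..)` for `‖Y‖ ≤ 1`.  Let
`G = A ∩ UB s`; `g τ ≤ volume G ≤ 4 g τ ≤ 4 η ≤ 1/4` (`1/4 ≤ w ≤ 1` on `TT`), so `ISO` gives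
`√(g τ) ≤ 13 (L+2)³ 16 (B d + (Λ+B) g τ)`, i.e. `c (g τ)^(1/2) ≤ 2 d + Λ' g τ` with
`c = 1/(104 (L+2)³ B)`, `Λ' = 2 (Λ + B)/B`.  `S_C10` with `θ = 1/2` gives `g r = 0` if
`g R ≤ η`, `η` small in terms of `c, Λ'` (`Λ' √η ≤ c/2`, `√η < c/32`, `η ≤ 1/16`).
Now `STAR` with `s = t + 1/2`, `d = 0`, `Y = 0` (growth: the sets have mass `0`) gives
`mu (A ∩ UT (t + 1/2)) ≤ 0`. -/
def S_EXT : Prop := ∀ L t Λ : ℝ, 4 ≤ L → 0 < t → t ≤ L - 2 → 0 < Λ → ∃ η : ℝ, 0 < η ∧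
  ∀ κ β H : ℝ, Par L κ β → β ≤ 1 / 8 → 1 ≤ H → ∃ K₁ : ℝ, 1 ≤ K₁ ∧
  ∀ (K δ : ℝ) (k : ℝ → ℝ), K₁ ≤ K → 0 < δ → δ ≤ 1 / 8 → Ker H K δ k →
  ∀ (v : ℝ) (A : Set ℂ), MinW (ww L κ β k) Λ v A →
  mu (ww L κ β k) (A ∩ UB L β (t + 1 / 4)) ≤ η →
  mu (ww L κ β k) (A ∩ UB L β (t + 1 / 2)) = 0 ∧
    mu (ww L κ β k) (A ∩ UT L β H (t + 1 / 2)) = 0

/-- **PLANE.** The planar theorem.  Prove
`theorem plane (w0 : S_W0) (w1 : S_W1) (w2 : S_W2) (step1 : S_STEP1) (ext : S_EXT) : S_PLANE`.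

Proof: take `κ₀ ≤` the constant of `STEP1`, `κ₀ ≤ 1/(4L)`, `κ₀ ≤ 1/16`, `C₀ √κ₀ ≤ 1/4`, `C₀ √κ₀ ≤ η`
(`η` of `EXT`, which depends only on `L, t, Λ`).  Let `β = δ = κ²`, `H = 8 L / κ²`, `K = K₁` of `EXT`.
`STEP1` applies to `w = ww L κ β k` (`W0`, `W1`, `W2` (1): for `|v| ≤ 1/2 - δ` also `|v| ≤ a - δ`),
and the last hypothesis is minimality with the competitor `{re < t}` of mass `MM κ β t` and perimeter
`≤ rr κ β t` (`W1`).  So `mu (A ∩ UB (t + 1/4)) ≤ mu (A ∩ {t + C₀ √κ < re}) ≤ η` and `EXT` gives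
`mu (A ∩ UT (t + 1/2)) = 0`, hence `volume (A ∩ UT (t + 1/2)) = 0` (`w > 0` on `DD`).  The two balls
within `DD` are in `UT (t + 1/2)`: there `|v| ≥ H - 2L ≥ a`, and with
`c₂ = σ/(c + βσ) ≥ (2/5) β` (`σ = (β/2)/(1+β²/16)`, `c + βσ ≤ 1 + β²`),
`hh ≥ c₂ (H - 2L - 1) ≥ (2/5)(8 L - β (2L + 1)) > L > t + 1/2`. -/
def S_PLANE : Prop := ∀ L t Λ : ℝ, 4 ≤ L → L / 2 < t → t ≤ L - 2 → 4 ≤ Λ * (t - L / 2) →
  ∃ κ₀ : ℝ, 0 < κ₀ ∧ ∀ κ : ℝ, 0 < κ → κ ≤ κ₀ → Par L κ (κ ^ 2) ∧ ∃ H K δ : ℝ, 1 ≤ H ∧ 1 ≤ K ∧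
  0 < δ ∧ δ ≤ 1 / 8 ∧ ∀ k : ℝ → ℝ, Ker H K δ k → ∀ A : Set ℂ,
  MinW (ww L κ (κ ^ 2) k) Λ (MM κ (κ ^ 2) t) A →
  volume (A ∩ DD L (κ ^ 2) H ∩ ball ⟨L / 2, H⟩ (2 * L)) = 0 ∧
  volume (A ∩ DD L (κ ^ 2) H ∩ ball ⟨L / 2, -H⟩ (2 * L)) = 0

/-! ## The final statement -/

/-- **FINAL.** (done by helper745) -/
def S_FINAL : Prop := ∀ a b : ℝ, 0 ≤ a → a < b → b ≤ 1 / 2 →
  ∃ (n : ℕ) (Ω E : Set (EuclideanSpace ℝ (Fin n))) (α : ℝ), a < α ∧ α < b ∧ IsOpen Ω ∧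
    Convex ℝ Ω ∧ Bornology.IsBounded Ω ∧ Ω.Nonempty ∧ IsIso Ω E α ∧ Per Ω E < ⊤ ∧
    convexHull ℝ (dens1 Ω E) = Ω

end Pool.Agent.H745.HV
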