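import Mathlib
import Pool.Agent.H745.HV.Stm

/-!
# Project HV, BODY1: elementary geometry of the body
-/

set_option autoImplicit false

open MeasureTheory Set Metric Filter Topology
open scoped ENNReal Real

noncomputable section

namespace Pool.Agent.H745.HV

open Pool.Agent.TH304.MI Pool.Agent.TH703.HU

namespace PBODY1

lemma key {a b f g r s : ℝ} (ha : 0 ≤ a) (hb : 0 ≤ b) (hab : a + b = 1) (h1 : |f| < r)
    (h2 : |g| < s) : |a * f + b * g| < a * r + b * s := by
  have e1 : |a * f + b * g| ≤ a * |f| + b * |g| := by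
    refine (abs_add_le _ _).trans ?_
    rw [abs_mul, abs_mul, abs_of_nonneg ha, abs_of_nonneg hb]
  rcases ha.eq_or_lt with h | h
  · subst h
    have hb1 : b = 1 := by linarith
    subst hb1
    linarith
  · have e2 : a * |f| < a * r := mul_lt_mul_of_pos_left h1 h
    have e3 : b * |g| ≤ b * s := mul_le_mul_of_nonneg_left h2.le hb
    linarith

lemma key0 {a b r s : ℝ} (ha : 0 ≤ a) (hb : 0 ≤ b) (hab : a + b = 1) (h1 : 0 < r)
    (h2 : 0 < s) : 0 < a * r + b * s := by
  have := key (f := 0) (g := 0) (r := r) (s := s) ha hb hab (by rwa [abs_zero]) (by rwa [abs_zero])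
  rwa [mul_zero, mul_zero, add_zero, abs_zero] at this

lemma xc_re {b : ℕ} (p : PP b) : (xc p).re = p 0 := rfl

lemma xc_im {b : ℕ} (p : PP b) : (xc p).im = p 1 := rfl

lemma mem_Bd {L κ β H : ℝ} {m : ℕ} (p : PP (2 * m + 2)) : p ∈ Bd L κ β H m ↔
    0 < p 0 ∧ p 0 < L ∧ |p 1 - H * yc p 0| < 1 / 2 + β * p 0 ∧
      ∀ i : Fin (2 * m + 1), if (i : ℕ) < m then |yc p i.succ| < 1 + yc p 0
        else if (i : ℕ) < 2 * m then |yc p i.succ| < 1 - yc p 0
        else |yc p i.succ| < 1 - κ * p 0 := Iff.rfl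

lemma yc_cont {b : ℕ} (i : Fin b) : Continuous fun p : PP b => yc p i := by
  show Continuous fun p : PP b => p i.succ.succ
  fun_prop

lemma open_Bd (L κ β H : ℝ) (m : ℕ) : IsOpen (Bd L κ β H m) := by
  have e : Bd L κ β H m = {p | 0 < p 0} ∩ ({p | p 0 < L} ∩
      ({p | |p 1 - H * yc p 0| < 1 / 2 + β * p 0} ∩ ⋂ i : Fin (2 * m + 1),
        {p | if (i : ℕ) < m then |yc p i.succ| < 1 + yc p 0
        else if (i : ℕ) < 2 * m then |yc p i.succ| < 1 - yc p 0
        else |yc p i.succ| < 1 - κ * p 0})) := by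
    ext p
    rw [mem_Bd, mem_inter_iff, mem_inter_iff, mem_inter_iff, mem_iInter]
    rfl
  have c0 : Continuous fun p : PP (2 * m + 2) => p 0 := by fun_prop
  have c1 : Continuous fun p : PP (2 * m + 2) => p 1 := by fun_prop
  have cq : Continuous fun p : PP (2 * m + 2) => yc p 0 := yc_cont 0
  rw [e]
  refine (isOpen_lt continuous_const c0).inter ((isOpen_lt c0 continuous_const).inter
    ((isOpen_lt ?_ ?_).inter (isOpen_iInter_of_finite fun i => ?_)))
  · exact (c1.sub (continuous_const.mul cq)).abs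
  · exact continuous_const.add (continuous_const.mul c0)
  · have ci := (yc_cont (b := 2 * m + 2) i.succ).abs
    by_cases h1 : (i : ℕ) < m
    · simp only [h1, if_true]
      exact isOpen_lt ci (continuous_const.add cq)
    · by_cases h2 : (i : ℕ) < 2 * m
      · simp only [h1, h2, if_true, if_false]
        exact isOpen_lt ci (continuous_const.sub cq)
      · simp only [h1, h2, if_false]
        exact isOpen_lt ci (continuous_const.sub (continuous_const.mul c0))

lemma convex_Bd (L κ β H : ℝ) (m : ℕ) : Convex ℝ (Bd L κ β H m) := by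
  intro x hx y hy a b ha hb hab
  rw [mem_Bd] at hx hy ⊢
  obtain ⟨x1, x2, x3, x4⟩ := hx
  obtain ⟨y1, y2, y3, y4⟩ := hy
  have e0 : (a • x + b • y) 0 = a * x 0 + b * y 0 := rfl
  have e1 : (a • x + b • y) 1 = a * x 1 + b * y 1 := rfl
  have ey : ∀ i, yc (a • x + b • y) i = a * yc x i + b * yc y i := fun i => rfl
  have hb' : b = 1 - a := by linarith
  refine ⟨?_, ?_, ?_, ?_⟩
  · rw [e0]; exact key0 ha hb hab x1 y1
  · rw [e0]
    have := key0 ha hb hab (sub_pos.2 x2) (sub_pos.2 y2)
    have e : a * (L - x 0) + b * (L - y 0) = (a + b) * L - (a * x 0 + b * y 0) := by ring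
    rw [e, hab, one_mul] at this
    linarith
  · rw [e0, e1, ey]
    have := key ha hb hab x3 y3
    have e : a * (1 / 2 + β * x 0) + b * (1 / 2 + β * y 0) =
        (a + b) * (1 / 2) + β * (a * x 0 + b * y 0) := by ring
    rw [e, hab, one_mul] at this
    have e' : a * (x 1 - H * yc x 0) + b * (y 1 - H * yc y 0) =
        a * x 1 + b * y 1 - H * (a * yc x 0 + b * yc y 0) := by ring
    rwa [e'] at this
  · intro i
    have hx4 := x4 i
    have hy4 := y4 i
    rw [e0, ey, ey]
    by_cases h1 : (i : ℕ) < m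
    · rw [if_pos h1] at hx4 hy4 ⊢
      have := key ha hb hab hx4 hy4
      have e : a * (1 + yc x 0) + b * (1 + yc y 0) = (a + b) + (a * yc x 0 + b * yc y 0) := by ring
      rwa [e, hab] at this
    · rw [if_neg h1] at hx4 hy4 ⊢
      by_cases h2 : (i : ℕ) < 2 * m
      · rw [if_pos h2] at hx4 hy4 ⊢
        have := key ha hb hab hx4 hy4
        have e : a * (1 - yc x 0) + b * (1 - yc y 0) =
          (a + b) - (a * yc x 0 + b * yc y 0) := by ring
        rwa [e, hab] at this
      · rw [if_neg h2] at hx4 hy4 ⊢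
        have := key ha hb hab hx4 hy4
        have e : a * (1 - κ * x 0) + b * (1 - κ * y 0) =
          (a + b) - κ * (a * x 0 + b * y 0) := by ring
        rwa [e, hab] at this

lemma bdd_Bd {L κ β H : ℝ} {m : ℕ} (hκ : 0 < κ) (hβ : 0 ≤ β) (hH : 0 < H)
    (hm : 1 ≤ m) : Bornology.IsBounded (Bd L κ β H m) := by
  rw [isBounded_iff_forall_norm_le]
  refine ⟨Real.sqrt (∑ _i : Fin (2 * m + 2 + 2), (L + H + 1 / 2 + β * L + 2) ^ 2), ?_⟩
  intro p hp
  rw [mem_Bd] at hp
  obtain ⟨p1, p2, p3, p4⟩ := hp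
  have hβL : β * p 0 ≤ β * L := mul_le_mul_of_nonneg_left p2.le hβ
  have hβ0 : 0 ≤ β * p 0 := mul_nonneg hβ p1.le
  -- bound of `q`
  have hq1 : -1 < yc p 0 := by
    have h := p4 ⟨0, by omega⟩
    rw [if_pos (show ((⟨0, by omega⟩ : Fin (2 * m + 1)) : ℕ) < m from hm)] at h
    have := abs_nonneg (yc p (Fin.succ ⟨0, by omega⟩))
    linarith
  have hq2 : yc p 0 < 1 := by
    have h := p4 ⟨m, by omega⟩
    rw [if_neg (show ¬ ((⟨m, by omega⟩ : Fin (2 * m + 1)) : ℕ) < m from lt_irrefl m),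
      if_pos (show ((⟨m, by omega⟩ : Fin (2 * m + 1)) : ℕ) < 2 * m by show m < 2 * m; omega)] at h
    have := abs_nonneg (yc p (Fin.succ ⟨m, by omega⟩))
    linarith
  have hHq1 : H * yc p 0 < H := by nlinarith
  have hHq2 : -H < H * yc p 0 := by nlinarith
  rw [EuclideanSpace.norm_eq]
  refine Real.sqrt_le_sqrt (Finset.sum_le_sum fun i _ => ?_)
  rw [Real.norm_eq_abs]
  refine pow_le_pow_left₀ (abs_nonneg _) ?_ 2
  refine Fin.cases ?_ (fun j => ?_) i
  · rw [abs_of_pos p1]
    linarith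
  · refine Fin.cases ?_ (fun j => ?_) j
    · have e : p (Fin.succ 0) = p 1 := rfl
      rw [e]
      rw [abs_lt] at p3
      rw [abs_le]
      constructor <;> linarith [p3.1, p3.2]
    · refine Fin.cases ?_ (fun j => ?_) j
      · have e : p (Fin.succ (Fin.succ 0)) = yc p 0 := rfl
        rw [e, abs_le]
        constructor <;> linarith
      · have e : p (Fin.succ (Fin.succ (Fin.succ j))) = yc p (Fin.succ j) := rfl
        rw [e]
        have h := p4 j
        have hκ0 : 0 < κ * p 0 := mul_pos hκ p1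
        have hle : |yc p (Fin.succ j)| ≤ 2 := by
          by_cases h1 : (j : ℕ) < m
          · rw [if_pos h1] at h
            linarith
          · rw [if_neg h1] at h
            by_cases h2 : (j : ℕ) < 2 * m
            · rw [if_pos h2] at h
              linarith
            · rw [if_neg h2] at h
              linarith
        linarith

lemma nonempty_Bd {L κ β H : ℝ} {m : ℕ} (hL : 0 < L) (hκ : 0 < κ) (hκL : κ * L < 1)
    (hβ : 0 ≤ β) : (Bd L κ β H m).Nonempty := by
  refine ⟨WithLp.toLp 2 (fun i => if i = 0 then L / 2 else 0), ?_⟩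
  rw [mem_Bd]
  have e0 : (WithLp.toLp 2 (fun i => if i = 0 then L / 2 else 0) : PP (2 * m + 2)) 0 = L / 2 := by
    show (if (0 : Fin (2 * m + 2 + 2)) = 0 then L / 2 else 0) = L / 2
    exact if_pos rfl
  have e1 : (WithLp.toLp 2 (fun i => if i = 0 then L / 2 else 0) : PP (2 * m + 2)) 1 = 0 := by
    show (if (1 : Fin (2 * m + 2 + 2)) = 0 then L / 2 else 0) = 0
    exact if_neg (Fin.succ_ne_zero (0 : Fin (2 * m + 2 + 1)))
  have ey : ∀ i, yc (WithLp.toLp 2 (fun i => if i = 0 then L / 2 else 0) : PP (2 * m + 2)) i = 0 := by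
    intro i
    show (if (i.succ.succ : Fin (2 * m + 2 + 2)) = 0 then L / 2 else 0) = 0
    exact if_neg (Fin.succ_ne_zero _)
  have hβL : 0 ≤ β * (L / 2) := by positivity
  refine ⟨by rw [e0]; linarith, by rw [e0]; linarith, ?_, fun i => ?_⟩
  · rw [e0, e1, ey, mul_zero, sub_zero, abs_zero]
    linarith
  · rw [e0, ey, ey, abs_zero]
    split_ifs
    · norm_num
    · norm_num
    · linarith

end PBODY1

theorem body1 : S_BODY1 := by
  intro L κ β H m hL hκ hκL hβ hH hm
  exact ⟨PBODY1.open_Bd L κ β H m, PBODY1.convex_Bd L κ β H m, PBODY1.bdd_Bd hκ hβ hH hm,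
    PBODY1.nonempty_Bd hL hκ hκL hβ⟩

end Pool.Agent.H745.HV
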