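import Mathlib
import Pool.Agent.H745.HV.Stm
import Pool.Graph.R_seed8.TH73.MI.Basic

/-!
BODY2: the volumes of the fibres of the explicit body.
-/

set_option autoImplicit false

open MeasureTheory Set Metric Filter Topology
open scoped ENNReal Real

noncomputable section

namespace Pool.Agent.H745.HV

open Pool.Agent.TH304.MI Pool.Agent.TH703.HU

namespace PBODY2

/-- the fibre -/
def Fb (L κ β H : ℝ) (m : ℕ) (x : ℂ) : Set (Fin (2 * m + 2) → ℝ) :=
  {y | 0 < x.re ∧ x.re < L ∧ |x.im - H * y 0| < aa β x.re ∧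
    ∀ i : Fin (2 * m + 1), if (i : ℕ) < m then |y i.succ| < 1 + y 0
      else if (i : ℕ) < 2 * m then |y i.succ| < 1 - y 0
      else |y i.succ| < 1 - κ * x.re}

theorem prod_c (m : ℕ) (a b c : ℝ) :
    ∏ i : Fin (2 * m + 1), (if (i : ℕ) < m then a else if (i : ℕ) < 2 * m then b else c) =
      a ^ m * b ^ m * c := by
  rw [Fin.prod_univ_castSucc]
  congr 1
  · rw [Finset.prod_congr rfl (g := fun i : Fin (2 * m) => if (i : ℕ) < m then a else b)
      (fun i _ => by
        have : (i.castSucc : ℕ) = i := rfl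
        rw [this, if_pos i.2])]
    rw [Fin.prod_univ_eq_prod_range (fun i => if i < m then a else b) (2 * m), two_mul,
      Finset.prod_range_add]
    congr 1
    · rw [Finset.prod_congr rfl (g := fun _ => a) fun i hi => if_pos (Finset.mem_range.1 hi),
        Finset.prod_const, Finset.card_range]
    · rw [Finset.prod_congr rfl (g := fun _ => b) fun i _ => if_neg (by omega),
        Finset.prod_const, Finset.card_range]
  · rw [Fin.val_last, if_neg (by omega), if_neg (by omega)]

theorem meas_cond {X : Type} [TopologicalSpace X] [MeasurableSpace X] [OpensMeasurableSpace X]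
    (m : ℕ) (s : X → ℝ) (c : ℝ) (z : X → Fin (2 * m + 1) → ℝ) (hs : Continuous s)
    (hz : Continuous z) :
    MeasurableSet {q : X | ∀ i : Fin (2 * m + 1), if (i : ℕ) < m then |z q i| < 1 + s q
      else if (i : ℕ) < 2 * m then |z q i| < 1 - s q else |z q i| < c} := by
  have h : {q : X | ∀ i : Fin (2 * m + 1), if (i : ℕ) < m then |z q i| < 1 + s q
      else if (i : ℕ) < 2 * m then |z q i| < 1 - s q else |z q i| < c} =
      ⋂ i : Fin (2 * m + 1), {q : X | if (i : ℕ) < m then
        |z q i| < 1 + s q else if (i : ℕ) < 2 * m then |z q i| < 1 - s q else |z q i| < c} := by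
    ext q
    simp
  rw [h]
  refine MeasurableSet.iInter fun i => ?_
  have hzi : Continuous fun q => |z q i| := ((continuous_apply i).comp hz).abs
  by_cases hi : (i : ℕ) < m
  · simp only [hi, if_true]
    exact (isOpen_lt hzi (continuous_const.add hs)).measurableSet
  · by_cases hi2 : (i : ℕ) < 2 * m
    · simp only [hi, hi2, if_true, if_false]
      exact (isOpen_lt hzi (continuous_const.sub hs)).measurableSet
    · simp only [hi, hi2, if_false]
      exact (isOpen_lt hzi continuous_const).measurableSet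

theorem vol_slice {m : ℕ} (hm : 1 ≤ m) (q c : ℝ) (hc : 0 < c) :
    volume {z : Fin (2 * m + 1) → ℝ | ∀ i : Fin (2 * m + 1), if (i : ℕ) < m then |z i| < 1 + q
      else if (i : ℕ) < 2 * m then |z i| < 1 - q else |z i| < c} =
      ENNReal.ofReal (2 ^ (2 * m + 1) * c * (max 0 (1 - q ^ 2)) ^ m) := by
  have h : {z : Fin (2 * m + 1) → ℝ | ∀ i : Fin (2 * m + 1), if (i : ℕ) < m then |z i| < 1 + q
      else if (i : ℕ) < 2 * m then |z i| < 1 - q else |z i| < c} =
      Set.pi univ fun i : Fin (2 * m + 1) =>
      Ioo (-(if (i : ℕ) < m then 1 + q else if (i : ℕ) < 2 * m then 1 - q else c))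
        (if (i : ℕ) < m then 1 + q else if (i : ℕ) < 2 * m then 1 - q else c) := by
    ext z
    rw [mem_univ_pi]
    refine forall_congr' fun i => ?_
    split_ifs <;> exact abs_lt
  by_cases hq : -1 < q ∧ q < 1
  · rw [h, Real.volume_pi_Ioo, ← ENNReal.ofReal_prod_of_nonneg]
    · congr 1
      have h3 : ∀ i : Fin (2 * m + 1),
          (if (i : ℕ) < m then 1 + q else if (i : ℕ) < 2 * m then 1 - q else c) -
          -(if (i : ℕ) < m then 1 + q else if (i : ℕ) < 2 * m then 1 - q else c) =
          if (i : ℕ) < m then 2 * (1 + q) else if (i : ℕ) < 2 * m then 2 * (1 - q) else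
            2 * c := by
        intro i
        split_ifs <;> ring
      have h4 : max 0 (1 - q ^ 2) = 1 - q ^ 2 := max_eq_right (by nlinarith [hq.1, hq.2])
      rw [Finset.prod_congr rfl fun i _ => h3 i, prod_c, h4, ← mul_pow]
      have h5 : 2 * (1 + q) * (2 * (1 - q)) = 2 ^ 2 * (1 - q ^ 2) := by ring
      rw [h5, mul_pow, ← pow_mul, pow_succ]
      ring
    · intro i _
      split_ifs <;> linarith [hq.1, hq.2]
  · have h4 : max 0 (1 - q ^ 2) = 0 := by
      apply max_eq_left
      by_contra h5
      push Not at h5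
      apply hq
      constructor <;> nlinarith
    have h5 : {z : Fin (2 * m + 1) → ℝ | ∀ i : Fin (2 * m + 1), if (i : ℕ) < m then |z i| < 1 + q
      else if (i : ℕ) < 2 * m then |z i| < 1 - q else |z i| < c} = ∅ := by
      ext z
      constructor
      · intro hz
        exfalso
        apply hq
        have h6 := hz ⟨0, by omega⟩
        have h7 := hz ⟨m, by omega⟩
        rw [if_pos (by show 0 < m; omega)] at h6
        rw [if_neg (by show ¬ m < m; omega), if_pos (by show m < 2 * m; omega)] at h7
        have h8 := abs_nonneg (z ⟨0, by omega⟩)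
        have h9 := abs_nonneg (z ⟨m, by omega⟩)
        constructor <;> linarith
      · exact fun h => absurd h (notMem_empty _)
    rw [h5, measure_empty, h4, zero_pow (by omega), mul_zero, ENNReal.ofReal_zero]

theorem cont_g (m : ℕ) : Continuous fun q : ℝ => (max 0 (1 - q ^ 2)) ^ m := by fun_prop

theorem g_nonneg (m : ℕ) (q : ℝ) : 0 ≤ (max 0 (1 - q ^ 2)) ^ m := by positivity

theorem vol_Fb {L κ β H : ℝ} {m : ℕ} (hm : 1 ≤ m) (hH : 0 < H) (x : ℂ) (h0 : 0 < x.re)
    (hL : x.re < L) (hκ : 0 < 1 - κ * x.re) (ha : 0 < aa β x.re) :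
    volume (Fb L κ β H m x) = ENNReal.ofReal (2 ^ (2 * m + 1) * (1 - κ * x.re) *
      ∫ q in ((x.im - aa β x.re) / H)..((x.im + aa β x.re) / H), (max 0 (1 - q ^ 2)) ^ m) := by
  set e := MeasurableEquiv.piFinSuccAbove (fun _ : Fin (2 * m + 2) => ℝ) 0 with he
  have hmp : MeasurePreserving e volume volume :=
    volume_preserving_piFinSuccAbove (fun _ : Fin (2 * m + 2) => ℝ) 0
  set S : Set (ℝ × (Fin (2 * m + 1) → ℝ)) := {q | |x.im - H * q.1| < aa β x.re ∧
    ∀ i : Fin (2 * m + 1), if (i : ℕ) < m then |q.2 i| < 1 + q.1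
      else if (i : ℕ) < 2 * m then |q.2 i| < 1 - q.1 else |q.2 i| < 1 - κ * x.re}
    with hS
  have hSm : MeasurableSet S := by
    refine MeasurableSet.inter ?_ ?_
    · have hc : Continuous fun q : ℝ × (Fin (2 * m + 1) → ℝ) => |x.im - H * q.1| :=
        (continuous_const.sub (continuous_const.mul continuous_fst)).abs
      exact (isOpen_lt hc continuous_const).measurableSet
    · exact meas_cond m (fun q : ℝ × (Fin (2 * m + 1) → ℝ) => q.1) _ (fun q => q.2)
        continuous_fst continuous_snd
  have h1 : Fb L κ β H m x = e ⁻¹' S := by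
    ext y
    constructor
    · exact fun h => ⟨h.2.2.1, h.2.2.2⟩
    · exact fun h => ⟨h0, hL, h.1, h.2⟩
  rw [h1, hmp.measure_preimage hSm.nullMeasurableSet, Measure.volume_eq_prod,
    Measure.prod_apply hSm]
  have hiff : ∀ s : ℝ, |x.im - H * s| < aa β x.re ↔
      s ∈ Ioo ((x.im - aa β x.re) / H) ((x.im + aa β x.re) / H) := by
    intro s
    rw [mem_Ioo, abs_lt, div_lt_iff₀ hH, lt_div_iff₀ hH]
    constructor
    · rintro ⟨h2, h3⟩
      constructor <;> linarith
    · rintro ⟨h2, h3⟩
      constructor <;> linarith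
  have h2 : ∀ s : ℝ, volume (Prod.mk s ⁻¹' S) =
      (Ioo ((x.im - aa β x.re) / H) ((x.im + aa β x.re) / H)).indicator
      (fun s => ENNReal.ofReal (2 ^ (2 * m + 1) * (1 - κ * x.re) * (max 0 (1 - s ^ 2)) ^ m)) s := by
    intro s
    by_cases hs : s ∈ Ioo ((x.im - aa β x.re) / H) ((x.im + aa β x.re) / H)
    · rw [indicator_of_mem hs, ← vol_slice hm s _ hκ]
      congr 1
      ext z
      constructor
      · exact fun h => h.2
      · exact fun h => ⟨(hiff s).2 hs, h⟩
    · rw [indicator_of_notMem hs]
      have : Prod.mk s ⁻¹' S = ∅ := by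
        ext z
        constructor
        · rintro ⟨h3, -⟩
          exact absurd ((hiff s).1 h3) hs
        · exact fun h => absurd h (notMem_empty _)
      rw [this, measure_empty]
  have hle : (x.im - aa β x.re) / H ≤ (x.im + aa β x.re) / H :=
    div_le_div_of_nonneg_right (by linarith) hH.le
  rw [lintegral_congr h2, lintegral_indicator measurableSet_Ioo,
    ← intervalIntegral.integral_const_mul,
    intervalIntegral.integral_of_le hle, integral_Ioc_eq_integral_Ioo,
    ofReal_integral_eq_lintegral_ofReal]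
  · exact ((continuous_const.mul (cont_g m)).integrableOn_Icc).mono_set Ioo_subset_Icc_self
  · refine Eventually.of_forall fun s => ?_
    exact mul_nonneg (mul_nonneg (by positivity) hκ.le) (g_nonneg m s)

end PBODY2

open PBODY2

theorem body2 : S_BODY2 := by
  intro L κ β H m hL hκ hκL hβ hH hm hNN x
  obtain ⟨e, he, -⟩ := Pool.Agent.TH73.MI.t_fub (2 * m + 2)
  have hset : {y : Fin (2 * m + 2) → ℝ | ∃ p ∈ Bd L κ β H m, xc p = x ∧ yc p = y} =
      Fb L κ β H m x := by
    ext y
    constructor
    · rintro ⟨p, hp, rfl, rfl⟩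
      exact hp
    · intro hy
      have h1 := he (e.symm (x, y))
      rw [MeasurableEquiv.apply_symm_apply, Prod.mk.injEq] at h1
      refine ⟨e.symm (x, y), ?_, h1.1.symm, h1.2.symm⟩
      unfold Bd
      rw [Set.mem_ofPred_eq, ← h1.1, ← h1.2]
      exact hy
  unfold fibv
  rw [hset, measureReal_def]
  by_cases hx : 0 < x.re ∧ x.re < L
  · have h1κ : 0 < 1 - κ * x.re := by nlinarith [hx.1, hx.2]
    have ha : 0 < aa β x.re := by
      unfold aa
      have := mul_nonneg hβ hx.1.le
      linarith
    rw [vol_Fb hm hH x hx.1 hx.2 h1κ ha, ENNReal.toReal_ofReal]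
    · unfold ww
      rw [if_pos hx]
      have h2 : ∫ s in (x.im - aa β x.re)..(x.im + aa β x.re), kk H m s =
          (∫ q in ((x.im - aa β x.re) / H)..((x.im + aa β x.re) / H),
            (max 0 (1 - q ^ 2)) ^ m) / NN m := by
        unfold kk
        rw [intervalIntegral.integral_div,
          intervalIntegral.integral_comp_div (fun s => (max 0 (1 - s ^ 2)) ^ m) hH.ne',
          smul_eq_mul, mul_div_mul_left _ _ hH.ne']
      rw [h2]
      field_simp
    · refine mul_nonneg (mul_nonneg (by positivity) h1κ.le) ?_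
      refine intervalIntegral.integral_nonneg
        (div_le_div_of_nonneg_right (by linarith) hH.le) fun s _ => g_nonneg m s
  · have h1 : Fb L κ β H m x = ∅ := by
      ext y
      constructor
      · intro hy
        exact absurd ⟨hy.1, hy.2.1⟩ hx
      · exact fun h => absurd h (notMem_empty _)
    rw [h1, measure_empty]
    unfold ww
    rw [if_neg hx]
    simp

end Pool.Agent.H745.HV

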