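import Mathlib
import Pool.Agent.H745.HV.Stm
import Pool.Graph.R_seed8.TH742.HU.C2

/-! `c2a : S_C2a`: variation along lines, with two factors (adapted from
`Pool/Graph/R_seed8/TH742/HU/C2.lean`). -/

set_option autoImplicit false

open MeasureTheory Set Metric Filter Topology
open scoped ENNReal Real Convolution

noncomputable section

namespace Pool.Agent.H745.HV

open Pool.Agent.TH304.MI Pool.Agent.TH703.HU

namespace PC2A

open Pool.Agent.TH742.HU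

lemma sq2 (α₁ α₂ a b c : ℝ) (hα : α₁ ^ 2 + α₂ ^ 2 ≤ 1)
    (ha : |a| ≤ c) (hb : |b| ≤ c) :
    ‖(((α₁ * a : ℝ) : ℂ) + ((α₂ * b : ℝ) : ℂ) * Complex.I)‖ ≤ c := by
  have hc : 0 ≤ c := (abs_nonneg a).trans ha
  rw [Complex.norm_add_mul_I]
  apply Real.sqrt_le_iff.2
  refine ⟨hc, ?_⟩
  have h3 : a ^ 2 ≤ c ^ 2 := sq_le_sq.2 (by rwa [abs_of_nonneg hc])
  have h4 : b ^ 2 ≤ c ^ 2 := sq_le_sq.2 (by rwa [abs_of_nonneg hc])
  have h5 : α₁ ^ 2 * a ^ 2 ≤ α₁ ^ 2 * c ^ 2 := by gcongr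
  have h6 : α₂ ^ 2 * b ^ 2 ≤ α₂ ^ 2 * c ^ 2 := by gcongr
  have h7 : (α₁ ^ 2 + α₂ ^ 2) * c ^ 2 ≤ 1 * c ^ 2 := by gcongr
  rw [mul_pow, mul_pow]
  linarith

lemma key1 {w : ℂ → ℝ} {A : Set ℂ} {P : ℝ} (hP : PW w A P) {α₁ α₂ : ℝ} (hα₁ : 0 ≤ α₁)
    (hα₂ : 0 ≤ α₂) (hα : α₁ ^ 2 + α₂ ^ 2 ≤ 1) {h : ℝ} (hh : 0 < h)
    {g₁ g₂ : ℂ → ℝ} (hg₁ : ContDiff ℝ 1 g₁) (hg₂ : ContDiff ℝ 1 g₂) (c₁ : HasCompactSupport g₁)
    (c₂ : HasCompactSupport g₂)
    (b₁ : ∀ x : ℂ, ∀ t ∈ Icc (0 : ℝ) 1, |g₁ (x - t • (h : ℂ))| ≤ w x)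
    (b₂ : ∀ x : ℂ, ∀ t ∈ Icc (0 : ℝ) 1, |g₂ (x - t • ((h : ℂ) * Complex.I))| ≤ w x)
    (s₁ : ∀ x ∈ tsupport g₁, ∀ t ∈ Icc (0 : ℝ) 1, 0 < w (x + t • (h : ℂ)))
    (s₂ : ∀ x ∈ tsupport g₂, ∀ t ∈ Icc (0 : ℝ) 1, 0 < w (x + t • ((h : ℂ) * Complex.I))) :
    α₁ * ((∫ x in A, g₁ x) - ∫ x in A, g₁ (x - h)) +
      α₂ * ((∫ x in A, g₂ x) - ∫ x in A, g₂ (x - h * Complex.I)) ≤ h * P := by
  have hd := fun t => ((hder (A := A) hg₁ c₁ (h : ℂ) t).const_mul α₁).add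
    ((hder (A := A) hg₂ c₂ ((h : ℂ) * Complex.I) t).const_mul α₂)
  obtain ⟨t, ht, hslope⟩ := exists_hasDerivAt_eq_slope
    ((fun t : ℝ => α₁ * ∫ x in A, g₁ (x - t • (h : ℂ))) +
      fun t : ℝ => α₂ * ∫ x in A, g₂ (x - t • ((h : ℂ) * Complex.I)))
    (fun t => (α₁ * ∫ x in A, -(fderiv ℝ g₁ (x - t • (h : ℂ)) (h : ℂ))) +
      α₂ * ∫ x in A, -(fderiv ℝ g₂ (x - t • ((h : ℂ) * Complex.I)) ((h : ℂ) * Complex.I)))
    (zero_lt_one (α := ℝ))
    (fun t _ => (hd t).continuousAt.continuousWithinAt) (fun t _ => hd t)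
  simp only [zero_smul, sub_zero, one_smul, div_one, Pi.add_apply] at hslope
  have ht' : t ∈ Icc (0 : ℝ) 1 := ⟨ht.1.le, ht.2.le⟩
  let a : ℂ → ℝ := fun x => α₁ * g₁ (x - t • (h : ℂ))
  let b : ℂ → ℝ := fun x => α₂ * g₂ (x - t • ((h : ℂ) * Complex.I))
  let Y : ℂ → ℂ := fun x => (a x : ℂ) + (b x : ℂ) * Complex.I
  have ha : ContDiff ℝ 1 a := contDiff_const.mul (hg₁.comp (contDiff_id.sub contDiff_const))
  have hb : ContDiff ℝ 1 b := contDiff_const.mul (hg₂.comp (contDiff_id.sub contDiff_const))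
  have hac : HasCompactSupport a :=
    (c₁.comp_homeomorph (Homeomorph.subRight (t • (h : ℂ)))).mul_left (f := fun _ => α₁)
  have hbc : HasCompactSupport b :=
    (c₂.comp_homeomorph (Homeomorph.subRight (t • ((h : ℂ) * Complex.I)))).mul_left
      (f := fun _ => α₂)
  have hY : TW w Y := by
    refine ⟨?_, ?_, ?_, ?_⟩
    · exact (Complex.ofRealCLM.contDiff.comp ha).add
        ((Complex.ofRealCLM.contDiff.comp hb).mul contDiff_const)
    · have e1 : HasCompactSupport (fun x => (a x : ℂ)) := hac.comp_left (g := fun r : ℝ => (r : ℂ)) (by simp)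
      have e2 : HasCompactSupport (fun x => (b x : ℂ) * Complex.I) :=
        (hbc.comp_left (g := fun r : ℝ => (r : ℂ)) (by simp)).mul_right (f' := fun _ => Complex.I)
      exact e1.add e2
    · have e1 : tsupport Y ⊆ ((fun x => x - t • (h : ℂ)) ⁻¹' tsupport g₁) ∪
          ((fun x => x - t • ((h : ℂ) * Complex.I)) ⁻¹' tsupport g₂) := by
        refine closure_minimal ?_ (((isClosed_tsupport g₁).preimage (by fun_prop)).union
          ((isClosed_tsupport g₂).preimage (by fun_prop)))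
        intro x hx
        by_contra hne
        rw [mem_union, not_or] at hne
        have e2 : g₁ (x - t • (h : ℂ)) = 0 := image_eq_zero_of_notMem_tsupport hne.1
        have e3 : g₂ (x - t • ((h : ℂ) * Complex.I)) = 0 := image_eq_zero_of_notMem_tsupport hne.2
        apply hx
        simp only [Y, a, b, e2, e3]
        simp
      intro x hx
      rcases e1 hx with h1 | h1
      · have := s₁ _ h1 t ht'
        simpa using this
      · have := s₂ _ h1 t ht'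
        simpa using this
    · intro x
      exact sq2 _ _ _ _ _ hα (b₁ x t ht') (b₂ x t ht')
  have hdiv : ∀ x, dv2 Y x = α₁ * (fderiv ℝ g₁ (x - t • (h : ℂ)) 1) +
      α₂ * (fderiv ℝ g₂ (x - t • ((h : ℂ) * Complex.I)) Complex.I) := by
    intro x
    have h1 : HasFDerivAt a (α₁ • fderiv ℝ g₁ (x - t • (h : ℂ))) x := by
      have h8 : HasFDerivAt (fun x : ℂ => x - t • (h : ℂ)) (ContinuousLinearMap.id ℝ ℂ) x :=
        (hasFDerivAt_id x).sub_const _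
      have h9 := ((hg₁.differentiable (by norm_num)) (x - t • (h : ℂ))).hasFDerivAt.comp x h8
      rw [ContinuousLinearMap.comp_id] at h9
      exact h9.const_mul _
    have h2 : HasFDerivAt b (α₂ • fderiv ℝ g₂ (x - t • ((h : ℂ) * Complex.I))) x := by
      have h8 : HasFDerivAt (fun x : ℂ => x - t • ((h : ℂ) * Complex.I))
          (ContinuousLinearMap.id ℝ ℂ) x :=
        (hasFDerivAt_id x).sub_const _
      have h9 := ((hg₂.differentiable (by norm_num))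
        (x - t • ((h : ℂ) * Complex.I))).hasFDerivAt.comp x h8
      rw [ContinuousLinearMap.comp_id] at h9
      exact h9.const_mul _
    have h3 : HasFDerivAt Y (Complex.ofRealCLM.comp (α₁ • fderiv ℝ g₁ (x - t • (h : ℂ))) +
        Complex.I • Complex.ofRealCLM.comp
          (α₂ • fderiv ℝ g₂ (x - t • ((h : ℂ) * Complex.I)))) x :=
      (Complex.ofRealCLM.hasFDerivAt.comp x h1).add
        ((Complex.ofRealCLM.hasFDerivAt.comp x h2).mul_const Complex.I)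
    unfold dv2
    rw [h3.fderiv]
    simp
  have h6 := hP Y hY
  have i1 : Integrable (fun x => fderiv ℝ g₁ (x - t • (h : ℂ)) 1) := by
    have e1 : Continuous (fun x : ℂ => fderiv ℝ g₁ x 1) :=
      (hg₁.continuous_fderiv (by norm_num)).clm_apply continuous_const
    have e2 : HasCompactSupport (fun x : ℂ => fderiv ℝ g₁ x 1) :=
      (c₁.fderiv ℝ).comp_left (g := fun L : ℂ →L[ℝ] ℝ => L 1) (by simp)
    exact (e1.integrable_of_hasCompactSupport e2).comp_sub_right _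
  have i2 : Integrable (fun x => fderiv ℝ g₂ (x - t • ((h : ℂ) * Complex.I)) Complex.I) := by
    have e1 : Continuous (fun x : ℂ => fderiv ℝ g₂ x Complex.I) :=
      (hg₂.continuous_fderiv (by norm_num)).clm_apply continuous_const
    have e2 : HasCompactSupport (fun x : ℂ => fderiv ℝ g₂ x Complex.I) :=
      (c₂.fderiv ℝ).comp_left (g := fun L : ℂ →L[ℝ] ℝ => L Complex.I) (by simp)
    exact (e1.integrable_of_hasCompactSupport e2).comp_sub_right _
  simp_rw [hdiv] at h6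
  rw [integral_add (i1.const_mul _).integrableOn (i2.const_mul _).integrableOn,
    integral_const_mul, integral_const_mul] at h6
  have e1 : ∀ x, fderiv ℝ g₁ (x - t • (h : ℂ)) (h : ℂ) = h * fderiv ℝ g₁ (x - t • (h : ℂ)) 1 := by
    intro x
    have : (h : ℂ) = h • (1 : ℂ) := by simp
    conv_lhs => rw [this]
    rw [map_smul]
    simp
  have e2 : ∀ x, fderiv ℝ g₂ (x - t • ((h : ℂ) * Complex.I)) ((h : ℂ) * Complex.I) =
      h * fderiv ℝ g₂ (x - t • ((h : ℂ) * Complex.I)) Complex.I := by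
    intro x
    have : (h : ℂ) * Complex.I = h • Complex.I := by simp
    conv_lhs => rw [this]
    rw [map_smul]
    simp
  rw [integral_neg, integral_neg] at hslope
  simp_rw [e1, e2] at hslope
  rw [integral_const_mul, integral_const_mul] at hslope
  set I₁ := ∫ x in A, fderiv ℝ g₁ (x - t • (h : ℂ)) 1
  set I₂ := ∫ x in A, fderiv ℝ g₂ (x - t • ((h : ℂ) * Complex.I)) Complex.I
  have h8 : h * (α₁ * I₁ + α₂ * I₂) ≤ h * P := by gcongr
  linarith

lemma key2 {w u : ℂ → ℝ} {A : Set ℂ} {P δ r h : ℝ} (hw0 : ∀ x, 0 ≤ w x) (hu : Continuous u)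
    (hc : HasCompactSupport u) (hu0 : ∀ x, 0 ≤ u x) (hA : MeasurableSet A) (hP : PW w A P)
    {α₁ α₂ : ℝ} (hα₁ : 0 ≤ α₁) (hα₂ : 0 ≤ α₂) (hα : α₁ ^ 2 + α₂ ^ 2 ≤ 1)
    (hδ1 : δ < 1) (hr : 0 < r) (H : ∀ x y : ℂ, dist x y ≤ r →
      (1 - δ) * u y ≤ w x ∧ (y ∈ tsupport u → 0 < w x)) (hh : 0 < h) (hhr : h ≤ r / 2) :
    (1 - δ) * (α₁ * (∫ x, u x * |TH742.HU.sg A h x|) + α₂ * ∫ x, u x * |TH742.HU.sg A (h * Complex.I) x|) ≤ h * P := by
  obtain ⟨M, hM⟩ := hc.exists_bound_of_continuous hu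
  have hM0 : 0 ≤ M := (norm_nonneg _).trans (hM 0)
  have hδ0 : 0 ≤ 1 - δ := by linarith
  have hfm : ∀ v : ℂ, Measurable (fun x => (1 - δ) * u x * TH742.HU.sg A v x) := fun v =>
    (measurable_const.mul hu.measurable).mul (sg_meas hA v)
  have hfb : ∀ v x, |(1 - δ) * u x * TH742.HU.sg A v x| ≤ (1 - δ) * u x := by
    intro v x
    rw [abs_mul, abs_of_nonneg (mul_nonneg hδ0 (hu0 x))]
    exact mul_le_of_le_one_right (mul_nonneg hδ0 (hu0 x)) (sg_abs A v x)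
  have hfM : ∀ v x, |(1 - δ) * u x * TH742.HU.sg A v x| ≤ (1 - δ) * M := by
    intro v x
    refine (hfb v x).trans ?_
    have := hM x
    rw [Real.norm_eq_abs, abs_of_nonneg (hu0 x)] at this
    gcongr
  have hf0 : ∀ v x, x ∉ tsupport u → (1 - δ) * u x * TH742.HU.sg A v x = 0 := by
    intro v x hx
    rw [image_eq_zero_of_notMem_tsupport hx]; simp
  obtain ⟨g₁, a1, a2, a3, a4, a5⟩ := moll _ (hfm h) _ (hfM h) (tsupport u) hc (hf0 h)
  obtain ⟨g₂, d1, d2, d3, d4, d5⟩ := moll _ (hfm (h * Complex.I)) _ (hfM (h * Complex.I))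
    (tsupport u) hc (hf0 (h * Complex.I))
  have hM1 : 0 ≤ (1 - δ) * M := mul_nonneg hδ0 hM0
  have l1 := lim (A := A) hA (K := tsupport u) hc h hM1 a1 (fun n x => a3 n x _ hM1 fun y _ => hfM _ y)
    a4 a5
  have l2 := lim (A := A) hA (K := tsupport u) hc (h * Complex.I) hM1 d1
    (fun n x => d3 n x _ hM1 fun y _ => hfM _ y) d4 d5
  have hle : ∀ᶠ n : ℕ in atTop, α₁ * (∫ x, g₁ n x * TH742.HU.sg A h x) +
      α₂ * (∫ x, g₂ n x * TH742.HU.sg A (h * Complex.I) x) ≤ h * P := by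
    have h1 : ∀ᶠ n : ℕ in atTop, 1 / ((n : ℝ) + 1) < r / 2 :=
      tendsto_one_div_add_atTop_nhds_zero_nat.eventually (gt_mem_nhds (by positivity))
    filter_upwards [h1] with n hn
    rw [← shift hA h (a1 n).continuous (a2 n), ← shift hA (h * Complex.I) (d1 n).continuous (d2 n)]
    have nh : ∀ t ∈ Icc (0 : ℝ) 1, ‖t • (h : ℂ)‖ ≤ r / 2 := by
      intro t ht
      rw [norm_smul, Real.norm_eq_abs, abs_of_nonneg ht.1, Complex.norm_real, Real.norm_eq_abs,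
        abs_of_pos hh]
      nlinarith [ht.1, ht.2]
    have nh2 : ∀ t ∈ Icc (0 : ℝ) 1, ‖t • ((h : ℂ) * Complex.I)‖ ≤ r / 2 := by
      intro t ht
      rw [norm_smul, norm_mul, Complex.norm_I, mul_one, Real.norm_eq_abs, abs_of_nonneg ht.1,
        Complex.norm_real, Real.norm_eq_abs, abs_of_pos hh]
      nlinarith [ht.1, ht.2]
    refine key1 hP hα₁ hα₂ hα hh (a1 n) (d1 n) (a2 n) (d2 n) ?_ ?_ ?_ ?_
    · intro x t ht
      refine a3 n _ _ (hw0 x) fun y hy => (hfb _ y).trans (H x y ?_).1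
      have h3 := nh t ht
      have h4 : dist x y ≤ dist (x - t • (h : ℂ)) y + ‖t • (h : ℂ)‖ := by
        have := dist_triangle x (x - t • (h : ℂ)) y
        have h5 : dist x (x - t • (h : ℂ)) = ‖t • (h : ℂ)‖ := by simp
        linarith
      rw [dist_comm] at hy
      linarith
    · intro x t ht
      refine d3 n _ _ (hw0 x) fun y hy => (hfb _ y).trans (H x y ?_).1
      have h3 := nh2 t ht
      have h4 : dist x y ≤ dist (x - t • ((h : ℂ) * Complex.I)) y + ‖t • ((h : ℂ) * Complex.I)‖ := by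
        have := dist_triangle x (x - t • ((h : ℂ) * Complex.I)) y
        have h5 : dist x (x - t • ((h : ℂ) * Complex.I)) = ‖t • ((h : ℂ) * Complex.I)‖ := by simp
        linarith
      rw [dist_comm] at hy
      linarith
    · intro x hx t ht
      obtain ⟨y, hy, hxy⟩ := a4 n x hx
      refine (H _ y ?_).2 hy
      have h3 := nh t ht
      have h4 : dist (x + t • (h : ℂ)) y ≤ ‖t • (h : ℂ)‖ + dist x y := by
        have := dist_triangle (x + t • (h : ℂ)) x y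
        have h5 : dist (x + t • (h : ℂ)) x = ‖t • (h : ℂ)‖ := by simp
        linarith
      linarith
    · intro x hx t ht
      obtain ⟨y, hy, hxy⟩ := d4 n x hx
      refine (H _ y ?_).2 hy
      have h3 := nh2 t ht
      have h4 : dist (x + t • ((h : ℂ) * Complex.I)) y ≤ ‖t • ((h : ℂ) * Complex.I)‖ + dist x y := by
        have := dist_triangle (x + t • ((h : ℂ) * Complex.I)) x y
        have h5 : dist (x + t • ((h : ℂ) * Complex.I)) x = ‖t • ((h : ℂ) * Complex.I)‖ := by simp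
        linarith
      linarith
  have h9 := le_of_tendsto ((l1.const_mul α₁).add (l2.const_mul α₂)) hle
  have e : ∀ v : ℂ, ∫ x, (1 - δ) * u x * TH742.HU.sg A v x * TH742.HU.sg A v x = (1 - δ) * ∫ x, u x * |TH742.HU.sg A v x| := by
    intro v
    rw [← integral_const_mul]
    congr 1; ext x
    rw [mul_assoc ((1 - δ) * u x), sg_sq]; ring
  rw [e, e] at h9
  linarith

lemma cml (a : ℝ≥0∞) (f : ℕ → ℝ≥0∞) (_ha : a ≠ ∞) :
    a * liminf f atTop ≤ liminf (fun n => a * f n) atTop := by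
  rw [liminf_eq_iSup_iInf_of_nat, liminf_eq_iSup_iInf_of_nat, ENNReal.mul_iSup]
  refine iSup_mono fun n => ?_
  refine le_iInf₂ fun i hi => ?_
  gcongr
  exact iInf₂_le i hi

end PC2A

open PC2A Pool.Agent.TH742.HU in
theorem c2a : S_C2a := by
  intro w u A P α₁ α₂ hw hw0 hu hc hs hu0 huw hA hP hα₁ hα₂ hα
  -- `P ≥ 0`
  have hP0 : 0 ≤ P := by
    have h1 : TW w (fun _ => (0 : ℂ)) := by
      refine ⟨contDiff_const, HasCompactSupport.zero, ?_, ?_⟩
      · intro x hx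
        have : tsupport (fun _ : ℂ => (0 : ℂ)) = ∅ := by
          rw [tsupport_eq_empty_iff]; rfl
        rw [this] at hx; exact hx.elim
      · intro x; simpa using hw0 x
    have h2 := hP _ h1
    have h3 : ∀ x, dv2 (fun _ => (0 : ℂ)) x = 0 := by
      intro x; unfold dv2; simp
    simp_rw [h3] at h2
    simpa using h2
  -- the integrals
  let U : ℂ → ℂ → ℝ≥0∞ := fun v x => ENNReal.ofReal (u x * |TH742.HU.sg A v x|)
  have hUm : ∀ v, Measurable (U v) := fun v =>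
    (hu.measurable.mul (sg_meas hA v).abs).ennreal_ofReal
  have hUi : ∀ v, Integrable (fun x => u x * |TH742.HU.sg A v x|) := fun v =>
    (hu.integrable_of_hasCompactSupport hc).mul_bdd (c := 1) (sg_meas hA v).abs.aestronglyMeasurable
      (Eventually.of_forall fun x => by simpa using sg_abs A v x)
  have hU : ∀ v, ∫⁻ x, U v x = ENNReal.ofReal (∫ x, u x * |TH742.HU.sg A v x|) := fun v =>
    (ofReal_integral_eq_lintegral_ofReal (hUi v)
      (Eventually.of_forall fun x => mul_nonneg (hu0 x) (abs_nonneg _))).symm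
  -- Fatou
  have f1 : (∫⁻ y : ℝ, ev (fun t => u ⟨t, y⟩) {t | (⟨t, y⟩ : ℂ) ∈ A}) ≤
      liminf (fun n : ℕ => ((n : ℝ≥0∞) + 1) * ∫⁻ x, U (((1 / ((n : ℝ) + 1) : ℝ)) : ℂ) x) atTop := by
    have e1 : ∀ (n : ℕ) (y : ℝ), ((n : ℝ≥0∞) + 1) * ∫⁻ t : ℝ, ENNReal.ofReal (u ⟨t, y⟩ *
        |{t | (⟨t, y⟩ : ℂ) ∈ A}.indicator (fun _ => (1 : ℝ)) (t + 1 / ((n : ℝ) + 1)) -
          {t | (⟨t, y⟩ : ℂ) ∈ A}.indicator (fun _ => (1 : ℝ)) t|) =
        ((n : ℝ≥0∞) + 1) * ∫⁻ t : ℝ, U (((1 / ((n : ℝ) + 1) : ℝ)) : ℂ) ⟨t, y⟩ := by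
      intro n y
      congr 1
      refine lintegral_congr fun t => ?_
      simp only [U, TH742.HU.sg]
      rw [abs_sub_comm]
      have e2 : ∀ s : ℝ, (⟨t, y⟩ : ℂ) + (s : ℂ) = ⟨t + s, y⟩ := fun s => by
        apply Complex.ext <;> simp
      rw [e2]
      rfl
    unfold ev
    simp_rw [e1]
    have m1 : ∀ v, Measurable (fun y : ℝ => ∫⁻ t : ℝ, U v ⟨t, y⟩) := fun v =>
      ((hUm v).comp mk_meas).lintegral_prod_left'
    refine (lintegral_liminf_le ?_).trans (le_of_eq ?_)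
    · intro n
      exact (m1 _).const_mul _
    · congr 1; ext n
      rw [lintegral_const_mul _ (m1 _), ← fub1 (hUm _)]
  have f2 : (∫⁻ x : ℝ, ev (fun t => u ⟨x, t⟩) {t | (⟨x, t⟩ : ℂ) ∈ A}) ≤
      liminf (fun n : ℕ => ((n : ℝ≥0∞) + 1) *
        ∫⁻ x, U (((1 / ((n : ℝ) + 1) : ℝ)) * Complex.I) x) atTop := by
    have e1 : ∀ (n : ℕ) (x : ℝ), ((n : ℝ≥0∞) + 1) * ∫⁻ t : ℝ, ENNReal.ofReal (u ⟨x, t⟩ *
        |{t | (⟨x, t⟩ : ℂ) ∈ A}.indicator (fun _ => (1 : ℝ)) (t + 1 / ((n : ℝ) + 1)) -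
          {t | (⟨x, t⟩ : ℂ) ∈ A}.indicator (fun _ => (1 : ℝ)) t|) =
        ((n : ℝ≥0∞) + 1) * ∫⁻ t : ℝ, U (((1 / ((n : ℝ) + 1) : ℝ)) * Complex.I) ⟨x, t⟩ := by
      intro n x
      congr 1
      refine lintegral_congr fun t => ?_
      simp only [U, TH742.HU.sg]
      rw [abs_sub_comm]
      have e2 : ∀ s : ℝ, (⟨x, t⟩ : ℂ) + (s : ℂ) * Complex.I = ⟨x, t + s⟩ := fun s => by
        apply Complex.ext <;> simp
      rw [e2]
      rfl
    unfold ev
    simp_rw [e1]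
    have m1 : ∀ v, Measurable (fun x : ℝ => ∫⁻ t : ℝ, U v ⟨x, t⟩) := fun v =>
      ((hUm v).comp mk_meas).lintegral_prod_right'
    refine (lintegral_liminf_le ?_).trans (le_of_eq ?_)
    · intro n
      exact (m1 _).const_mul _
    · congr 1; ext n
      rw [lintegral_const_mul _ (m1 _), ← fub2 (hUm _)]
  refine (add_le_add (mul_le_mul_right f1 _) (mul_le_mul_right f2 _)).trans ?_
  refine (add_le_add (cml _ _ ENNReal.ofReal_ne_top) (cml _ _ ENNReal.ofReal_ne_top)).trans ?_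
  refine (ll _ _).trans ?_
  have hre : ∀ n : ℕ, ENNReal.ofReal α₁ * (((n : ℝ≥0∞) + 1) *
        ∫⁻ x, U (((1 / ((n : ℝ) + 1) : ℝ)) : ℂ) x) +
      ENNReal.ofReal α₂ * (((n : ℝ≥0∞) + 1) *
        ∫⁻ x, U (((1 / ((n : ℝ) + 1) : ℝ)) * Complex.I) x) =
      ((n : ℝ≥0∞) + 1) *
        (ENNReal.ofReal (α₁ * ∫ x, u x * |TH742.HU.sg A (((1 / ((n : ℝ) + 1) : ℝ)) : ℂ) x|) +
        ENNReal.ofReal (α₂ * ∫ x, u x * |TH742.HU.sg A (((1 / ((n : ℝ) + 1) : ℝ)) * Complex.I) x|)) := by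
    intro n
    rw [hU, hU, ENNReal.ofReal_mul hα₁, ENNReal.ofReal_mul hα₂]
    ring
  simp_rw [hre]
  -- the estimate with loss
  have main : ∀ δ : ℝ, 0 < δ → δ < 1 →
      liminf (fun n : ℕ => ((n : ℝ≥0∞) + 1) *
        (ENNReal.ofReal (α₁ * ∫ x, u x * |TH742.HU.sg A (((1 / ((n : ℝ) + 1) : ℝ)) : ℂ) x|) +
        ENNReal.ofReal (α₂ * ∫ x, u x * |TH742.HU.sg A (((1 / ((n : ℝ) + 1) : ℝ)) * Complex.I) x|))) atTop ≤
      ENNReal.ofReal (P / (1 - δ)) := by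
    intro δ hδ hδ1
    obtain ⟨r, hr, H⟩ := near hw hw0 hc hs hu0 huw hδ hδ1
    have h1 : ∀ᶠ n : ℕ in atTop, 1 / ((n : ℝ) + 1) < r / 2 :=
      tendsto_one_div_add_atTop_nhds_zero_nat.eventually (gt_mem_nhds (by positivity))
    refine (liminf_le_liminf (v := fun _ : ℕ => ENNReal.ofReal (P / (1 - δ))) ?_).trans
      (le_of_eq (liminf_const _))
    filter_upwards [h1] with n hn
    have hn0 : (0 : ℝ) < (n : ℝ) + 1 := by positivity
    have h2 := key2 hw0 hu hc hu0 hA hP hα₁ hα₂ hα hδ1 hr H (h := 1 / ((n : ℝ) + 1)) (by positivity) hn.le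
    have p1 : 0 ≤ α₁ * ∫ x, u x * |TH742.HU.sg A (((1 / ((n : ℝ) + 1) : ℝ)) : ℂ) x| :=
      mul_nonneg hα₁ (integral_nonneg fun x => mul_nonneg (hu0 x) (abs_nonneg _))
    have p2 : 0 ≤ α₂ * ∫ x, u x * |TH742.HU.sg A (((1 / ((n : ℝ) + 1) : ℝ)) * Complex.I) x| :=
      mul_nonneg hα₂ (integral_nonneg fun x => mul_nonneg (hu0 x) (abs_nonneg _))
    have e3 : ((n : ℝ≥0∞) + 1) = ENNReal.ofReal ((n : ℝ) + 1) := by
      rw [ENNReal.ofReal_add n.cast_nonneg zero_le_one, ENNReal.ofReal_natCast, ENNReal.ofReal_one]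
    rw [e3, ← ENNReal.ofReal_add p1 p2, ← ENNReal.ofReal_mul hn0.le]
    apply ENNReal.ofReal_le_ofReal
    rw [le_div_iff₀ (by linarith)]
    have h3 : ((n : ℝ) + 1) * ((1 / ((n : ℝ) + 1)) * P) = P := by field_simp
    rw [← h3]
    calc ((n : ℝ) + 1) * (α₁ * (∫ x, u x * |TH742.HU.sg A (((1 / ((n : ℝ) + 1) : ℝ)) : ℂ) x|) +
          α₂ * ∫ x, u x * |TH742.HU.sg A (((1 / ((n : ℝ) + 1) : ℝ)) * Complex.I) x|) * (1 - δ) =
        ((n : ℝ) + 1) * ((1 - δ) * (α₁ * (∫ x, u x * |TH742.HU.sg A (((1 / ((n : ℝ) + 1) : ℝ)) : ℂ) x|) +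
          α₂ * ∫ x, u x * |TH742.HU.sg A (((1 / ((n : ℝ) + 1) : ℝ)) * Complex.I) x|)) := by ring
      _ ≤ _ := by gcongr
  -- `δ → 0`
  have hlim : Tendsto (fun δ : ℝ => ENNReal.ofReal (P / (1 - δ))) (𝓝[>] 0)
      (𝓝 (ENNReal.ofReal (P))) := by
    have h1 : ContinuousAt (fun δ : ℝ => P / (1 - δ)) 0 := by
      apply ContinuousAt.div continuousAt_const (by fun_prop)
      norm_num
    have h2 : Tendsto (fun δ : ℝ => P / (1 - δ)) (𝓝[>] 0) (𝓝 (P)) := by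
      have := h1.tendsto.mono_left (nhdsWithin_le_nhds (s := Ioi (0 : ℝ)))
      simpa using this
    exact (ENNReal.continuous_ofReal.tendsto _).comp h2
  refine ge_of_tendsto hlim ?_
  filter_upwards [Ioo_mem_nhdsGT (zero_lt_one (α := ℝ))] with δ hδ
  exact main δ hδ.1 hδ.2

end Pool.Agent.H745.HV
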