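import Mathlib
import Pool.Agent.H745.HV.Stm

/-! Project HV, leaf CALA: smoothness and norms of explicit vector fields in the plane. -/

set_option autoImplicit false
set_option linter.unusedSectionVars false
set_option linter.unusedVariables false

open MeasureTheory Set Metric Filter Topology
open scoped ENNReal Real

noncomputable section

namespace Pool.Agent.H745.HV

open Pool.Agent.TH304.MI Pool.Agent.TH703.HU

namespace PCALA

/-! ### smoothness of the elementary functions -/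

theorem cd_re : ContDiff ℝ 1 (fun z : ℂ => z.re) := Complex.reCLM.contDiff

theorem cd_im : ContDiff ℝ 1 (fun z : ℂ => z.im) := Complex.imCLM.contDiff

theorem cd_st : ContDiff ℝ 1 Real.smoothTransition := Real.smoothTransition.contDiff

theorem cd_aa (β : ℝ) : ContDiff ℝ 1 (fun z : ℂ => aa β z.re) := by
  unfold aa
  exact contDiff_const.add (contDiff_const.mul cd_re)

theorem cd_abs (z : ℂ) (hz : z.im ≠ 0) : ContDiffAt ℝ 1 (fun z : ℂ => |z.im|) z :=
  (contDiffAt_abs hz).comp z cd_im.contDiffAt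

theorem cd_mk {f g : ℂ → ℝ} {z : ℂ} (hf : ContDiffAt ℝ 1 f z) (hg : ContDiffAt ℝ 1 g z) :
    ContDiffAt ℝ 1 (fun z => (⟨f z, g z⟩ : ℂ)) z := by
  have h : (fun z => (⟨f z, g z⟩ : ℂ)) = fun z => Complex.equivRealProdCLM.symm (f z, g z) := by
    funext z
    rfl
  rw [h]
  exact (Complex.equivRealProdCLM.symm.contDiff (n := 1)).contDiffAt.comp z (hf.prodMk hg)

theorem aa_pos {L κ β : ℝ} (hp : Par L κ β) {z : ℂ} (hz : 0 < z.re) : 1 / 2 < aa β z.re := by
  unfold aa
  have := mul_pos hp.β0 hz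
  linarith

theorem cd_of_tsupport {f : ℂ → ℂ} (h : ∀ z ∈ tsupport f, ContDiffAt ℝ 1 f z) :
    ContDiff ℝ 1 f := by
  rw [contDiff_iff_contDiffAt]
  intro z
  by_cases hz : z ∈ tsupport f
  · exact h z hz
  · exact (contDiffAt_const (c := (0 : ℂ))).congr_of_eventuallyEq
      (notMem_tsupport_iff_eventuallyEq.1 hz)

/-- a point of the plane is below the graph of `a`, or `v ≠ 0` -/
theorem dich {L κ β : ℝ} (hp : Par L κ β) {z : ℂ} (hz : 0 < z.re) :
    (∀ᶠ y in 𝓝 z, |y.im| < aa β y.re) ∨ z.im ≠ 0 := by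
  by_cases h : z.im = 0
  · left
    have h1 : |z.im| < aa β z.re := by
      rw [h, abs_zero]
      linarith [aa_pos hp hz]
    have h2 : Continuous fun y : ℂ => |y.im| := Complex.continuous_im.abs
    have h3 : Continuous fun y : ℂ => aa β y.re := (cd_aa β).continuous
    exact h2.continuousAt.eventually_lt h3.continuousAt h1
  · right
    exact h

theorem cd_nu (L : ℝ) : ContDiff ℝ 1 (nu L) := by
  unfold nu
  exact cd_st.comp ((contDiff_const.mul (contDiff_const.sub cd_re)).sub contDiff_const)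

theorem st_zero {x : ℝ} (h : x ≤ 0) : Real.smoothTransition x = 0 :=
  Real.smoothTransition.zero_of_nonpos h

theorem st_one {x : ℝ} (h : 1 ≤ x) : Real.smoothTransition x = 1 :=
  Real.smoothTransition.one_of_one_le h

theorem cd_lm {L κ β δ : ℝ} (hp : Par L κ β) (hδ : 0 < δ) {z : ℂ} (hz : 0 < z.re) :
    ContDiffAt ℝ 1 (lm β δ) z := by
  rcases dich hp hz with h | h
  · refine (contDiffAt_const (c := (0 : ℝ))).congr_of_eventuallyEq ?_
    filter_upwards [h] with y hy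
    unfold lm
    exact st_zero (div_nonpos_of_nonpos_of_nonneg (by linarith) hδ.le)
  · unfold lm
    exact cd_st.contDiffAt.comp z (((cd_abs z h).sub (cd_aa β).contDiffAt).div_const δ)

theorem cd_NB {L κ β : ℝ} (hp : Par L κ β) {z : ℂ} (hz : 0 < z.re) :
    ContDiffAt ℝ 1 (NB L β) z := by
  unfold NB
  refine cd_mk ?_ ?_
  · exact ((cd_nu L).contDiffAt.mul contDiffAt_const).neg
  · refine (contDiffAt_const.sub (cd_nu L).contDiffAt).mul (contDiffAt_const.mul ?_)
    exact cd_im.contDiffAt.div (cd_aa β).contDiffAt (by linarith [aa_pos hp hz])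

theorem cd_NT {L β : ℝ} {z : ℂ} (hz : z.im ≠ 0) : ContDiffAt ℝ 1 (NT L β) z := by
  unfold NT
  refine cd_mk ?_ ?_
  · exact ((cd_nu L).contDiffAt.mul contDiffAt_const).neg
  · refine ContDiffAt.mul ?_ (((contDiffAt_const.sub (cd_nu L).contDiffAt).mul
      contDiffAt_const).sub ((cd_nu L).contDiffAt.mul contDiffAt_const))
    refine (contDiffAt_const (c := sgn z.im)).congr_of_eventuallyEq ?_
    rcases lt_or_gt_of_ne hz with h | h
    · have h1 : ∀ᶠ y : ℂ in 𝓝 z, y.im < 0 :=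
        Complex.continuous_im.continuousAt.eventually_lt_const h
      filter_upwards [h1] with y hy
      unfold sgn
      rw [if_neg (not_le.2 hy), if_neg (not_le.2 h)]
    · have h1 : ∀ᶠ y : ℂ in 𝓝 z, 0 < y.im :=
        Complex.continuous_im.continuousAt.eventually_const_lt h
      filter_upwards [h1] with y hy
      unfold sgn
      rw [if_pos hy.le, if_pos h.le]

theorem cd_NF {L κ β δ : ℝ} (hp : Par L κ β) (hδ : 0 < δ) {z : ℂ} (hz : 0 < z.re) :
    ContDiffAt ℝ 1 (NF L β δ) z := by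
  rcases dich hp hz with h | h
  · refine (cd_NB hp hz).congr_of_eventuallyEq ?_
    filter_upwards [h] with y hy
    unfold NF lm
    rw [st_zero (div_nonpos_of_nonpos_of_nonneg (by linarith) hδ.le), sub_zero, one_smul,
      zero_smul, add_zero]
  · unfold NF
    exact ((contDiffAt_const.sub (cd_lm hp hδ hz)).smul (cd_NB hp hz)).add
      ((cd_lm hp hδ hz).smul (cd_NT h))

theorem cd_ch {L κ β H ρ : ℝ} (hp : Par L κ β) (hH : 1 ≤ H) (hρ : 0 < ρ) (hρ2 : ρ ≤ 1 / 8)
    {z : ℂ} (hz : 0 < z.re) : ContDiffAt ℝ 1 (ch L β H ρ) z := by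
  unfold ch
  refine ContDiffAt.mul (ContDiffAt.mul ?_ ?_) ?_
  · exact (cd_st.comp ((cd_re.div_const ρ).sub contDiff_const)).contDiffAt
  · exact (cd_st.comp (((contDiff_const.sub cd_re).div_const ρ).sub contDiff_const)).contDiffAt
  · rcases dich hp hz with h | h
    · refine (contDiffAt_const (c := (1 : ℝ))).congr_of_eventuallyEq ?_
      filter_upwards [h] with y hy
      refine st_one ?_
      rw [le_sub_iff_add_le, le_div_iff₀ hρ]
      linarith
    · exact cd_st.contDiffAt.comp z ((((contDiffAt_const.add (cd_aa β).contDiffAt).sub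
        (cd_abs z h)).div_const ρ).sub contDiffAt_const)

theorem cd_hd {L κ β δ : ℝ} (hp : Par L κ β) (hδ : 0 < δ) {z : ℂ} (hz : 0 < z.re) :
    ContDiffAt ℝ 1 (hd β δ) z := by
  rcases dich hp hz with h | h
  · refine (cd_re.contDiffAt (x := z)).congr_of_eventuallyEq ?_
    filter_upwards [h] with y hy
    unfold hd
    rw [st_zero (div_nonpos_of_nonpos_of_nonneg (by linarith) hδ.le), mul_zero, mul_zero,
      add_zero]
  · unfold hd
    have h1 := (cd_abs z h).sub (cd_aa β).contDiffAt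
    exact cd_re.contDiffAt.add (contDiffAt_const.mul (h1.mul
      (cd_st.contDiffAt.comp z (h1.div_const δ))))

theorem cd_ze {L κ β δ : ℝ} (s η : ℝ) (hp : Par L κ β) (hδ : 0 < δ) {z : ℂ} (hz : 0 < z.re) :
    ContDiffAt ℝ 1 (ze β s η δ) z := by
  unfold ze
  exact contDiffAt_const.sub (cd_st.contDiffAt.comp z
    (((cd_hd hp hδ hz).sub contDiffAt_const).div_const η))

/-! ### norms -/

theorem st_nonneg (x : ℝ) : 0 ≤ Real.smoothTransition x := Real.smoothTransition.nonneg x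

theorem st_le_one (x : ℝ) : Real.smoothTransition x ≤ 1 := Real.smoothTransition.le_one x

theorem norm_mk_le {a b r : ℝ} (hr : 0 ≤ r) (h : a ^ 2 + b ^ 2 ≤ r ^ 2) : ‖(⟨a, b⟩ : ℂ)‖ ≤ r := by
  rw [← sq_le_sq₀ (norm_nonneg _) hr, Complex.sq_norm, Complex.normSq_apply]
  simp only
  nlinarith

theorem sgcg (β : ℝ) : sg β ^ 2 + cg β ^ 2 = 1 := by
  unfold sg cg
  have h : (1 + (β / 4) ^ 2) ≠ 0 := by positivity
  field_simp
  ring

theorem sg_nonneg {β : ℝ} (h : 0 < β) : 0 ≤ sg β := by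
  unfold sg
  positivity

theorem et_eq (β : ℝ) : et β = β * ((1 / 2 - (β / 4) ^ 2) / (1 + (β / 4) ^ 2)) := by
  unfold et cg sg
  have h : (1 + (β / 4) ^ 2) ≠ 0 := by positivity
  field_simp
  ring

theorem et_frac {β : ℝ} (h : 0 < β) (h8 : β ≤ 1 / 8) :
    0 ≤ (1 / 2 - (β / 4) ^ 2) / (1 + (β / 4) ^ 2) ∧
      (1 / 2 - (β / 4) ^ 2) / (1 + (β / 4) ^ 2) ≤ 1 / 2 := by
  constructor
  · refine div_nonneg ?_ (by positivity)
    nlinarith
  · rw [div_le_iff₀ (by positivity)]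
    nlinarith [sq_nonneg (β / 4)]

theorem et_bds {β : ℝ} (h : 0 < β) (h8 : β ≤ 1 / 8) : 0 ≤ et β ∧ et β ≤ 1 / 16 ∧
    0 ≤ et β / β ∧ et β / β ≤ 1 / 2 := by
  obtain ⟨h1, h2⟩ := et_frac h h8
  have h3 : et β / β = (1 / 2 - (β / 4) ^ 2) / (1 + (β / 4) ^ 2) := by
    rw [et_eq, mul_div_cancel_left₀ _ h.ne']
  refine ⟨?_, ?_, ?_, ?_⟩
  · rw [et_eq]
    exact mul_nonneg h.le h1
  · rw [et_eq]
    nlinarith
  · rw [h3]; exact h1
  · rw [h3]; exact h2

theorem NT_le {L β : ℝ} (h : 0 < β) (h8 : β ≤ 1 / 8) (z : ℂ) : ‖NT L β z‖ ≤ 1 := by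
  unfold NT
  refine norm_mk_le zero_le_one ?_
  have h1 := sgcg β
  have h2 := sg_nonneg h
  obtain ⟨h3, h4, -, -⟩ := et_bds h h8
  have h5 : 0 ≤ nu L z := st_nonneg _
  have h6 : nu L z ≤ 1 := st_le_one _
  have h7 : sgn z.im ^ 2 = 1 := by
    unfold sgn
    split_ifs <;> norm_num
  generalize nu L z = n at h5 h6
  generalize et β = e at h3 h4
  generalize sg β = a at h1 h2
  generalize cg β = c at h1
  have e1 : (-(n * c)) ^ 2 + (sgn z.im * ((1 - n) * e - n * a)) ^ 2 =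
      n ^ 2 * c ^ 2 + sgn z.im ^ 2 * ((1 - n) * e - n * a) ^ 2 := by ring
  rw [e1, h7, one_mul]
  have e2 : n ^ 2 * c ^ 2 + ((1 - n) * e - n * a) ^ 2 = n ^ 2 * (a ^ 2 + c ^ 2) +
      (1 - n) ^ 2 * e ^ 2 - 2 * (n * (1 - n) * (e * a)) := by ring
  rw [e2, h1]
  have e3 : 0 ≤ n * (1 - n) * (e * a) :=
    mul_nonneg (mul_nonneg h5 (by linarith)) (mul_nonneg h3 h2)
  have e4 : (1 - n) ^ 2 * e ^ 2 ≤ (1 - n) ^ 2 * 1 := by
    refine mul_le_mul_of_nonneg_left ?_ (sq_nonneg _)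
    nlinarith
  nlinarith

theorem NB_le {L κ β δ : ℝ} (hp : Par L κ β) (h8 : β ≤ 1 / 8) (hδ : δ ≤ 1 / 4) {z : ℂ}
    (hz : 0 < z.re) (hz2 : |z.im| ≤ aa β z.re + δ) : ‖NB L β z‖ ≤ 1 / 2 := by
  unfold NB
  refine norm_mk_le (by norm_num) ?_
  obtain ⟨h3, h4, h5, h6⟩ := et_bds hp.β0 h8
  have h7 : 0 ≤ nu L z := st_nonneg _
  have h9 : nu L z ≤ 1 := st_le_one _
  have ha := aa_pos hp hz
  have h10 : |z.im / aa β z.re| ≤ 3 / 2 := by
    rw [abs_div, abs_of_pos (show 0 < aa β z.re by linarith), div_le_iff₀ (by linarith)]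
    linarith
  have h11 : |et β * (z.im / aa β z.re)| ≤ 1 / 2 := by
    rw [abs_mul, abs_of_nonneg h3]
    calc et β * |z.im / aa β z.re| ≤ 1 / 16 * (3 / 2) :=
          mul_le_mul h4 h10 (abs_nonneg _) (by norm_num)
      _ ≤ 1 / 2 := by norm_num
  have h12 : (et β * (z.im / aa β z.re)) ^ 2 ≤ (1 / 2) ^ 2 := by
    rw [← sq_abs]
    exact pow_le_pow_left₀ (abs_nonneg _) h11 2
  have h13 : (et β / β) ^ 2 ≤ (1 / 2) ^ 2 := pow_le_pow_left₀ h5 h6 2
  generalize et β * (z.im / aa β z.re) = y at h12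
  generalize et β / β = t at h13
  generalize nu L z = n at h7 h9
  have e1 : (-(n * t)) ^ 2 + ((1 - n) * y) ^ 2 = n ^ 2 * t ^ 2 + (1 - n) ^ 2 * y ^ 2 := by ring
  rw [e1]
  have e2 : n ^ 2 * t ^ 2 ≤ n ^ 2 * (1 / 2) ^ 2 := mul_le_mul_of_nonneg_left h13 (sq_nonneg _)
  have e3 : (1 - n) ^ 2 * y ^ 2 ≤ (1 - n) ^ 2 * (1 / 2) ^ 2 :=
    mul_le_mul_of_nonneg_left h12 (sq_nonneg _)
  nlinarith

theorem NF_le {L κ β δ : ℝ} (hp : Par L κ β) (h8 : β ≤ 1 / 8) (hδ0 : 0 < δ) (hδ : δ ≤ 1 / 4)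
    {z : ℂ} (hz : 0 < z.re) : ‖NF L β δ z‖ ≤ 1 := by
  have h1 : 0 ≤ lm β δ z := st_nonneg _
  have h2 : lm β δ z ≤ 1 := st_le_one _
  have h3 := NT_le (L := L) hp.β0 h8 z
  unfold NF
  rcases le_or_gt |z.im| (aa β z.re + δ) with h | h
  · have h4 := NB_le hp h8 hδ hz h
    refine (norm_add_le _ _).trans ?_
    rw [norm_smul, norm_smul, Real.norm_of_nonneg h1, Real.norm_of_nonneg (by linarith)]
    nlinarith
  · have h5 : lm β δ z = 1 := by
      unfold lm
      refine st_one ?_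
      rw [le_div_iff₀ hδ0]
      linarith
    rw [h5, sub_self, zero_smul, one_smul, zero_add]
    exact h3

theorem NF_le_TT {L κ β δ : ℝ} (hp : Par L κ β) (h8 : β ≤ 1 / 8) (hδ0 : 0 < δ) (hδ : δ ≤ 1 / 4)
    {z : ℂ} (hz : z ∈ TT L β) : ‖NF L β δ z‖ ≤ 3 / 4 := by
  have h5 : lm β δ z = 0 := by
    unfold lm
    exact st_zero (div_nonpos_of_nonpos_of_nonneg (by linarith [hz.2.2]) hδ0.le)
  unfold NF
  rw [h5, sub_zero, zero_smul, one_smul, add_zero]
  have h4 := NB_le (δ := δ) hp h8 hδ hz.1 (by linarith [hz.2.2])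
  linarith

theorem ch_bds (L β H ρ : ℝ) (z : ℂ) : 0 ≤ ch L β H ρ z ∧ ch L β H ρ z ≤ 1 := by
  unfold ch
  have h1 := st_nonneg (z.re / ρ - 1)
  have h2 := st_le_one (z.re / ρ - 1)
  have h3 := st_nonneg ((L - z.re) / ρ - 1)
  have h4 := st_le_one ((L - z.re) / ρ - 1)
  have h5 := st_nonneg ((H + aa β z.re - |z.im|) / ρ - 1)
  have h6 := st_le_one ((H + aa β z.re - |z.im|) / ρ - 1)
  exact ⟨mul_nonneg (mul_nonneg h1 h3) h5, mul_le_one₀ (mul_le_one₀ h2 h3 h4) h5 h6⟩

/-- the compact set containing the support -/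
def KK (L β H ρ : ℝ) : Set ℂ :=
  {z | ρ ≤ z.re ∧ z.re ≤ L - ρ ∧ |z.im| ≤ H + aa β z.re - ρ}

theorem KK_closed (L β H ρ : ℝ) : IsClosed (KK L β H ρ) := by
  unfold KK
  refine (isClosed_le continuous_const Complex.continuous_re).inter
    ((isClosed_le Complex.continuous_re continuous_const).inter
    (isClosed_le Complex.continuous_im.abs ?_))
  exact (continuous_const.add (cd_aa β).continuous).sub continuous_const

theorem KK_compact {L κ β : ℝ} (hp : Par L κ β) (H ρ : ℝ) (hρ : 0 < ρ) :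
    IsCompact (KK L β H ρ) := by
  refine Metric.isCompact_of_isClosed_isBounded (KK_closed L β H ρ) ?_
  rw [isBounded_iff_forall_norm_le]
  refine ⟨L + (|H| + aa β L), fun z hz => ?_⟩
  refine (Complex.norm_le_abs_re_add_abs_im z).trans ?_
  have h1 : |z.re| ≤ L := by
    rw [abs_of_nonneg (by linarith [hz.1])]
    linarith [hz.2.1]
  have h2 : aa β z.re ≤ aa β L := by
    unfold aa
    have := mul_le_mul_of_nonneg_left (show z.re ≤ L by linarith [hz.2.1]) hp.β0.le
    linarith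
  have h3 := le_abs_self H
  have h4 := hz.2.2
  linarith

theorem KK_sub (L β H ρ : ℝ) (hρ : 0 < ρ) : KK L β H ρ ⊆ DD L β H := by
  intro z hz
  refine ⟨by linarith [hz.1], by linarith [hz.2.1], by linarith [hz.2.2]⟩

theorem ch_supp {L β H ρ : ℝ} (hρ : 0 < ρ) {z : ℂ} (h : ch L β H ρ z ≠ 0) :
    z ∈ KK L β H ρ := by
  unfold ch at h
  have h1 : Real.smoothTransition (z.re / ρ - 1) ≠ 0 := fun h' => h (by rw [h', zero_mul, zero_mul])
  have h2 : Real.smoothTransition ((L - z.re) / ρ - 1) ≠ 0 := fun h' =>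
    h (by rw [h', mul_zero, zero_mul])
  have h3 : Real.smoothTransition ((H + aa β z.re - |z.im|) / ρ - 1) ≠ 0 := fun h' =>
    h (by rw [h', mul_zero])
  have key : ∀ x : ℝ, Real.smoothTransition (x / ρ - 1) ≠ 0 → ρ ≤ x := by
    intro x hx
    by_contra hlt
    refine hx (st_zero ?_)
    have : x / ρ ≤ 1 := by
      rw [div_le_one hρ]
      linarith
    linarith
  have k1 := key _ h1
  have k2 := key _ h2
  have k3 := key _ h3
  exact ⟨k1, by linarith, by linarith⟩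

theorem XF_supp {L κ β H δ ρ : ℝ} {k : ℝ → ℝ} (hρ : 0 < ρ) :
    tsupport (XF L κ β H k δ ρ) ⊆ KK L β H ρ := by
  refine closure_minimal ?_ (KK_closed L β H ρ)
  intro z hz
  refine ch_supp hρ (H := H) (L := L) (β := β) fun h => hz ?_
  unfold XF
  rw [h, zero_mul, zero_smul]

end PCALA

open PCALA in
/-- **CALA.** -/
theorem cala (w0 : S_W0) (w2 : S_W2) : S_CALA := by
  intro L κ β H K δ₀ k hp h8 hH hK hδ₀ hδ₀' hk δ ρ hδ0 hδ hρ hρ2
  obtain ⟨w_nonneg, w_le, w_pos, DD_open, w_cd, -, -, -⟩ :=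
    w0 L κ β H K δ₀ k hp hH (by linarith) hδ₀ hk
  obtain ⟨-, w_TT, -, -⟩ := w2 L κ β H K δ₀ k hp hH hK hδ₀ hδ₀' hk
  have w_zero : ∀ z, z ∉ DD L β H → ww L κ β k z = 0 := by
    intro z hz
    rw [← w_pos] at hz
    exact le_antisymm (not_lt.1 hz) (w_nonneg z)
  have XF_cd : ∀ z ∈ DD L β H, ContDiffAt ℝ 1 (XF L κ β H k δ ρ) z := by
    intro z hz
    unfold XF
    exact ((cd_ch hp hH hρ hρ2 hz.1).mul (w_cd.contDiffAt (DD_open.mem_nhds hz))).smul
      (cd_NF hp hδ0 hz.1)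
  have XF_norm : ∀ z, ‖XF L κ β H k δ ρ z‖ ≤ ww L κ β k z := by
    intro z
    by_cases hz : z ∈ DD L β H
    · unfold XF
      rw [norm_smul, Real.norm_of_nonneg (mul_nonneg (ch_bds L β H ρ z).1 (w_nonneg z))]
      have h1 := NF_le hp h8 hδ0 hδ hz.1
      have h2 := (ch_bds L β H ρ z).2
      calc ch L β H ρ z * ww L κ β k z * ‖NF L β δ z‖ ≤ 1 * ww L κ β k z * 1 := by
            refine mul_le_mul (mul_le_mul_of_nonneg_right h2 (w_nonneg z)) h1 (norm_nonneg _)
              (by rw [one_mul]; exact w_nonneg z)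
        _ = ww L κ β k z := by ring
    · have h1 : XF L κ β H k δ ρ z = 0 := by
        unfold XF
        rw [w_zero z hz, mul_zero, zero_smul]
      rw [h1, norm_zero]
      exact w_nonneg z
  have XF_TT : ∀ z ∈ TT L β, ‖XF L κ β H k δ ρ z‖ ≤ 3 / 4 * ww L κ β k z := by
    intro z hz
    unfold XF
    rw [norm_smul, Real.norm_of_nonneg (mul_nonneg (ch_bds L β H ρ z).1 (w_nonneg z))]
    have h1 := NF_le_TT hp h8 hδ0 hδ hz
    have h2 := (ch_bds L β H ρ z).2
    calc ch L β H ρ z * ww L κ β k z * ‖NF L β δ z‖ ≤ 1 * ww L κ β k z * (3 / 4) := by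
          refine mul_le_mul (mul_le_mul_of_nonneg_right h2 (w_nonneg z)) h1 (norm_nonneg _)
            (by rw [one_mul]; exact w_nonneg z)
      _ = 3 / 4 * ww L κ β k z := by ring
  have TT_sub : TT L β ⊆ DD L β H := fun z hz => ⟨hz.1, hz.2.1, by linarith [hz.2.2]⟩
  refine ⟨⟨?_, ?_, ?_, XF_norm⟩, XF_TT, fun s η hη => ⟨fun z hz => cd_ze s η hp hδ0 hz.1, ?_⟩⟩
  · exact cd_of_tsupport fun z hz => XF_cd z (KK_sub L β H ρ hρ (XF_supp hρ hz))
  · exact IsCompact.of_isClosed_subset (KK_compact hp H ρ hρ) (isClosed_tsupport _) (XF_supp hρ)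
  · rw [w_pos]
    exact (XF_supp hρ).trans (KK_sub L β H ρ hρ)
  · intro Y₁ Y hY₁ hY
    have Y₁_DD : tsupport Y₁ ⊆ DD L β H := by
      rw [← w_pos]
      exact hY₁.sub
    have Y_DD : tsupport Y ⊆ DD L β H := hY.sub.trans TT_sub
    have hsup : tsupport (ZF L κ β H k s η δ ρ Y₁ Y) ⊆
        tsupport Y₁ ∪ (tsupport Y ∪ KK L β H ρ) := by
      refine closure_minimal ?_ ((isClosed_tsupport _).union ((isClosed_tsupport _).union
        (KK_closed L β H ρ)))
      intro z hz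
      by_contra hn
      simp only [Set.mem_union, not_or] at hn
      refine hz ?_
      unfold ZF
      rw [image_eq_zero_of_notMem_tsupport hn.1, image_eq_zero_of_notMem_tsupport hn.2.1,
        image_eq_zero_of_notMem_tsupport (fun h => hn.2.2 (XF_supp hρ h)), smul_zero, sub_zero,
        smul_zero, add_zero]
    have hsup2 : tsupport Y₁ ∪ (tsupport Y ∪ KK L β H ρ) ⊆ DD L β H :=
      union_subset Y₁_DD (union_subset Y_DD (KK_sub L β H ρ hρ))
    refine ⟨?_, ?_, ?_, ?_⟩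
    · refine cd_of_tsupport fun z hz => ?_
      have hz' := hsup2 (hsup hz)
      unfold ZF
      have h1 := cd_ze s η hp hδ0 hz'.1
      exact (h1.smul hY₁.cd.contDiffAt).add ((contDiffAt_const.sub h1).smul
        (hY.cd.contDiffAt.sub (XF_cd z hz')))
    · exact IsCompact.of_isClosed_subset (hY₁.cs.isCompact.union (hY.cs.isCompact.union
        (KK_compact hp H ρ hρ))) (isClosed_tsupport _) hsup
    · rw [w_pos]
      exact hsup.trans hsup2
    · intro z
      have h1 : 0 ≤ ze β s η δ z := by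
        unfold ze
        linarith [st_le_one ((hd β δ z - s) / η)]
      have h2 : ze β s η δ z ≤ 1 := by
        unfold ze
        linarith [st_nonneg ((hd β δ z - s) / η)]
      have h3 : ‖Y z - XF L κ β H k δ ρ z‖ ≤ ww L κ β k z := by
        by_cases hz : z ∈ TT L β
        · have e1 := XF_TT z hz
          have e2 := w_TT z hz
          have e3 := hY.le z
          refine (norm_sub_le _ _).trans ?_
          linarith
        · have e1 : Y z = 0 := image_eq_zero_of_notMem_tsupport fun h => hz (hY.sub h)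
          rw [e1, zero_sub, norm_neg]
          exact XF_norm z
      have h4 := hY₁.le z
      unfold ZF
      refine (norm_add_le _ _).trans ?_
      rw [norm_smul, norm_smul, Real.norm_of_nonneg h1, Real.norm_of_nonneg (by linarith)]
      nlinarith

end Pool.Agent.H745.HV
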