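import Mathlib
import Pool.Agent.H745.HV.Stm

/-!
Project HV, task CALB (helper52): the divergence of the calibrating field.
-/

set_option autoImplicit false

open MeasureTheory Set Metric Filter Topology
open scoped ENNReal Real

noncomputable section

namespace Pool.Agent.H745.HV

open Pool.Agent.TH304.MI Pool.Agent.TH703.HU

namespace PCALB

/-! ### The smooth transition -/

/-- the derivative of the smooth transition -/
def st' (t : ℝ) : ℝ := deriv Real.smoothTransition t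

theorem st_hasDerivAt (t : ℝ) : HasDerivAt Real.smoothTransition (st' t) t :=
  ((Real.smoothTransition.contDiff (n := 1)).differentiable (by norm_num) t).hasDerivAt

theorem st'_nonneg (t : ℝ) : 0 ≤ st' t := Real.smoothTransition.monotone.deriv_nonneg

theorem st'_neg {t : ℝ} (h : t < 0) : st' t = 0 := by
  have h1 : Real.smoothTransition =ᶠ[𝓝 t] fun _ => 0 := by
    filter_upwards [Iio_mem_nhds h] with x hx
    exact Real.smoothTransition.zero_of_nonpos (le_of_lt hx)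
  unfold st'
  rw [h1.deriv_eq, deriv_const]

theorem st'_gt {t : ℝ} (h : 1 < t) : st' t = 0 := by
  have h1 : Real.smoothTransition =ᶠ[𝓝 t] fun _ => 1 := by
    filter_upwards [Ioi_mem_nhds h] with x hx
    exact Real.smoothTransition.one_of_one_le (le_of_lt hx)
  unfold st'
  rw [h1.deriv_eq, deriv_const]

theorem st'_bdd : ∃ B₀ : ℝ, 0 ≤ B₀ ∧ ∀ t, st' t ≤ B₀ := by
  have hc : Continuous st' :=
    (Real.smoothTransition.contDiff (n := 1)).continuous_deriv le_rfl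
  obtain ⟨C, hC⟩ := (isCompact_Icc (a := (0 : ℝ)) (b := 1)).exists_bound_of_continuousOn
    hc.continuousOn
  refine ⟨max C 0, le_max_right _ _, fun t => ?_⟩
  by_cases h0 : t < 0
  · rw [st'_neg h0]; exact le_max_right _ _
  by_cases h1 : 1 < t
  · rw [st'_gt h1]; exact le_max_right _ _
  · exact ((le_abs_self _).trans (hC t ⟨not_lt.1 h0, not_lt.1 h1⟩)).trans (le_max_left _ _)

/-! ### The divergence by derivatives along lines -/

theorem mk_hasDerivAt_re (x v : ℝ) : HasDerivAt (fun t : ℝ => (⟨t, v⟩ : ℂ)) 1 x := by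
  have h : (fun t : ℝ => (⟨t, v⟩ : ℂ)) = fun t : ℝ => (t : ℂ) + (v : ℂ) * Complex.I := by
    funext t
    exact Complex.mk_eq_add_mul_I t v
  rw [h]
  exact (Complex.ofRealCLM.hasDerivAt (x := x)).add_const _

theorem mk_hasDerivAt_im (x v : ℝ) :
    HasDerivAt (fun t : ℝ => (⟨x, t⟩ : ℂ)) Complex.I v := by
  have h : (fun t : ℝ => (⟨x, t⟩ : ℂ)) = fun t : ℝ => (x : ℂ) + (t : ℂ) * Complex.I := by
    funext t
    exact Complex.mk_eq_add_mul_I x t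
  rw [h]
  have h1 := ((Complex.ofRealCLM.hasDerivAt (x := v)).mul_const Complex.I).const_add (x : ℂ)
  refine h1.congr_deriv ?_
  simp

theorem dv2_eq {F : ℂ → ℂ} {x v D₁ D₂ : ℝ} (hF : DifferentiableAt ℝ F ⟨x, v⟩)
    (h1 : HasDerivAt (fun t : ℝ => (F ⟨t, v⟩).re) D₁ x)
    (h2 : HasDerivAt (fun t : ℝ => (F ⟨x, t⟩).im) D₂ v) : dv2 F ⟨x, v⟩ = D₁ + D₂ := by
  have e1 : HasDerivAt (fun t : ℝ => F ⟨t, v⟩) (fderiv ℝ F ⟨x, v⟩ 1) x :=
    hF.hasFDerivAt.comp_hasDerivAt x (mk_hasDerivAt_re x v)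
  have e2 : HasDerivAt (fun t : ℝ => F ⟨x, t⟩) (fderiv ℝ F ⟨x, v⟩ Complex.I) v :=
    hF.hasFDerivAt.comp_hasDerivAt v (mk_hasDerivAt_im x v)
  have f1 : HasDerivAt (fun t : ℝ => (F ⟨t, v⟩).re) (fderiv ℝ F ⟨x, v⟩ 1).re x :=
    Complex.reCLM.hasFDerivAt.comp_hasDerivAt x e1
  have f2 : HasDerivAt (fun t : ℝ => (F ⟨x, t⟩).im) (fderiv ℝ F ⟨x, v⟩ Complex.I).im v :=
    Complex.imCLM.hasFDerivAt.comp_hasDerivAt v e2
  unfold dv2
  rw [f1.unique h1, f2.unique h2]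

theorem ww_re {w : ℂ → ℝ} {x v : ℝ} (hw : DifferentiableAt ℝ w ⟨x, v⟩) :
    HasDerivAt (fun t : ℝ => w ⟨t, v⟩) (fderiv ℝ w ⟨x, v⟩ 1) x :=
  hw.hasFDerivAt.comp_hasDerivAt x (mk_hasDerivAt_re x v)

theorem ww_im {w : ℂ → ℝ} {x v : ℝ} (hw : DifferentiableAt ℝ w ⟨x, v⟩) :
    HasDerivAt (fun t : ℝ => w ⟨x, t⟩) (fderiv ℝ w ⟨x, v⟩ Complex.I) v :=
  hw.hasFDerivAt.comp_hasDerivAt v (mk_hasDerivAt_im x v)

/-! ### Constants -/

structure Cst (β c σ et θ : ℝ) : Prop where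
  β0 : 0 < β
  β8 : β ≤ 1 / 8
  c1 : c ≤ 1
  c0 : 0 ≤ c
  σ0 : 0 ≤ σ
  et0 : 0 < et
  eteq : et = c * β - σ
  etβ : et ≤ β / 2
  θ0 : 0 ≤ θ
  θ1 : θ ≤ 1 / 2
  βθ : β * θ = et

theorem cst {β : ℝ} (h0 : 0 < β) (h1 : β ≤ 1 / 8) :
    Cst β (cg β) (sg β) (et β) (et β / β) := by
  have hp : 0 < 1 + (β / 4) ^ 2 := by positivity
  have hsq : (β / 4) ^ 2 ≤ 1 / 1024 := by nlinarith
  have e1 : et β = β * (1 / 2 - (β / 4) ^ 2) / (1 + (β / 4) ^ 2) := by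
    unfold et cg sg
    field_simp
    ring
  have e2 : 0 < et β := by
    rw [e1]
    apply div_pos _ hp
    apply mul_pos h0
    linarith
  have e3 : et β ≤ β / 2 := by
    rw [e1, div_le_iff₀ hp]
    nlinarith [sq_nonneg (β / 4)]
  refine ⟨h0, h1, ?_, ?_, ?_, e2, ?_, e3, ?_, ?_, ?_⟩
  · unfold cg
    rw [div_le_one hp]
    nlinarith [sq_nonneg (β / 4)]
  · unfold cg
    apply div_nonneg _ hp.le
    linarith
  · unfold sg
    positivity
  · rfl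
  · exact (div_pos e2 h0).le
  · rw [div_le_iff₀ h0]
    linarith
  · field_simp

/-! ### The inequalities -/

/-- the first component of the direction -/
def N1 (l ν θ c : ℝ) : ℝ := (1 - l) * -(ν * θ) + l * -(ν * c)

/-- the second component of the direction -/
def N2 (l ν et σ s m : ℝ) : ℝ :=
  (1 - l) * ((1 - ν) * (et * (s * m))) + l * (s * ((1 - ν) * et - ν * σ))

section Ineq

variable {B₀ κ β c σ et θ : ℝ}

theorem ineq_chi (hC : Cst β c σ et θ) {l ν s m χ₁ χ₂ χ₃ p₁ p₂ p₃ : ℝ}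
    (hl0 : 0 ≤ l) (hl1 : l ≤ 1) (hν0 : 0 ≤ ν) (hν1 : ν ≤ 1) (hs : s * s = 1) (hm : 0 ≤ m)
    (h1 : 0 ≤ χ₁) (h2 : 0 ≤ χ₂) (h3 : 0 ≤ χ₃) (hp1 : 0 ≤ p₁) (hp2 : p₂ * ν = 0)
    (hp3 : 0 ≤ p₃) :
    (p₁ * χ₂ * χ₃ - χ₁ * p₂ * χ₃ + χ₁ * χ₂ * (β * p₃)) * N1 l ν θ c +
      -(s * (χ₁ * χ₂ * p₃)) * N2 l ν et σ s m ≤ 0 := by
  obtain ⟨β0, β8, c1, c0, σ0, et0, eteq, etβ, θ0, θ1, βθ⟩ := hC
  have hl : 0 ≤ 1 - l := by linarith
  have hν : 0 ≤ 1 - ν := by linarith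
  have hN1 : N1 l ν θ c ≤ 0 := by
    unfold N1
    have e1 : 0 ≤ (1 - l) * (ν * θ) := by positivity
    have e2 : 0 ≤ l * (ν * c) := by positivity
    nlinarith
  have hpN : p₂ * N1 l ν θ c = 0 := by
    unfold N1
    have : p₂ * ((1 - l) * -(ν * θ) + l * -(ν * c)) =
      (p₂ * ν) * ((1 - l) * -θ + l * -c) := by ring
    rw [this, hp2, zero_mul]
  have e3 : β * N1 l ν θ c - s * N2 l ν et σ s m =
      -((1 - l) * (ν * et + (1 - ν) * (et * m)) + l * (ν * et + (1 - ν) * et)) := by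
    unfold N1 N2
    have h4 : s * ((1 - l) * ((1 - ν) * (et * (s * m))) + l * (s * ((1 - ν) * et - ν * σ))) =
      (s * s) * ((1 - l) * ((1 - ν) * (et * m)) + l * ((1 - ν) * et - ν * σ)) := by ring
    rw [h4, hs, ← βθ]
    have h5 : β * θ = c * β - σ := βθ.trans eteq
    have h6 : σ = c * β - β * θ := by linarith
    rw [h6]
    ring
  have e4 : β * N1 l ν θ c - s * N2 l ν et σ s m ≤ 0 := by
    rw [e3]
    have : 0 ≤ (1 - l) * (ν * et + (1 - ν) * (et * m)) + l * (ν * et + (1 - ν) * et) := by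
      positivity
    linarith
  have e5 : (p₁ * χ₂ * χ₃ - χ₁ * p₂ * χ₃ + χ₁ * χ₂ * (β * p₃)) * N1 l ν θ c +
      -(s * (χ₁ * χ₂ * p₃)) * N2 l ν et σ s m =
      (p₁ * χ₂ * χ₃) * N1 l ν θ c - χ₁ * χ₃ * (p₂ * N1 l ν θ c) +
        (χ₁ * χ₂ * p₃) * (β * N1 l ν θ c - s * N2 l ν et σ s m) := by ring
  rw [e5, hpN]
  have e6 : (p₁ * χ₂ * χ₃) * N1 l ν θ c ≤ 0 :=
    mul_nonpos_of_nonneg_of_nonpos (by positivity) hN1
  have e7 : (χ₁ * χ₂ * p₃) * (β * N1 l ν θ c - s * N2 l ν et σ s m) ≤ 0 :=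
    mul_nonpos_of_nonneg_of_nonpos (by positivity) e4
  linarith

theorem ineq_w (hC : Cst β c σ et θ) {l ν s m W q kr kR : ℝ}
    (hl0 : 0 ≤ l) (hl1 : l ≤ 1) (hν0 : 0 ≤ ν) (hν1 : ν ≤ 1) (hs : s * s = 1) (hm : 0 ≤ m)
    (hκ : 0 ≤ κ) (hW : 0 ≤ W) (hq : 3 / 4 ≤ q) (hkR : 0 ≤ kR) (hk : kR ≤ kr) :
    (-κ * W + q * (β * (kr + kR))) * N1 l ν θ c + (s * (q * (kR - kr))) * N2 l ν et σ s m ≤
      κ * W := by
  obtain ⟨β0, β8, c1, c0, σ0, et0, eteq, etβ, θ0, θ1, βθ⟩ := hC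
  have hl : 0 ≤ 1 - l := by linarith
  have hν : 0 ≤ 1 - ν := by linarith
  have hq0 : 0 ≤ q := by linarith
  have hkr : 0 ≤ kr := hkR.trans hk
  have hd : 0 ≤ kr - kR := by linarith
  have hcβ : 0 ≤ c * β - σ := by rw [← eteq]; exact et0.le
  have e1 : (-κ * W + q * (β * (kr + kR))) * N1 l ν θ c +
      (s * (q * (kR - kr))) * N2 l ν et σ s m =
      (κ * W) * ((1 - l) * (ν * θ) + l * (ν * c)) -
      ((1 - l) * (q * (β * (kr + kR)) * (ν * θ) + q * (kr - kR) * ((1 - ν) * (et * m))) +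
        l * (ν * (q * ((c * β - σ) * kr + (c * β + σ) * kR)) +
          (1 - ν) * (et * (q * (kr - kR))))) := by
    unfold N1 N2
    have h4 : (s * (q * (kR - kr))) *
        ((1 - l) * ((1 - ν) * (et * (s * m))) + l * (s * ((1 - ν) * et - ν * σ))) =
      (s * s) * ((q * (kR - kr)) *
        ((1 - l) * ((1 - ν) * (et * m)) + l * ((1 - ν) * et - ν * σ))) := by ring
    rw [h4, hs]
    ring
  have e2 : 0 ≤ (1 - l) * (q * (β * (kr + kR)) * (ν * θ) +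
      q * (kr - kR) * ((1 - ν) * (et * m))) +
        l * (ν * (q * ((c * β - σ) * kr + (c * β + σ) * kR)) +
          (1 - ν) * (et * (q * (kr - kR)))) := by
    positivity
  have e3 : (1 - l) * (ν * θ) + l * (ν * c) ≤ 1 := by
    have a1 : ν * θ ≤ 1 := by nlinarith
    have a2 : ν * c ≤ 1 := by nlinarith
    nlinarith
  have e4 : (κ * W) * ((1 - l) * (ν * θ) + l * (ν * c)) ≤ (κ * W) * 1 :=
    mul_le_mul_of_nonneg_left e3 (by positivity)
  rw [e1]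
  linarith

theorem ineq_w1 (hC : Cst β c σ et θ) {ν s m W q kr kR K : ℝ}
    (hν0 : 0 ≤ ν) (hν1 : ν ≤ 1) (hs : s * s = 1)
    (hκ : 0 ≤ κ) (hW : 0 ≤ W) (hq : 3 / 4 ≤ q) (hkR : 0 ≤ kR) (hk : kR ≤ kr / 8)
    (hK : 2 * K * W ≤ kr) :
    (-κ * W + q * (β * (kr + kR))) * N1 1 ν θ c + (s * (q * (kR - kr))) * N2 1 ν et σ s m ≤
      κ * W - 21 / 16 * (et * K * W) := by
  obtain ⟨β0, β8, c1, c0, σ0, et0, eteq, etβ, θ0, θ1, βθ⟩ := hC
  have hν : 0 ≤ 1 - ν := by linarith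
  have hq0 : 0 ≤ q := by linarith
  have hkr : 0 ≤ kr := by linarith
  have e1 : (-κ * W + q * (β * (kr + kR))) * N1 1 ν θ c +
      (s * (q * (kR - kr))) * N2 1 ν et σ s m =
      (κ * W) * (ν * c) -
      (ν * (q * ((c * β - σ) * kr + (c * β + σ) * kR)) +
          (1 - ν) * (et * (q * (kr - kR)))) := by
    unfold N1 N2
    have h4 : (s * (q * (kR - kr))) *
        ((1 - 1) * ((1 - ν) * (et * (s * m))) + 1 * (s * ((1 - ν) * et - ν * σ))) =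
      (s * s) * ((q * (kR - kr)) * ((1 - ν) * et - ν * σ)) := by ring
    rw [h4, hs]
    ring
  have e2 : ν * (q * (et * (7 / 8 * kr))) ≤
      ν * (q * ((c * β - σ) * kr + (c * β + σ) * kR)) := by
    rw [← eteq]
    have a1 : 0 ≤ (c * β + σ) * kR := by positivity
    have a2 : 0 ≤ et * kr := by positivity
    gcongr
    linarith
  have e3 : (1 - ν) * (et * (q * (7 / 8 * kr))) ≤ (1 - ν) * (et * (q * (kr - kR))) := by
    gcongr
    linarith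
  have e4 : (κ * W) * (ν * c) ≤ (κ * W) * 1 := by
    apply mul_le_mul_of_nonneg_left _ (by positivity)
    nlinarith
  have e5 : ν * (q * (et * (7 / 8 * kr))) + (1 - ν) * (et * (q * (7 / 8 * kr))) =
      q * (7 / 8 * (et * kr)) := by ring
  have e6 : 3 / 4 * (7 / 8 * (et * kr)) ≤ q * (7 / 8 * (et * kr)) := by
    have a2 : 0 ≤ et * kr := by positivity
    gcongr
  have e7 : et * (2 * K * W) ≤ et * kr := mul_le_mul_of_nonneg_left hK et0.le
  rw [e1]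
  nlinarith

theorem ineq_div (hC : Cst β c σ et θ) {l ν s m n d a : ℝ}
    (hl0 : 0 ≤ l) (hl1 : l ≤ 1) (hν0 : 0 ≤ ν) (hν1 : ν ≤ 1) (hs : s * s = 1)
    (hn : 0 ≤ n) (hn4 : n ≤ 4 * B₀) (_ : 0 ≤ B₀) (ha : 1 / 2 ≤ a) (hd : 0 ≤ d)
    (hdm : d = 0 ∨ 1 ≤ m) :
    ((β * d) * -(ν * θ) + (1 - l) * (n * θ) + ((-(β * d)) * -(ν * c) + l * (n * c))) +
      (-(s * d) * ((1 - ν) * (et * (s * m))) + (1 - l) * ((1 - ν) * (et / a)) +
        (s * d) * (s * ((1 - ν) * et - ν * σ))) ≤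
      (1 - l) * (4 * B₀ + 1) + l * (4 * B₀) := by
  obtain ⟨β0, β8, c1, c0, σ0, et0, eteq, etβ, θ0, θ1, βθ⟩ := hC
  have hl : 0 ≤ 1 - l := by linarith
  have hν : 0 ≤ 1 - ν := by linarith
  have e1 : ((β * d) * -(ν * θ) + (1 - l) * (n * θ) + ((-(β * d)) * -(ν * c) + l * (n * c))) +
      (-(s * d) * ((1 - ν) * (et * (s * m))) + (1 - l) * ((1 - ν) * (et / a)) +
        (s * d) * (s * ((1 - ν) * et - ν * σ))) =
      (1 - l) * (n * θ + (1 - ν) * (et / a)) + l * (n * c) +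
        d * ((1 - ν) * (et * (1 - m))) := by
    have h1 : -(s * d) * ((1 - ν) * (et * (s * m))) =
      (s * s) * (-(d * ((1 - ν) * (et * m)))) := by ring
    have h2 : (s * d) * (s * ((1 - ν) * et - ν * σ)) =
      (s * s) * (d * ((1 - ν) * et - ν * σ)) := by ring
    rw [h1, h2, hs]
    have h6 : σ = c * β - β * θ := by linarith [βθ.trans eteq]
    have h7 : et = β * θ := βθ.symm
    rw [h6, h7]
    ring
  have e2 : d * ((1 - ν) * (et * (1 - m))) ≤ 0 := by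
    rcases hdm with h | h
    · rw [h, zero_mul]
    · have a1 : et * (1 - m) ≤ 0 := mul_nonpos_of_nonneg_of_nonpos et0.le (by linarith)
      exact mul_nonpos_of_nonneg_of_nonpos hd (mul_nonpos_of_nonneg_of_nonpos hν a1)
  have e3 : n * θ + (1 - ν) * (et / a) ≤ 4 * B₀ + 1 := by
    have a1 : n * θ ≤ 4 * B₀ * 1 := by
      apply mul_le_mul hn4 (by linarith) θ0 (by linarith)
    have a2 : et / a ≤ 1 := by
      rw [div_le_one (by linarith)]
      linarith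
    have a3 : 0 ≤ et / a := div_nonneg et0.le (by linarith)
    have a4 : (1 - ν) * (et / a) ≤ 1 * 1 := mul_le_mul (by linarith) a2 a3 zero_le_one
    linarith
  have e4 : n * c ≤ 4 * B₀ := by
    have := mul_le_mul hn4 c1 c0 (by linarith)
    linarith
  rw [e1]
  have e5 := mul_le_mul_of_nonneg_left e3 hl
  have e6 := mul_le_mul_of_nonneg_left e4 hl0
  linarith

end Ineq

/-! ### The derivatives -/

section Deriv

variable {L H δ ρ x v : ℝ} {k : ℝ → ℝ}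

theorem d_chi1 (ρ x : ℝ) : HasDerivAt (fun t : ℝ => Real.smoothTransition (t / ρ - 1))
    (st' (x / ρ - 1) / ρ) x := by
  have h := (st_hasDerivAt (x / ρ - 1)).comp x (((hasDerivAt_id x).div_const ρ).sub_const 1)
  refine h.congr_deriv ?_
  ring

theorem d_chi2 (L ρ x : ℝ) : HasDerivAt (fun t : ℝ => Real.smoothTransition ((L - t) / ρ - 1))
    (-(st' ((L - x) / ρ - 1) / ρ)) x := by
  have h := (st_hasDerivAt ((L - x) / ρ - 1)).comp x
    ((((hasDerivAt_id x).const_sub L).div_const ρ).sub_const 1)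
  refine h.congr_deriv ?_
  ring

theorem d_aa (β x : ℝ) : HasDerivAt (fun t : ℝ => aa β t) β x := by
  have h := ((hasDerivAt_id x).const_mul β).const_add (1 / 2)
  unfold aa
  exact h.congr_deriv (by ring)

theorem d_chi3 (β H ρ x v : ℝ) :
    HasDerivAt (fun t : ℝ => Real.smoothTransition ((H + aa β t - |v|) / ρ - 1))
    (β * (st' ((H + aa β x - |v|) / ρ - 1) / ρ)) x := by
  have h := (st_hasDerivAt ((H + aa β x - |v|) / ρ - 1)).comp x
    (((((d_aa β x).const_add H).sub_const |v|).div_const ρ).sub_const 1)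
  refine h.congr_deriv ?_
  ring

theorem d_lm (β δ x v : ℝ) :
    HasDerivAt (fun t : ℝ => Real.smoothTransition ((|v| - aa β t) / δ))
    (-(β * (st' ((|v| - aa β x) / δ) / δ))) x := by
  have h := (st_hasDerivAt ((|v| - aa β x) / δ)).comp x
    (((d_aa β x).const_sub |v|).div_const δ)
  refine h.congr_deriv ?_
  ring

theorem d_nu (L x : ℝ) :
    HasDerivAt (fun t : ℝ => Real.smoothTransition (4 * (L - t) - 1))
    (-(4 * st' (4 * (L - x) - 1))) x := by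
  have h := (st_hasDerivAt (4 * (L - x) - 1)).comp x
    ((((hasDerivAt_id x).const_sub L).const_mul 4).sub_const 1)
  refine h.congr_deriv ?_
  ring

theorem XF_re (L κ β H : ℝ) (k : ℝ → ℝ) (δ ρ t v : ℝ) : (XF L κ β H k δ ρ ⟨t, v⟩).re =
    (Real.smoothTransition (t / ρ - 1) * Real.smoothTransition ((L - t) / ρ - 1) *
      Real.smoothTransition ((H + aa β t - |v|) / ρ - 1) * ww L κ β k ⟨t, v⟩) *
    ((1 - Real.smoothTransition ((|v| - aa β t) / δ)) *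
      -(Real.smoothTransition (4 * (L - t) - 1) * (et β / β)) +
      Real.smoothTransition ((|v| - aa β t) / δ) *
      -(Real.smoothTransition (4 * (L - t) - 1) * cg β)) := by
  simp only [XF, NF, NB, NT, ch, lm, nu, Complex.smul_re, Complex.add_re, smul_eq_mul]

theorem XF_im (L κ β H : ℝ) (k : ℝ → ℝ) (δ ρ x t : ℝ) : (XF L κ β H k δ ρ ⟨x, t⟩).im =
    (Real.smoothTransition (x / ρ - 1) * Real.smoothTransition ((L - x) / ρ - 1) *
      Real.smoothTransition ((H + aa β x - |t|) / ρ - 1) * ww L κ β k ⟨x, t⟩) *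
    ((1 - Real.smoothTransition ((|t| - aa β x) / δ)) *
      ((1 - Real.smoothTransition (4 * (L - x) - 1)) * (et β * (t / aa β x))) +
      Real.smoothTransition ((|t| - aa β x) / δ) *
      (sgn t * ((1 - Real.smoothTransition (4 * (L - x) - 1)) * et β -
        Real.smoothTransition (4 * (L - x) - 1) * sg β))) := by
  simp only [XF, NF, NB, NT, ch, lm, nu, Complex.smul_im, Complex.add_im, smul_eq_mul]

theorem dx (L κ β H δ ρ x v wx : ℝ) (k : ℝ → ℝ) (χ₁ χ₂ χ₃ p₁ p₂ p₃ l d ν n : ℝ)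
    (hχ₁ : χ₁ = Real.smoothTransition (x / ρ - 1)) (hp₁ : p₁ = st' (x / ρ - 1) / ρ)
    (hχ₂ : χ₂ = Real.smoothTransition ((L - x) / ρ - 1)) (hp₂ : p₂ = st' ((L - x) / ρ - 1) / ρ)
    (hχ₃ : χ₃ = Real.smoothTransition ((H + aa β x - |v|) / ρ - 1))
    (hp₃ : p₃ = st' ((H + aa β x - |v|) / ρ - 1) / ρ)
    (hl : l = Real.smoothTransition ((|v| - aa β x) / δ)) (hd : d = st' ((|v| - aa β x) / δ) / δ)
    (hν : ν = Real.smoothTransition (4 * (L - x) - 1)) (hn : n = 4 * st' (4 * (L - x) - 1))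
    (hw : HasDerivAt (fun t : ℝ => ww L κ β k ⟨t, v⟩) wx x) :
    HasDerivAt (fun t : ℝ => (XF L κ β H k δ ρ ⟨t, v⟩).re)
      (((p₁ * χ₂ * χ₃ - χ₁ * p₂ * χ₃ + χ₁ * χ₂ * (β * p₃)) * ww L κ β k ⟨x, v⟩ +
        χ₁ * χ₂ * χ₃ * wx) * N1 l ν (et β / β) (cg β) +
        χ₁ * χ₂ * χ₃ * ww L κ β k ⟨x, v⟩ * ((β * d) * -(ν * (et β / β)) +
          (1 - l) * (n * (et β / β)) + ((-(β * d)) * -(ν * cg β) + l * (n * cg β)))) x := by
  have h1 := ((((d_chi1 ρ x).mul (d_chi2 L ρ x)).mul (d_chi3 β H ρ x v)).mul hw).mul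
    (((((d_lm β δ x v).const_sub 1).mul (((d_nu L x).mul_const (et β / β)).neg))).add
      ((d_lm β δ x v).mul (((d_nu L x).mul_const (cg β)).neg)))
  have h2 : (fun t : ℝ => (XF L κ β H k δ ρ ⟨t, v⟩).re) = _ :=
    funext fun t => XF_re L κ β H k δ ρ t v
  rw [h2]
  refine h1.congr_deriv ?_
  subst hχ₁ hχ₂ hχ₃ hp₁ hp₂ hp₃ hl hd hν hn
  unfold N1
  simp only [Pi.mul_apply, Pi.add_apply, Pi.neg_apply]
  ring

/-- the derivative in the direction of `v`, in the bulk -/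
theorem dvA (L κ β H δ ρ x v wv : ℝ) (k : ℝ → ℝ) (χ₁ χ₂ ν : ℝ)
    (hχ₁ : χ₁ = Real.smoothTransition (x / ρ - 1))
    (hχ₂ : χ₂ = Real.smoothTransition ((L - x) / ρ - 1))
    (hν : ν = Real.smoothTransition (4 * (L - x) - 1))
    (hH : 1 ≤ H) (hρ : 0 < ρ) (hρ' : ρ ≤ 1 / 8) (hδ : 0 < δ) (hv : |v| < aa β x)
    (hw : HasDerivAt (fun t : ℝ => ww L κ β k ⟨x, t⟩) wv v) :
    HasDerivAt (fun t : ℝ => (XF L κ β H k δ ρ ⟨x, t⟩).im)
      (χ₁ * χ₂ * wv * ((1 - ν) * (et β * (v / aa β x))) +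
        χ₁ * χ₂ * ww L κ β k ⟨x, v⟩ * ((1 - ν) * (et β / aa β x))) v := by
  have h1 : HasDerivAt (fun t : ℝ => (χ₁ * χ₂ * ww L κ β k ⟨x, t⟩) *
      ((1 - ν) * (et β * (t / aa β x))))
      (χ₁ * χ₂ * wv * ((1 - ν) * (et β * (v / aa β x))) +
        χ₁ * χ₂ * ww L κ β k ⟨x, v⟩ * ((1 - ν) * (et β / aa β x))) v := by
    have h := (hw.const_mul (χ₁ * χ₂)).mul
      ((((hasDerivAt_id v).div_const (aa β x)).const_mul (et β)).const_mul (1 - ν))
    refine h.congr_deriv ?_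
    simp only [id_eq]
    ring
  refine h1.congr_of_eventuallyEq ?_
  have h2 : ∀ᶠ t : ℝ in 𝓝 v, |t| < aa β x :=
    (continuous_abs.isOpen_preimage _ isOpen_Iio).mem_nhds hv
  filter_upwards [h2] with t ht
  have e1 : Real.smoothTransition ((|t| - aa β x) / δ) = 0 :=
    Real.smoothTransition.zero_of_nonpos (div_nonpos_of_nonpos_of_nonneg (by linarith) hδ.le)
  have e2 : Real.smoothTransition ((H + aa β x - |t|) / ρ - 1) = 1 := by
    apply Real.smoothTransition.one_of_one_le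
    have : 2 ≤ (H + aa β x - |t|) / ρ := by
      rw [le_div_iff₀ hρ]
      linarith
    linarith
  rw [XF_im, e1, e2, hχ₁, hχ₂, hν]
  ring

/-- the derivative in the direction of `v`, off the axis -/
theorem dvB (L κ β H δ ρ x v wv s : ℝ) (k : ℝ → ℝ) (χ₁ χ₂ χ₃ p₃ l d ν : ℝ)
    (hχ₁ : χ₁ = Real.smoothTransition (x / ρ - 1))
    (hχ₂ : χ₂ = Real.smoothTransition ((L - x) / ρ - 1))
    (hχ₃ : χ₃ = Real.smoothTransition ((H + aa β x - |v|) / ρ - 1))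
    (hp₃ : p₃ = st' ((H + aa β x - |v|) / ρ - 1) / ρ)
    (hl : l = Real.smoothTransition ((|v| - aa β x) / δ)) (hd : d = st' ((|v| - aa β x) / δ) / δ)
    (hν : ν = Real.smoothTransition (4 * (L - x) - 1))
    (hs : ∀ᶠ t : ℝ in 𝓝 v, |t| = s * t ∧ sgn t = s) (hss : s * s = 1)
    (hw : HasDerivAt (fun t : ℝ => ww L κ β k ⟨x, t⟩) wv v) :
    HasDerivAt (fun t : ℝ => (XF L κ β H k δ ρ ⟨x, t⟩).im)
      ((-(s * (χ₁ * χ₂ * p₃)) * ww L κ β k ⟨x, v⟩ + χ₁ * χ₂ * χ₃ * wv) *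
        N2 l ν (et β) (sg β) s (|v| / aa β x) +
        χ₁ * χ₂ * χ₃ * ww L κ β k ⟨x, v⟩ *
          (-(s * d) * ((1 - ν) * (et β * (s * (|v| / aa β x)))) +
          (1 - l) * ((1 - ν) * (et β / aa β x)) +
          (s * d) * (s * ((1 - ν) * et β - ν * sg β)))) v := by
  have hv := hs.self_of_nhds
  have h3 : HasDerivAt (fun t : ℝ => Real.smoothTransition ((H + aa β x - s * t) / ρ - 1))
      (-(s * (st' ((H + aa β x - s * v) / ρ - 1) / ρ))) v := by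
    have h := (st_hasDerivAt ((H + aa β x - s * v) / ρ - 1)).comp v
      (((((hasDerivAt_id v).const_mul s).const_sub (H + aa β x)).div_const ρ).sub_const 1)
    refine h.congr_deriv ?_
    ring
  have h4 : HasDerivAt (fun t : ℝ => Real.smoothTransition ((s * t - aa β x) / δ))
      (s * (st' ((s * v - aa β x) / δ) / δ)) v := by
    have h := (st_hasDerivAt ((s * v - aa β x) / δ)).comp v
      ((((hasDerivAt_id v).const_mul s).sub_const (aa β x)).div_const δ)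
    refine h.congr_deriv ?_
    ring
  have h5 : HasDerivAt (fun t : ℝ => (1 - ν) * (et β * (t / aa β x)))
      ((1 - ν) * (et β / aa β x)) v := by
    have h := (((hasDerivAt_id v).div_const (aa β x)).const_mul (et β)).const_mul (1 - ν)
    refine h.congr_deriv ?_
    ring
  have h6 := ((h3.const_mul (χ₁ * χ₂)).mul hw).mul
    ((((h4.const_sub 1)).mul h5).add (h4.mul_const (s * ((1 - ν) * et β - ν * sg β))))
  have h7 : (fun t : ℝ => (XF L κ β H k δ ρ ⟨x, t⟩).im) =ᶠ[𝓝 v]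
      (fun t : ℝ => χ₁ * χ₂ * Real.smoothTransition ((H + aa β x - s * t) / ρ - 1) *
        ww L κ β k ⟨x, t⟩ * ((1 - Real.smoothTransition ((s * t - aa β x) / δ)) *
        ((1 - ν) * (et β * (t / aa β x))) + Real.smoothTransition ((s * t - aa β x) / δ) *
        (s * ((1 - ν) * et β - ν * sg β)))) := by
    filter_upwards [hs] with t ht
    rw [XF_im, ht.1, ht.2, hχ₁, hχ₂, hν]
  refine HasDerivAt.congr_of_eventuallyEq ?_ h7
  refine h6.congr_deriv ?_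
  have hv' : s * (|v| / aa β x) = v / aa β x := by
    rw [hv.1, ← mul_div_assoc, ← mul_assoc, hss, one_mul]
  simp only [Pi.mul_apply, Pi.add_apply]
  unfold N2
  rw [hv', hχ₃, hp₃, hl, hd, hv.1]
  ring

end Deriv

section Fin

variable {B₀ κ β c σ et θ : ℝ}

theorem fin1 (hC : Cst β c σ et θ) {l ν s m n d a χ₁ χ₂ χ₃ p₁ p₂ p₃ w W q kr kR : ℝ}
    (hl0 : 0 ≤ l) (hl1 : l ≤ 1) (hν0 : 0 ≤ ν) (hν1 : ν ≤ 1) (hs : s * s = 1) (hm : 0 ≤ m)
    (h1 : 0 ≤ χ₁) (h2 : 0 ≤ χ₂) (h3 : 0 ≤ χ₃) (h1' : χ₁ ≤ 1) (h2' : χ₂ ≤ 1) (h3' : χ₃ ≤ 1)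
    (hp1 : 0 ≤ p₁) (hp2 : p₂ * ν = 0) (hp3 : 0 ≤ p₃)
    (hκ : 0 ≤ κ) (hκ1 : κ ≤ 1 / 16) (hW : 0 ≤ W) (hq : 3 / 4 ≤ q)
    (hkR : 0 ≤ kR) (hk : kR ≤ kr) (hn : 0 ≤ n) (hn4 : n ≤ 4 * B₀) (hB : 0 ≤ B₀)
    (ha : 1 / 2 ≤ a) (hd : 0 ≤ d) (hdm : d = 0 ∨ 1 ≤ m) (hw : w = q * W) :
    (((p₁ * χ₂ * χ₃ - χ₁ * p₂ * χ₃ + χ₁ * χ₂ * (β * p₃)) * w +
        χ₁ * χ₂ * χ₃ * (-κ * W + q * (β * (kr + kR)))) * N1 l ν θ c +
        χ₁ * χ₂ * χ₃ * w * ((β * d) * -(ν * θ) +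
          (1 - l) * (n * θ) + ((-(β * d)) * -(ν * c) + l * (n * c)))) +
      ((-(s * (χ₁ * χ₂ * p₃)) * w + χ₁ * χ₂ * χ₃ * (s * (q * (kR - kr)))) *
        N2 l ν et σ s m +
        χ₁ * χ₂ * χ₃ * w *
          (-(s * d) * ((1 - ν) * (et * (s * m))) +
          (1 - l) * ((1 - ν) * (et / a)) +
          (s * d) * (s * ((1 - ν) * et - ν * σ)))) ≤ (4 * B₀ + 3) * w := by
  have hw0 : 0 ≤ w := by rw [hw]; positivity
  have hχ : 0 ≤ χ₁ * χ₂ * χ₃ := by positivity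
  have hχ1 : χ₁ * χ₂ * χ₃ ≤ 1 := by
    have e1 : χ₁ * χ₂ ≤ 1 := by nlinarith
    have e2 : 0 ≤ χ₁ * χ₂ := by positivity
    nlinarith
  have i1 := mul_le_mul_of_nonneg_left
    (ineq_chi hC hl0 hl1 hν0 hν1 hs hm h1 h2 h3 hp1 hp2 hp3) hw0
  have i2 := mul_le_mul_of_nonneg_left
    (ineq_w hC hl0 hl1 hν0 hν1 hs hm hκ hW hq hkR hk) hχ
  have i3 := mul_le_mul_of_nonneg_left
    (ineq_div hC hl0 hl1 hν0 hν1 hs hn hn4 hB ha hd hdm) (mul_nonneg hχ hw0)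
  have i4 : (1 - l) * (4 * B₀ + 1) + l * (4 * B₀) ≤ 4 * B₀ + 1 := by nlinarith
  have i5 := mul_le_mul_of_nonneg_left i4 (mul_nonneg hχ hw0)
  have i6 : κ * W ≤ 2 * w := by
    rw [hw]
    nlinarith
  have i7 : χ₁ * χ₂ * χ₃ * (κ * W) ≤ 1 * (κ * W) :=
    mul_le_mul_of_nonneg_right hχ1 (by positivity)
  have i8 : χ₁ * χ₂ * χ₃ * w * (4 * B₀ + 1) ≤ 1 * w * (4 * B₀ + 1) :=
    mul_le_mul_of_nonneg_right (mul_le_mul_of_nonneg_right hχ1 hw0) (by linarith)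
  linarith

theorem fin2 (hC : Cst β c σ et θ) {ν s m n d a χ₁ χ₂ χ₃ p₁ p₂ p₃ w W q kr kR K Λ : ℝ}
    (hν0 : 0 ≤ ν) (hν1 : ν ≤ 1) (hs : s * s = 1) (hm : 0 ≤ m)
    (h1 : 0 ≤ χ₁) (h2 : 0 ≤ χ₂) (h3 : 0 ≤ χ₃)
    (hp1 : 0 ≤ p₁) (hp2 : p₂ * ν = 0) (hp3 : 0 ≤ p₃)
    (hκ : 0 ≤ κ) (hκ1 : κ ≤ 1 / 16) (hW : 0 ≤ W) (hq : 3 / 4 ≤ q) (hq1 : q ≤ 1)
    (hkR : 0 ≤ kR) (hk : kR ≤ kr / 8) (hK : 2 * K * W ≤ kr)
    (hn : 0 ≤ n) (hn4 : n ≤ 4 * B₀) (hB : 0 ≤ B₀)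
    (ha : 1 / 2 ≤ a) (hd : 0 ≤ d) (hdm : d = 0 ∨ 1 ≤ m) (hw : w = q * W) (hΛ : 0 < Λ)
    (hKΛ : 4 * B₀ + Λ + 2 ≤ 21 / 16 * et * K) :
    (((p₁ * χ₂ * χ₃ - χ₁ * p₂ * χ₃ + χ₁ * χ₂ * (β * p₃)) * w +
        χ₁ * χ₂ * χ₃ * (-κ * W + q * (β * (kr + kR)))) * N1 1 ν θ c +
        χ₁ * χ₂ * χ₃ * w * ((β * d) * -(ν * θ) +
          (1 - 1) * (n * θ) + ((-(β * d)) * -(ν * c) + 1 * (n * c)))) +
      ((-(s * (χ₁ * χ₂ * p₃)) * w + χ₁ * χ₂ * χ₃ * (s * (q * (kR - kr)))) *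
        N2 1 ν et σ s m +
        χ₁ * χ₂ * χ₃ * w *
          (-(s * d) * ((1 - ν) * (et * (s * m))) +
          (1 - 1) * ((1 - ν) * (et / a)) +
          (s * d) * (s * ((1 - ν) * et - ν * σ)))) ≤
      -((Λ + 1) * (χ₁ * χ₂ * χ₃ * w)) := by
  have hw0 : 0 ≤ w := by rw [hw]; positivity
  have hwW : w ≤ W := by rw [hw]; nlinarith
  have hχ : 0 ≤ χ₁ * χ₂ * χ₃ := by positivity
  have i1 := mul_le_mul_of_nonneg_left
    (ineq_chi hC zero_le_one le_rfl hν0 hν1 hs hm h1 h2 h3 hp1 hp2 hp3) hw0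
  have i2 := mul_le_mul_of_nonneg_left
    (ineq_w1 (m := m) hC hν0 hν1 hs hκ hW hq hkR hk hK) hχ
  have i3 := mul_le_mul_of_nonneg_left
    (ineq_div hC zero_le_one le_rfl hν0 hν1 hs hn hn4 hB ha hd hdm) (mul_nonneg hχ hw0)
  have i4 : (4 * B₀ + Λ + 2) * W ≤ 21 / 16 * et * K * W := mul_le_mul_of_nonneg_right hKΛ hW
  have i5 : 4 * B₀ * w ≤ 4 * B₀ * W := mul_le_mul_of_nonneg_left hwW (by linarith)
  have i6 : (Λ + 1) * w ≤ (Λ + 1) * W := mul_le_mul_of_nonneg_left hwW (by linarith)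
  have i7 : κ * W ≤ 1 * W := mul_le_mul_of_nonneg_right (by linarith) hW
  have i8 : κ * W - 21 / 16 * (et * K * W) + 4 * B₀ * w ≤ -((Λ + 1) * w) := by linarith
  have i9 := mul_le_mul_of_nonneg_left i8 hχ
  linarith

end Fin

/-! ### The weight -/

theorem wfacts (w0 : S_W0) (w2 : S_W2) {L κ β H K δ₀ : ℝ} {k : ℝ → ℝ} (par : Par L κ β)
    (hH : 1 ≤ H) (hK : 1 ≤ K) (hδ₀ : 0 < δ₀) (hδ₀' : δ₀ ≤ 1 / 8) (ker : Ker H K δ₀ k)
    {x v : ℝ} (hz : (⟨x, v⟩ : ℂ) ∈ DD L β H) :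
    ∃ W : ℝ, 0 ≤ W ∧ ww L κ β k ⟨x, v⟩ = (1 - κ * x) * W ∧
      0 ≤ k (|v| + aa β x) ∧ k (|v| + aa β x) ≤ k (|v| - aa β x) ∧
      HasDerivAt (fun t : ℝ => ww L κ β k ⟨t, v⟩)
        (-κ * W + (1 - κ * x) * (β * (k (|v| - aa β x) + k (|v| + aa β x)))) x ∧
      (∀ s : ℝ, (s = 1 ∨ s = -1) → |v| = s * v → HasDerivAt (fun t : ℝ => ww L κ β k ⟨x, t⟩)
        (s * ((1 - κ * x) * (k (|v| + aa β x) - k (|v| - aa β x)))) v) ∧
      (aa β x ≤ |v| → 2 * K * W ≤ k (|v| - aa β x) ∧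
        k (|v| + aa β x) ≤ k (|v| - aa β x) / 8) := by
  obtain ⟨hx0, hxL, hv⟩ := hz
  have hz : (⟨x, v⟩ : ℂ) ∈ DD L β H := ⟨hx0, hxL, hv⟩
  simp only at hx0 hxL hv
  obtain ⟨-, -, -, hop, hcd, -, -, hfd⟩ := w0 L κ β H K δ₀ k par hH (by linarith) hδ₀ ker
  obtain ⟨-, -, h3, h4⟩ := w2 L κ β H K δ₀ k par hH hK hδ₀ hδ₀' ker
  have hdiff : DifferentiableAt ℝ (ww L κ β k) ⟨x, v⟩ :=
    (hcd.differentiableOn (by norm_num) _ hz).differentiableAt (hop.mem_nhds hz)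
  have ha : 0 ≤ aa β x := by
    unfold aa
    have := mul_nonneg par.β0.le hx0.le
    linarith
  obtain ⟨f1, f2⟩ := hfd _ hz
  simp only at f1 f2
  have kabs : ∀ r : ℝ, k |r| = k r := by
    intro r
    rcases abs_cases r with h | h
    · rw [h.1]
    · rw [h.1, ker.even]
  have hsum : k (v + aa β x) + k (v - aa β x) = k (|v| - aa β x) + k (|v| + aa β x) := by
    rcases abs_cases v with h | h
    · rw [h.1]; ring
    · have e1 : k (-v - aa β x) = k (v + aa β x) := by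
        rw [← ker.even (v + aa β x)]; congr 1; ring
      have e2 : k (-v + aa β x) = k (v - aa β x) := by
        rw [← ker.even (v - aa β x)]; congr 1; ring
      rw [h.1, e1, e2]
  refine ⟨∫ s in (v - aa β x)..(v + aa β x), k s, ?_, ?_, ker.nonneg _, ?_, ?_, ?_, ?_⟩
  · exact intervalIntegral.integral_nonneg (by linarith) fun s _ => ker.nonneg s
  · unfold ww
    rw [if_pos ⟨hx0, hxL⟩]
  · rw [← kabs (|v| - aa β x)]
    apply ker.anti _ _ (abs_nonneg _)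
    rw [abs_le]
    constructor <;> linarith [abs_nonneg v]
  · have h := ww_re hdiff
    rw [f1, hsum] at h
    exact h
  · intro s hs hsv
    have h := ww_im hdiff
    rw [f2] at h
    refine h.congr_deriv ?_
    rcases hs with rfl | rfl
    · rw [one_mul] at hsv
      rw [hsv]; ring
    · have e1 : k (|v| - aa β x) = k (v + aa β x) := by
        rw [← ker.even (v + aa β x), hsv]; congr 1; ring
      have e2 : k (|v| + aa β x) = k (v - aa β x) := by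
        rw [← ker.even (v - aa β x), hsv]; congr 1; ring
      rw [e1, e2]; ring
  · intro hav
    exact ⟨h3 ⟨x, v⟩ hav ha, h4 ⟨x, v⟩ hz hav⟩

end PCALB

open PCALB in
/-- **CALB.** -/
theorem calb (w0 : S_W0) (w2 : S_W2) (cala : S_CALA) : S_CALB := by
  obtain ⟨B₀, hB₀, hst⟩ := st'_bdd
  refine ⟨4 * B₀ + 3, by linarith, ?_⟩
  intro L κ β H Λ par hβ hH hΛ
  have hC := cst par.β0 hβ
  have het := hC.et0
  refine ⟨max 1 ((4 * B₀ + Λ + 2) / (21 / 16 * et β)), le_max_left _ _, ?_⟩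
  intro K δ₀ k hK hδ₀ hδ₀' ker δ ρ hδ hδ' hρ hρ' z hz
  have hK1 : 1 ≤ K := (le_max_left _ _).trans hK
  have hKΛ : 4 * B₀ + Λ + 2 ≤ 21 / 16 * et β * K := by
    have := (le_max_right _ _).trans hK
    rw [div_le_iff₀ (by positivity)] at this
    linarith
  obtain ⟨x, v⟩ := z
  obtain ⟨W, hW, hw, hkR, hk, hwx, hwv, htail⟩ :=
    wfacts w0 w2 par hH hK1 hδ₀ hδ₀' ker hz
  have hTW := (cala L κ β H K δ₀ k par hβ hH hK1 hδ₀ hδ₀' ker δ ρ hδ hδ' hρ hρ').1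
  have hF : DifferentiableAt ℝ (XF L κ β H k δ ρ) ⟨x, v⟩ :=
    (hTW.cd.differentiable (by norm_num)) _
  obtain ⟨hx0, hxL, hv⟩ := hz
  simp only at hx0 hxL hv
  simp only
  have hκ0 := par.κ0.le
  have hκ1 : κ ≤ 1 / 16 := by
    have := par.κL
    have := par.L4
    nlinarith
  have hκx : κ * x ≤ 1 / 4 := by
    have := par.κL
    nlinarith
  have hκx0 : 0 ≤ κ * x := mul_nonneg hκ0 hx0.le
  have ha : 1 / 2 ≤ aa β x := by
    unfold aa
    have := mul_nonneg par.β0.le hx0.le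
    linarith
  have hq : 3 / 4 ≤ 1 - κ * x := by linarith
  have hq1 : 1 - κ * x ≤ 1 := by linarith
  have hstn := Real.smoothTransition.nonneg
  have hst1 := Real.smoothTransition.le_one
  have hp2 : st' ((L - x) / ρ - 1) / ρ * Real.smoothTransition (4 * (L - x) - 1) = 0 := by
    by_cases h : 1 < (L - x) / ρ - 1
    · rw [st'_gt h]; simp
    · have h1 : (L - x) / ρ ≤ 2 := by linarith
      rw [div_le_iff₀ hρ] at h1
      rw [Real.smoothTransition.zero_of_nonpos (by linarith), mul_zero]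
  have hn : 0 ≤ 4 * st' (4 * (L - x) - 1) := mul_nonneg (by norm_num) (st'_nonneg _)
  have hn4 : 4 * st' (4 * (L - x) - 1) ≤ 4 * B₀ := by linarith [hst (4 * (L - x) - 1)]
  have hm : 0 ≤ |v| / aa β x := div_nonneg (abs_nonneg _) (by linarith)
  obtain ⟨s, hs, hsv, hsn⟩ : ∃ s : ℝ, (s = 1 ∨ s = -1) ∧ |v| = s * v ∧ sgn v = s := by
    by_cases h : 0 ≤ v
    · exact ⟨1, Or.inl rfl, by rw [abs_of_nonneg h, one_mul], by unfold sgn; rw [if_pos h]⟩
    · exact ⟨-1, Or.inr rfl, by rw [abs_of_neg (not_le.1 h)]; ring, by unfold sgn; rw [if_neg h]⟩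
  have hss : s * s = 1 := by rcases hs with rfl | rfl <;> norm_num
  have hwv' := hwv s hs hsv
  have hdx := dx L κ β H δ ρ x v _ k _ _ _ _ _ _ _ _ _ _ rfl rfl rfl rfl rfl rfl rfl rfl rfl rfl
    hwx
  by_cases hva : |v| < aa β x
  · have hl0 : Real.smoothTransition ((|v| - aa β x) / δ) = 0 :=
      Real.smoothTransition.zero_of_nonpos (div_nonpos_of_nonpos_of_nonneg (by linarith) hδ.le)
    have hd0 : st' ((|v| - aa β x) / δ) = 0 := st'_neg (div_neg_of_neg_of_pos (by linarith) hδ)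
    have hh : 2 < (H + aa β x - |v|) / ρ := by
      rw [lt_div_iff₀ hρ]
      linarith
    have hχ3 : Real.smoothTransition ((H + aa β x - |v|) / ρ - 1) = 1 :=
      Real.smoothTransition.one_of_one_le (by linarith)
    have hp3 : st' ((H + aa β x - |v|) / ρ - 1) = 0 := st'_gt (by linarith)
    rw [hl0, hd0, hχ3, hp3] at hdx
    have hdv := dvA L κ β H δ ρ x v _ k _ _ _ rfl rfl rfl hH hρ hρ' hδ hva hwv'
    refine ⟨?_, fun h => absurd h (by linarith)⟩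
    rw [dv2_eq hF hdx hdv]
    have hfin := fin1 (B₀ := B₀) (κ := κ) hC (l := 0) (ν := Real.smoothTransition (4 * (L - x) - 1))
      (s := s) (m := |v| / aa β x) (n := 4 * st' (4 * (L - x) - 1)) (d := 0) (a := aa β x)
      (χ₁ := Real.smoothTransition (x / ρ - 1)) (χ₂ := Real.smoothTransition ((L - x) / ρ - 1))
      (χ₃ := 1) (p₁ := st' (x / ρ - 1) / ρ) (p₂ := st' ((L - x) / ρ - 1) / ρ) (p₃ := 0)
      le_rfl zero_le_one (hstn _) (hst1 _) hss hm (hstn _) (hstn _) zero_le_one (hst1 _) (hst1 _)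
      le_rfl (div_nonneg (st'_nonneg _) hρ.le) hp2 le_rfl hκ0 hκ1 hW hq hkR hk hn hn4 hB₀ ha
      le_rfl (Or.inl rfl) hw
    refine le_trans (le_of_eq ?_) hfin
    have hvm : v / aa β x = s * (|v| / aa β x) := by
      rw [hsv, ← mul_div_assoc, ← mul_assoc, hss, one_mul]
    rw [hvm]
    unfold N2
    ring
  · have hva' : aa β x ≤ |v| := not_lt.1 hva
    have hv0 : v ≠ 0 := by
      rintro rfl
      rw [abs_zero] at hva'
      linarith
    have hev : ∀ᶠ t : ℝ in 𝓝 v, |t| = s * t ∧ sgn t = s := by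
      rcases lt_or_gt_of_ne hv0 with h | h
      · have hs1 : s = -1 := by
          rw [← hsn]; unfold sgn; rw [if_neg (not_le.2 h)]
        filter_upwards [Iio_mem_nhds h] with t ht
        have ht' : t < 0 := ht
        rw [hs1]
        refine ⟨by rw [abs_of_neg ht']; ring, ?_⟩
        unfold sgn; rw [if_neg (not_le.2 ht')]
      · have hs1 : s = 1 := by
          rw [← hsn]; unfold sgn; rw [if_pos (le_of_lt h)]
        filter_upwards [Ioi_mem_nhds h] with t ht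
        have ht' : 0 < t := ht
        rw [hs1]
        refine ⟨by rw [abs_of_pos ht', one_mul], ?_⟩
        unfold sgn; rw [if_pos (le_of_lt ht')]
    have hdv := dvB L κ β H δ ρ x v _ s k _ _ _ _ _ _ _ rfl rfl rfl rfl rfl rfl rfl hev hss hwv'
    have hm1 : 1 ≤ |v| / aa β x := by
      rw [le_div_iff₀ (by linarith)]
      linarith
    obtain ⟨ht1, ht2⟩ := htail hva'
    rw [dv2_eq hF hdx hdv]
    refine ⟨?_, fun hl => ?_⟩
    · exact fin1 (B₀ := B₀) (κ := κ) hC (hstn _) (hst1 _) (hstn _) (hst1 _) hss hm (hstn _)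
        (hstn _) (hstn _) (hst1 _) (hst1 _) (hst1 _) (div_nonneg (st'_nonneg _) hρ.le) hp2
        (div_nonneg (st'_nonneg _) hρ.le) hκ0 hκ1 hW hq hkR hk hn hn4 hB₀ ha
        (div_nonneg (st'_nonneg _) hδ.le) (Or.inr hm1) hw
    · have hl1 : Real.smoothTransition ((|v| - aa β x) / δ) = 1 := by
        apply Real.smoothTransition.one_of_one_le
        rw [le_div_iff₀ hδ]
        linarith
      rw [hl1]
      unfold ch
      exact fin2 (B₀ := B₀) (κ := κ) hC (hstn _) (hst1 _) hss hm (hstn _)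
        (hstn _) (hstn _) (div_nonneg (st'_nonneg _) hρ.le) hp2
        (div_nonneg (st'_nonneg _) hρ.le) hκ0 hκ1 hW hq hq1 hkR ht2 ht1 hn hn4 hB₀ ha
        (div_nonneg (st'_nonneg _) hδ.le) (Or.inr hm1) hw hΛ hKΛ

end Pool.Agent.H745.HV
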