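import Mathlib
import Pool.Agent.H745.HV.Stm

/-!
# Project HV (helper745): the divergence of the combined field (task CALC)
-/

set_option autoImplicit false

open MeasureTheory Set Metric Filter Topology
open scoped ENNReal Real

noncomputable section

namespace Pool.Agent.H745.HV.PCALC

open Pool.Agent.TH304.MI Pool.Agent.TH703.HU Pool.Agent.H745.HV

/-! ### the smooth transition -/

/-- the derivative of the smooth transition -/
def st' (x : ℝ) : ℝ := deriv Real.smoothTransition x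

lemma st_hasDerivAt (x : ℝ) : HasDerivAt Real.smoothTransition (st' x) x := by
  have h : ContDiff ℝ 1 Real.smoothTransition := by
    exact_mod_cast (Real.smoothTransition.contDiff (n := 1))
  exact ((h.differentiable (by norm_num)) x).hasDerivAt

lemma st'_nonneg (x : ℝ) : 0 ≤ st' x := by
  unfold st'
  exact Real.smoothTransition.monotone.deriv_nonneg

lemma st'_zero_of_nonpos {x : ℝ} (hx : x ≤ 0) : st' x = 0 := by
  unfold st'
  refine IsLocalMin.deriv_eq_zero ?_
  refine Filter.Eventually.of_forall (fun y => ?_)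
  rw [Real.smoothTransition.zero_of_nonpos hx]
  exact Real.smoothTransition.nonneg y

lemma st'_zero_of_one_le {x : ℝ} (hx : 1 ≤ x) : st' x = 0 := by
  unfold st'
  refine IsLocalMax.deriv_eq_zero ?_
  refine Filter.Eventually.of_forall (fun y => ?_)
  rw [Real.smoothTransition.one_of_one_le hx]
  exact Real.smoothTransition.le_one y

lemma exists_bound : ∃ B : ℝ, 0 ≤ B ∧ ∀ x, st' x ≤ B := by
  have h : ContDiff ℝ 1 Real.smoothTransition := by
    exact_mod_cast (Real.smoothTransition.contDiff (n := 1))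
  have hc : Continuous st' := h.continuous_deriv (by norm_num)
  obtain ⟨x₀, _, hx₀⟩ := (isCompact_Icc (a := (0:ℝ)) (b := 1)).exists_isMaxOn
    ⟨0, by simp⟩ hc.continuousOn
  refine ⟨st' x₀, st'_nonneg _, fun x => ?_⟩
  by_cases h0 : x ≤ 0
  · rw [st'_zero_of_nonpos h0]; exact st'_nonneg _
  by_cases h1 : 1 ≤ x
  · rw [st'_zero_of_one_le h1]; exact st'_nonneg _
  exact hx₀ ⟨by linarith, by linarith⟩

/-! ### the divergence of a combination -/

lemma dv2_comb {ζ : ℂ → ℝ} {ζ' : ℂ →L[ℝ] ℝ} {Y₁ Y X : ℂ → ℂ} {z : ℂ} (hζ : HasFDerivAt ζ ζ' z)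
    (h₁ : DifferentiableAt ℝ Y₁ z) (h : DifferentiableAt ℝ Y z) (hX : DifferentiableAt ℝ X z) :
    dv2 (fun z => ζ z • Y₁ z + (1 - ζ z) • (Y z - X z)) z =
      ζ z * dv2 Y₁ z + (1 - ζ z) * (dv2 Y z - dv2 X z) +
        (ζ' 1 * (Y₁ z - Y z + X z).re + ζ' Complex.I * (Y₁ z - Y z + X z).im) := by
  have hd : HasFDerivAt (fun z => ζ z • Y₁ z + (1 - ζ z) • (Y z - X z))
      ((ζ z • fderiv ℝ Y₁ z + ζ'.smulRight (Y₁ z)) +
        ((1 - ζ z) • (fderiv ℝ Y z - fderiv ℝ X z) + (-ζ').smulRight (Y z - X z))) z := by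
    refine HasFDerivAt.add (hζ.smul h₁.hasFDerivAt) ?_
    exact (hζ.const_sub 1).smul (h.hasFDerivAt.sub hX.hasFDerivAt)
  unfold dv2
  rw [hd.fderiv]
  simp only [add_apply, smul_apply,
    ContinuousLinearMap.smulRight_apply, sub_apply,
    neg_apply, Complex.add_re, Complex.add_im, Complex.sub_re, Complex.sub_im,
    Complex.real_smul, Complex.re_ofReal_mul, Complex.im_ofReal_mul]
  ring

/-! ### parameters -/

lemma cs_sq (β : ℝ) : cg β ^ 2 + sg β ^ 2 = 1 := by
  unfold cg sg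
  have h : (1 + (β / 4) ^ 2) ≠ 0 := by positivity
  field_simp
  ring

lemma sg_nonneg {β : ℝ} (h : 0 < β) : 0 ≤ sg β := by unfold sg; positivity

lemma sg_le {β : ℝ} (h : 0 < β) (h' : β ≤ 1 / 8) : sg β ≤ 1 / 16 := by
  unfold sg
  rw [div_le_iff₀ (by positivity)]
  nlinarith [sq_nonneg (β / 4)]

lemma cg_ge {β : ℝ} (h : 0 < β) (h' : β ≤ 1 / 8) : 1 / 2 ≤ cg β := by
  unfold cg
  rw [le_div_iff₀ (by positivity)]
  nlinarith [sq_nonneg (β / 4)]

/-- the factor `c₂` -/
def c2 (β : ℝ) : ℝ := sg β / (cg β + β * sg β)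

lemma den_ge {β : ℝ} (h : 0 < β) (h' : β ≤ 1 / 8) : 1 / 2 ≤ cg β + β * sg β := by
  have := cg_ge h h'
  have := mul_nonneg h.le (sg_nonneg h)
  linarith

lemma c2_nonneg {β : ℝ} (h : 0 < β) (h' : β ≤ 1 / 8) : 0 ≤ c2 β := by
  have := den_ge h h'
  unfold c2
  exact div_nonneg (sg_nonneg h) (by linarith)

lemma c2_le {β : ℝ} (h : 0 < β) (h' : β ≤ 1 / 8) : c2 β ≤ 1 := by
  have h1 := den_ge h h'
  have h2 := sg_le h h'
  unfold c2
  rw [div_le_one (by linarith)]
  linarith

/-! ### the derivative of `hd` -/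

/-- the derivative of `r ↦ r st (r / δ)` -/
def gp (δ r : ℝ) : ℝ := Real.smoothTransition (r / δ) + r / δ * st' (r / δ)

lemma gp_hasDerivAt {δ : ℝ} (hδ : 0 < δ) (r : ℝ) :
    HasDerivAt (fun r => r * Real.smoothTransition (r / δ)) (gp δ r) r := by
  have h1 : HasDerivAt (fun r : ℝ => r / δ) (1 / δ) r := (hasDerivAt_id r).div_const δ
  have h2 : HasDerivAt (fun r : ℝ => Real.smoothTransition (r / δ)) (st' (r / δ) * (1 / δ)) r :=
    HasDerivAt.comp (h₂ := Real.smoothTransition) r (st_hasDerivAt (r / δ)) h1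
  have h3 := (hasDerivAt_id r).mul h2
  have h4 : gp δ r = 1 * Real.smoothTransition (r / δ) + id r * (st' (r / δ) * (1 / δ)) := by
    unfold gp
    simp only [id]
    ring
  rw [h4]
  exact h3

lemma gp_nonneg {δ r : ℝ} (hδ : 0 < δ) (hr : 0 ≤ r) : 0 ≤ gp δ r := by
  unfold gp
  have h1 := Real.smoothTransition.nonneg (r / δ)
  have h2 := mul_nonneg (div_nonneg hr hδ.le) (st'_nonneg (r / δ))
  linarith

lemma gp_le {δ r B₀ : ℝ} (hδ : 0 < δ) (hr : 0 ≤ r) (hB : 0 ≤ B₀) (hB' : ∀ x, st' x ≤ B₀) :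
    gp δ r ≤ 1 + B₀ := by
  unfold gp
  have h1 := Real.smoothTransition.le_one (r / δ)
  have h0 : 0 ≤ r / δ := div_nonneg hr hδ.le
  have h2 : r / δ * st' (r / δ) ≤ B₀ := by
    by_cases h : 1 ≤ r / δ
    · rw [st'_zero_of_one_le h]; simpa using hB
    · have h3 : r / δ ≤ 1 := by linarith
      calc r / δ * st' (r / δ) ≤ 1 * B₀ :=
            mul_le_mul h3 (hB' _) (st'_nonneg _) (by norm_num)
        _ = B₀ := one_mul _
  linarith

lemma gp_one {δ r : ℝ} (hδ : 0 < δ) (hr : δ ≤ r) : gp δ r = 1 := by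
  have h : 1 ≤ r / δ := by rw [le_div_iff₀ hδ]; linarith
  unfold gp
  rw [Real.smoothTransition.one_of_one_le h, st'_zero_of_one_le h]
  ring

/-- the derivative of `hd` in the bulk -/
lemma hd_fderiv_TT {L β δ : ℝ} (hδ : 0 < δ) {z : ℂ} (hz : z ∈ TT L β) :
    hd β δ z = z.re ∧ HasFDerivAt (hd β δ) Complex.reCLM z := by
  have hval : ∀ w : ℂ, |w.im| < aa β w.re → hd β δ w = w.re := by
    intro w hw
    unfold hd
    rw [Real.smoothTransition.zero_of_nonpos (div_nonpos_of_nonpos_of_nonneg (by linarith) hδ.le)]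
    ring
  refine ⟨hval z hz.2.2, ?_⟩
  have hopen : IsOpen {w : ℂ | |w.im| < aa β w.re} := by
    unfold aa
    refine isOpen_lt (by fun_prop) (by fun_prop)
  have hev : hd β δ =ᶠ[𝓝 z] fun w => Complex.reCLM w := by
    filter_upwards [hopen.mem_nhds hz.2.2] with w hw
    exact hval w hw
  exact (Complex.reCLM.hasFDerivAt).congr_of_eventuallyEq hev

/-- the sign of a real number is `± 1` -/
lemma sgn_sq (v : ℝ) : sgn v ^ 2 = 1 := by
  unfold sgn
  split_ifs <;> norm_num

lemma sgn_mul (v : ℝ) : sgn v * v = |v| := by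
  unfold sgn
  split_ifs with h
  · rw [abs_of_nonneg h, one_mul]
  · rw [abs_of_neg (not_le.1 h)]; ring

lemma abs_sgn (v : ℝ) : |sgn v| = 1 := by
  unfold sgn
  split_ifs <;> norm_num

/-- near `z` with `im z ≠ 0` the sign is constant -/
lemma ev_sgn {z : ℂ} (hz : z.im ≠ 0) : ∀ᶠ w in 𝓝 z, |w.im| = sgn z.im * w.im := by
  rcases lt_or_gt_of_ne hz with h | h
  · have ho : IsOpen {w : ℂ | w.im < 0} := isOpen_lt (by fun_prop) (by fun_prop)
    filter_upwards [ho.mem_nhds h] with w hw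
    have hw' : w.im < 0 := hw
    unfold sgn
    rw [if_neg (not_le.2 h), abs_of_neg hw']
    ring
  · have ho : IsOpen {w : ℂ | 0 < w.im} := isOpen_lt (by fun_prop) (by fun_prop)
    filter_upwards [ho.mem_nhds h] with w hw
    have hw' : 0 < w.im := hw
    unfold sgn
    rw [if_pos h.le, abs_of_pos hw']
    ring

/-- the derivative of `hd` off the real axis -/
def hdD (β δ : ℝ) (z : ℂ) : ℂ →L[ℝ] ℝ :=
  Complex.reCLM + c2 β • (gp δ (|z.im| - aa β z.re) •
    (sgn z.im • Complex.imCLM - β • Complex.reCLM))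

lemma hd_fderiv {β δ : ℝ} (hδ : 0 < δ) {z : ℂ} (hz : z.im ≠ 0) :
    HasFDerivAt (hd β δ) (hdD β δ z) z := by
  have hev : hd β δ =ᶠ[𝓝 z] fun w => w.re + c2 β * ((fun r => r * Real.smoothTransition (r / δ))
      (sgn z.im * w.im - (1 / 2 + β * w.re))) := by
    filter_upwards [ev_sgn hz] with w hw
    unfold hd c2 aa
    rw [hw]
  refine HasFDerivAt.congr_of_eventuallyEq ?_ hev
  have hre : HasFDerivAt (fun w : ℂ => w.re) Complex.reCLM z := Complex.reCLM.hasFDerivAt
  have him : HasFDerivAt (fun w : ℂ => w.im) Complex.imCLM z := Complex.imCLM.hasFDerivAt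
  have hin : HasFDerivAt (fun w : ℂ => sgn z.im * w.im - (1 / 2 + β * w.re))
      (sgn z.im • Complex.imCLM - β • Complex.reCLM) z :=
    (him.const_mul (sgn z.im)).sub ((hre.const_mul β).const_add (1 / 2))
  have hr : |z.im| - aa β z.re = sgn z.im * z.im - (1 / 2 + β * z.re) := by
    rw [sgn_mul]; rfl
  have hg := (gp_hasDerivAt hδ (sgn z.im * z.im - (1 / 2 + β * z.re))).comp_hasFDerivAt z hin
  unfold hdD
  rw [hr]
  exact hre.add (hg.const_mul (c2 β))

lemma hdD_one (β δ : ℝ) (z : ℂ) :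
    hdD β δ z 1 = 1 - c2 β * gp δ (|z.im| - aa β z.re) * β := by
  unfold hdD
  simp only [add_apply, smul_apply,
    sub_apply, Complex.reCLM_apply, Complex.imCLM_apply, Complex.one_re,
    Complex.one_im, smul_eq_mul]
  ring

lemma hdD_I (β δ : ℝ) (z : ℂ) :
    hdD β δ z Complex.I = c2 β * gp δ (|z.im| - aa β z.re) * sgn z.im := by
  unfold hdD
  simp only [add_apply, smul_apply,
    sub_apply, Complex.reCLM_apply, Complex.imCLM_apply, Complex.I_re,
    Complex.I_im, smul_eq_mul]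
  ring

/-- the derivative of the cutoff -/
lemma ze_fderiv {β s η δ : ℝ} {z : ℂ} {D : ℂ →L[ℝ] ℝ} (h : HasFDerivAt (hd β δ) D z) :
    HasFDerivAt (ze β s η δ) (-((st' ((hd β δ z - s) / η) * (1 / η)) • D)) z := by
  have h1 : HasDerivAt (fun r : ℝ => (r - s) / η) (1 / η) (hd β δ z) :=
    ((hasDerivAt_id _).sub_const s).div_const η
  have h2 : HasDerivAt (fun r : ℝ => Real.smoothTransition ((r - s) / η))
      (st' ((hd β δ z - s) / η) * (1 / η)) (hd β δ z) :=
    HasDerivAt.comp (h₂ := Real.smoothTransition) (hd β δ z)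
      (st_hasDerivAt ((hd β δ z - s) / η)) h1
  exact (h2.comp_hasFDerivAt z h).const_sub 1

/-! ### a bound for the gradient term -/

lemma grad_bound {a D1 D2 M W : ℝ} {V : ℂ} (ha : 0 ≤ a) (h1 : |D1| ≤ M) (h2 : |D2| ≤ M)
    (hV : ‖V‖ ≤ 2 * W) : -(a * (4 * M * W)) ≤ -(a * D1) * V.re + -(a * D2) * V.im := by
  have hM : 0 ≤ M := le_trans (abs_nonneg _) h1
  have hre := Complex.abs_re_le_norm V
  have him := Complex.abs_im_le_norm V
  have e1 : |D1 * V.re| ≤ M * (2 * W) := by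
    rw [abs_mul]
    exact mul_le_mul h1 (le_trans hre hV) (abs_nonneg _) hM
  have e2 : |D2 * V.im| ≤ M * (2 * W) := by
    rw [abs_mul]
    exact mul_le_mul h2 (le_trans him hV) (abs_nonneg _) hM
  have e3 : D1 * V.re + D2 * V.im ≤ 4 * M * W := by
    have := le_abs_self (D1 * V.re)
    have := le_abs_self (D2 * V.im)
    nlinarith
  have e4 := mul_le_mul_of_nonneg_left e3 ha
  nlinarith

end Pool.Agent.H745.HV.PCALC

namespace Pool.Agent.H745.HV

open Pool.Agent.TH304.MI Pool.Agent.TH703.HU PCALC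

theorem calcc (w0 : S_W0) (w2 : S_W2) (cala : S_CALA) : S_CALC := by
  obtain ⟨B₀, hB0, hB⟩ := exists_bound
  refine ⟨8 * (1 + B₀) ^ 2, by nlinarith, ?_⟩
  intro L κ β H K δ₀ k par hβ hH hK hδ₀ hδ₀' ker s η δ ρ hs hsL hη hη' hδ hδ' hρ hρ' Y₁ Y hY₁ hY z hz
  obtain ⟨hX, hXT, hrest⟩ := cala L κ β H K δ₀ k par hβ hH hK hδ₀ hδ₀' ker δ ρ hδ hδ' hρ hρ'
  have W0 := w0 L κ β H K δ₀ k par hH (by linarith) hδ₀ ker
  have W2 := w2 L κ β H K δ₀ k par hH hK hδ₀ hδ₀' ker
  set X := XF L κ β H k δ ρ with hXdef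
  set w := ww L κ β k with hwdef
  have hw0 : 0 ≤ w z := W0.1 z
  have hβ0 : 0 < β := par.β0
  -- the values of the cutoff near the boundary
  have hch0 : 0 ≤ ch L β H ρ z := by
    unfold ch
    exact mul_nonneg (mul_nonneg (Real.smoothTransition.nonneg _)
      (Real.smoothTransition.nonneg _)) (Real.smoothTransition.nonneg _)
  have hch1 : ch L β H ρ z ≤ 1 := by
    unfold ch
    have a1 := Real.smoothTransition.nonneg (z.re / ρ - 1)
    have a2 := Real.smoothTransition.le_one (z.re / ρ - 1)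
    have b1 := Real.smoothTransition.nonneg ((L - z.re) / ρ - 1)
    have b2 := Real.smoothTransition.le_one ((L - z.re) / ρ - 1)
    have c1 := Real.smoothTransition.nonneg ((H + aa β z.re - |z.im|) / ρ - 1)
    have c2 := Real.smoothTransition.le_one ((H + aa β z.re - |z.im|) / ρ - 1)
    exact mul_le_one₀ (mul_le_one₀ a2 b1 b2) c1 c2
  set i1 : ℝ := {z | z ∈ TT L β ∧ s < z.re ∧ z.re < s + η}.indicator 1 z with hi1
  set i2 : ℝ := {z | aa β z.re ≤ |z.im| ∧ |z.im| ≤ aa β z.re + δ ∧ s - δ < z.re ∧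
          z.re < s + η}.indicator 1 z with hi2
  have hi10 : 0 ≤ i1 := Set.indicator_nonneg (fun _ _ => zero_le_one) _
  have hi20 : 0 ≤ i2 := Set.indicator_nonneg (fun _ _ => zero_le_one) _
  have hY1d : DifferentiableAt ℝ Y₁ z := (hY₁.cd.differentiable (by norm_num)) z
  have hYd : DifferentiableAt ℝ Y z := (hY.cd.differentiable (by norm_num)) z
  have hXd : DifferentiableAt ℝ X z := (hX.cd.differentiable (by norm_num)) z
  set V : ℂ := Y₁ z - Y z + X z with hVdef
  -- reduction to the gradient term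
  have key : ∀ D : ℂ →L[ℝ] ℝ, HasFDerivAt (hd β δ) D z →
      -(8 * (1 + B₀) ^ 2 / η * (w z * (i1 + i2 + (1 - ch L β H ρ z)))) ≤
        -(st' ((hd β δ z - s) / η) * (1 / η) * D 1) * V.re +
        -(st' ((hd β δ z - s) / η) * (1 / η) * D Complex.I) * V.im →
      ze β s η δ z * dv2 Y₁ z + (1 - ze β s η δ z) * (dv2 Y z - dv2 X z) -
      8 * (1 + B₀) ^ 2 / η * (w z * (i1 + i2 + (1 - ch L β H ρ z))) ≤
      dv2 (ZF L κ β H k s η δ ρ Y₁ Y) z := by
    intro D hD hle
    have hc := dv2_comb (ze_fderiv (s := s) (η := η) hD) hY1d hYd hXd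
    have hZ : ZF L κ β H k s η δ ρ Y₁ Y =
        fun z => ze β s η δ z • Y₁ z + (1 - ze β s η δ z) • (Y z - X z) := rfl
    rw [hZ, hc]
    simp only [neg_apply, smul_apply, smul_eq_mul]
    linarith
  have hcoef : 0 ≤ st' ((hd β δ z - s) / η) * (1 / η) :=
    mul_nonneg (st'_nonneg _) (by positivity)
  have hcoef' : st' ((hd β δ z - s) / η) * (1 / η) ≤ B₀ * (1 / η) :=
    mul_le_mul_of_nonneg_right (hB _) (by positivity)
  have hη1 : 0 < 1 / η := by positivity
  -- the case of a vanishing derivative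
  have hvan : st' ((hd β δ z - s) / η) = 0 → ∀ D1 D2 : ℝ,
      -(8 * (1 + B₀) ^ 2 / η * (w z * (i1 + i2 + (1 - ch L β H ρ z)))) ≤
        -(st' ((hd β δ z - s) / η) * (1 / η) * D1) * V.re +
        -(st' ((hd β δ z - s) / η) * (1 / η) * D2) * V.im := by
    intro h0 D1 D2
    rw [h0]
    have : 0 ≤ 8 * (1 + B₀) ^ 2 / η * (w z * (i1 + i2 + (1 - ch L β H ρ z))) :=
      mul_nonneg (by positivity) (mul_nonneg hw0 (by linarith))
    linarith
  have hnz : st' ((hd β δ z - s) / η) ≠ 0 → s < hd β δ z ∧ hd β δ z < s + η := by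
    intro h0
    constructor
    · by_contra hcon
      exact h0 (st'_zero_of_nonpos (div_nonpos_of_nonpos_of_nonneg (by linarith) hη.le))
    · by_contra hcon
      refine h0 (st'_zero_of_one_le ?_)
      rw [le_div_iff₀ hη]
      linarith
  -- the general bound when one of the indicators is at least one
  have hgen : ∀ D1 D2 : ℝ, |D1| ≤ 2 * (1 + B₀) → |D2| ≤ 2 * (1 + B₀) → ‖V‖ ≤ 2 * w z →
      1 ≤ i1 + i2 →
      -(8 * (1 + B₀) ^ 2 / η * (w z * (i1 + i2 + (1 - ch L β H ρ z)))) ≤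
        -(st' ((hd β δ z - s) / η) * (1 / η) * D1) * V.re +
        -(st' ((hd β δ z - s) / η) * (1 / η) * D2) * V.im := by
    intro D1 D2 h1 h2 hV hi
    refine le_trans ?_ (grad_bound hcoef h1 h2 hV)
    rw [neg_le_neg_iff]
    have e1 : st' ((hd β δ z - s) / η) * (1 / η) * (4 * (2 * (1 + B₀)) * w z) ≤
        B₀ * (1 / η) * (4 * (2 * (1 + B₀)) * w z) :=
      mul_le_mul_of_nonneg_right hcoef' (by positivity)
    have e2 : w z ≤ w z * (i1 + i2 + (1 - ch L β H ρ z)) := by
      nlinarith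
    have e3 : 8 * (1 + B₀) ^ 2 / η * w z ≤
        8 * (1 + B₀) ^ 2 / η * (w z * (i1 + i2 + (1 - ch L β H ρ z))) :=
      mul_le_mul_of_nonneg_left e2 (by positivity)
    have e4 : B₀ * (1 / η) * (4 * (2 * (1 + B₀)) * w z) ≤ 8 * (1 + B₀) ^ 2 / η * w z := by
      have : 8 * (1 + B₀) ^ 2 / η * w z - B₀ * (1 / η) * (4 * (2 * (1 + B₀)) * w z) =
          (1 / η) * w z * (8 * (1 + B₀)) := by ring
      have h5 : 0 ≤ (1 / η) * w z * (8 * (1 + B₀)) := by positivity
      linarith
    linarith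
  by_cases hzT : z ∈ TT L β
  · -- the bulk
    obtain ⟨hval, hD⟩ := hd_fderiv_TT (δ := δ) hδ hzT
    refine key _ hD ?_
    by_cases h0 : st' ((hd β δ z - s) / η) = 0
    · exact hvan h0 _ _
    obtain ⟨hs1, hs2⟩ := hnz h0
    rw [hval] at hs1 hs2
    refine hgen _ _ ?_ ?_ ?_ ?_
    · simp only [Complex.reCLM_apply, Complex.one_re, abs_one]; linarith
    · simp only [Complex.reCLM_apply, Complex.I_re, abs_zero]; linarith
    · have h1 : ‖Y₁ z‖ ≤ w z := hY₁.le z
      have h2 : ‖Y z‖ ≤ 1 / 16 := hY.le z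
      have h3 : ‖X z‖ ≤ 3 / 4 * w z := hXT z hzT
      have h4 : 1 / 4 ≤ w z := W2.2.1 z hzT
      have h5 : ‖V‖ ≤ ‖Y₁ z‖ + ‖Y z‖ + ‖X z‖ :=
        le_trans (norm_add_le _ _) (by gcongr; exact norm_sub_le _ _)
      linarith
    · have : i1 = 1 := by
        rw [hi1, Set.indicator_of_mem]
        · rfl
        · exact ⟨hzT, hs1, hs2⟩
      linarith
  -- the tail
  have hre0 : 0 < z.re := hz.1
  have hreL : z.re < L := hz.2.1
  have hav : aa β z.re ≤ |z.im| := by
    by_contra hcon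
    exact hzT ⟨hre0, hreL, not_le.1 hcon⟩
  have ha : 1 / 2 ≤ aa β z.re := by
    unfold aa
    have := mul_nonneg hβ0.le hre0.le
    linarith
  have him : z.im ≠ 0 := by
    intro h
    rw [h, abs_zero] at hav
    linarith
  have hYz : Y z = 0 := by
    by_contra hne
    exact hzT (hY.sub (subset_tsupport _ (Function.mem_support.2 hne)))
  have hD := hd_fderiv (β := β) hδ him
  refine key _ hD ?_
  by_cases h0 : st' ((hd β δ z - s) / η) = 0
  · exact hvan h0 _ _
  obtain ⟨hs1, hs2⟩ := hnz h0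
  have hr0 : 0 ≤ |z.im| - aa β z.re := by linarith
  have hc20 := c2_nonneg hβ0 hβ
  have hc21 := c2_le hβ0 hβ
  have hg0 := gp_nonneg hδ hr0
  have hg1 := gp_le hδ hr0 hB0 hB
  have hst0 := Real.smoothTransition.nonneg ((|z.im| - aa β z.re) / δ)
  have hst1 := Real.smoothTransition.le_one ((|z.im| - aa β z.re) / δ)
  have hhd : hd β δ z = z.re + c2 β * ((|z.im| - aa β z.re) *
    Real.smoothTransition ((|z.im| - aa β z.re) / δ)) := rfl
  have hhd0 : z.re ≤ hd β δ z := by
    rw [hhd]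
    have := mul_nonneg hc20 (mul_nonneg hr0 hst0)
    linarith
  have hV2 : ‖V‖ ≤ 2 * w z := by
    have h1 : ‖Y₁ z‖ ≤ w z := hY₁.le z
    have h3 : ‖X z‖ ≤ w z := hX.le z
    have h5 : ‖V‖ ≤ ‖Y₁ z‖ + ‖X z‖ := by
      rw [hVdef, hYz, sub_zero]
      exact norm_add_le _ _
    linarith
  by_cases hr : |z.im| ≤ aa β z.re + δ
  · -- the layer
    refine hgen _ _ ?_ ?_ hV2 ?_
    · rw [hdD_one, abs_le]
      have e1 : c2 β * gp δ (|z.im| - aa β z.re) * β ≤ 1 * (1 + B₀) * 1 :=
        mul_le_mul (mul_le_mul hc21 hg1 hg0 zero_le_one) (by linarith) hβ0.le (by positivity)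
      have e2 : 0 ≤ c2 β * gp δ (|z.im| - aa β z.re) * β :=
        mul_nonneg (mul_nonneg hc20 hg0) hβ0.le
      constructor <;> linarith
    · rw [hdD_I, abs_mul, abs_sgn, mul_one, abs_of_nonneg (mul_nonneg hc20 hg0)]
      have e1 : c2 β * gp δ (|z.im| - aa β z.re) ≤ 1 * (1 + B₀) :=
        mul_le_mul hc21 hg1 hg0 zero_le_one
      linarith
    · have hup : hd β δ z ≤ z.re + δ := by
        rw [hhd]
        have e1 : (|z.im| - aa β z.re) * Real.smoothTransition ((|z.im| - aa β z.re) / δ) ≤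
            δ * 1 := mul_le_mul (by linarith) hst1 hst0 hδ.le
        have e2 : c2 β * ((|z.im| - aa β z.re) *
            Real.smoothTransition ((|z.im| - aa β z.re) / δ)) ≤ 1 * (δ * 1) :=
          mul_le_mul hc21 e1 (mul_nonneg hr0 hst0) zero_le_one
        linarith
      have : i2 = 1 := by
        rw [hi2, Set.indicator_of_mem]
        · rfl
        · exact ⟨hav, hr, by linarith, by linarith⟩
      linarith
  · -- far in the tail
    have hr' : δ ≤ |z.im| - aa β z.re := by linarith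
    have hgp := gp_one hδ hr'
    have hlm : lm β δ z = 1 := by
      unfold lm
      refine Real.smoothTransition.one_of_one_le ?_
      rw [le_div_iff₀ hδ]
      linarith
    have hnu : nu L z = 1 := by
      unfold nu
      refine Real.smoothTransition.one_of_one_le ?_
      linarith
    have hNF : NF L β δ z = ⟨-cg β, -(sgn z.im * sg β)⟩ := by
      unfold NF NT
      rw [hlm, hnu]
      apply Complex.ext
      · simp
      · simp
    have hXre : (X z).re = -(ch L β H ρ z * w z * cg β) := by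
      have : X z = (ch L β H ρ z * w z) • NF L β δ z := rfl
      rw [this, hNF]
      simp
    have hXim : (X z).im = -(ch L β H ρ z * w z * (sgn z.im * sg β)) := by
      have : X z = (ch L β H ρ z * w z) • NF L β δ z := rfl
      rw [this, hNF]
      simp
    have hden := den_ge hβ0 hβ
    have hden0 : 0 < cg β + β * sg β := by linarith
    have hD1 : hdD β δ z 1 = cg β / (cg β + β * sg β) := by
      have hne := hden0.ne'
      have e : cg β / (cg β + β * sg β) =
          (cg β + β * sg β) / (cg β + β * sg β) - β * sg β / (cg β + β * sg β) := by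
        rw [← sub_div, add_sub_cancel_right]
      rw [hdD_one, hgp, e, div_self hne]
      unfold c2
      ring
    have hD2 : hdD β δ z Complex.I = sgn z.im * sg β / (cg β + β * sg β) := by
      rw [hdD_I, hgp]
      unfold c2
      ring
    -- Cauchy-Schwarz
    have hCS : cg β * (Y₁ z).re + sgn z.im * sg β * (Y₁ z).im ≤ w z := by
      have h1 : ‖Y₁ z‖ ≤ w z := hY₁.le z
      have h2 : (Y₁ z).re ^ 2 + (Y₁ z).im ^ 2 = ‖Y₁ z‖ ^ 2 := by
        rw [← Complex.normSq_eq_norm_sq, Complex.normSq_apply]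
        ring
      have h3 := cs_sq β
      have h4 := sgn_sq z.im
      have h5 : (cg β * (Y₁ z).re + sgn z.im * sg β * (Y₁ z).im) ^ 2 ≤ ‖Y₁ z‖ ^ 2 := by
        have h6 : (cg β * (Y₁ z).re + sgn z.im * sg β * (Y₁ z).im) ^ 2 +
            (cg β * (Y₁ z).im - sgn z.im * sg β * (Y₁ z).re) ^ 2 =
            (cg β ^ 2 + sgn z.im ^ 2 * sg β ^ 2) * ((Y₁ z).re ^ 2 + (Y₁ z).im ^ 2) := by ring
        rw [h4, one_mul, h3, one_mul, h2] at h6
        nlinarith [sq_nonneg (cg β * (Y₁ z).im - sgn z.im * sg β * (Y₁ z).re)]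
      have h7 := abs_le_of_sq_le_sq h5 (norm_nonneg _)
      exact (le_abs_self _).trans (h7.trans h1)
    have hVre : V.re = (Y₁ z).re - ch L β H ρ z * w z * cg β := by
      rw [hVdef, hYz, sub_zero, Complex.add_re, hXre]
      ring
    have hVim : V.im = (Y₁ z).im - ch L β H ρ z * w z * (sgn z.im * sg β) := by
      rw [hVdef, hYz, sub_zero, Complex.add_im, hXim]
      ring
    rw [hD1, hD2, hVre, hVim]
    set a := st' ((hd β δ z - s) / η) * (1 / η) with hadef
    set d := cg β + β * sg β with hddef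
    have hmain : -(a * (cg β / d)) * ((Y₁ z).re - ch L β H ρ z * w z * cg β) +
        -(a * (sgn z.im * sg β / d)) * ((Y₁ z).im - ch L β H ρ z * w z * (sgn z.im * sg β)) =
        -(a / d * ((cg β * (Y₁ z).re + sgn z.im * sg β * (Y₁ z).im) -
          ch L β H ρ z * w z * (cg β ^ 2 + sgn z.im ^ 2 * sg β ^ 2))) := by ring
    rw [hmain, sgn_sq, one_mul, cs_sq, mul_one, neg_le_neg_iff]
    have had : 0 ≤ a / d := div_nonneg hcoef hden0.le
    have had' : a / d ≤ 8 * (1 + B₀) ^ 2 / η := by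
      rw [div_le_iff₀ hden0]
      have e1 : 8 * (1 + B₀) ^ 2 / η * (1 / 2) ≤ 8 * (1 + B₀) ^ 2 / η * d :=
        mul_le_mul_of_nonneg_left hden (by positivity)
      have e2 : B₀ * (1 / η) ≤ 8 * (1 + B₀) ^ 2 / η * (1 / 2) := by
        have : 8 * (1 + B₀) ^ 2 / η * (1 / 2) - B₀ * (1 / η) =
          (1 / η) * (4 * (1 + B₀) ^ 2 - B₀) := by ring
        have h5 : 0 ≤ (1 / η) * (4 * (1 + B₀) ^ 2 - B₀) :=
          mul_nonneg hη1.le (by nlinarith)
        linarith
      linarith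
    have hwch : 0 ≤ w z * (1 - ch L β H ρ z) := mul_nonneg hw0 (by linarith)
    calc a / d * (cg β * (Y₁ z).re + sgn z.im * sg β * (Y₁ z).im - ch L β H ρ z * w z)
        ≤ a / d * (w z * (1 - ch L β H ρ z)) := by
          refine mul_le_mul_of_nonneg_left ?_ had
          linarith
      _ ≤ 8 * (1 + B₀) ^ 2 / η * (w z * (1 - ch L β H ρ z)) :=
          mul_le_mul_of_nonneg_right had' hwch
      _ ≤ 8 * (1 + B₀) ^ 2 / η * (w z * (i1 + i2 + (1 - ch L β H ρ z))) := by
          refine mul_le_mul_of_nonneg_left ?_ (by positivity)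
          refine mul_le_mul_of_nonneg_left ?_ hw0
          linarith

end Pool.Agent.H745.HV
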