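import Mathlib
import Pool.Agent.H745.HV.Stm

/-!
# Project HV (helper745): CUT, by helper187
-/

set_option autoImplicit false

open MeasureTheory Set Metric Filter Topology
open scoped ENNReal Real

noncomputable section

namespace Pool.Agent.H745.HV

open Pool.Agent.TH304.MI Pool.Agent.TH703.HU

namespace PCUT

/-! ### Planar Fubini -/

theorem vol_fub {S : Set ℂ} (hS : MeasurableSet S) :
    volume S = ∫⁻ x : ℝ, volume {y : ℝ | (⟨x, y⟩ : ℂ) ∈ S} := by
  have h1 := (Complex.volume_preserving_equiv_real_prod.symm).measure_preimage hS.nullMeasurableSet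
  rw [← h1]
  have hm : MeasurableSet (Complex.measurableEquivRealProd.symm ⁻¹' S) :=
    Complex.measurableEquivRealProd.symm.measurable hS
  have h2 : (volume : Measure (ℝ × ℝ)) = (volume : Measure ℝ).prod volume := rfl
  rw [h2, Measure.prod_apply hm]
  rfl

/-- the null set where the formulas change -/
theorem vol_edge (β : ℝ) : volume {z : ℂ | |z.im| = aa β z.re} = 0 := by
  have hm : MeasurableSet {z : ℂ | |z.im| = aa β z.re} := by
    apply measurableSet_eq_fun
    · exact (Complex.continuous_im.abs).measurable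
    · unfold aa
      exact (continuous_const.add (continuous_const.mul Complex.continuous_re)).measurable
  rw [vol_fub hm]
  have h : ∀ x : ℝ, volume {y : ℝ | (⟨x, y⟩ : ℂ) ∈ {z : ℂ | |z.im| = aa β z.re}} = 0 := by
    intro x
    have hs : {y : ℝ | (⟨x, y⟩ : ℂ) ∈ {z : ℂ | |z.im| = aa β z.re}} ⊆ {aa β x, -aa β x} := by
      intro y hy
      have hy' : |y| = aa β x := hy
      rcases abs_choice y with h | h
      · left
        rw [← hy', h]
      · right
        show y = -aa β x
        rw [← hy', h]
        ring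
    refine measure_mono_null hs ?_
    exact (Set.toFinite _).measure_zero _
  simp only [h, lintegral_zero]

/-- the area of the layer -/
theorem vol_layer (β s η δ : ℝ) (hδ : 0 ≤ δ) :
    volume {z : ℂ | aa β z.re ≤ |z.im| ∧ |z.im| ≤ aa β z.re + δ ∧ s - δ < z.re ∧
        z.re < s + η} ≤ ENNReal.ofReal (2 * δ * (η + δ)) := by
  have ca : Continuous (fun z : ℂ => aa β z.re) := by
    unfold aa
    exact continuous_const.add (continuous_const.mul Complex.continuous_re)
  have ci : Continuous (fun z : ℂ => |z.im|) := Complex.continuous_im.abs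
  have hm : MeasurableSet {z : ℂ | aa β z.re ≤ |z.im| ∧ |z.im| ≤ aa β z.re + δ ∧ s - δ < z.re ∧
        z.re < s + η} := by
    refine MeasurableSet.inter (measurableSet_le ca.measurable ci.measurable) ?_
    refine MeasurableSet.inter (measurableSet_le ci.measurable (ca.add continuous_const).measurable) ?_
    refine MeasurableSet.inter (measurableSet_lt measurable_const Complex.measurable_re) ?_
    exact measurableSet_lt Complex.measurable_re measurable_const
  rw [vol_fub hm]
  have h : ∀ x : ℝ, volume {y : ℝ | (⟨x, y⟩ : ℂ) ∈ {z : ℂ | aa β z.re ≤ |z.im| ∧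
      |z.im| ≤ aa β z.re + δ ∧ s - δ < z.re ∧ z.re < s + η}} ≤
      (Ioo (s - δ) (s + η)).indicator (fun _ => ENNReal.ofReal (2 * δ)) x := by
    intro x
    by_cases hx : x ∈ Ioo (s - δ) (s + η)
    · rw [indicator_of_mem hx]
      have hs : {y : ℝ | (⟨x, y⟩ : ℂ) ∈ {z : ℂ | aa β z.re ≤ |z.im| ∧
          |z.im| ≤ aa β z.re + δ ∧ s - δ < z.re ∧ z.re < s + η}} ⊆
          Icc (aa β x) (aa β x + δ) ∪ Icc (-(aa β x + δ)) (-aa β x) := by
        intro y hy
        have hy1 : aa β x ≤ |y| := hy.1
        have hy2 : |y| ≤ aa β x + δ := hy.2.1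
        rcases abs_choice y with h | h
        · left
          rw [h] at hy1 hy2
          exact ⟨hy1, hy2⟩
        · right
          rw [h] at hy1 hy2
          exact ⟨by linarith, by linarith⟩
      refine (measure_mono hs).trans ((measure_union_le _ _).trans ?_)
      rw [Real.volume_Icc, Real.volume_Icc, ← ENNReal.ofReal_add (by linarith) (by linarith)]
      apply ENNReal.ofReal_le_ofReal
      linarith
    · rw [indicator_of_notMem hx]
      have hs : {y : ℝ | (⟨x, y⟩ : ℂ) ∈ {z : ℂ | aa β z.re ≤ |z.im| ∧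
          |z.im| ≤ aa β z.re + δ ∧ s - δ < z.re ∧ z.re < s + η}} = ∅ := by
        ext y
        constructor
        · intro hy
          exact (hx ⟨hy.2.2.1, hy.2.2.2⟩).elim
        · intro hy
          exact hy.elim
      rw [hs, measure_empty]
  refine (lintegral_mono h).trans ?_
  rw [lintegral_indicator measurableSet_Ioo, lintegral_const, Measure.restrict_apply_univ,
    Real.volume_Ioo, ← ENNReal.ofReal_mul (by linarith)]
  apply ENNReal.ofReal_le_ofReal
  apply le_of_eq
  ring

/-! ### Continuity and measurability -/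

theorem cont_aa (β : ℝ) : Continuous (fun z : ℂ => aa β z.re) := by
  unfold aa
  exact continuous_const.add (continuous_const.mul Complex.continuous_re)

theorem cont_hh (β : ℝ) : Continuous (hh β) := by
  unfold hh
  exact Complex.continuous_re.add (continuous_const.mul
    ((Complex.continuous_im.abs).sub (cont_aa β)))

theorem cont_hd (β δ : ℝ) : Continuous (hd β δ) := by
  unfold hd
  have h1 : Continuous (fun z : ℂ => |z.im| - aa β z.re) :=
    (Complex.continuous_im.abs).sub (cont_aa β)
  exact Complex.continuous_re.add (continuous_const.mul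
    (h1.mul (Real.smoothTransition.continuous.comp (h1.div_const δ))))

theorem cont_ze (β s η δ : ℝ) : Continuous (ze β s η δ) := by
  unfold ze
  exact continuous_const.sub (Real.smoothTransition.continuous.comp
    (((cont_hd β δ).sub continuous_const).div_const η))

theorem ze_nonneg (β s η δ : ℝ) (z : ℂ) : 0 ≤ ze β s η δ z := by
  unfold ze
  linarith [Real.smoothTransition.le_one ((hd β δ z - s) / η)]

theorem ze_le_one (β s η δ : ℝ) (z : ℂ) : ze β s η δ z ≤ 1 := by
  unfold ze
  linarith [Real.smoothTransition.nonneg ((hd β δ z - s) / η)]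

theorem meas_TT (L β : ℝ) : MeasurableSet (TT L β) := by
  refine MeasurableSet.inter (measurableSet_lt measurable_const Complex.measurable_re) ?_
  refine MeasurableSet.inter (measurableSet_lt Complex.measurable_re measurable_const) ?_
  exact measurableSet_lt (Complex.continuous_im.abs).measurable (cont_aa β).measurable

theorem meas_DD (L β H : ℝ) : MeasurableSet (DD L β H) := by
  refine MeasurableSet.inter (measurableSet_lt measurable_const Complex.measurable_re) ?_
  refine MeasurableSet.inter (measurableSet_lt Complex.measurable_re measurable_const) ?_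
  exact measurableSet_lt (Complex.continuous_im.abs).measurable
    (continuous_const.add (cont_aa β)).measurable

theorem meas_UB (L β s : ℝ) : MeasurableSet (UB L β s) :=
  MeasurableSet.inter (meas_TT L β) (measurableSet_lt measurable_const Complex.measurable_re)

theorem meas_UT (L β H s : ℝ) : MeasurableSet (UT L β H s) := by
  refine MeasurableSet.inter (meas_DD L β H) ?_
  refine MeasurableSet.inter (measurableSet_le (cont_aa β).measurable
    (Complex.continuous_im.abs).measurable) ?_
  exact measurableSet_lt measurable_const (cont_hh β).measurable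

/-! ### The divergence -/

theorem dv2_cont {Y : ℂ → ℂ} (h : ContDiff ℝ 1 Y) : Continuous (dv2 Y) := by
  have h1 : Continuous (fderiv ℝ Y) := h.continuous_fderiv (by norm_num)
  unfold dv2
  exact (Complex.continuous_re.comp (h1.clm_apply continuous_const)).add
    (Complex.continuous_im.comp (h1.clm_apply continuous_const))

theorem dv2_zero {Y : ℂ → ℂ} {z : ℂ} (h : z ∉ tsupport Y) : dv2 Y z = 0 := by
  have h1 : fderiv ℝ Y z = 0 := fderiv_of_notMem_tsupport ℝ h
  unfold dv2
  rw [h1]
  simp

theorem dv2_cs {Y : ℂ → ℂ} (h : HasCompactSupport Y) : HasCompactSupport (dv2 Y) :=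
  HasCompactSupport.intro h (fun _ hx => dv2_zero hx)

theorem dv2_int {Y : ℂ → ℂ} (h : ContDiff ℝ 1 Y) (hc : HasCompactSupport Y) :
    Integrable (dv2 Y) :=
  (dv2_cont h).integrable_of_hasCompactSupport (dv2_cs hc)

/-! ### The sequences -/

def en (n : ℕ) : ℝ := 1 / ((n : ℝ) + 2)

def dn (n : ℕ) : ℝ := en n ^ 2

theorem en_pos (n : ℕ) : 0 < en n := by
  unfold en
  positivity

theorem en_le (n : ℕ) : en n ≤ 1 / 2 := by
  unfold en
  apply one_div_le_one_div_of_le (by norm_num)
  have : (0 : ℝ) ≤ n := Nat.cast_nonneg n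
  linarith

theorem en_tend : Tendsto en atTop (𝓝 0) := by
  have h := tendsto_one_div_add_atTop_nhds_zero_nat (𝕜 := ℝ)
  have h2 : Tendsto (fun n : ℕ => 1 / (((n + 1 : ℕ) : ℝ) + 1)) atTop (𝓝 0) :=
    h.comp (tendsto_add_atTop_nat 1)
  refine h2.congr (fun n => ?_)
  unfold en
  push_cast
  ring

theorem dn_pos (n : ℕ) : 0 < dn n := pow_pos (en_pos n) 2

theorem dn_le (n : ℕ) : dn n ≤ 1 / 4 := by
  unfold dn
  nlinarith [en_pos n, en_le n]

theorem dn_tend : Tendsto dn atTop (𝓝 0) := by
  have h := en_tend.pow 2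
  simp only [ne_eq, OfNat.ofNat_ne_zero, not_false_eq_true, zero_pow] at h
  exact h

/-! ### Pointwise behaviour of the cutoff -/

/-- In the bulk `hd = x`. -/
theorem hd_bulk {β δ : ℝ} (hδ : 0 < δ) {z : ℂ} (hz : |z.im| < aa β z.re) : hd β δ z = z.re := by
  unfold hd
  rw [Real.smoothTransition.zero_of_nonpos (div_nonpos_of_nonpos_of_nonneg (by linarith) hδ.le)]
  ring

/-- High above the bulk `hd = hh`. -/
theorem hd_tail {β δ : ℝ} (hδ : 0 < δ) {z : ℂ} (hz : aa β z.re + δ ≤ |z.im|) :
    hd β δ z = hh β z := by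
  unfold hd hh
  rw [Real.smoothTransition.one_of_one_le ((one_le_div hδ).mpr (by linarith))]
  ring

theorem ze_one {β s η δ : ℝ} (hη : 0 < η) {z : ℂ} (hz : hd β δ z ≤ s) : ze β s η δ z = 1 := by
  unfold ze
  rw [Real.smoothTransition.zero_of_nonpos (div_nonpos_of_nonpos_of_nonneg (by linarith) hη.le)]
  ring

theorem ze_zero {β s η δ : ℝ} (hη : 0 < η) {z : ℂ} (hz : s + η ≤ hd β δ z) :
    ze β s η δ z = 0 := by
  unfold ze
  rw [Real.smoothTransition.one_of_one_le ((one_le_div hη).mpr (by linarith))]
  ring

/-- eventually small -/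
theorem ev_en {c : ℝ} (hc : 0 < c) : ∀ᶠ n in atTop, en n ≤ c :=
  (en_tend.eventually (gt_mem_nhds hc)).mono (fun _ h => le_of_lt h)

theorem ev_dn {c : ℝ} (hc : 0 < c) : ∀ᶠ n in atTop, dn n ≤ c :=
  (dn_tend.eventually (gt_mem_nhds hc)).mono (fun _ h => le_of_lt h)

theorem ze_bulk_out {β s : ℝ} {z : ℂ} (hz : |z.im| < aa β z.re) (hs : z.re ≤ s) (n : ℕ) :
    ze β s (en n) (dn n) z = 1 :=
  ze_one (en_pos n) (by rw [hd_bulk (dn_pos n) hz]; exact hs)

theorem ze_bulk_in {β s : ℝ} {z : ℂ} (hz : |z.im| < aa β z.re) (hs : s < z.re) :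
    ∀ᶠ n in atTop, ze β s (en n) (dn n) z = 0 := by
  filter_upwards [ev_en (sub_pos.mpr hs)] with n hn
  exact ze_zero (en_pos n) (by rw [hd_bulk (dn_pos n) hz]; linarith)

theorem ze_tail_out {β s : ℝ} {z : ℂ} (hz : aa β z.re < |z.im|) (hs : hh β z ≤ s) :
    ∀ᶠ n in atTop, ze β s (en n) (dn n) z = 1 := by
  filter_upwards [ev_dn (sub_pos.mpr hz)] with n hn
  exact ze_one (en_pos n) (by rw [hd_tail (dn_pos n) (by linarith)]; exact hs)

theorem ze_tail_in {β s : ℝ} {z : ℂ} (hz : aa β z.re < |z.im|) (hs : s < hh β z) :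
    ∀ᶠ n in atTop, ze β s (en n) (dn n) z = 0 := by
  filter_upwards [ev_dn (sub_pos.mpr hz), ev_en (sub_pos.mpr hs)] with n hn hn2
  exact ze_zero (en_pos n) (by rw [hd_tail (dn_pos n) (by linarith)]; linarith)

/-! ### The four limits -/

section Limits

variable (L β H s : ℝ)

theorem lim1 {A : Set ℂ} {f : ℂ → ℝ} (hf : Integrable f)
    (h0 : ∀ z, z ∉ DD L β H → f z = 0) :
    Tendsto (fun n : ℕ => ∫ z in A, ze β s (en n) (dn n) z * f z) atTop
      (𝓝 (∫ z in A \ (UB L β s ∪ UT L β H s), f z)) := by
  have hU : MeasurableSet ((UB L β s ∪ UT L β H s)ᶜ) :=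
    ((meas_UB L β s).union (meas_UT L β H s)).compl
  have e1 : (∫ z in A \ (UB L β s ∪ UT L β H s), f z) =
      ∫ z in A, ((UB L β s ∪ UT L β H s)ᶜ).indicator f z := by
    rw [setIntegral_indicator hU]
    rfl
  rw [e1]
  refine tendsto_integral_of_dominated_convergence (fun z => ‖f z‖) ?_ ?_ ?_ ?_
  · intro n
    exact ((cont_ze β s (en n) (dn n)).aestronglyMeasurable).mul
      (hf.aestronglyMeasurable.restrict)
  · exact hf.norm.integrableOn
  · intro n
    refine Eventually.of_forall (fun z => ?_)
    rw [norm_mul, Real.norm_of_nonneg (ze_nonneg β s (en n) (dn n) z)]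
    exact mul_le_of_le_one_left (norm_nonneg _) (ze_le_one β s (en n) (dn n) z)
  · have hne : ∀ᵐ z : ℂ, ¬ (|z.im| = aa β z.re) := by
      rw [ae_iff]
      simp only [not_not]
      exact vol_edge β
    refine ae_restrict_of_ae (hne.mono (fun z hz => ?_))
    by_cases hD : z ∈ DD L β H
    · rcases lt_or_gt_of_ne hz with h | h
      · -- bulk
        have hT : z ∈ TT L β := ⟨hD.1, hD.2.1, h⟩
        by_cases hs : s < z.re
        · have hm : z ∉ (UB L β s ∪ UT L β H s)ᶜ := fun hc => hc (Or.inl ⟨hT, hs⟩)
          rw [indicator_of_notMem hm]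
          refine tendsto_const_nhds.congr' ?_
          filter_upwards [ze_bulk_in h hs] with n hn
          rw [hn, zero_mul]
        · have hm : z ∈ (UB L β s ∪ UT L β H s)ᶜ := by
            intro hc
            rcases hc with hc | hc
            · exact hs hc.2
            · exact absurd hc.2.1 (not_le.mpr h)
          rw [indicator_of_mem hm]
          refine tendsto_const_nhds.congr' ?_
          refine Eventually.of_forall (fun n => ?_)
          beta_reduce
          rw [ze_bulk_out h (not_lt.mp hs) n, one_mul]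
      · by_cases hs : s < hh β z
        · have hm : z ∉ (UB L β s ∪ UT L β H s)ᶜ := fun hc => hc (Or.inr ⟨hD, le_of_lt h, hs⟩)
          rw [indicator_of_notMem hm]
          refine tendsto_const_nhds.congr' ?_
          filter_upwards [ze_tail_in h hs] with n hn
          rw [hn, zero_mul]
        · have hm : z ∈ (UB L β s ∪ UT L β H s)ᶜ := by
            intro hc
            rcases hc with hc | hc
            · exact absurd hc.1.2.2 (not_lt.mpr (le_of_lt h))
            · exact hs hc.2.2
          rw [indicator_of_mem hm]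
          refine tendsto_const_nhds.congr' ?_
          filter_upwards [ze_tail_out h (not_lt.mp hs)] with n hn
          rw [hn, one_mul]
    · have hf0 : f z = 0 := h0 z hD
      have e : ((UB L β s ∪ UT L β H s)ᶜ).indicator f z = 0 := by
        by_cases hm : z ∈ (UB L β s ∪ UT L β H s)ᶜ
        · rw [indicator_of_mem hm, hf0]
        · rw [indicator_of_notMem hm]
      rw [e]
      refine tendsto_const_nhds.congr' ?_
      refine Eventually.of_forall (fun n => ?_)
      beta_reduce
      rw [hf0, mul_zero]

theorem lim2 {A : Set ℂ} {f : ℂ → ℝ} (hf : Integrable f)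
    (h0 : ∀ z, z ∉ TT L β → f z = 0) :
    Tendsto (fun n : ℕ => ∫ z in A, (1 - ze β s (en n) (dn n) z) * f z) atTop
      (𝓝 (∫ z in A ∩ UB L β s, f z)) := by
  have hU : MeasurableSet (UB L β s) := meas_UB L β s
  have e1 : (∫ z in A ∩ UB L β s, f z) = ∫ z in A, (UB L β s).indicator f z := by
    rw [setIntegral_indicator hU]
  rw [e1]
  refine tendsto_integral_of_dominated_convergence (fun z => ‖f z‖) ?_ ?_ ?_ ?_
  · intro n
    exact ((continuous_const.sub (cont_ze β s (en n) (dn n))).aestronglyMeasurable).mul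
      (hf.aestronglyMeasurable.restrict)
  · exact hf.norm.integrableOn
  · intro n
    refine Eventually.of_forall (fun z => ?_)
    rw [norm_mul, Real.norm_of_nonneg (sub_nonneg.mpr (ze_le_one β s (en n) (dn n) z))]
    exact mul_le_of_le_one_left (norm_nonneg _) (by linarith [ze_nonneg β s (en n) (dn n) z])
  · refine Eventually.of_forall (fun z => ?_)
    by_cases hT : z ∈ TT L β
    · by_cases hs : s < z.re
      · rw [indicator_of_mem (show z ∈ UB L β s from ⟨hT, hs⟩)]
        refine tendsto_const_nhds.congr' ?_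
        filter_upwards [ze_bulk_in hT.2.2 hs] with n hn
        rw [hn, sub_zero, one_mul]
      · rw [indicator_of_notMem (show z ∉ UB L β s from fun hc => hs hc.2)]
        refine tendsto_const_nhds.congr' ?_
        refine Eventually.of_forall (fun n => ?_)
        beta_reduce
        rw [ze_bulk_out hT.2.2 (not_lt.mp hs) n, sub_self, zero_mul]
    · have hf0 : f z = 0 := h0 z hT
      rw [indicator_of_notMem (show z ∉ UB L β s from fun hc => hT hc.1)]
      refine tendsto_const_nhds.congr' ?_
      refine Eventually.of_forall (fun n => ?_)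
      beta_reduce
      rw [hf0, mul_zero]

theorem lim3 {A : Set ℂ} {w : ℂ → ℝ} (hf : Integrable w)
    (h0 : ∀ z, z ∉ DD L β H → w z = 0) :
    Tendsto (fun n : ℕ => ∫ z in A ∩ {z | aa β z.re + dn n ≤ |z.im|},
      (1 - ze β s (en n) (dn n) z) * w z) atTop (𝓝 (mu w (A ∩ UT L β H s))) := by
  have hU : MeasurableSet (UT L β H s) := meas_UT L β H s
  have hV : ∀ n : ℕ, MeasurableSet {z : ℂ | aa β z.re + dn n ≤ |z.im|} := fun n =>
    measurableSet_le ((cont_aa β).add continuous_const).measurable
      (Complex.continuous_im.abs).measurable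
  have e1 : mu w (A ∩ UT L β H s) = ∫ z in A, (UT L β H s).indicator w z := by
    unfold mu
    rw [setIntegral_indicator hU]
  have e2 : (fun n : ℕ => ∫ z in A ∩ {z | aa β z.re + dn n ≤ |z.im|},
      (1 - ze β s (en n) (dn n) z) * w z) =
      fun n : ℕ => ∫ z in A, {z : ℂ | aa β z.re + dn n ≤ |z.im|}.indicator
        (fun z => (1 - ze β s (en n) (dn n) z) * w z) z := by
    funext n
    rw [setIntegral_indicator (hV n)]
  rw [e1, e2]
  refine tendsto_integral_of_dominated_convergence (fun z => ‖w z‖) ?_ ?_ ?_ ?_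
  · intro n
    refine AEStronglyMeasurable.indicator ?_ (hV n)
    exact ((continuous_const.sub (cont_ze β s (en n) (dn n))).aestronglyMeasurable).mul
      (hf.aestronglyMeasurable.restrict)
  · exact hf.norm.integrableOn
  · intro n
    refine Eventually.of_forall (fun z => ?_)
    refine (norm_indicator_le_norm_self _ _).trans ?_
    rw [norm_mul, Real.norm_of_nonneg (sub_nonneg.mpr (ze_le_one β s (en n) (dn n) z))]
    exact mul_le_of_le_one_left (norm_nonneg _) (by linarith [ze_nonneg β s (en n) (dn n) z])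
  · have hne : ∀ᵐ z : ℂ, ¬ (|z.im| = aa β z.re) := by
      rw [ae_iff]
      simp only [not_not]
      exact vol_edge β
    refine ae_restrict_of_ae (hne.mono (fun z hz => ?_))
    by_cases hD : z ∈ DD L β H
    · rcases lt_or_gt_of_ne hz with h | h
      · rw [indicator_of_notMem (show z ∉ UT L β H s from fun hc => absurd hc.2.1 (not_le.mpr h))]
        refine tendsto_const_nhds.congr' ?_
        refine Eventually.of_forall (fun n => ?_)
        beta_reduce
        rw [indicator_of_notMem]
        intro hc
        have hc' : aa β z.re + dn n ≤ |z.im| := hc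
        linarith [dn_pos n]
      · by_cases hs : s < hh β z
        · rw [indicator_of_mem (show z ∈ UT L β H s from ⟨hD, le_of_lt h, hs⟩)]
          refine tendsto_const_nhds.congr' ?_
          filter_upwards [ze_tail_in h hs, ev_dn (sub_pos.mpr h)] with n hn hn2
          rw [indicator_of_mem (show z ∈ {z : ℂ | aa β z.re + dn n ≤ |z.im|} from by
            show aa β z.re + dn n ≤ |z.im|
            linarith)]
          rw [hn, sub_zero, one_mul]
        · rw [indicator_of_notMem (show z ∉ UT L β H s from fun hc => hs hc.2.2)]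
          refine tendsto_const_nhds.congr' ?_
          filter_upwards [ze_tail_out h (not_lt.mp hs)] with n hn
          symm
          apply indicator_apply_eq_zero.mpr
          intro _
          rw [hn, sub_self, zero_mul]
    · have hf0 : w z = 0 := h0 z hD
      rw [indicator_of_notMem (show z ∉ UT L β H s from fun hc => hD hc.1)]
      refine tendsto_const_nhds.congr' ?_
      refine Eventually.of_forall (fun n => ?_)
      symm
      apply indicator_apply_eq_zero.mpr
      intro _
      rw [hf0, mul_zero]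

theorem lim4 {A : Set ℂ} {w : ℂ → ℝ} (hf : Integrable w)
    (h0 : ∀ z, z ∉ DD L β H → w z = 0) :
    Tendsto (fun n : ℕ => ∫ z in A ∩ {z | |z.im| < aa β z.re + dn n},
      (1 - ze β s (en n) (dn n) z) * w z) atTop (𝓝 (mu w (A ∩ UB L β s))) := by
  have hU : MeasurableSet (UB L β s) := meas_UB L β s
  have hV : ∀ n : ℕ, MeasurableSet {z : ℂ | |z.im| < aa β z.re + dn n} := fun n =>
    measurableSet_lt (Complex.continuous_im.abs).measurable
      ((cont_aa β).add continuous_const).measurable
  have e1 : mu w (A ∩ UB L β s) = ∫ z in A, (UB L β s).indicator w z := by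
    unfold mu
    rw [setIntegral_indicator hU]
  have e2 : (fun n : ℕ => ∫ z in A ∩ {z | |z.im| < aa β z.re + dn n},
      (1 - ze β s (en n) (dn n) z) * w z) =
      fun n : ℕ => ∫ z in A, {z : ℂ | |z.im| < aa β z.re + dn n}.indicator
        (fun z => (1 - ze β s (en n) (dn n) z) * w z) z := by
    funext n
    rw [setIntegral_indicator (hV n)]
  rw [e1, e2]
  refine tendsto_integral_of_dominated_convergence (fun z => ‖w z‖) ?_ ?_ ?_ ?_
  · intro n
    refine AEStronglyMeasurable.indicator ?_ (hV n)
    exact ((continuous_const.sub (cont_ze β s (en n) (dn n))).aestronglyMeasurable).mul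
      (hf.aestronglyMeasurable.restrict)
  · exact hf.norm.integrableOn
  · intro n
    refine Eventually.of_forall (fun z => ?_)
    refine (norm_indicator_le_norm_self _ _).trans ?_
    rw [norm_mul, Real.norm_of_nonneg (sub_nonneg.mpr (ze_le_one β s (en n) (dn n) z))]
    exact mul_le_of_le_one_left (norm_nonneg _) (by linarith [ze_nonneg β s (en n) (dn n) z])
  · have hne : ∀ᵐ z : ℂ, ¬ (|z.im| = aa β z.re) := by
      rw [ae_iff]
      simp only [not_not]
      exact vol_edge β
    refine ae_restrict_of_ae (hne.mono (fun z hz => ?_))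
    by_cases hD : z ∈ DD L β H
    · rcases lt_or_gt_of_ne hz with h | h
      · have hT : z ∈ TT L β := ⟨hD.1, hD.2.1, h⟩
        have hin : ∀ n : ℕ, z ∈ {z : ℂ | |z.im| < aa β z.re + dn n} := fun n => by
          show |z.im| < aa β z.re + dn n
          linarith [dn_pos n]
        by_cases hs : s < z.re
        · rw [indicator_of_mem (show z ∈ UB L β s from ⟨hT, hs⟩)]
          refine tendsto_const_nhds.congr' ?_
          filter_upwards [ze_bulk_in h hs] with n hn
          rw [indicator_of_mem (hin n), hn, sub_zero, one_mul]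
        · rw [indicator_of_notMem (show z ∉ UB L β s from fun hc => hs hc.2)]
          refine tendsto_const_nhds.congr' ?_
          refine Eventually.of_forall (fun n => ?_)
          beta_reduce
          rw [indicator_of_mem (hin n), ze_bulk_out h (not_lt.mp hs) n, sub_self, zero_mul]
      · rw [indicator_of_notMem (show z ∉ UB L β s from fun hc =>
          absurd hc.1.2.2 (not_lt.mpr (le_of_lt h)))]
        refine tendsto_const_nhds.congr' ?_
        filter_upwards [ev_dn (sub_pos.mpr h)] with n hn
        rw [indicator_of_notMem]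
        intro hc
        have hc' : |z.im| < aa β z.re + dn n := hc
        linarith
    · have hf0 : w z = 0 := h0 z hD
      have e : (UB L β s).indicator w z = 0 := by
        apply indicator_apply_eq_zero.mpr
        intro _
        exact hf0
      rw [e]
      refine tendsto_const_nhds.congr' ?_
      refine Eventually.of_forall (fun n => ?_)
      symm
      apply indicator_apply_eq_zero.mpr
      intro _
      rw [hf0, mul_zero]

end Limits

/-! ### The layer -/

theorem layer_le {β s η δ : ℝ} (hη : 0 ≤ η) (hδ : 0 ≤ δ) {w : ℂ → ℝ} (hw0 : ∀ z, 0 ≤ w z)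
    (hw1 : ∀ z, w z ≤ 1) :
    mu w {z : ℂ | aa β z.re ≤ |z.im| ∧ |z.im| ≤ aa β z.re + δ ∧ s - δ < z.re ∧
        z.re < s + η} ≤ 2 * δ * (η + δ) := by
  have hv := vol_layer β s η δ hδ
  set S := {z : ℂ | aa β z.re ≤ |z.im| ∧ |z.im| ≤ aa β z.re + δ ∧ s - δ < z.re ∧
        z.re < s + η} with hS
  have hfin : volume S < ⊤ := lt_of_le_of_lt hv ENNReal.ofReal_lt_top
  have h1 : ‖∫ z in S, w z‖ ≤ 1 * volume.real S := by
    apply norm_setIntegral_le_of_norm_le_const hfin
    intro z _
    rw [Real.norm_of_nonneg (hw0 z)]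
    exact hw1 z
  have h2 : volume.real S ≤ 2 * δ * (η + δ) := by
    have h3 := ENNReal.toReal_mono ENNReal.ofReal_ne_top hv
    rw [ENNReal.toReal_ofReal (by positivity)] at h3
    exact h3
  unfold mu
  calc (∫ z in S, w z) ≤ ‖∫ z in S, w z‖ := le_abs_self _
    _ ≤ 1 * volume.real S := h1
    _ ≤ 2 * δ * (η + δ) := by rw [one_mul]; exact h2

end PCUT

open PCUT in
/-- **CUT.** -/
theorem cut (w0 : S_W0) (cutr : S_CUTR) : S_CUT := by
  obtain ⟨B, hB, hcut⟩ := cutr
  refine ⟨B, hB, ?_⟩
  intro L κ β H Λ hP hβ hH hΛ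
  obtain ⟨K₁, hK₁, hcut⟩ := hcut L κ β H Λ hP hβ hH hΛ
  refine ⟨K₁, hK₁, ?_⟩
  intro K δ k hK hδ hδ8 hk A C hA hPW s d hs hsL hgr Y hY Y₁ hY₁
  have hB0 : (0 : ℝ) < B := lt_of_lt_of_le one_pos hB
  obtain ⟨w_nn, w_le, w_set, -, -, -, w_int, -⟩ :=
    w0 L κ β H K δ k hP hH (lt_of_lt_of_le one_pos (hK₁.trans hK)) hδ hk
  have w_zero : ∀ z, z ∉ DD L β H → ww L κ β k z = 0 := by
    intro z hz
    rw [← w_set] at hz
    exact le_antisymm (not_lt.mp hz) (w_nn z)
  have y1_zero : ∀ z, z ∉ DD L β H → dv2 Y₁ z = 0 := by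
    intro z hz
    apply dv2_zero
    intro hc
    apply hz
    rw [← w_set]
    exact hY₁.sub hc
  have y_zero : ∀ z, z ∉ TT L β → dv2 Y z = 0 := by
    intro z hz
    apply dv2_zero
    intro hc
    exact hz (hY.sub hc)
  have l1 := lim1 L β H s (A := A) (dv2_int hY₁.cd hY₁.cs) y1_zero
  have l2 := lim2 L β s (A := A) (dv2_int hY.cd hY.cs) y_zero
  have l3 := lim3 L β H s (A := A) w_int w_zero
  have l4 := lim4 L β H s (A := A) w_int w_zero
  apply le_of_forall_pos_le_add
  intro e he
  have heB : 0 < e / B := div_pos he hB0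
  obtain ⟨η₀, hη₀, hg⟩ := hgr (e / B) heB
  -- the error term
  have l5 : Tendsto (fun n : ℕ => B * (2 * en n * (en n + dn n))) atTop (𝓝 0) := by
    have h := ((en_tend.const_mul 2).mul (en_tend.add dn_tend)).const_mul B
    have e0 : B * (2 * 0 * (0 + 0)) = (0 : ℝ) := by ring
    rw [e0] at h
    exact h
  have lt := ((((l1.add l2).add (l3.const_mul (Λ + 1))).sub (l4.const_mul B)).sub
    (tendsto_const_nhds (x := B * (d + e / B)))).sub l5
  have hfin : ∀ᶠ n in atTop,
      (∫ z in A, ze β s (en n) (dn n) z * dv2 Y₁ z) +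
        (∫ z in A, (1 - ze β s (en n) (dn n) z) * dv2 Y z) +
        (Λ + 1) * (∫ z in A ∩ {z | aa β z.re + dn n ≤ |z.im|},
          (1 - ze β s (en n) (dn n) z) * ww L κ β k z) -
        B * (∫ z in A ∩ {z | |z.im| < aa β z.re + dn n},
          (1 - ze β s (en n) (dn n) z) * ww L κ β k z) - B * (d + e / B) -
        B * (2 * en n * (en n + dn n)) ≤ C := by
    filter_upwards [en_tend.eventually (gt_mem_nhds hη₀)] with n hn
    have h := hcut K δ k hK hδ hδ8 hk A C hA hPW s (en n) (dn n) hs hsL (en_pos n) (en_le n)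
      (dn_pos n) (dn_le n) Y₁ Y hY₁ hY
    have h1 := hg (en n) (en_pos n) hn
    have h2 := layer_le (β := β) (s := s) (en_pos n).le (dn_pos n).le w_nn w_le
    have hen := en_pos n
    have h3 : B / en n * (mu (ww L κ β k) (A ∩ (UB L β s ∩ {z | z.re < s + en n})) +
      mu (ww L κ β k) {z | aa β z.re ≤ |z.im| ∧ |z.im| ≤ aa β z.re + dn n ∧ s - dn n < z.re ∧
        z.re < s + en n}) ≤ B / en n * ((d + e / B) * en n + 2 * dn n * (en n + dn n)) :=
      mul_le_mul_of_nonneg_left (add_le_add h1 h2) (div_nonneg hB0.le hen.le)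
    have h4 : B / en n * ((d + e / B) * en n + 2 * dn n * (en n + dn n)) =
        B * (d + e / B) + B * (2 * en n * (en n + dn n)) := by
      have hdn : dn n = en n ^ 2 := rfl
      rw [hdn]
      field_simp
    rw [h4] at h3
    linarith
  have hle := le_of_tendsto lt hfin
  have hB1 : B * (d + e / B) = B * d + e := by
    field_simp
  rw [hB1] at hle
  linarith

end Pool.Agent.H745.HV
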