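import Mathlib
import Pool.Agent.H745.HV.Stm

/-! # Project HV (helper745): task CUTR, by helper271 -/

set_option autoImplicit false

open MeasureTheory Set Metric Filter Topology
open scoped ENNReal Real

noncomputable section

namespace Pool.Agent.H745.HV

open Pool.Agent.TH304.MI Pool.Agent.TH703.HU

namespace PCUTR

lemma int_mul_bdd (g f : ℂ → ℝ) (hf : Integrable f) (hg : AEStronglyMeasurable g volume)
    (h0 : ∀ z, 0 ≤ g z) (h1 : ∀ z, g z ≤ 1) : Integrable (fun z => g z * f z) := by
  refine Integrable.mono' hf.norm (hg.mul hf.1) (Filter.Eventually.of_forall (fun z => ?_))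
  rw [norm_mul, Real.norm_eq_abs (g z), abs_of_nonneg (h0 z)]
  exact mul_le_of_le_one_left (norm_nonneg _) (h1 z)

lemma dv2_cont (Y : ℂ → ℂ) (h : ContDiff ℝ 1 Y) : Continuous (dv2 Y) := by
  have h1 : Continuous (fderiv ℝ Y) := h.continuous_fderiv (by norm_num)
  unfold dv2
  exact (Complex.continuous_re.comp (h1.clm_apply continuous_const)).add
    (Complex.continuous_im.comp (h1.clm_apply continuous_const))

lemma dv2_zero (Y : ℂ → ℂ) (z : ℂ) (hz : z ∉ tsupport Y) : dv2 Y z = 0 := by
  have h1 : fderiv ℝ Y z = 0 := by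
    by_contra h
    exact hz (support_fderiv_subset ℝ (f := Y) h)
  unfold dv2
  rw [h1]
  simp

lemma dv2_int (Y : ℂ → ℂ) (h : ContDiff ℝ 1 Y) (hc : HasCompactSupport Y) :
    Integrable (dv2 Y) := by
  refine (dv2_cont Y h).integrable_of_hasCompactSupport ?_
  exact HasCompactSupport.intro hc (fun z hz => dv2_zero Y z hz)

lemma st_cont : Continuous Real.smoothTransition := Real.smoothTransition.continuous

lemma aa_cont (β : ℝ) : Continuous (fun z : ℂ => aa β z.re) := by
  unfold aa
  fun_prop

lemma hd_cont (β δ : ℝ) : Continuous (hd β δ) := by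
  unfold hd
  have h1 := aa_cont β
  have h2 : Continuous (fun z : ℂ => |z.im| - aa β z.re) := (Complex.continuous_im.abs).sub h1
  exact Complex.continuous_re.add (continuous_const.mul
    (h2.mul (st_cont.comp (h2.div_const δ))))

lemma ze_cont (β s η δ : ℝ) : Continuous (ze β s η δ) := by
  unfold ze
  exact continuous_const.sub (st_cont.comp (((hd_cont β δ).sub continuous_const).div_const η))

lemma ze_nonneg (β s η δ : ℝ) (z : ℂ) : 0 ≤ ze β s η δ z := by
  unfold ze
  have := Real.smoothTransition.le_one ((hd β δ z - s) / η)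
  linarith

lemma ze_le (β s η δ : ℝ) (z : ℂ) : ze β s η δ z ≤ 1 := by
  unfold ze
  have := Real.smoothTransition.nonneg ((hd β δ z - s) / η)
  linarith

lemma ch_cont (L β H ρ : ℝ) : Continuous (ch L β H ρ) := by
  unfold ch
  have h1 := aa_cont β
  refine ((st_cont.comp ?_).mul (st_cont.comp ?_)).mul (st_cont.comp ?_)
  · exact (Complex.continuous_re.div_const ρ).sub continuous_const
  · exact ((continuous_const.sub Complex.continuous_re).div_const ρ).sub continuous_const
  · exact (((continuous_const.add h1).sub Complex.continuous_im.abs).div_const ρ).sub continuous_const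

lemma ch_nonneg (L β H ρ : ℝ) (z : ℂ) : 0 ≤ ch L β H ρ z := by
  unfold ch
  exact mul_nonneg (mul_nonneg (Real.smoothTransition.nonneg _) (Real.smoothTransition.nonneg _))
    (Real.smoothTransition.nonneg _)

lemma ch_le (L β H ρ : ℝ) (z : ℂ) : ch L β H ρ z ≤ 1 := by
  unfold ch
  exact mul_le_one₀ (mul_le_one₀ (Real.smoothTransition.le_one _) (Real.smoothTransition.nonneg _)
    (Real.smoothTransition.le_one _)) (Real.smoothTransition.nonneg _) (Real.smoothTransition.le_one _)

/-- the radii -/
def rs (n : ℕ) : ℝ := 1 / ((n : ℝ) + 8)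

lemma rs_pos (n : ℕ) : 0 < rs n := by unfold rs; positivity

lemma rs_le (n : ℕ) : rs n ≤ 1 / 8 := by
  unfold rs
  exact one_div_le_one_div_of_le (by norm_num) (by have := Nat.cast_nonneg (α := ℝ) n; linarith)

lemma rs_lim (x : ℝ) (hx : 0 < x) :
    ∀ᶠ n : ℕ in atTop, Real.smoothTransition (x / rs n - 1) = 1 := by
  obtain ⟨N, hN⟩ := exists_nat_gt (2 / x)
  filter_upwards [eventually_ge_atTop N] with n hn
  refine Real.smoothTransition.one_of_one_le ?_
  have h1 : x / rs n = x * ((n : ℝ) + 8) := by
    unfold rs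
    rw [div_div_eq_mul_div, div_one]
  rw [h1]
  have h2 : (N : ℝ) ≤ n := by exact_mod_cast hn
  have h3 : 2 / x * x = 2 := by field_simp
  nlinarith

lemma ch_lim (L β H : ℝ) (z : ℂ) (hz : z ∈ DD L β H) :
    ∀ᶠ n : ℕ in atTop, ch L β H (rs n) z = 1 := by
  obtain ⟨h1, h2, h3⟩ := hz
  filter_upwards [rs_lim z.re h1, rs_lim (L - z.re) (by linarith),
    rs_lim (H + aa β z.re - |z.im|) (by linarith)] with n a1 a2 a3
  unfold ch
  rw [a1, a2, a3]
  norm_num

end PCUTR

open PCUTR

theorem cutr (w0 : S_W0) (cala : S_CALA) (calb : S_CALB) (calcc : S_CALC) : S_CUTR := by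
  obtain ⟨B₁, hB₁, calb⟩ := calb
  obtain ⟨B₂, hB₂, calcc⟩ := calcc
  refine ⟨max B₁ B₂, hB₁.trans (le_max_left _ _), ?_⟩
  intro L κ β H Λ hP hβ hH hΛ
  obtain ⟨K₁, hK₁, calb⟩ := calb L κ β H Λ hP hβ hH hΛ
  refine ⟨K₁, hK₁, ?_⟩
  intro K δ₀ k hK hδ₀ hδ₀' hk A C hA hPW s η δ hs hs' hη hη' hδ hδ' Y₁ Y hY₁ hY
  have hK1 : 1 ≤ K := hK₁.trans hK
  obtain ⟨w_nn, w_le, w_pos, DD_open, w_cd, w_meas, w_int, _⟩ :=
    w0 L κ β H K δ₀ k hP hH (by linarith) hδ₀ hk
  have calc' := calcc L κ β H K δ₀ k hP hβ hH hK1 hδ₀ hδ₀' hk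
  have calb' := calb K δ₀ k hK hδ₀ hδ₀' hk
  have cala' := cala L κ β H K δ₀ k hP hβ hH hK1 hδ₀ hδ₀' hk
  clear calcc calb cala w0
  set w := ww L κ β k with hw
  set ζ := ze β s η δ with hζ
  have hζc : Continuous ζ := ze_cont β s η δ
  have hζ0 : ∀ z, 0 ≤ ζ z := ze_nonneg β s η δ
  have hζ1 : ∀ z, ζ z ≤ 1 := ze_le β s η δ
  have w_out : ∀ z, z ∉ DD L β H → w z = 0 := by
    intro z hz
    rw [← w_pos] at hz
    exact le_antisymm (not_lt.1 hz) (w_nn z)
  have hTT : TT L β ⊆ DD L β H := by
    intro z hz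
    exact ⟨hz.1, hz.2.1, by have := hz.2.2; linarith⟩
  -- the sets
  set S1 : Set ℂ := {z | z ∈ TT L β ∧ s < z.re ∧ z.re < s + η} with hS1
  set S2 : Set ℂ := {z | aa β z.re ≤ |z.im| ∧ |z.im| ≤ aa β z.re + δ ∧ s - δ < z.re ∧
        z.re < s + η} with hS2
  set U : Set ℂ := {z | aa β z.re + δ ≤ |z.im|} with hU
  have aac := aa_cont β
  have imc : Continuous (fun z : ℂ => |z.im|) := Complex.continuous_im.abs
  have hS1m : MeasurableSet S1 := by
    have h1 : IsOpen S1 := by
      have h2 : IsOpen (TT L β) := by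
        have e : TT L β = {z : ℂ | 0 < z.re} ∩ ({z : ℂ | z.re < L} ∩ {z : ℂ | |z.im| < aa β z.re}) := by
          ext z; rfl
        rw [e]
        exact (isOpen_lt continuous_const Complex.continuous_re).inter
          ((isOpen_lt Complex.continuous_re continuous_const).inter (isOpen_lt imc aac))
      exact h2.inter ((isOpen_lt continuous_const Complex.continuous_re).inter
          (isOpen_lt Complex.continuous_re continuous_const))
    exact h1.measurableSet
  have hS2m : MeasurableSet S2 := by
    refine MeasurableSet.inter (isClosed_le aac imc).measurableSet ?_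
    refine MeasurableSet.inter (isClosed_le imc (aac.add continuous_const)).measurableSet ?_
    exact MeasurableSet.inter (isOpen_lt continuous_const Complex.continuous_re).measurableSet
      (isOpen_lt Complex.continuous_re continuous_const).measurableSet
  have hUm : MeasurableSet U := (isClosed_le (aac.add continuous_const) imc).measurableSet
  have hUc : Uᶜ = {z | |z.im| < aa β z.re + δ} := by
    ext z
    simp only [hU, mem_compl_iff, mem_ofPred_eq, not_le]
  -- the fields
  set D₁ := dv2 Y₁ with hD₁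
  set D := dv2 Y with hD
  have hD₁i : Integrable D₁ := dv2_int Y₁ hY₁.cd hY₁.cs
  have hDi : Integrable D := dv2_int Y hY.cd hY.cs
  have hD₁o : ∀ z, z ∉ DD L β H → D₁ z = 0 := by
    intro z hz
    refine dv2_zero Y₁ z (fun h => hz ?_)
    have := hY₁.sub h
    rw [w_pos] at this
    exact this
  have hDo : ∀ z, z ∉ DD L β H → D z = 0 := by
    intro z hz
    exact dv2_zero Y z (fun h => hz (hTT (hY.sub h)))
  -- the lower bounds
  set F : ℂ → ℝ := fun z => (1 - ζ z) * w z with hF
  have hFi : Integrable F := int_mul_bdd (fun z => 1 - ζ z) w w_int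
    (continuous_const.sub hζc).aestronglyMeasurable (fun z => by linarith [hζ1 z])
    (fun z => by linarith [hζ0 z])
  have hF0 : ∀ z, 0 ≤ F z := fun z => mul_nonneg (by linarith [hζ1 z]) (w_nn z)
  have hFw : ∀ z, F z ≤ w z := fun z => mul_le_of_le_one_left (w_nn z) (by linarith [hζ0 z])
  have hη0 : 0 ≤ B₂ / η := div_nonneg (by linarith) hη.le
  set base : ℂ → ℝ := fun z => (ζ z * D₁ z + (1 - ζ z) * D z - B₁ * (Uᶜ.indicator F z)) -
    B₂ / η * (S1.indicator w z + S2.indicator w z) with hbase
  set χ : ℕ → ℂ → ℝ := fun n => ch L β H (rs n) with hχ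
  have hχ0 : ∀ n z, 0 ≤ χ n z := fun n z => ch_nonneg L β H (rs n) z
  have hχ1 : ∀ n z, χ n z ≤ 1 := fun n z => ch_le L β H (rs n) z
  have hχc : ∀ n, Continuous (χ n) := fun n => ch_cont L β H (rs n)
  set vr : ℕ → ℂ → ℝ := fun n z => (Λ + 1) * (χ n z * U.indicator F z) -
    B₂ / η * ((1 - χ n z) * w z) with hvr
  have hTWn : ∀ n, TW w (ZF L κ β H k s η δ (rs n) Y₁ Y) := fun n =>
    ((cala' δ (rs n) hδ hδ' (rs_pos n) (rs_le n)).2.2 s η hη).2 Y₁ Y hY₁ hY
  have hlow : ∀ n z, base z + vr n z ≤ dv2 (ZF L κ β H k s η δ (rs n) Y₁ Y) z := by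
    intro n z
    by_cases hz : z ∈ DD L β H
    · have h1 := calc' s η δ (rs n) hs hs' hη hη' hδ hδ' (rs_pos n) (rs_le n) Y₁ Y hY₁ hY z hz
      obtain ⟨h2, h3⟩ := calb' δ (rs n) hδ hδ' (rs_pos n) (rs_le n) z hz
      refine le_trans ?_ h1
      have e1 : S1.indicator w z = w z * S1.indicator 1 z := by
        by_cases h : z ∈ S1
        · rw [indicator_of_mem h, indicator_of_mem h]; simp
        · rw [indicator_of_notMem h, indicator_of_notMem h]; simp
      have e2 : S2.indicator w z = w z * S2.indicator 1 z := by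
        by_cases h : z ∈ S2
        · rw [indicator_of_mem h, indicator_of_mem h]; simp
        · rw [indicator_of_notMem h, indicator_of_notMem h]; simp
      have h4 : -(B₁ * (Uᶜ.indicator F z)) + (Λ + 1) * (χ n z * U.indicator F z) ≤
          -((1 - ζ z) * dv2 (XF L κ β H k δ (rs n)) z) := by
        have h5 : 0 ≤ 1 - ζ z := by linarith [hζ1 z]
        by_cases h : z ∈ U
        · rw [indicator_of_mem h, indicator_of_notMem (show z ∉ Uᶜ from fun h' => h' h)]
          have h6 := mul_le_mul_of_nonneg_left (h3 h) h5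
          have h7 : (1 - ζ z) * -((Λ + 1) * (ch L β H (rs n) z * ww L κ β k z)) =
              -((Λ + 1) * (χ n z * F z)) := by
            simp only [hχ, hF, hw]
            ring
          rw [h7] at h6
          linarith
        · rw [indicator_of_notMem h, indicator_of_mem (show z ∈ Uᶜ from h)]
          have h6 := mul_le_mul_of_nonneg_left h2 h5
          have h7 : (1 - ζ z) * (B₁ * ww L κ β k z) = B₁ * F z := by
            simp only [hF, hw]
            ring
          rw [h7] at h6
          linarith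
      have h8 : base z + vr n z = ζ z * D₁ z + (1 - ζ z) * D z +
          (-(B₁ * (Uᶜ.indicator F z)) + (Λ + 1) * (χ n z * U.indicator F z)) -
          B₂ / η * (w z * (S1.indicator 1 z + S2.indicator 1 z + (1 - χ n z))) := by
        simp only [hbase, hvr]
        rw [e1, e2]
        ring
      rw [h8]
      have h9 : ζ z * D₁ z + (1 - ζ z) * (D z - dv2 (XF L κ β H k δ (rs n)) z) =
          ζ z * D₁ z + (1 - ζ z) * D z + -((1 - ζ z) * dv2 (XF L κ β H k δ (rs n)) z) := by ring
      rw [h9]
      linarith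
    · have h1 : dv2 (ZF L κ β H k s η δ (rs n) Y₁ Y) z = 0 := by
        refine dv2_zero _ z (fun h => hz ?_)
        have := (hTWn n).sub h
        rw [w_pos] at this
        exact this
      rw [h1]
      have hw0 := w_out z hz
      have hF00 : F z = 0 := by simp only [hF]; rw [hw0, mul_zero]
      have ei : ∀ (E : Set ℂ) (f : ℂ → ℝ), f z = 0 → E.indicator f z = 0 := by
        intro E f hf
        by_cases h : z ∈ E
        · rw [indicator_of_mem h, hf]
        · rw [indicator_of_notMem h]
      simp only [hbase, hvr]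
      rw [ei _ _ hF00, ei _ _ hF00, ei _ _ hw0, ei _ _ hw0, hD₁o z hz, hDo z hz, hw0]
      simp
  -- integrability
  have hbi : Integrable base := by
    refine Integrable.sub (Integrable.sub (Integrable.add ?_ ?_) ?_) ?_
    · exact int_mul_bdd ζ D₁ hD₁i hζc.aestronglyMeasurable hζ0 hζ1
    · exact int_mul_bdd (fun z => 1 - ζ z) D hDi
        (continuous_const.sub hζc).aestronglyMeasurable (fun z => by linarith [hζ1 z])
        (fun z => by linarith [hζ0 z])
    · exact (hFi.indicator hUm.compl).const_mul _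
    · exact ((w_int.indicator hS1m).add (w_int.indicator hS2m)).const_mul _
  have hvi : ∀ n, Integrable (vr n) := by
    intro n
    refine Integrable.sub ?_ ?_
    · exact (int_mul_bdd (χ n) _ (hFi.indicator hUm) (hχc n).aestronglyMeasurable
        (hχ0 n) (hχ1 n)).const_mul _
    · exact (int_mul_bdd (fun z => 1 - χ n z) w w_int
        (continuous_const.sub (hχc n)).aestronglyMeasurable (fun z => by linarith [hχ1 n z])
        (fun z => by linarith [hχ0 n z])).const_mul _
  have hle : ∀ n, (∫ z in A, base z) + ∫ z in A, vr n z ≤ C := by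
    intro n
    rw [← integral_add hbi.integrableOn (hvi n).integrableOn]
    refine le_trans ?_ (hPW _ (hTWn n))
    exact setIntegral_mono (hbi.add (hvi n)).integrableOn
      (dv2_int _ (hTWn n).cd (hTWn n).cs).integrableOn (hlow n)
  -- the limit
  have hlim : Tendsto (fun n => ∫ z in A, vr n z) atTop
      (𝓝 (∫ z in A, (Λ + 1) * U.indicator F z)) := by
    refine tendsto_integral_of_dominated_convergence (fun z => ((Λ + 1) + B₂ / η) * w z)
      (fun n => (hvi n).integrableOn.1) (w_int.const_mul _).integrableOn ?_ ?_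
    · intro n
      refine Filter.Eventually.of_forall (fun z => ?_)
      simp only [hvr]
      have h1 : 0 ≤ U.indicator F z := indicator_nonneg (fun x _ => hF0 x) z
      have h2 : U.indicator F z ≤ w z := by
        by_cases h : z ∈ U
        · rw [indicator_of_mem h]; exact hFw z
        · rw [indicator_of_notMem h]; exact w_nn z
      have h3 : χ n z * U.indicator F z ≤ w z :=
        (mul_le_of_le_one_left h1 (hχ1 n z)).trans h2
      have h4 : 0 ≤ χ n z * U.indicator F z := mul_nonneg (hχ0 n z) h1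
      have h5 : (1 - χ n z) * w z ≤ w z :=
        mul_le_of_le_one_left (w_nn z) (by linarith [hχ0 n z])
      have h6 : 0 ≤ (1 - χ n z) * w z := mul_nonneg (by linarith [hχ1 n z]) (w_nn z)
      have h7 : (Λ + 1) * (χ n z * U.indicator F z) ≤ (Λ + 1) * w z :=
        mul_le_mul_of_nonneg_left h3 (by linarith)
      have h8 : B₂ / η * ((1 - χ n z) * w z) ≤ B₂ / η * w z :=
        mul_le_mul_of_nonneg_left h5 hη0
      have h9 : 0 ≤ (Λ + 1) * (χ n z * U.indicator F z) := mul_nonneg (by linarith) h4
      have h10 : 0 ≤ B₂ / η * ((1 - χ n z) * w z) := mul_nonneg hη0 h6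
      rw [Real.norm_eq_abs, abs_le]
      constructor
      · rw [add_mul]; linarith [mul_nonneg (show (0:ℝ) ≤ Λ + 1 by linarith) (w_nn z)]
      · rw [add_mul]; linarith [mul_nonneg hη0 (w_nn z)]
    · refine Filter.Eventually.of_forall (fun z => ?_)
      by_cases hz : z ∈ DD L β H
      · refine tendsto_const_nhds.congr' ?_
        filter_upwards [ch_lim L β H z hz] with n hn
        simp only [hvr, hχ]
        rw [hn]
        ring
      · refine tendsto_const_nhds.congr (fun n => ?_)
        have hw0 := w_out z hz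
        have hF00 : F z = 0 := by simp only [hF]; rw [hw0, mul_zero]
        have hI : U.indicator F z = 0 := by
          by_cases h : z ∈ U
          · rw [indicator_of_mem h, hF00]
          · rw [indicator_of_notMem h]
        simp only [hvr]
        rw [hI, hw0]
        ring
  have hfin : (∫ z in A, base z) + ∫ z in A, (Λ + 1) * U.indicator F z ≤ C :=
    le_of_tendsto' (hlim.const_add _) hle
  -- evaluation
  have j1 : Integrable (fun z => ζ z * D₁ z) :=
    int_mul_bdd ζ D₁ hD₁i hζc.aestronglyMeasurable hζ0 hζ1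
  have j2 : Integrable (fun z => (1 - ζ z) * D z) := int_mul_bdd (fun z => 1 - ζ z) D hDi
        (continuous_const.sub hζc).aestronglyMeasurable (fun z => by linarith [hζ1 z])
        (fun z => by linarith [hζ0 z])
  have j12 : Integrable (fun z => ζ z * D₁ z + (1 - ζ z) * D z) := j1.add j2
  have j3 : Integrable (fun z => B₁ * (Uᶜ.indicator F z)) := (hFi.indicator hUm.compl).const_mul _
  have j4 : Integrable (S1.indicator w) := w_int.indicator hS1m
  have j5 : Integrable (S2.indicator w) := w_int.indicator hS2m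
  have j45 : Integrable (fun z => B₂ / η * (S1.indicator w z + S2.indicator w z)) :=
    (j4.add j5).const_mul _
  have j123 : Integrable (fun z => ζ z * D₁ z + (1 - ζ z) * D z - B₁ * (Uᶜ.indicator F z)) :=
    j12.sub j3
  have hb : ∫ z in A, base z = (∫ z in A, ζ z * D₁ z) + (∫ z in A, (1 - ζ z) * D z) -
      B₁ * (∫ z in A ∩ Uᶜ, F z) - B₂ / η * ((∫ z in A ∩ S1, w z) + ∫ z in A ∩ S2, w z) := by
    simp only [hbase]
    rw [integral_sub j123.integrableOn j45.integrableOn, integral_sub j12.integrableOn j3.integrableOn,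
      integral_add j1.integrableOn j2.integrableOn, integral_const_mul, integral_const_mul,
      integral_add j4.integrableOn j5.integrableOn, setIntegral_indicator hUm.compl,
      setIntegral_indicator hS1m, setIntegral_indicator hS2m]
  rw [hb, integral_const_mul, setIntegral_indicator hUm] at hfin
  have hI1 : 0 ≤ ∫ z in A ∩ Uᶜ, F z := integral_nonneg (fun z => hF0 z)
  have hI2 : 0 ≤ ∫ z in A ∩ S1, w z := integral_nonneg (fun z => w_nn z)
  have hI3 : 0 ≤ ∫ z in A ∩ S2, w z := integral_nonneg (fun z => w_nn z)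
  have hI4 : ∫ z in A ∩ S2, w z ≤ ∫ z in S2, w z :=
    setIntegral_mono_set w_int.integrableOn (Filter.Eventually.of_forall (fun z => w_nn z))
      (Filter.Eventually.of_forall (fun z hz => hz.2))
  have hset : A ∩ (UB L β s ∩ {z | z.re < s + η}) = A ∩ S1 := by
    ext z
    simp only [UB, hS1, mem_inter_iff, mem_ofPred_eq]
    tauto
  have hB1 : B₁ * (∫ z in A ∩ Uᶜ, F z) ≤ max B₁ B₂ * ∫ z in A ∩ Uᶜ, F z :=
    mul_le_mul_of_nonneg_right (le_max_left _ _) hI1
  have hB2 : B₂ / η * ((∫ z in A ∩ S1, w z) + ∫ z in A ∩ S2, w z) ≤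
      max B₁ B₂ / η * ((∫ z in A ∩ S1, w z) + ∫ z in S2, w z) := by
    refine mul_le_mul (div_le_div_of_nonneg_right (le_max_right _ _) hη.le) (by linarith)
      (by linarith) (div_nonneg (le_trans (by linarith) (le_max_left B₁ B₂)) hη.le)
  rw [hset]
  unfold mu
  rw [hUc] at hB1 hfin
  linarith

end Pool.Agent.H745.HV
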