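import Mathlib
import Pool.Agent.H745.HV.Stm

/-!
# EXT: extinction (helper376 for helper745)
-/

set_option autoImplicit false

open MeasureTheory Set Metric Filter Topology
open scoped ENNReal Real

noncomputable section

namespace Pool.Agent.H745.HV

open Pool.Agent.TH304.MI Pool.Agent.TH703.HU

namespace PEXT

lemma rr_le {L κ β : ℝ} (hp : Par L κ β) {x : ℝ} (hx : 0 ≤ x) : rr κ β x ≤ 1 := by
  unfold rr
  have h0 := hp.κ0
  have h1 := hp.β0
  have h2 := hp.βκ
  have h3 : 0 ≤ κ * β * x ^ 2 := by positivity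
  have h4 : 0 ≤ (κ - 2 * β) * x := mul_nonneg (by linarith) hx
  nlinarith

lemma rr_cont (κ β : ℝ) : Continuous (rr κ β) := by
  unfold rr
  fun_prop

lemma MM_sub {L κ β : ℝ} (hp : Par L κ β) {s t : ℝ} (hs : 0 ≤ s) (hst : s ≤ t) :
    MM κ β t - MM κ β s ≤ t - s := by
  unfold MM
  have hi : ∀ a b : ℝ, IntervalIntegrable (rr κ β) volume a b :=
    fun a b => (rr_cont κ β).intervalIntegrable a b
  rw [intervalIntegral.integral_interval_sub_left (hi 0 t) (hi 0 s)]
  calc ∫ x in s..t, rr κ β x ≤ ∫ x in s..t, (1 : ℝ) := by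
        apply intervalIntegral.integral_mono_on hst (hi s t) (by simp)
        intro x hx
        exact rr_le hp (le_trans hs hx.1)
    _ = t - s := by simp

lemma aa_cont (β : ℝ) : Continuous (fun z : ℂ => aa β z.re) := by
  unfold aa
  fun_prop

lemma TT_open (L β : ℝ) : IsOpen (TT L β) := by
  have h : TT L β = {z : ℂ | 0 < z.re} ∩ ({z : ℂ | z.re < L} ∩ {z : ℂ | |z.im| < aa β z.re}) := by
    ext z
    simp [TT]
  rw [h]
  refine (isOpen_lt continuous_const Complex.continuous_re).inter
    ((isOpen_lt Complex.continuous_re continuous_const).inter ?_)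
  exact isOpen_lt (Complex.continuous_im.abs) (aa_cont β)

lemma UB_meas (L β s : ℝ) : MeasurableSet (UB L β s) := by
  have h : UB L β s = TT L β ∩ {z : ℂ | s < z.re} := rfl
  rw [h]
  exact ((TT_open L β).inter (isOpen_lt continuous_const Complex.continuous_re)).measurableSet

lemma mu_nonneg {w : ℂ → ℝ} (hw : ∀ z, 0 ≤ w z) (A : Set ℂ) : 0 ≤ mu w A :=
  integral_nonneg hw

lemma mu_mono {w : ℂ → ℝ} (hw : ∀ z, 0 ≤ w z) (hi : Integrable w) {A B : Set ℂ} (h : A ⊆ B) :
    mu w A ≤ mu w B := by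
  unfold mu
  exact setIntegral_mono_set hi.integrableOn (Eventually.of_forall hw) h.eventuallyLE

lemma mu_union_le {w : ℂ → ℝ} (hw : ∀ z, 0 ≤ w z) (hi : Integrable w) {A B C : Set ℂ}
    (hB : MeasurableSet B) (h : C ⊆ A ∪ B) : mu w C ≤ mu w A + mu w B := by
  have h1 : mu w C ≤ mu w (A ∪ B) := mu_mono hw hi h
  have h2 : A ∪ B = (A \ B) ∪ B := by simp
  have h3 : mu w ((A \ B) ∪ B) = mu w (A \ B) + mu w B :=
    setIntegral_union disjoint_sdiff_left hB hi.integrableOn hi.integrableOn
  have h4 : mu w (A \ B) ≤ mu w A := mu_mono hw hi sdiff_subset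
  rw [h2, h3] at h1
  linarith

lemma mu_add_le {w : ℂ → ℝ} (hw : ∀ z, 0 ≤ w z) (hi : Integrable w) {A B C : Set ℂ}
    (hB : MeasurableSet B) (hd : Disjoint A B) (h : A ∪ B ⊆ C) : mu w A + mu w B ≤ mu w C := by
  have h1 : mu w (A ∪ B) ≤ mu w C := mu_mono hw hi h
  have h3 : mu w (A ∪ B) = mu w A + mu w B :=
    setIntegral_union hd hB hi.integrableOn hi.integrableOn
  linarith

lemma dv2_smul (c : ℝ) (Y : ℂ → ℂ) (hY : ContDiff ℝ 1 Y) (z : ℂ) :
    dv2 (fun z => c • Y z) z = c * dv2 Y z := by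
  have hd : DifferentiableAt ℝ Y z := (hY.differentiable (by norm_num)).differentiableAt
  have h : fderiv ℝ (fun z => c • Y z) z = c • fderiv ℝ Y z := by
    exact fderiv_const_smul hd c
  unfold dv2
  rw [h]
  simp
  ring

lemma dv2_zero (z : ℂ) : dv2 (fun _ => (0 : ℂ)) z = 0 := by
  unfold dv2
  simp

lemma TB_zero (L β : ℝ) : TB L β (fun _ => (0 : ℂ)) where
  cd := contDiff_const
  cs := HasCompactSupport.zero
  sub := by
    have : tsupport (fun _ : ℂ => (0 : ℂ)) = ∅ := by
      rw [tsupport_eq_empty_iff]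
      rfl
    rw [this]
    exact empty_subset _
  le := by
    intro z
    simp

/-- growth from a derivative -/
lemma growth_of_deriv {g : ℝ → ℝ} {d τ : ℝ} (h : HasDerivAt g d τ) {e : ℝ} (he : 0 < e) :
    ∃ η₀ : ℝ, 0 < η₀ ∧ ∀ η : ℝ, 0 < η → η < η₀ → g τ - g (τ - η) ≤ (d + e) * η := by
  have h1 := h.isLittleO
  rw [Asymptotics.isLittleO_iff] at h1
  have h2 := h1 he
  rw [Metric.eventually_nhds_iff] at h2
  obtain ⟨ε, hε, h3⟩ := h2
  refine ⟨ε, hε, fun η h0 h4 => ?_⟩
  have h5 := h3 (y := τ - η) (by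
    rw [Real.dist_eq]
    rw [show τ - η - τ = -η by ring, abs_neg, abs_of_pos h0]
    exact h4)
  rw [show τ - η - τ = -η by ring] at h5
  simp only [Real.norm_eq_abs, abs_neg, abs_of_pos h0, smul_eq_mul] at h5
  have h6 := neg_le_of_abs_le h5
  nlinarith

end PEXT

open PEXT

theorem ext (w0 : S_W0) (w1 : S_W1) (w2 : S_W2) (star : S_STAR) (iso : S_ISO)
    (c10 : Pool.Agent.TH703.HU.S_C10) : S_EXT := by
  obtain ⟨B, hB, hst⟩ := star
  intro L t Λ hL ht htL hΛ
  have hB0 : 0 < B := by linarith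
  set c : ℝ := 1 / (104 * (L + 2) ^ 3 * B) with hc
  have hc0 : 0 < c := by
    rw [hc]
    have : 0 < (L + 2) ^ 3 := by positivity
    positivity
  set Λ' : ℝ := 2 * (Λ + B) / B with hΛ'
  have hΛ0 : 0 < Λ' := by
    rw [hΛ']
    positivity
  set e : ℝ := min (min (1 / 4) (c / (2 * Λ'))) (c / 64) with he
  have he0 : 0 < e := by
    rw [he]
    have : 0 < c / (2 * Λ') := by positivity
    refine lt_min (lt_min (by norm_num) this) (by linarith)
  have he1 : e ≤ 1 / 4 := le_trans (min_le_left _ _) (min_le_left _ _)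
  have he2 : e ≤ c / (2 * Λ') := le_trans (min_le_left _ _) (min_le_right _ _)
  have he3 : e ≤ c / 64 := min_le_right _ _
  refine ⟨e ^ 2, by positivity, ?_⟩
  intro κ β H hp hβ hH
  obtain ⟨K₁, hK₁, hst⟩ := hst L κ β H Λ hp hβ hH hΛ
  refine ⟨K₁, hK₁, ?_⟩
  intro K δ k hK hδ hδ8 hk v A hA hsm
  have hK1 : 1 ≤ K := le_trans hK₁ hK
  have hK0 : 0 < K := by linarith
  obtain ⟨hw, hw1, hwD, hDo, -, hwm, hwi, -⟩ := w0 L κ β H K δ k hp hH hK0 hδ hk
  obtain ⟨hst1, -, -⟩ := w1 L κ β H K δ k hp hH hK0 hδ hk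
  obtain ⟨-, hw4, -, -⟩ := w2 L κ β H K δ k hp hH hK1 hδ hδ8 hk
  have hst := hst K δ k hK hδ hδ8 hk v A hA
  have hAm := hA.meas
  set w := ww L κ β k with hwdef
  have hβL : β * L ≤ 1 / 2 := by
    have h1 := hp.κL
    have h2 := hp.βκ
    nlinarith
  set g : ℝ → ℝ := fun τ => mu w (A ∩ UB L β (-τ)) with hg
  have hgn : ∀ τ, 0 ≤ g τ := fun τ => mu_nonneg hw _
  have hgm : Monotone g := by
    intro τ τ' h
    apply mu_mono hw hwi
    intro z hz
    refine ⟨hz.1, hz.2.1, ?_⟩
    have := hz.2.2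
    linarith
  -- Lipschitz
  have hlip0 : ∀ s s' : ℝ, 0 ≤ s → s ≤ s' → s' < L →
      mu w (A ∩ UB L β s) - mu w (A ∩ UB L β s') ≤ s' - s := by
    intro s s' h0 h1 h2
    apply le_of_forall_pos_le_add
    intro ε hε
    set s'' := min L (s' + ε) with hs''
    have h3 : s' < s'' := lt_min h2 (by linarith)
    have h4 : s'' ≤ L := min_le_left _ _
    have h5 : s'' ≤ s' + ε := min_le_right _ _
    have h6 : mu w (A ∩ UB L β s) ≤ mu w (A ∩ UB L β s') + mu w {z | s < z.re ∧ z.re < s''} := by
      apply mu_union_le hw hwi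
      · exact (measurableSet_lt measurable_const Complex.measurable_re).inter
          (measurableSet_lt Complex.measurable_re measurable_const)
      · intro z hz
        by_cases h : s' < z.re
        · exact Or.inl ⟨hz.1, hz.2.1, h⟩
        · right
          refine ⟨hz.2.2, ?_⟩
          push Not at h
          linarith
    have h7 := hst1 s s'' h0 (by linarith) h4
    have h8 := MM_sub hp h0 (t := s'') (by linarith)
    linarith
  -- the interval
  set r : ℝ := -(t + 1 / 2) with hr
  set R : ℝ := -(t + 1 / 4) with hR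
  have hrR : r < R := by
    rw [hr, hR]
    linarith
  have hlip : ∀ s ∈ Icc r R, ∀ s' ∈ Icc r R, |g s - g s'| ≤ 1 * |s - s'| := by
    have key : ∀ s ∈ Icc r R, ∀ s' ∈ Icc r R, s ≤ s' → |g s - g s'| ≤ 1 * |s - s'| := by
      intro s hs s' hs' h
      have h1 : g s ≤ g s' := hgm h
      rw [abs_sub_comm, abs_of_nonneg (by linarith), one_mul, abs_sub_comm,
        abs_of_nonneg (by linarith)]
      have h2 := hlip0 (-s') (-s) (by rw [hR] at hs'; linarith [hs'.2]) (by linarith)
        (by rw [hr] at hs; linarith [hs.1])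
      have h3 : g s' - g s ≤ -s - -s' := h2
      linarith
    intro s hs s' hs'
    rcases le_total s s' with h | h
    · exact key s hs s' hs' h
    · rw [abs_sub_comm, abs_sub_comm s]
      exact key s' hs' s hs h
  have hgR : g R ≤ e ^ 2 := by
    have : g R = mu w (A ∩ UB L β (t + 1 / 4)) := by
      simp only [hg, hR, neg_neg]
    rw [this]
    exact hsm
  -- volumes
  have hvol : ∀ s : ℝ, volume.real (A ∩ UB L β s) ≤ 4 * mu w (A ∩ UB L β s) ∧
      mu w (A ∩ UB L β s) ≤ volume.real (A ∩ UB L β s) := by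
    intro s
    have hGm : MeasurableSet (A ∩ UB L β s) := hAm.inter (UB_meas L β s)
    have hfin : volume (A ∩ UB L β s) < ⊤ := by
      refine lt_of_le_of_lt (measure_mono ?_) (hwi.measure_norm_ge_lt_top (ε := 1 / 4) (by norm_num))
      intro z hz
      have := hw4 z hz.2.1
      show 1 / 4 ≤ ‖w z‖
      rw [Real.norm_eq_abs, abs_of_nonneg (hw z)]
      exact this
    constructor
    · have h1 : ∫ z in A ∩ UB L β s, (1 / 4 : ℝ) ≤ ∫ z in A ∩ UB L β s, w z := by
        apply setIntegral_mono_on (integrableOn_const hfin.ne) hwi.integrableOn hGm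
        intro z hz
        exact hw4 z hz.2.1
      rw [setIntegral_const, smul_eq_mul] at h1
      unfold mu
      linarith
    · have h1 : ∫ z in A ∩ UB L β s, w z ≤ ∫ z in A ∩ UB L β s, (1 : ℝ) := by
        apply setIntegral_mono_on hwi.integrableOn (integrableOn_const hfin.ne) hGm
        intro z hz
        exact hw1 z
      rw [setIntegral_const, smul_eq_mul, mul_one] at h1
      exact h1
  -- the differential inequality
  have hdiff : ∀ τ ∈ Ioo r R, ∀ d : ℝ, HasDerivAt g d τ → c * g τ ^ (1 / 2 : ℝ) ≤ 2 * d + Λ' * g τ := by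
    intro τ hτ d hd
    have hs0 : 0 < -τ := by
      have := hτ.2
      rw [hR] at this
      linarith
    have hsL : -τ < L - 1 := by
      have := hτ.1
      rw [hr] at this
      linarith
    have hgrow : ∀ e : ℝ, 0 < e → ∃ η₀ : ℝ, 0 < η₀ ∧ ∀ η : ℝ, 0 < η → η < η₀ →
        mu w (A ∩ (UB L β (-τ) ∩ {z | z.re < -τ + η})) ≤ (d + e) * η := by
      intro e he
      obtain ⟨η₀, h0, h1⟩ := growth_of_deriv hd he
      refine ⟨η₀, h0, fun η h2 h3 => le_trans ?_ (h1 η h2 h3)⟩
      have h4 : mu w (A ∩ (UB L β (-τ) ∩ {z | z.re < -τ + η})) + mu w (A ∩ UB L β (-(τ - η))) ≤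
          mu w (A ∩ UB L β (-τ)) := by
        apply mu_add_le hw hwi (hAm.inter (UB_meas L β _))
        · rw [Set.disjoint_left]
          intro z hz hz'
          have h5 : z.re < -τ + η := hz.2.2
          have h6 : -(τ - η) < z.re := hz'.2.2
          linarith
        · intro z hz
          rcases hz with hz | hz
          · exact ⟨hz.1, hz.2.1⟩
          · refine ⟨hz.1, hz.2.1, ?_⟩
            have h6 : -(τ - η) < z.re := hz.2.2
            linarith
      have h5 : g τ - g (τ - η) = mu w (A ∩ UB L β (-τ)) - mu w (A ∩ UB L β (-(τ - η))) := rfl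
      rw [h5]
      linarith
    have hmain := hst (-τ) d hs0 hsL hgrow
    have hgτ : mu w (A ∩ UB L β (-τ)) = g τ := rfl
    have hUT : 0 ≤ mu w (A ∩ UT L β H (-τ)) := mu_nonneg hw _
    set P₀ : ℝ := B * d + (Λ + B) * g τ with hP₀
    have hP0 : 0 ≤ P₀ := by
      have h := hmain _ (TB_zero L β)
      simp only [dv2_zero, integral_zero] at h
      linarith
    have hvol1 := hvol (-τ)
    rw [hgτ] at hvol1
    have hgτR : g τ ≤ e ^ 2 := le_trans (hgm hτ.2.le) hgR
    have hG4 : volume.real (A ∩ UB L β (-τ)) ≤ 1 / 4 := by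
      have : e ^ 2 ≤ 1 / 16 := by nlinarith
      linarith [hvol1.1]
    have hI := iso L β hL hp.β0 hβL (A ∩ UB L β (-τ)) (16 * P₀) (hAm.inter (UB_meas L β _))
      (fun z hz => hz.2.1) hG4 (by linarith) (by
        intro Y hY1 hY2 hY3 hY4
        have hTB : TB L β (fun z => (1 / 16 : ℝ) • Y z) :=
          { cd := hY1.const_smul _
            cs := by
              apply HasCompactSupport.mono hY2
              intro z hz
              rw [Function.mem_support] at hz ⊢
              intro h0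
              apply hz
              simp [h0]
            sub := by
              refine subset_trans (closure_mono ?_) hY3
              intro z hz
              rw [Function.mem_support] at hz ⊢
              intro h0
              apply hz
              simp [h0]
            le := by
              intro z
              rw [norm_smul, Real.norm_eq_abs, abs_of_pos (by norm_num : (0 : ℝ) < 1 / 16)]
              have := hY4 z
              linarith }
        have h := hmain _ hTB
        have h2 : (∫ z in A ∩ UB L β (-τ), dv2 (fun z => (1 / 16 : ℝ) • Y z) z) =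
            (1 / 16) * ∫ z in A ∩ UB L β (-τ), dv2 Y z := by
          rw [← integral_const_mul]
          congr 1
          funext z
          exact dv2_smul _ Y hY1 z
        rw [h2] at h
        linarith)
    have hsq : √(g τ) ≤ 13 * (L + 2) ^ 3 * (16 * P₀) :=
      le_trans (Real.sqrt_le_sqrt hvol1.2) hI
    rw [← Real.sqrt_eq_rpow]
    have hL3 : 0 < (L + 2) ^ 3 := by positivity
    calc c * √(g τ) ≤ c * (13 * (L + 2) ^ 3 * (16 * P₀)) :=
          mul_le_mul_of_nonneg_left hsq hc0.le
      _ = 2 * d + Λ' * g τ := by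
          rw [hc, hΛ', hP₀]
          field_simp
          ring
  have hgRn := hgn R
  have hgRs : g R ^ (1 - 1 / 2 : ℝ) ≤ e := by
    rw [show (1 - 1 / 2 : ℝ) = 1 / 2 by norm_num, ← Real.sqrt_eq_rpow]
    rw [Real.sqrt_le_left he0.le]
    exact hgR
  have hg0 : g r = 0 := by
    apply c10 g r R c (1 / 2) Λ' 1 hrR (hgm.monotoneOn _) hlip (fun t _ => hgn t) hc0
      (by norm_num) (by norm_num) hΛ0.le hdiff
    · calc Λ' * g R ^ (1 - 1 / 2 : ℝ) ≤ Λ' * (c / (2 * Λ')) :=
            mul_le_mul_of_nonneg_left (le_trans hgRs he2) hΛ0.le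
        _ = c / 2 := by
            field_simp
    · have h1 : R - r = 1 / 4 := by
        rw [hr, hR]
        ring
      rw [h1]
      refine lt_of_le_of_lt hgRs (lt_of_le_of_lt he3 ?_)
      linarith
  have hUB0 : mu w (A ∩ UB L β (t + 1 / 2)) = 0 := by
    have : g r = mu w (A ∩ UB L β (t + 1 / 2)) := by
      simp only [hg, hr, neg_neg]
    rw [← this]
    exact hg0
  refine ⟨hUB0, ?_⟩
  have hfin := hst (t + 1 / 2) 0 (by linarith) (by linarith) (by
    intro e he
    refine ⟨1, one_pos, fun η h0 _ => ?_⟩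
    have h1 : mu w (A ∩ (UB L β (t + 1 / 2) ∩ {z | z.re < t + 1 / 2 + η})) ≤
        mu w (A ∩ UB L β (t + 1 / 2)) := by
      apply mu_mono hw hwi
      intro z hz
      exact ⟨hz.1, hz.2.1⟩
    rw [hUB0] at h1
    have : 0 ≤ (0 + e) * η := by positivity
    linarith) _ (TB_zero L β)
  simp only [dv2_zero, integral_zero] at hfin
  rw [hUB0] at hfin
  have := mu_nonneg hw (A ∩ UT L β H (t + 1 / 2))
  linarith

end Pool.Agent.H745.HV
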