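import Pool.Agent.H745.HV.Stm
import Pool.Graph.R_seed8.TH73.MI.Basic

/-!
# Project HV, part GA1: volumes of cylindrical sets
-/

set_option autoImplicit false

open MeasureTheory Set Metric Filter Topology
open scoped ENNReal Real

noncomputable section

namespace Pool.Agent.H745.HV

open Pool.Agent.TH304.MI Pool.Agent.TH703.HU

namespace PGA1

/-- the fibre -/
def Fib {b : ℕ} (Ω : Set (PP b)) (x : ℂ) : Set (Fin b → ℝ) := {y | ∃ p ∈ Ω, xc p = x ∧ yc p = y}

theorem fibv_eq {b : ℕ} (Ω : Set (PP b)) (x : ℂ) : fibv Ω x = (volume (Fib Ω x)).toReal := rfl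

theorem yc_le {b : ℕ} (p : PP b) : ‖yc p‖ ≤ ‖p‖ := by
  rw [pi_norm_le_iff_of_nonneg (norm_nonneg _)]
  intro i
  exact PiLp.norm_apply_le p i.succ.succ

/-- all the fibres of a bounded set are contained in a fixed ball -/
theorem Fib_sub {b : ℕ} {Ω : Set (PP b)} (hb : Bornology.IsBounded Ω) :
    ∃ R : ℝ, ∀ x, Fib Ω x ⊆ closedBall 0 R := by
  obtain ⟨R, hR⟩ := hb.subset_closedBall 0
  refine ⟨R, ?_⟩
  rintro x y ⟨p, hp, -, rfl⟩
  have h1 := hR hp
  rw [mem_closedBall_zero_iff] at h1 ⊢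
  exact (yc_le p).trans h1

theorem Fib_lt {b : ℕ} {Ω : Set (PP b)} (hb : Bornology.IsBounded Ω) (x : ℂ) :
    volume (Fib Ω x) < ∞ := by
  obtain ⟨R, hR⟩ := Fib_sub hb
  exact (measure_mono (hR x)).trans_lt measure_closedBall_lt_top

/-- the body in the split coordinates -/
def Spl {b : ℕ} (Ω : Set (PP b)) : Set (ℂ × (Fin b → ℝ)) := {q | q.2 ∈ Fib Ω q.1}

theorem meas_Spl {b : ℕ} {Ω : Set (PP b)} (hΩ : MeasurableSet Ω) : MeasurableSet (Spl Ω) := by
  obtain ⟨e, he, -⟩ := Pool.Agent.TH73.MI.t_fub b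
  have h : Spl Ω = e.symm ⁻¹' Ω := by
    ext q
    constructor
    · rintro ⟨p, hp, h1, h2⟩
      have h3 : e p = q := by rw [he p]; exact Prod.ext h1 h2
      change e.symm q ∈ Ω
      rw [← h3, e.symm_apply_apply]
      exact hp
    · intro hq
      have h3 : e (e.symm q) = q := e.apply_symm_apply q
      rw [he] at h3
      exact ⟨e.symm q, hq, congrArg Prod.fst h3, congrArg Prod.snd h3⟩
  rw [h]
  exact e.symm.measurable hΩ

theorem meas_vol {b : ℕ} {Ω : Set (PP b)} (hΩ : MeasurableSet Ω) :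
    Measurable fun x => volume (Fib Ω x) :=
  measurable_measure_prodMk_left (meas_Spl hΩ)

/-- `fibv` is measurable -/
theorem meas_fibv {b : ℕ} {Ω : Set (PP b)} (hΩ : MeasurableSet Ω) : Measurable (fibv Ω) :=
  (meas_vol hΩ).ennreal_toReal

/-- `fibv` is non-negative -/
theorem fibv_nonneg {b : ℕ} (Ω : Set (PP b)) (x : ℂ) : 0 ≤ fibv Ω x := ENNReal.toReal_nonneg

/-- `fibv` is bounded -/
theorem fibv_le {b : ℕ} {Ω : Set (PP b)} (hb : Bornology.IsBounded Ω) :
    ∃ C : ℝ, ∀ x, fibv Ω x ≤ C := by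
  obtain ⟨R, hR⟩ := Fib_sub hb
  refine ⟨(volume (closedBall (0 : Fin b → ℝ) R)).toReal, fun x => ?_⟩
  exact ENNReal.toReal_mono measure_closedBall_lt_top.ne (measure_mono (hR x))

/-- `fibv` vanishes outside of a bounded set -/
theorem fibv_supp {b : ℕ} {Ω : Set (PP b)} (hb : Bornology.IsBounded Ω) :
    ∃ R : ℝ, ∀ x, R < ‖x‖ → fibv Ω x = 0 := by
  obtain ⟨R, hR⟩ := hb.subset_closedBall 0
  refine ⟨R, fun x hx => ?_⟩
  have : Fib Ω x = ∅ := by
    ext y
    constructor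
    · rintro ⟨p, hp, rfl, -⟩
      exfalso
      have h1 := hR hp
      rw [mem_closedBall_zero_iff] at h1
      have h2 : ‖xc p‖ ≤ ‖p‖ := by
        have h3 : ‖xc p‖ ^ 2 = p 0 ^ 2 + p 1 ^ 2 := by
          rw [← Complex.normSq_eq_norm_sq, Complex.normSq_apply]
          unfold xc
          ring
        have h4 : ‖p‖ ^ 2 = p 0 ^ 2 + (p 1 ^ 2 + ∑ i : Fin b, ‖p i.succ.succ‖ ^ 2) := by
          rw [EuclideanSpace.norm_sq_eq, Fin.sum_univ_succ, Fin.sum_univ_succ, Real.norm_eq_abs,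
            Real.norm_eq_abs, sq_abs, sq_abs]
          rfl
        have h5 : 0 ≤ ∑ i : Fin b, ‖p i.succ.succ‖ ^ 2 :=
          Finset.sum_nonneg fun i _ => by positivity
        exact le_of_sq_le_sq (by rw [h3, h4]; linarith) (norm_nonneg _)
      linarith
    · exact fun h => absurd h (notMem_empty _)
  rw [fibv_eq, this, measure_empty, ENNReal.toReal_zero]

/-- the volume of a cylindrical set as a lower integral -/
theorem vol_cylO {b : ℕ} {Ω : Set (PP b)} (hΩ : MeasurableSet Ω) {A : Set ℂ}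
    (hA : MeasurableSet A) : volume (cylO Ω A) = ∫⁻ x in A, volume (Fib Ω x) := by
  obtain ⟨e, he, hm⟩ := Pool.Agent.TH73.MI.t_fub b
  set S : Set (ℂ × (Fin b → ℝ)) := Spl Ω ∩ {q | q.1 ∈ A} with hS
  have hSm : MeasurableSet S := (meas_Spl hΩ).inter (measurable_fst hA)
  have h1 : cylO Ω A = e ⁻¹' S := by
    ext p
    rw [mem_preimage, he p]
    constructor
    · rintro ⟨hp, hA⟩
      exact ⟨⟨p, hp, rfl, rfl⟩, hA⟩
    · rintro ⟨⟨q, hq, h2, h3⟩, hA⟩
      refine ⟨?_, hA⟩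
      have : e q = e p := by rw [he q, he p]; exact Prod.ext h2 h3
      rw [← e.injective this]
      exact hq
  rw [h1, hm.measure_preimage hSm.nullMeasurableSet, Measure.volume_eq_prod,
    Measure.prod_apply hSm, ← lintegral_indicator hA]
  refine lintegral_congr fun x => ?_
  by_cases hx : x ∈ A
  · rw [indicator_of_mem hx]
    congr 1
    ext y
    exact ⟨fun h => h.1, fun h => ⟨h, hx⟩⟩
  · rw [indicator_of_notMem hx]
    have : Prod.mk x ⁻¹' S = ∅ := by
      ext z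
      exact ⟨fun h => absurd h.2 hx, fun h => absurd h (notMem_empty _)⟩
    rw [this, measure_empty]

end PGA1

theorem ga1 : S_GA1 := by
  intro b Ω hΩ hb A hA
  unfold mu
  have h1 : ∀ x, fibv Ω x = (volume (PGA1.Fib Ω x)).toReal := PGA1.fibv_eq Ω
  simp_rw [h1]
  rw [integral_toReal (PGA1.meas_vol hΩ.measurableSet).aemeasurable
    (ae_of_all _ fun x => PGA1.Fib_lt hb x), Measure.real, PGA1.vol_cylO hΩ.measurableSet hA]

end Pool.Agent.H745.HV
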