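import Mathlib
import Pool.Agent.H745.HV.Stm
import Pool.Graph.R_seed8.TH959.HU.A12

/-!
# Project HV (helper745), part GA2: the perimeter of a cylindrical set
-/

set_option autoImplicit false

open MeasureTheory Set Metric Filter Topology
open scoped ENNReal Real

noncomputable section

namespace Pool.Agent.H745.HV

open Pool.Agent.TH304.MI Pool.Agent.TH703.HU

namespace PGA2

open Pool.Agent.TH959.MI Pool.Agent.TH959.HU

/-- the fibre -/
def Fbr {b : ℕ} (Ω : Set (PP b)) (x : ℂ) : Set (Fin b → ℝ) :=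
  {y | ∃ p ∈ Ω, xc p = x ∧ yc p = y}

theorem mem_Fbr {b : ℕ} {Ω : Set (PP b)} {x : ℂ} {y : Fin b → ℝ} :
    y ∈ Fbr Ω x ↔ Sb b (x, y) ∈ Ω := by
  constructor
  · rintro ⟨p, hp, rfl, rfl⟩
    rw [Sb_T]
    exact hp
  · intro h
    exact ⟨Sb b (x, y), h, xc_Sb _, yc_Sb _⟩

theorem isOpen_Fbr {b : ℕ} {Ω : Set (PP b)} (hΩ : IsOpen Ω) (x : ℂ) : IsOpen (Fbr Ω x) := by
  have h : Fbr Ω x = (fun y => Sb b (x, y)) ⁻¹' Ω := by
    ext y
    exact mem_Fbr
  rw [h]
  exact hΩ.preimage ((Sb b).continuous.comp (Continuous.prodMk_right x))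

theorem fin_Fbr {b : ℕ} {Ω : Set (PP b)} (hb : Bornology.IsBounded Ω) (x : ℂ) :
    volume (Fbr Ω x) ≠ ∞ := by
  have h1 : Bornology.IsBounded (T b '' Ω) := (T b).lipschitz.isBounded_image hb
  have h2 : Fbr Ω x ⊆ Prod.snd '' (T b '' Ω) := by
    rintro y ⟨p, hp, -, rfl⟩
    exact ⟨T b p, ⟨p, hp, rfl⟩, rfl⟩
  have h3 : Bornology.IsBounded (Fbr Ω x) := h1.image_snd.subset h2
  exact h3.measure_lt_top.ne

theorem fibv_pos {b : ℕ} {Ω : Set (PP b)} (hΩ : IsOpen Ω) (hb : Bornology.IsBounded Ω) {x : ℂ}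
    (h : (Fbr Ω x).Nonempty) : 0 < fibv Ω x := by
  have h1 : 0 < volume (Fbr Ω x) := (isOpen_Fbr hΩ x).measure_pos volume h
  exact ENNReal.toReal_pos h1.ne' (fin_Fbr hb x)

end PGA2

open PGA2 Pool.Agent.TH959.MI Pool.Agent.TH959.HU in
theorem ga2 : S_GA2 := by
  intro b Ω hΩ hb ε hε A hA C hP φ hφ
  have hF : ContDiff ℝ 1 (Fx φ) := (xL _).contDiff.comp (hφ.cd.comp (Sb _).contDiff)
  have hcF : HasCompactSupport (Fx φ) := (hcs_Sb hφ.cs).comp_left (g := xL _) (map_zero _)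
  have hts : ∀ q ∈ tsupport (Fx φ), Sb _ q ∈ Ω := by
    intro q hq
    have h1 : tsupport (Fx φ) ⊆ Sb _ ⁻¹' tsupport φ := by
      refine closure_minimal ?_ ((isClosed_tsupport φ).preimage (Sb _).continuous)
      intro q hq
      refine subset_tsupport _ fun h => hq ?_
      unfold Fx
      rw [h, map_zero]
    exact hφ.sub (h1 hq)
  have hz : ∀ x y, y ∉ Fbr Ω x → Fx φ (x, y) = 0 := by
    intro x y hy
    by_contra h
    exact hy (mem_Fbr.2 (hts (x, y) (subset_tsupport _ h)))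
  have hTW : TW (fibv Ω) fun x => ∫ y, Fx φ (x, y) := by
    refine ⟨contDiff_marg hF hcF, ?_, ?_, fun x => ?_⟩
    · refine HasCompactSupport.intro (K := Prod.fst '' tsupport (Fx φ))
        (hcF.isCompact.image continuous_fst) fun x hx => ?_
      have : ∀ y, Fx φ (x, y) = 0 := by
        intro y
        by_contra h'
        exact hx ⟨(x, y), subset_tsupport _ h', rfl⟩
      simp [this]
    · refine (tsupport_marg hcF).trans ?_
      rintro x ⟨⟨x', y⟩, hq, rfl⟩
      exact fibv_pos hΩ hb ⟨y, mem_Fbr.2 (hts _ hq)⟩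
    · have hfm : MeasurableSet (Fbr Ω x) := (isOpen_Fbr hΩ x).measurableSet
      have h1 : ‖∫ y, Fx φ (x, y)‖ ≤ ∫ y, (Fbr Ω x).indicator (fun _ => (1 : ℝ)) y := by
        refine norm_integral_le_of_norm_le ?_ (ae_of_all _ fun y => ?_)
        · exact (integrable_indicator_iff hfm).2 (integrableOn_const (fin_Fbr hb x))
        · by_cases hy : y ∈ Fbr Ω x
          · rw [indicator_of_mem hy]
            exact (norm_xc_le ε _).trans (hφ.bd _)
          · rw [indicator_of_notMem hy, hz x y hy, norm_zero]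
      have h2 : ∫ y, (Fbr Ω x).indicator (fun _ => (1 : ℝ)) y = fibv Ω x := by
        rw [integral_indicator hfm, setIntegral_const, smul_eq_mul, mul_one]
        rfl
      exact h1.trans h2.le
  have h1 := hP _ hTW
  rw [integral_cylO hφ.cd hφ.cs hφ.sub hA]
  exact h1

end Pool.Agent.H745.HV
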