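import Mathlib
import Pool.Agent.H745.HV.Stm
import Pool.Graph.R_seed8.TH340.HU.B8

/-! # Project HV, GB8: passage to the limit `ε → 0` (helper106) -/

set_option autoImplicit false

open MeasureTheory Set Metric Filter Topology
open scoped ENNReal Real

noncomputable section

namespace Pool.Agent.H745.HV

open Pool.Agent.TH304.MI Pool.Agent.TH703.HU
open Pool.Agent.TH340.HU (meas_cylO sc_of_yc norm_sc_of_xc PLe.one cd_smul cs_smul sub_smul'
  xc_smul int_dv_smul real_tendsto symm_mono)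

theorem gb8 (ga1 : S_GA1) (ga2 : S_GA2) (ga3 : S_GA3) (b1 : Pool.Agent.TH703.HU.S_B1)
    (b2 : Pool.Agent.TH703.HU.S_B2) (b4 : Pool.Agent.TH703.HU.S_B4) : S_GB8 := by
  intro b Ω ho hc hb hcont Λ v hΛ hv ε F hε hlim hmin
  -- the uniform perimeter bound
  set P : ℝ := Λ * v with hP
  have hPk : ∀ k, PLe (ε k) Ω (F k) P := by
    intro k φ hφ
    have h1 : PLe (ε k) Ω (∅ : Set (PP b)) 0 := by
      intro φ _
      simp
    have h2 := (hmin k).min ∅ 0 MeasurableSet.empty (empty_subset _)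
      (by simpa using hv) h1 φ hφ
    refine h2.trans ?_
    rw [hP]
    have h3 := (hmin k).le
    have h4 : volume.real (∅ : Set (PP b)) = 0 := by simp
    rw [h4, zero_add, sub_zero]
    exact mul_le_mul_of_nonneg_left h3 hΛ
  have hP0 : 0 ≤ P := by positivity
  -- compactness
  obtain ⟨F0, ψ, hF0m, hF0s, hψ, hψl⟩ := b1 _ Ω ho hc hb F P (fun k => (hmin k).meas)
    (fun k => (hmin k).sub) (fun k => PLe.one (hε k).1.le (hε k).2 (hPk k))
  -- the limit has zero y-divergence
  have hdiv : ∀ φ : PP b → PP b, ContDiff ℝ 1 φ → HasCompactSupport φ →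
      tsupport φ ⊆ Ω → (∀ p, xc (φ p) = 0) → ∫ x in F0, dv φ x = 0 := by
    have key : ∀ φ : PP b → PP b, ContDiff ℝ 1 φ → HasCompactSupport φ →
      tsupport φ ⊆ Ω → (∀ p, xc (φ p) = 0) → ∫ x in F0, dv φ x ≤ 0 := by
      intro φ hφ hcs hsub hx
      obtain ⟨M, hM⟩ : ∃ M : ℝ, ∀ p, ‖φ p‖ ≤ M := hφ.continuous.bounded_above_of_compact_support hcs
      have hM1 : (0 : ℝ) < max M 1 := lt_of_lt_of_le one_pos (le_max_right _ _)
      have hM2 : ∀ p, ‖φ p‖ ≤ max M 1 := fun p => (hM p).trans (le_max_left _ _)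
      set M' := max M 1
      have hk : ∀ k, ∫ x in F k, dv φ x ≤ ε k * M' * P := by
        intro k
        have he := (hε k).1
        have hpos : 0 < ε k * M' := mul_pos he hM1
        have hfld : Fld (ε k) Ω (fun p => (ε k * M')⁻¹ • φ p) := by
          refine ⟨cd_smul _ hφ, cs_smul _ hcs, (sub_smul' _).trans hsub, ?_⟩
          intro p
          have h1 : xc ((ε k * M')⁻¹ • φ p) = 0 := xc_smul _ (hx p)
          rw [norm_sc_of_xc he.le _ h1, norm_smul, Real.norm_of_nonneg (inv_nonneg.2 hpos.le)]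
          calc ε k * ((ε k * M')⁻¹ * ‖φ p‖) ≤ ε k * ((ε k * M')⁻¹ * M') := by
                gcongr
                exact hM2 p
            _ = 1 := by field_simp
        have h3 := hPk k _ hfld
        rw [int_dv_smul _ hφ] at h3
        rwa [inv_mul_le_iff₀ hpos] at h3
      have hlim2 : Tendsto (fun k => ε (ψ k) * M' * P) atTop (𝓝 0) := by
        have := ((hlim.comp hψ.tendsto_atTop).mul_const M').mul_const P
        simpa [Function.comp_def] using this
      exact le_of_tendsto_of_tendsto' (b2 _ (fun k => F (ψ k)) F0 (fun k => (hmin _).meas) hF0m hψl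
        φ hφ hcs) hlim2 (fun k => hk (ψ k))
    intro φ hφ hcs hsub hx
    apply le_antisymm (key φ hφ hcs hsub hx)
    have h1 := key (fun p => (-1 : ℝ) • φ p) (cd_smul _ hφ) (cs_smul _ hcs)
      ((sub_smul' _).trans hsub) (fun p => xc_smul _ (hx p))
    rw [int_dv_smul _ hφ] at h1
    linarith
  obtain ⟨A, hAm, hA⟩ := b4 _ Ω ho hc hb F0 hF0m hF0s hdiv
  have hcm : MeasurableSet (cylO Ω A) := meas_cylO ho hAm
  have hcs : cylO Ω A ⊆ Ω := fun p hp => hp.1
  have hT : Tendsto (fun k => volume (symmDiff (F (ψ k)) (cylO Ω A))) atTop (𝓝 0) :=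
    tendsto_of_tendsto_of_tendsto_of_le_of_le tendsto_const_nhds hψl (fun _ => zero_le)
      (fun k => symm_mono hA)
  have hV := real_tendsto hb (fun k => (hmin (ψ k)).sub) hcs (fun k => (hmin (ψ k)).meas) hcm hT
  have hVA := ga1 b Ω ho hb A hAm
  refine ⟨A, ψ, ⟨hAm, ?_, ?_⟩, hψ, hT⟩
  · have h1 : volume.real (cylO Ω A) ≤ v :=
      le_of_tendsto' hV (fun k => (hmin (ψ k)).le)
    rwa [hVA] at h1
  · intro G C hG hGv hGP
    have hGs : cylO Ω G ⊆ Ω := fun p hp => hp.1
    have hVG := ga1 b Ω ho hb G hG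
    apply ga3 b Ω ho hb hcont A hAm
    intro φ hφ hy
    have hk : ∀ k, ∫ x in F (ψ k), dv φ x ≤
        C + Λ * (volume.real (F (ψ k)) - mu (fibv Ω) G) := by
      intro k
      have h1 := (hmin (ψ k)).min (cylO Ω G) C (meas_cylO ho hG) hGs
        (by rw [hVG]; exact hGv)
        (ga2 b Ω ho hb _ (hε _).1 G hG C hGP) φ
        ⟨hφ.cd, hφ.cs, hφ.sub, fun x => by
          have h2 := hφ.bd x
          rw [sc_of_yc _ _ (hy x)] at h2 ⊢
          exact h2⟩
      rwa [hVG] at h1
    have hlim3 : Tendsto (fun k => C + Λ * (volume.real (F (ψ k)) - mu (fibv Ω) G))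
        atTop (𝓝 (C + Λ * (volume.real (cylO Ω A) - mu (fibv Ω) G))) :=
      ((hV.sub_const _).const_mul Λ).const_add _
    have h2 := le_of_tendsto_of_tendsto' (b2 _ (fun k => F (ψ k)) (cylO Ω A)
      (fun k => (hmin _).meas) hcm hT φ hφ.cd hφ.cs) hlim3 hk
    rw [hVA] at h2
    exact h2

end Pool.Agent.H745.HV
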