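import Mathlib
import Pool.Agent.H745.HV.Stm
import Pool.Graph.R_seed8.TH703.HU.Final

/-!
# Project HV, GC1: a minimizer on the body without volume over two discs
-/

set_option autoImplicit false

open MeasureTheory Set Metric Filter Topology
open scoped ENNReal Real

noncomputable section

namespace Pool.Agent.H745.HV

open Pool.Agent.TH304.MI Pool.Agent.TH703.HU

namespace PGC1

lemma fibv_nonneg {b : ℕ} (Ω : Set (PP b)) (x : ℂ) : 0 ≤ fibv Ω x := measureReal_nonneg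

lemma measurable_xc {b : ℕ} : Measurable (xc : PP b → ℂ) := by
  have : (xc : PP b → ℂ) = fun p => ((p 0 : ℝ) : ℂ) + ((p 1 : ℝ) : ℂ) * Complex.I := by
    funext p
    apply Complex.ext <;> simp [xc]
  rw [this]
  fun_prop

/-- a planar set without mass over a disc gives a cylinder without volume over the disc -/
lemma vol_cyl_ball (ga1 : S_GA1) {b : ℕ} {Ω : Set (PP b)} (hO : IsOpen Ω)
    (hB : Bornology.IsBounded Ω) {A : Set ℂ} (hA : MeasurableSet A) {c : ℂ} {R : ℝ}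
    (h : volume (A ∩ {x | 0 < fibv Ω x} ∩ ball c R) = 0) :
    volume.real (cylO Ω A ∩ {p | ‖xc p - c‖ < R}) = 0 := by
  have h1 : cylO Ω A ∩ {p | ‖xc p - c‖ < R} = cylO Ω (A ∩ ball c R) := by
    ext p
    simp only [cylO, mem_inter_iff, mem_ofPred_eq, mem_ball, dist_eq_norm]
    tauto
  have hm : MeasurableSet (A ∩ ball c R) := hA.inter measurableSet_ball
  rw [h1, ga1 b Ω hO hB _ hm]
  unfold mu
  apply integral_eq_zero_of_ae
  rw [Filter.EventuallyEq, ae_restrict_iff' hm, ae_iff]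
  refine measure_mono_null ?_ h
  intro x hx
  simp only [mem_ofPred_eq, Classical.not_imp, Pi.zero_apply] at hx
  exact ⟨⟨hx.1.1, lt_of_le_of_ne (fibv_nonneg Ω x) (Ne.symm hx.2)⟩, hx.1.2⟩

/-- the number that bounds the perimeter of a set is nonnegative -/
lemma PLe_nonneg {b : ℕ} {ε : ℝ} {Ω F : Set (PP b)} {C : ℝ} (h : PLe ε Ω F C) : 0 ≤ C := by
  have h0 := h (fun _ => 0) ⟨contDiff_const, HasCompactSupport.zero, by
    rw [show (fun _ : PP b => (0 : PP b)) = 0 from rfl]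
    simp [tsupport], fun x => by
      have : sc ε (0 : PP b) = 0 := by
        ext i
        simp [sc_apply]
      rw [this, norm_zero]
      exact zero_le_one⟩
  have hz : ∫ x in F, dv (fun _ : PP b => (0 : PP b)) x = 0 := by
    have : dv (fun _ : PP b => (0 : PP b)) = fun _ => 0 := by
      funext x
      simp [dv]
    rw [this]
    simp
  rw [hz] at h0
  exact h0

end PGC1

theorem gc1 (ga1 : S_GA1) (ga2 : S_GA2) (gb8 : S_GB8) (b3 : Pool.Agent.TH703.HU.S_B3)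
    (b7 : Pool.Agent.TH703.HU.S_B7) : S_GC1 := by
  intro b Ω hO hconv hB hne hcont Λ v R α₁ c₁ c₂ hΛ hv hvΩ hR ⟨G, C, hG, hGv, hGC, hneg⟩ hpl
  have hk1 : ∀ k : ℕ, 0 < 1 / ((k : ℝ) + 1) ∧ 1 / ((k : ℝ) + 1) ≤ 1 := by
    intro k
    have hk : (0 : ℝ) < (k : ℝ) + 1 := by positivity
    refine ⟨by positivity, ?_⟩
    rw [div_le_one hk]
    linarith [(Nat.cast_nonneg k : (0 : ℝ) ≤ k)]
  -- minimizers for a sequence of parameters
  have hex : ∀ k : ℕ, ∃ F : Set (PP b), MinB (1 / ((k : ℝ) + 1)) Ω Λ v F := by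
    intro k
    exact b3 _ _ hO hconv hB _ _ _ (hk1 k).1 (hk1 k).2 hΛ.le hv.le
  choose F hF using hex
  obtain ⟨A, ψ, hA, hψ, hlim⟩ := gb8 b Ω hO hconv hB hcont Λ v hΛ.le hv.le
    (fun k => 1 / ((k : ℝ) + 1)) F hk1 tendsto_one_div_add_atTop_nhds_zero_nat hF
  -- extinction constants
  obtain ⟨ω₁, hω₁, hext₁⟩ := b7 b Ω hO hconv hB hne Λ v R c₁ hΛ.le hR
  obtain ⟨ω₂, hω₂, hext₂⟩ := b7 b Ω hO hconv hB hne Λ v R c₂ hΛ.le hR
  obtain ⟨ω₀, hω₀, h01, h02⟩ : ∃ ω₀ : ℝ, 0 < ω₀ ∧ ω₀ ≤ ω₁ ∧ ω₀ ≤ ω₂ :=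
    ⟨min ω₁ ω₂, lt_min hω₁ hω₂, min_le_left _ _, min_le_right _ _⟩
  obtain ⟨k, hk⟩ : ∃ k : ℕ, volume (symmDiff (F (ψ k)) (cylO Ω A)) < ENNReal.ofReal ω₀ :=
    ((tendsto_order.1 hlim).2 _ (by simpa using hω₀)).exists
  obtain ⟨j, hj⟩ : ∃ j, j = ψ k := ⟨_, rfl⟩
  rw [← hj] at hk
  have hε0 := (hk1 j).1
  have hε1 := (hk1 j).2
  have hBfin : volume Ω ≠ ⊤ := hB.measure_lt_top.ne
  have hkey : ∀ (c : ℂ), volume (A ∩ {x | 0 < fibv Ω x} ∩ ball c R) = 0 →
      volume.real (F j ∩ {p | ‖xc p - c‖ < R}) ≤ ω₀ := by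
    intro c hc
    have h1 := PGC1.vol_cyl_ball ga1 hO hB hA.meas hc
    have h2 : F j ∩ {p | ‖xc p - c‖ < R} ⊆
        (cylO Ω A ∩ {p | ‖xc p - c‖ < R}) ∪ symmDiff (F j) (cylO Ω A) := by
      rintro p ⟨hp1, hp2⟩
      by_cases hp3 : p ∈ cylO Ω A
      · exact Or.inl ⟨hp3, hp2⟩
      · exact Or.inr (Or.inl ⟨hp1, hp3⟩)
    have h3 : volume (symmDiff (F j) (cylO Ω A)) ≠ ⊤ := ne_top_of_lt hk
    have h4 : volume (cylO Ω A ∩ {p | ‖xc p - c‖ < R}) ≠ ⊤ :=
      measure_ne_top_of_subset (fun p hp => hp.1.1) hBfin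
    calc volume.real (F j ∩ {p | ‖xc p - c‖ < R})
        ≤ volume.real ((cylO Ω A ∩ {p | ‖xc p - c‖ < R}) ∪
            symmDiff (F j) (cylO Ω A)) := measureReal_mono h2 (by
              rw [← lt_top_iff_ne_top]
              exact measure_union_lt_top h4.lt_top h3.lt_top)
      _ ≤ volume.real (cylO Ω A ∩ {p | ‖xc p - c‖ < R}) +
            volume.real (symmDiff (F j) (cylO Ω A)) := measureReal_union_le _ _
      _ = volume.real (symmDiff (F j) (cylO Ω A)) := by rw [h1, zero_add]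
      _ ≤ ω₀ := by
          have := ENNReal.toReal_mono ENNReal.ofReal_ne_top hk.le
          rwa [ENNReal.toReal_ofReal hω₀.le] at this
  have hv1 : volume (F j ∩ {p | ‖xc p - c₁‖ < R / 2}) = 0 :=
    hext₁ _ _ hε0 hε1 (hF j) ((hkey c₁ (hpl A hA).1).trans h01)
  have hv2 : volume (F j ∩ {p | ‖xc p - c₂‖ < R / 2}) = 0 :=
    hext₂ _ _ hε0 hε1 (hF j) ((hkey c₂ (hpl A hA).2).trans h02)
  -- the energy of the competitor
  have hcomp := (hF j).min (cylO Ω G) C (hO.measurableSet.inter (PGC1.measurable_xc hG))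
    (fun p hp => hp.1) (by rw [ga1 b Ω hO hB G hG]; exact hGv)
    (ga2 b Ω hO hB _ hε0 G hG C hGC)
  rw [ga1 b Ω hO hB G hG] at hcomp
  refine ⟨1 / ((j : ℝ) + 1), F j, hε0, (hF j).meas, (hF j).sub, (hF j).le, ?_, ?_,
    ⟨_, hcomp⟩, ?_⟩
  · have h0 := PGC1.PLe_nonneg hcomp
    have h5 : Λ * ((1 - α₁) * volume.real Ω) < Λ * volume.real (F j) := by
      have e1 : Λ * (mu (fibv Ω) G - (1 - α₁) * volume.real Ω) =
        Λ * mu (fibv Ω) G - Λ * ((1 - α₁) * volume.real Ω) := by ring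
      have e2 : Λ * (volume.real (F j) - mu (fibv Ω) G) =
        Λ * volume.real (F j) - Λ * mu (fibv Ω) G := by ring
      rw [e1] at hneg
      rw [e2] at h0
      linarith
    exact lt_of_mul_lt_mul_left h5 hΛ.le
  · intro H hH hHB hHv C' hC'
    have hr : volume.real H = volume.real (F j) := by simp [Measure.real, hHv]
    have := (hF j).min H C' hH hHB (by rw [hr]; exact (hF j).le) hC'
    rw [hr, sub_self, mul_zero, add_zero] at this
    exact this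
  · refine measure_mono_null (t := (F j ∩ {p | ‖xc p - c₁‖ < R / 2}) ∪
      (F j ∩ {p | ‖xc p - c₂‖ < R / 2})) ?_ (measure_union_null hv1 hv2)
    rintro p ⟨hp, hp' | hp'⟩
    · exact Or.inl ⟨hp, hp'⟩
    · exact Or.inr ⟨hp, hp'⟩

end Pool.Agent.H745.HV
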