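import Mathlib
import Pool.Agent.H745.HV.Stm
import Pool.Graph.R_seed8.TH703.HU.Fin2

set_option autoImplicit false

/-! # Project HV, task GC2: transfer to the thin body and the complement -/

open MeasureTheory Set Metric Filter Topology
open scoped ENNReal Real

noncomputable section

namespace Pool.Agent.H745.HV

open Pool.Agent.TH304.MI Pool.Agent.TH703.HU

theorem gc2 (b9 : Pool.Agent.TH703.HU.S_B9) : S_GC2 := by
  intro b Ω₀ F ε v R α₁ c₁ c₂ hBo hBc hBb hBn hε hv hvΩ hF hFB hFle hFα hFpos hmin hfinper hnear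
    hShull
  obtain ⟨C₀, hC₀⟩ := hfinper
  have hε' : ε ≠ 0 := hε.ne'
  set L := scC b ε hε' with hL
  have hLs : ∀ S : Set (PP b), sc ε '' S = L '' S := fun S => rfl
  have hLm : ∀ {S : Set (PP b)}, MeasurableSet S → MeasurableSet (L '' S) :=
    fun hS => (L.toHomeomorph.toMeasurableEquiv.measurableEmbedding.measurableSet_image).2 hS
  set κ : ℝ≥0∞ := ENNReal.ofReal |LinearMap.det (L : PP b →L[ℝ] PP b).toLinearMap|
    with hκ
  have hκv : ∀ S : Set (PP b), volume (L '' S) = κ * volume S := fun S =>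
    Measure.addHaar_image_continuousLinearEquiv volume L S
  have hdet : LinearMap.det (L : PP b →L[ℝ] PP b).toLinearMap ≠ 0 := by
    have := LinearEquiv.isUnit_det' L.toLinearEquiv
    exact this.ne_zero
  have hκ0 : κ ≠ 0 := by
    rw [hκ, Ne, ENNReal.ofReal_eq_zero, not_le]
    exact abs_pos.2 hdet
  have hκt : κ ≠ ⊤ := ENNReal.ofReal_ne_top
  set Ω : Set (PP b) := L '' Ω₀ with hΩ
  have hΩo : IsOpen Ω := L.toHomeomorph.isOpenMap _ hBo
  have hΩc : Convex ℝ Ω := hBc.linear_image (L : PP b →L[ℝ] PP b).toLinearMap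
  have hΩb : Bornology.IsBounded Ω :=
    (L : PP b →L[ℝ] PP b).lipschitz.isBounded_image hBb
  have hΩn : Ω.Nonempty := hBn.image _
  have hΩfin : volume Ω ≠ ⊤ := hΩb.measure_lt_top.ne
  have hΩpos : volume Ω ≠ 0 := (hΩo.measure_pos volume hΩn).ne'
  have hΩ₀fin : volume Ω₀ ≠ ⊤ := hBb.measure_lt_top.ne
  have hF₀fin : volume F ≠ ⊤ := measure_ne_top_of_subset hFB hΩ₀fin
  have hFi : L '' F ⊆ Ω := image_mono hFB
  have hFim : MeasurableSet (L '' F) := hLm hF
  have hFfin : volume (L '' F) ≠ ⊤ := measure_ne_top_of_subset hFi hΩfin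
  set E : Set (PP b) := Ω \ L '' F with hE
  have hEm : MeasurableSet E := hΩo.measurableSet.diff hFim
  have hEΩ : E ⊆ Ω := sdiff_subset
  have hEv : volume E = volume Ω - volume (L '' F) := measure_sdiff hFi hFim.nullMeasurableSet hFfin
  have hEfin : volume E ≠ ⊤ := measure_ne_top_of_subset hEΩ hΩfin
  -- the part near the vertices
  set S : Set (PP b) := {p | p ∈ Ω₀ ∧ (‖xc p - c₁‖ < R / 2 ∨ ‖xc p - c₂‖ < R / 2)} with hS
  have hxc : Continuous (xc : PP b → ℂ) := by
    have : (xc : PP b → ℂ) =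
        fun p => ((p 0 : ℝ) : ℂ) + ((p 1 : ℝ) : ℂ) * Complex.I := by
      funext p
      apply Complex.ext <;> simp [xc]
    rw [this]
    fun_prop
  have hSo : IsOpen S := by
    have e : S = Ω₀ ∩ ({p | ‖xc p - c₁‖ < R / 2} ∪ {p | ‖xc p - c₂‖ < R / 2}) := rfl
    rw [e]
    refine hBo.inter ((isOpen_lt ?_ continuous_const).union (isOpen_lt ?_ continuous_const)) <;>
      fun_prop
  have hSne : S.Nonempty := by
    rw [← convexHull_nonempty_iff (𝕜 := ℝ), hShull]
    exact hBn
  have hSF : volume (F ∩ S) = 0 :=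
    measure_mono_null (s := F ∩ S)
      (t := F ∩ {p | ‖xc p - c₁‖ < R / 2 ∨ ‖xc p - c₂‖ < R / 2})
      (fun p hp => ⟨hp.1, hp.2.2⟩) hnear
  have hLSo : IsOpen (L '' S) := L.toHomeomorph.isOpenMap _ hSo
  have hSΩ : L '' S ⊆ Ω := image_mono fun p hp => hp.1
  have hLSF : volume (L '' F ∩ L '' S) = 0 := by
    rw [← image_inter L.injective, hκv, hSF, mul_zero]
  -- volume fraction
  have hΩr : 0 < volume.real Ω₀ := lt_trans hv hvΩ
  have hvF : volume F = ENNReal.ofReal (volume.real F) := (ofReal_measureReal hF₀fin).symm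
  have hvΩ₀ : volume Ω₀ = ENNReal.ofReal (volume.real Ω₀) := (ofReal_measureReal hΩ₀fin).symm
  set α : ℝ := 1 - volume.real F / volume.real Ω₀ with hα
  have hα0 : 0 < α := by
    rw [hα, sub_pos, div_lt_one hΩr]
    exact lt_of_le_of_lt hFle hvΩ
  have hαE : volume E = ENNReal.ofReal α * volume Ω := by
    rw [hEv, hκv, hκv, ← ENNReal.mul_sub (fun _ _ => hκt), mul_left_comm, hvF, hvΩ₀,
      ← ENNReal.ofReal_sub _ measureReal_nonneg, ← ENNReal.ofReal_mul hα0.le]
    congr 2
    rw [hα]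
    field_simp
  have hα1 : α < α₁ := by
    have : 1 - α₁ < volume.real F / volume.real Ω₀ := by
      rw [lt_div_iff₀ hΩr]
      exact hFα
    rw [hα]
    linarith
  have hαv : 1 - v / volume.real Ω₀ ≤ α := by
    have : volume.real F / volume.real Ω₀ ≤ v / volume.real Ω₀ :=
      div_le_div_of_nonneg_right hFle hΩr.le
    rw [hα]
    linarith
  -- transfer of perimeter bounds between `F` and `E`
  have hEC : ∀ C : ℝ, PLe ε Ω₀ F C → PLe 1 Ω E (ε ^ b * C) := by
    intro C hC
    have h1 := (b9 _ _ ε hε hBo F hF hFB C).1 hC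
    exact PLe_compl hFim hFi h1
  have hεp : (0 : ℝ) < ε ^ b := by positivity
  refine ⟨Ω, E, α, hΩo, hΩc, hΩb, hΩn, hα0, hαv, hα1, ⟨hEm, hEΩ, hαE, ?_⟩, ?_, ?_⟩
  · -- minimality
    intro H hH hHΩ hHv
    by_cases htop : Per Ω H = ⊤
    · rw [htop]
      exact le_top
    have hC : Per Ω H ≤ ENNReal.ofReal (Per Ω H).toReal := by rw [ENNReal.ofReal_toReal htop]
    have h1 := (per_le_iff Ω H ENNReal.toReal_nonneg).1 hC
    have h2 := PLe_compl hH hHΩ h1
    set G : Set (PP b) := L ⁻¹' (Ω \ H) with hG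
    have hGm : MeasurableSet G := L.continuous.measurable (hΩo.measurableSet.diff hH)
    have hGB : G ⊆ Ω₀ := by
      intro p hp
      obtain ⟨q, hq, hqp⟩ := (hp : L p ∈ Ω \ H).1
      have := L.injective hqp
      exact this ▸ hq
    have hLG : L '' G = Ω \ H := by
      rw [hG, image_preimage_eq _ L.surjective]
    have h3 : PLe 1 (sc ε '' Ω₀) (sc ε '' G)
        (ε ^ b * ((Per Ω H).toReal / ε ^ b)) := by
      rw [mul_div_cancel₀ _ hεp.ne', hLs, hLs, hLG]
      exact h2
    have h4 := (b9 _ _ ε hε hBo G hGm hGB _).2 h3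
    have hHfin : volume H ≠ ⊤ := measure_ne_top_of_subset hHΩ hΩfin
    have hGv : volume G = volume F := by
      have h5 : volume (L '' G) = volume (L '' F) := by
        rw [hLG, measure_sdiff hHΩ hH.nullMeasurableSet hHfin, hHv, hEv]
        exact ENNReal.sub_sub_cancel hΩfin (measure_mono hFi)
      rw [hκv, hκv] at h5
      exact (ENNReal.mul_right_inj hκ0 hκt).1 h5
    have h6 := hmin G hGm hGB hGv _ h4
    have h7 := hEC _ h6
    rw [mul_div_cancel₀ _ hεp.ne'] at h7
    calc Per Ω E ≤ ENNReal.ofReal (Per Ω H).toReal :=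
          (per_le_iff Ω E ENNReal.toReal_nonneg).2 h7
      _ = Per Ω H := ENNReal.ofReal_toReal htop
  · -- finite perimeter
    have h1 := hEC _ hC₀
    exact lt_of_le_of_lt ((per_le_iff Ω E (nonneg_of_PLe h1)).2 h1) ENNReal.ofReal_lt_top
  · -- the convex hull
    apply Subset.antisymm
    · exact convexHull_min (fun x hx => hx.1) hΩc
    · have h1 : L '' S ⊆ dens1 Ω E := by
        intro x hx
        refine ⟨hSΩ hx, ?_⟩
        obtain ⟨r₀, hr₀, hball⟩ := Metric.isOpen_iff.1 hLSo x hx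
        refine Tendsto.congr' ?_ tendsto_const_nhds
        have hev : ∀ᶠ r : ℝ in 𝓝[>] 0, r ∈ Ioo 0 r₀ := Ioo_mem_nhdsGT hr₀
        filter_upwards [hev] with r hr
        have h2 : volume (E ∩ ball x r) = volume (ball x r) := by
          apply le_antisymm (measure_mono inter_subset_right)
          have h3 : ball x r ⊆ (E ∩ ball x r) ∪ (L '' F ∩ L '' S) := by
            intro y hy
            have hyS : y ∈ L '' S := hball (ball_subset_ball hr.2.le hy)
            by_cases hyF : y ∈ L '' F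
            · exact Or.inr ⟨hyF, hyS⟩
            · exact Or.inl ⟨⟨hSΩ hyS, hyF⟩, hy⟩
          calc volume (ball x r) ≤ volume ((E ∩ ball x r) ∪ (L '' F ∩ L '' S)) := measure_mono h3
            _ ≤ volume (E ∩ ball x r) + volume (L '' F ∩ L '' S) := measure_union_le _ _
            _ = volume (E ∩ ball x r) := by rw [hLSF, add_zero]
        rw [h2]
        exact (ENNReal.div_self (measure_ball_pos volume x hr.1).ne' measure_ball_lt_top.ne).symm
      calc Ω = L '' (convexHull ℝ S) := by rw [hShull]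
        _ = convexHull ℝ (L '' S) :=
            (L : PP b →L[ℝ] PP b).toLinearMap.image_convexHull S
        _ ⊆ convexHull ℝ (dens1 Ω E) := convexHull_mono h1

end Pool.Agent.H745.HV
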