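import Mathlib
import Pool.Agent.H745.HV.Stm

set_option autoImplicit false

open MeasureTheory Set Metric Filter Topology
open scoped ENNReal Real

noncomputable section

namespace Pool.Agent.H745.HV

open Pool.Agent.TH304.MI Pool.Agent.TH703.HU

namespace PHULL

/-- the fibre coordinates of the moving point -/
def fz (m : ℕ) (y : Fin (2 * m + 1) → ℝ) (q t : ℝ) (i : Fin (2 * m + 1)) : ℝ :=
  if (i : ℕ) < m then y i * ((1 + t) / (1 + q))
  else if (i : ℕ) < 2 * m then y i * ((1 - t) / (1 - q)) else y i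

/-- the moving point -/
def mv (H : ℝ) (m : ℕ) (x v q : ℝ) (y : Fin (2 * m + 1) → ℝ) (t : ℝ) : PP (2 * m + 2) :=
  WithLp.toLp 2 (Fin.cons x (Fin.cons (v + H * t) (Fin.cons t (fz m y q t))))

theorem mv_xc (H : ℝ) (m : ℕ) (x v q : ℝ) (y : Fin (2 * m + 1) → ℝ) (t : ℝ) :
    xc (mv H m x v q y t) = ⟨x, v + H * t⟩ := rfl

theorem mv_y0 (H : ℝ) (m : ℕ) (x v q : ℝ) (y : Fin (2 * m + 1) → ℝ) (t : ℝ) :
    yc (mv H m x v q y t) 0 = t := rfl

theorem mv_ys (H : ℝ) (m : ℕ) (x v q : ℝ) (y : Fin (2 * m + 1) → ℝ) (t : ℝ)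
    (i : Fin (2 * m + 1)) : yc (mv H m x v q y t) i.succ = fz m y q t i := rfl

theorem mem_mv {L κ β H : ℝ} {m : ℕ} {p : PP (2 * m + 2)} (hp : p ∈ Bd L κ β H m)
    (h1 : 0 < 1 + yc p 0) (h2 : 0 < 1 - yc p 0) {t : ℝ} (ht1 : 0 < 1 + t) (ht2 : 0 < 1 - t) :
    mv H m (xc p).re ((xc p).im - H * yc p 0) (yc p 0) (fun i => yc p i.succ) t ∈
      Bd L κ β H m := by
  obtain ⟨a1, a2, a3, a4⟩ := hp
  refine ⟨?_, ?_, ?_, ?_⟩
  · rw [mv_xc]; exact a1
  · rw [mv_xc]; exact a2
  · rw [mv_xc, mv_y0]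
    show |(xc p).im - H * yc p 0 + H * t - H * t| < aa β (xc p).re
    rw [add_sub_cancel_right]
    exact a3
  · intro i
    have h3 := a4 i
    rw [mv_y0, mv_ys, mv_xc]
    unfold fz
    by_cases c1 : (i : ℕ) < m
    · rw [if_pos c1] at h3 ⊢
      rw [if_pos c1, abs_mul, abs_of_pos (div_pos ht1 h1)]
      calc |yc p i.succ| * ((1 + t) / (1 + yc p 0))
          < (1 + yc p 0) * ((1 + t) / (1 + yc p 0)) :=
            mul_lt_mul_of_pos_right h3 (div_pos ht1 h1)
        _ = 1 + t := by field_simp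
    · rw [if_neg c1] at h3 ⊢
      rw [if_neg c1]
      by_cases c2 : (i : ℕ) < 2 * m
      · rw [if_pos c2] at h3 ⊢
        rw [if_pos c2, abs_mul, abs_of_pos (div_pos ht2 h2)]
        calc |yc p i.succ| * ((1 - t) / (1 - yc p 0))
            < (1 - yc p 0) * ((1 - t) / (1 - yc p 0)) :=
              mul_lt_mul_of_pos_right h3 (div_pos ht2 h2)
          _ = 1 - t := by field_simp
      · rw [if_neg c2] at h3 ⊢
        rw [if_neg c2]
        exact h3

theorem mv_comb {H : ℝ} {m : ℕ} (p : PP (2 * m + 2)) (h1 : 0 < 1 + yc p 0)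
    (h2 : 0 < 1 - yc p 0) {a b s t : ℝ} (hab : a + b = 1) (hst : a * s + b * t = yc p 0) :
    a • mv H m (xc p).re ((xc p).im - H * yc p 0) (yc p 0) (fun i => yc p i.succ) s +
      b • mv H m (xc p).re ((xc p).im - H * yc p 0) (yc p 0) (fun i => yc p i.succ) t = p := by
  ext j
  show a * (Fin.cons (xc p).re (Fin.cons ((xc p).im - H * yc p 0 + H * s)
      (Fin.cons s (fz m (fun i => yc p i.succ) (yc p 0) s))) : Fin (2 * m + 2 + 2) → ℝ) j +
    b * (Fin.cons (xc p).re (Fin.cons ((xc p).im - H * yc p 0 + H * t)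
      (Fin.cons t (fz m (fun i => yc p i.succ) (yc p 0) t))) : Fin (2 * m + 2 + 2) → ℝ) j = p j
  refine Fin.cases ?_ (fun j => ?_) j
  · rw [Fin.cons_zero, Fin.cons_zero, ← add_mul, hab, one_mul]
    rfl
  · rw [Fin.cons_succ, Fin.cons_succ]
    refine Fin.cases ?_ (fun j => ?_) j
    · rw [Fin.cons_zero, Fin.cons_zero]
      have e : p (Fin.succ 0) = (xc p).im := rfl
      rw [e]
      linear_combination ((xc p).im - H * yc p 0) * hab + H * hst
    · rw [Fin.cons_succ, Fin.cons_succ]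
      refine Fin.cases ?_ (fun i => ?_) j
      · rw [Fin.cons_zero, Fin.cons_zero]
        exact hst
      · rw [Fin.cons_succ, Fin.cons_succ]
        have e : p i.succ.succ.succ = yc p i.succ := rfl
        rw [e]
        unfold fz
        by_cases c1 : (i : ℕ) < m
        · rw [if_pos c1, if_pos c1]
          field_simp
          linear_combination (yc p i.succ) * hab + (yc p i.succ) * hst
        · rw [if_neg c1, if_neg c1]
          by_cases c2 : (i : ℕ) < 2 * m
          · rw [if_pos c2, if_pos c2]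
            field_simp
            linear_combination (yc p i.succ) * hab - (yc p i.succ) * hst
          · rw [if_neg c2, if_neg c2]
            linear_combination (yc p i.succ) * hab

theorem norm_lt' {x L u : ℝ} (hL : 4 ≤ L) (hx0 : 0 < x) (hxL : x < L) (hu1 : -(11 / 10) ≤ u)
    (hu2 : u ≤ 11 / 10) {z : ℂ} (hre : z.re = x - L / 2) (him : z.im = u) : ‖z‖ < L := by
  have h1 : ‖z‖ ^ 2 < L ^ 2 := by
    rw [← Complex.normSq_eq_norm_sq, Complex.normSq_apply, hre, him]
    nlinarith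
  exact lt_of_pow_lt_pow_left₀ 2 (by linarith) h1

end PHULL

open PHULL in
theorem hull (body1 : S_BODY1) : S_HULL := by
  intro L κ β H m hL hκ hκL hβ hβL hH hm
  have hconv : Convex ℝ (Bd L κ β H m) :=
    (body1 L κ β H m (by linarith) hκ hκL hβ (by linarith) hm).2.1
  apply Subset.antisymm
  · exact convexHull_min (fun p hp => hp.1) hconv
  · intro p hp
    obtain ⟨a1, a2, a3, a4⟩ := id hp
    have b1 := a4 ⟨0, by omega⟩
    have b2 := a4 ⟨m, by omega⟩
    rw [if_pos (by show 0 < m; omega)] at b1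
    rw [if_neg (by show ¬ m < m; omega), if_pos (by show m < 2 * m; omega)] at b2
    have hq1 : 0 < 1 + yc p 0 := lt_of_le_of_lt (abs_nonneg _) b1
    have hq2 : 0 < 1 - yc p 0 := lt_of_le_of_lt (abs_nonneg _) b2
    have hqa : |yc p 0| < 1 := abs_lt.2 ⟨by linarith, by linarith⟩
    obtain ⟨e, he0, he1, he2⟩ : ∃ e : ℝ, 0 < e ∧ |yc p 0| ≤ 1 - e ∧ H * e ≤ 1 / 10 := by
      refine ⟨min (1 - |yc p 0|) (1 / (10 * H)), lt_min (by linarith) (by positivity), ?_, ?_⟩
      · have := min_le_left (1 - |yc p 0|) (1 / (10 * H))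
        linarith
      · have h1 := min_le_right (1 - |yc p 0|) (1 / (10 * H))
        calc H * min (1 - |yc p 0|) (1 / (10 * H)) ≤ H * (1 / (10 * H)) :=
              mul_le_mul_of_nonneg_left h1 (by linarith)
          _ = 1 / 10 := by field_simp
    have hHe : e ≤ 1 / 10 := by nlinarith
    have hc : 0 < 1 - e := by linarith
    obtain ⟨hq3, hq4⟩ := abs_le.1 he1
    have hv : |(xc p).im - H * yc p 0| < 1 := by
      refine lt_of_lt_of_le a3 ?_
      unfold aa
      nlinarith
    obtain ⟨hv1, hv2⟩ := abs_lt.1 hv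
    have hHe0 : 0 < H * e := by positivity
    -- the two end points
    have m1 := mem_mv hp hq1 hq2 (t := -(1 - e)) (by linarith) (by linarith)
    have m2 := mem_mv hp hq1 hq2 (t := 1 - e) (by linarith) (by linarith)
    have n1 : ‖xc (mv H m (xc p).re ((xc p).im - H * yc p 0) (yc p 0)
        (fun i => yc p i.succ) (-(1 - e))) - ⟨L / 2, -H⟩‖ < L := by
      rw [mv_xc]
      refine norm_lt' (x := (xc p).re) (u := (xc p).im - H * yc p 0 + H * e) hL a1 a2
        (by linarith) (by linarith) ?_ ?_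
      · rw [Complex.sub_re]
      · rw [Complex.sub_im]
        show (xc p).im - H * yc p 0 + H * (-(1 - e)) - (-H) = _
        ring
    have n2 : ‖xc (mv H m (xc p).re ((xc p).im - H * yc p 0) (yc p 0)
        (fun i => yc p i.succ) (1 - e)) - ⟨L / 2, H⟩‖ < L := by
      rw [mv_xc]
      refine norm_lt' (x := (xc p).re) (u := (xc p).im - H * yc p 0 - H * e) hL a1 a2
        (by linarith) (by linarith) ?_ ?_
      · rw [Complex.sub_re]
      · rw [Complex.sub_im]
        show (xc p).im - H * yc p 0 + H * (1 - e) - H = _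
        ring
    have hseg := (convex_convexHull ℝ {p | p ∈ Bd L κ β H m ∧
      (‖xc p - ⟨L / 2, H⟩‖ < L ∨ ‖xc p - ⟨L / 2, -H⟩‖ < L)})
      (subset_convexHull ℝ _ ⟨m1, Or.inr n1⟩) (subset_convexHull ℝ _ ⟨m2, Or.inl n2⟩)
      (a := (1 - e - yc p 0) / (2 * (1 - e))) (b := (1 - e + yc p 0) / (2 * (1 - e)))
      (div_nonneg (by linarith) (by linarith)) (div_nonneg (by linarith) (by linarith))
      (by field_simp; ring)
    rwa [mv_comb p hq1 hq2 (by field_simp; ring) (by field_simp; ring)] at hseg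

end Pool.Agent.H745.HV
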