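import Mathlib
import Pool.Agent.H745.HV.Stm
import Pool.Graph.R_seed8.TH993.HU.B6

/-!
Task ISO of project HV (helper549): relative isoperimetric inequality in the bulk.
-/

set_option autoImplicit false

open MeasureTheory Set Metric Filter Topology
open scoped ENNReal Real

noncomputable section

namespace Pool.Agent.H745.HV.PISO

open Pool.Agent.TH304.MI Pool.Agent.TH703.HU

lemma TT_eq (L β : ℝ) : TT L β = (({z : ℂ | 0 < z.re} ∩ {z : ℂ | z.re < L}) ∩
    ({z : ℂ | z.im - β * z.re < 1 / 2} ∩ {z : ℂ | -z.im - β * z.re < 1 / 2})) := by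
  ext z
  simp only [TT, aa, mem_ofPred_eq, mem_inter_iff, abs_lt]
  constructor
  · rintro ⟨h1, h2, h3, h4⟩
    exact ⟨⟨h1, h2⟩, by linarith, by linarith⟩
  · rintro ⟨⟨h1, h2⟩, h3, h4⟩
    exact ⟨h1, h2, by linarith, by linarith⟩

lemma TT_open (L β : ℝ) : IsOpen (TT L β) := by
  rw [TT_eq]
  refine ((isOpen_lt continuous_const Complex.continuous_re).inter
    (isOpen_lt Complex.continuous_re continuous_const)).inter (IsOpen.inter ?_ ?_)
  · exact isOpen_lt (Complex.continuous_im.sub (continuous_const.mul Complex.continuous_re))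
      continuous_const
  · exact isOpen_lt (Complex.continuous_im.neg.sub (continuous_const.mul Complex.continuous_re))
      continuous_const

lemma TT_convex (L β : ℝ) : Convex ℝ (TT L β) := by
  rw [TT_eq]
  refine ((convex_halfSpace_re_gt 0).inter (convex_halfSpace_re_lt L)).inter (Convex.inter ?_ ?_)
  · refine convex_halfSpace_lt (f := fun z : ℂ => z.im - β * z.re) ⟨fun x y => ?_, fun c x => ?_⟩ _
    · simp; ring
    · simp; ring
  · refine convex_halfSpace_lt (f := fun z : ℂ => -z.im - β * z.re) ⟨fun x y => ?_, fun c x => ?_⟩ _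
    · simp; ring
    · simp; ring

lemma TT_dist {L β : ℝ} (hL : 4 ≤ L) (hβ : 0 < β) (hb : β * L ≤ 1 / 2) :
    ∀ x ∈ TT L β, ∀ y ∈ TT L β, dist x y ≤ L + 2 := by
  rintro x ⟨hx1, hx2, hx3⟩ y ⟨hy1, hy2, hy3⟩
  unfold aa at hx3 hy3
  rw [abs_lt] at hx3 hy3
  have e1 : β * x.re ≤ β * L := mul_le_mul_of_nonneg_left hx2.le hβ.le
  have e2 : β * y.re ≤ β * L := mul_le_mul_of_nonneg_left hy2.le hβ.le
  rw [dist_eq_norm]
  refine (Complex.norm_le_abs_re_add_abs_im _).trans ?_
  have h1 : |(x - y).re| ≤ L := by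
    rw [Complex.sub_re, abs_le]
    constructor <;> linarith
  have h2 : |(x - y).im| ≤ 2 := by
    rw [Complex.sub_im, abs_le]
    constructor <;> linarith
  linarith

lemma TT_ball {L β : ℝ} (hL : 4 ≤ L) (hβ : 0 < β) : ball ((L / 2 : ℝ) : ℂ) (1 / 2) ⊆ TT L β := by
  intro z hz
  rw [mem_ball, dist_eq_norm] at hz
  have h1 := (Complex.abs_re_le_norm (z - ((L / 2 : ℝ) : ℂ))).trans_lt hz
  have h2 := (Complex.abs_im_le_norm (z - ((L / 2 : ℝ) : ℂ))).trans_lt hz
  rw [Complex.sub_re, Complex.ofReal_re, abs_lt] at h1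
  rw [Complex.sub_im, Complex.ofReal_im, sub_zero] at h2
  have h3 : 0 < z.re := by linarith
  refine ⟨h3, by linarith, h2.trans ?_⟩
  unfold aa
  have := mul_pos hβ h3
  linarith

lemma dv_eq (Y : ℂ → ℂ) (z : ℂ) : Pool.Agent.TH703.Cone.dv Y z = dv2 Y z := by
  unfold Pool.Agent.TH703.Cone.dv dv2
  rw [LinearMap.trace_eq_matrix_trace ℝ Complex.basisOneI]
  rw [Matrix.trace, Fin.sum_univ_two]
  simp [LinearMap.toMatrix_apply]

end Pool.Agent.H745.HV.PISO

namespace Pool.Agent.H745.HV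

open Pool.Agent.TH304.MI Pool.Agent.TH703.HU PISO

theorem iso : S_ISO := by
  intro L β hL hβ hb G P hG hGT hg4 hP hfld
  obtain ⟨g, hg⟩ : ∃ g : ℝ, g = volume.real G := ⟨_, rfl⟩
  rw [← hg] at hg4 ⊢
  have hg0 : 0 ≤ g := by rw [hg]; positivity
  have hD : 0 < L + 2 := by linarith
  have hbd : Bornology.IsBounded (TT L β) :=
    Metric.isBounded_iff.2 ⟨L + 2, fun x hx y hy => TT_dist hL hβ hb x hx y hy⟩
  have hGt : volume G ≠ ⊤ := ne_top_of_le_ne_top hbd.measure_lt_top.ne (measure_mono hGT)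
  have hge : volume G = ENNReal.ofReal g := by
    rw [hg, Measure.real, ENNReal.ofReal_toReal hGt]
  rcases hg0.eq_or_lt with hg1 | hg1
  · rw [← hg1, Real.sqrt_zero]
    positivity
  have hPLE : Pool.Agent.TH703.Cone.PLE (TT L β) G P := by
    intro φ hφ
    have h1 := hfld φ hφ.c1 hφ.cs hφ.sub hφ.le
    have h2 : ∫ x in G, Pool.Agent.TH703.Cone.dv φ x = ∫ x in G, dv2 φ x := by
      refine integral_congr_ae (Filter.Eventually.of_forall fun x => ?_)
      exact dv_eq φ x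
    rw [h2]
    exact h1
  have hpi := Real.pi_pos
  have hpi3 := Real.pi_gt_d2
  -- the radius
  obtain ⟨q, hq⟩ : ∃ q : ℝ, q = √(8 * g / π) := ⟨_, rfl⟩
  have hq0 : 0 ≤ q := by rw [hq]; exact Real.sqrt_nonneg _
  have hq2 : q ^ 2 = 8 * g / π := by rw [hq]; exact Real.sq_sqrt (by positivity)
  have hq1 : q ≤ 1 := by
    rw [hq]
    refine Real.sqrt_le_iff.2 ⟨by norm_num, ?_⟩
    rw [one_pow, div_le_one hpi]
    linarith
  have hb1 := Pool.Agent.TH993.HU.basic (TT_open L β) (TT_convex L β) hbd hG hGT hP hPLE hD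
    (TT_dist hL hβ hb) (TT_ball hL hβ) (ρ := (L + 2) * q) (by positivity)
    (by nlinarith)
  have e1 : ENNReal.ofReal (((L + 2) * q / (L + 2)) ^ (Module.finrank ℝ ℂ)) *
      volume (ball ((L / 2 : ℝ) : ℂ) (1 / 2)) = ENNReal.ofReal (2 * g) := by
    rw [mul_div_cancel_left₀ _ hD.ne', Complex.finrank_real_complex, Complex.volume_ball, hq2,
      ← ENNReal.ofReal_pow (by norm_num), ← ENNReal.ofReal_coe_nnreal,
      ← ENNReal.ofReal_mul (by positivity), ← ENNReal.ofReal_mul (by positivity)]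
    congr 1
    rw [NNReal.coe_real_pi]
    field_simp
    norm_num
  have e2 : volume (closedBall (0 : ℂ) ((L + 2) * q)) = ENNReal.ofReal (((L + 2) * q) ^ 2 * π) := by
    rw [Complex.volume_closedBall, ← ENNReal.ofReal_pow (by positivity),
      ← ENNReal.ofReal_coe_nnreal, ← ENNReal.ofReal_mul (by positivity), NNReal.coe_real_pi]
  rw [e1, e2, hge, ← ENNReal.ofReal_sub _ hg0, ← ENNReal.ofReal_mul (by linarith),
    ← ENNReal.ofReal_mul (by positivity), ENNReal.ofReal_le_ofReal_iff (by positivity)] at hb1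
  -- `g ^ 2 ≤ 8 D^3 g q P`
  have h3 : g * g ≤ g * (8 * (L + 2) ^ 3 * q * P) := by
    calc g * g = (2 * g - g) * g := by ring
      _ ≤ ((L + 2) * q) ^ 2 * π * ((L + 2) * q * P) := hb1
      _ = (q ^ 2 * π) * ((L + 2) ^ 3 * q * P) := by ring
      _ = g * (8 * (L + 2) ^ 3 * q * P) := by
        rw [hq2, div_mul_cancel₀ _ hpi.ne']
        ring
  have h4 : g ≤ 8 * (L + 2) ^ 3 * q * P := le_of_mul_le_mul_left h3 hg1
  have hs0 : 0 < √g := Real.sqrt_pos.2 hg1
  have h5 : q ≤ 13 / 8 * √g := by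
    rw [hq]
    refine Real.sqrt_le_iff.2 ⟨by positivity, ?_⟩
    rw [mul_pow, Real.sq_sqrt hg0, div_le_iff₀ hpi]
    nlinarith
  have h6 : √g * √g ≤ √g * (13 * (L + 2) ^ 3 * P) := by
    rw [Real.mul_self_sqrt hg0]
    refine h4.trans ?_
    have h7 : 8 * (L + 2) ^ 3 * q * P ≤ 8 * (L + 2) ^ 3 * (13 / 8 * √g) * P := by
      refine mul_le_mul_of_nonneg_right ?_ hP
      exact mul_le_mul_of_nonneg_left h5 (by positivity)
    refine h7.trans (le_of_eq ?_)
    ring
  exact le_of_mul_le_mul_left h6 hs0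

end Pool.Agent.H745.HV
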