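import Mathlib
import Pool.Agent.H745.HV.Stm

set_option autoImplicit false

/-!
# Project HV (helper745): the kernels concentrate (`S_KER`, by helper385)
-/

open MeasureTheory Set Metric Filter Topology
open scoped ENNReal Real

noncomputable section

namespace Pool.Agent.H745.HV.PKER

open Pool.Agent.H745.HV

/-- the profile -/
def gg (m : ℕ) (q : ℝ) : ℝ := (max 0 (1 - q ^ 2)) ^ m

theorem gg_cont (m : ℕ) : Continuous (gg m) := by unfold gg; fun_prop

theorem gg_nonneg (m : ℕ) (q : ℝ) : 0 ≤ gg m q := pow_nonneg (le_max_left _ _) _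

theorem gg_zero {m : ℕ} (hm : 1 ≤ m) {q : ℝ} (hq : 1 ≤ |q|) : gg m q = 0 := by
  have : 1 ≤ q ^ 2 := by rw [← sq_abs]; nlinarith
  unfold gg
  rw [max_eq_left (by linarith), zero_pow (by omega)]

theorem gg_eq {m : ℕ} {q : ℝ} (hq : |q| ≤ 1) : gg m q = (1 - q ^ 2) ^ m := by
  have : q ^ 2 ≤ 1 := by rw [← sq_abs]; nlinarith [abs_nonneg q]
  unfold gg
  rw [max_eq_right (by linarith)]

theorem gg_pos {m : ℕ} {q : ℝ} (hq : |q| < 1) : 0 < gg m q := by
  rw [gg_eq hq.le]
  have : q ^ 2 < 1 := by rw [← sq_abs]; nlinarith [abs_nonneg q]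
  exact pow_pos (by linarith) _

theorem gg_at_zero (m : ℕ) : gg m 0 = 1 := by simp [gg]

theorem gg_even (m : ℕ) (q : ℝ) : gg m (-q) = gg m q := by simp [gg]

theorem gg_anti (m : ℕ) {q r : ℝ} (h : |q| ≤ |r|) : gg m r ≤ gg m q := by
  have : q ^ 2 ≤ r ^ 2 := sq_le_sq.2 h
  unfold gg
  exact pow_le_pow_left₀ (le_max_left _ _) (max_le_max le_rfl (by linarith)) m

theorem gg_sub (m : ℕ) {a b : ℝ} (ha : 0 ≤ a) (hb : 0 ≤ b) :
    gg m (a + b) ≤ gg m a * gg m b := by
  unfold gg
  rw [← mul_pow]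
  refine pow_le_pow_left₀ (le_max_left _ _) ?_ m
  refine max_le (mul_nonneg (le_max_left _ _) (le_max_left _ _)) ?_
  rcases le_total 1 (a + b) with h | h
  · have : 1 - (a + b) ^ 2 ≤ 0 := by nlinarith
    exact this.trans (mul_nonneg (le_max_left _ _) (le_max_left _ _))
  · have h1 : 0 ≤ 1 - a ^ 2 := by nlinarith
    have h2 : 0 ≤ 1 - b ^ 2 := by nlinarith
    rw [max_eq_right h1, max_eq_right h2]
    nlinarith [mul_nonneg ha hb, sq_nonneg (a * b)]

theorem integral_gg {m : ℕ} (hm : 1 ≤ m) : ∫ q, gg m q = NN m := by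
  unfold NN
  rw [intervalIntegral.integral_of_le (by norm_num)]
  rw [← setIntegral_eq_integral_of_forall_compl_eq_zero (s := Ioc (-1) 1)]
  · refine setIntegral_congr_fun measurableSet_Ioc fun q hq => gg_eq (abs_le.2 ⟨hq.1.le, hq.2⟩)
  · intro q hq
    refine gg_zero hm ?_
    by_contra h
    push Not at h
    exact hq ⟨(abs_lt.1 h).1, (abs_lt.1 h).2.le⟩

/-- lower bound of the normalising constant -/
theorem NN_lower (m : ℕ) {d : ℝ} (hd0 : 0 ≤ d) (hd : d ≤ 1) : 2 * d * (1 - d ^ 2) ^ m ≤ NN m := by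
  have h1 : (∫ q in (-d)..d, (1 - q ^ 2) ^ m) ≤ NN m := by
    refine intervalIntegral.integral_mono_interval (by linarith) (by linarith) hd ?_ ?_
    · refine (ae_restrict_iff' measurableSet_Ioc).2 (Eventually.of_forall fun q hq => ?_)
      have : q ^ 2 ≤ 1 := by
        have := abs_le.2 ⟨hq.1.le, hq.2⟩
        rw [← sq_abs]; nlinarith [abs_nonneg q]
      exact pow_nonneg (by linarith) _
    · exact (by fun_prop : Continuous fun q : ℝ => (1 - q ^ 2) ^ m).intervalIntegrable _ _
  have h2 : (∫ _ in (-d)..d, (1 - d ^ 2) ^ m) ≤ ∫ q in (-d)..d, (1 - q ^ 2) ^ m := by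
    refine intervalIntegral.integral_mono_on (by linarith) (by simp) ?_ ?_
    · exact (by fun_prop : Continuous fun q : ℝ => (1 - q ^ 2) ^ m).intervalIntegrable _ _
    · intro q hq
      refine pow_le_pow_left₀ (by nlinarith) ?_ m
      have : |q| ≤ d := abs_le.2 ⟨hq.1, hq.2⟩
      have : q ^ 2 ≤ d ^ 2 := by rw [← sq_abs]; nlinarith [abs_nonneg q]
      linarith
  rw [intervalIntegral.integral_const, smul_eq_mul] at h2
  have e : (d - -d) * (1 - d ^ 2) ^ m = 2 * d * (1 - d ^ 2) ^ m := by ring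
  linarith

/-- upper bound of the normalising constant -/
theorem NN_upper {m : ℕ} (hm : 1 ≤ m) : NN m ≤ √(π / m) := by
  have hm0 : (0 : ℝ) < m := by exact_mod_cast hm
  rw [← integral_gg hm, ← integral_gaussian]
  refine integral_mono_of_nonneg (Eventually.of_forall fun q => gg_nonneg m q)
    (integrable_exp_neg_mul_sq hm0) (Eventually.of_forall fun q => ?_)
  have h1 : max 0 (1 - q ^ 2) ≤ Real.exp (-q ^ 2) := by
    refine max_le (Real.exp_pos _).le ?_
    have := Real.add_one_le_exp (-q ^ 2)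
    linarith
  have h2 : Real.exp (-(m : ℝ) * q ^ 2) = Real.exp (-q ^ 2) ^ m := by
    rw [← Real.exp_nat_mul]
    congr 1; ring
  show gg m q ≤ Real.exp (-(m : ℝ) * q ^ 2)
  rw [h2]
  exact pow_le_pow_left₀ (le_max_left _ _) h1 m

theorem kk_eq (H : ℝ) (m : ℕ) (s : ℝ) : kk H m s = gg m (s / H) / (H * NN m) := rfl

end Pool.Agent.H745.HV.PKER

namespace Pool.Agent.H745.HV

open PKER

theorem ker : S_KER := by
  intro H K δ hH hK hδ hδ2
  have hH0 : 0 < H := by linarith
  -- the ratio
  obtain ⟨d, hd⟩ : ∃ d, d = δ / (2 * H) := ⟨_, rfl⟩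
  have hd0 : 0 < d := by rw [hd]; positivity
  have hdH : δ / H = 2 * d := by rw [hd]; field_simp
  have hd4 : d ≤ 1 / 4 := by
    rw [hd, div_le_iff₀ (by positivity)]
    nlinarith
  have hd1 : 0 < 1 - d ^ 2 := by nlinarith
  have hd2 : 0 < 1 - (2 * d) ^ 2 := by nlinarith
  obtain ⟨ρ, hρ⟩ : ∃ ρ, ρ = (1 - (2 * d) ^ 2) / (1 - d ^ 2) := ⟨_, rfl⟩
  have hρ0 : 0 < ρ := by rw [hρ]; positivity
  have hρ1 : ρ < 1 := by
    rw [hρ, div_lt_one hd1]
    nlinarith
  obtain ⟨n₁, hn₁⟩ := exists_pow_lt_of_lt_one (show 0 < δ ^ 2 / (2 * H) by positivity) hρ1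
  obtain ⟨n₂, hn₂⟩ := exists_nat_ge (π * (K * H) ^ 2)
  refine ⟨max n₁ n₂, fun m hm hm1 => ?_⟩
  have hmn₁ : n₁ ≤ m := (le_max_left _ _).trans hm
  have hmn₂ : (n₂ : ℝ) ≤ m := by exact_mod_cast (le_max_right _ _).trans hm
  have hm0 : (0 : ℝ) < m := by exact_mod_cast hm1
  have hlow := NN_lower m hd0.le (by linarith)
  have hN : 0 < NN m := lt_of_lt_of_le (by positivity) hlow
  have hHN : 0 < H * NN m := by positivity
  -- the values far from zero
  have far : ∀ s, δ ≤ |s| → kk H m s ≤ δ / (2 * H) := by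
    intro s hs
    rw [kk_eq, div_le_iff₀ hHN]
    have h1 : gg m (s / H) ≤ gg m (2 * d) := by
      refine gg_anti m ?_
      rw [← hdH, abs_div, abs_div, abs_of_pos hδ, abs_of_pos hH0]
      exact div_le_div_of_nonneg_right hs hH0.le
    have h2 : gg m (2 * d) = ρ ^ m * (1 - d ^ 2) ^ m := by
      rw [gg_eq (by rw [abs_of_pos (by positivity)]; linarith), hρ, div_pow,
        div_mul_cancel₀ _ (by positivity)]
    have h3 : ρ ^ m ≤ δ ^ 2 / (2 * H) :=
      (pow_le_pow_of_le_one hρ0.le hρ1.le hmn₁).trans hn₁.le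
    have h4 : δ / (2 * H) * (H * (2 * d * (1 - d ^ 2) ^ m)) ≤ δ / (2 * H) * (H * NN m) := by
      gcongr
    have h5 : δ / (2 * H) * (H * (2 * d * (1 - d ^ 2) ^ m)) =
        δ ^ 2 / (2 * H) * (1 - d ^ 2) ^ m := by
      rw [hd]; field_simp
    calc gg m (s / H) ≤ ρ ^ m * (1 - d ^ 2) ^ m := h1.trans h2.le
      _ ≤ δ ^ 2 / (2 * H) * (1 - d ^ 2) ^ m := by gcongr
      _ ≤ _ := by rw [← h5]; exact h4
  have cont : Continuous (kk H m) := by
    have : kk H m = fun s => gg m (s / H) / (H * NN m) := rfl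
    rw [this]
    have := gg_cont m
    fun_prop
  have nn : ∀ s, 0 ≤ kk H m s := fun s => div_nonneg (gg_nonneg _ _) hHN.le
  have zero : ∀ s, H ≤ |s| → kk H m s = 0 := by
    intro s hs
    rw [kk_eq, gg_zero hm1 (by rw [abs_div, abs_of_pos hH0, one_le_div hH0]; exact hs), zero_div]
  refine ⟨hN, ⟨cont, ?_, nn, ?_, ?_, ?_, ?_, ?_, ?_, ?_⟩⟩
  · intro s
    rw [kk_eq, kk_eq, neg_div, gg_even]
  · intro s
    constructor
    · intro h
      by_contra hc
      push Not at hc
      rw [zero s hc] at h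
      exact lt_irrefl _ h
    · intro h
      rw [kk_eq]
      refine div_pos (gg_pos ?_) hHN
      rw [abs_div, abs_of_pos hH0, div_lt_one hH0]
      exact h
  · have : (fun s => kk H m s) = fun s => gg m (s / H) / (H * NN m) := rfl
    rw [this, integral_div, Measure.integral_comp_div, integral_gg hm1, abs_of_pos hH0,
      smul_eq_mul, div_self hHN.ne']
  · intro r s hr hrs
    rw [kk_eq, kk_eq]
    refine div_le_div_of_nonneg_right (gg_anti m ?_) hHN.le
    rw [abs_div, abs_div, abs_of_nonneg hr, abs_of_nonneg (hr.trans hrs)]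
    exact div_le_div_of_nonneg_right hrs (abs_nonneg _)
  · intro r u hr hu
    rw [kk_eq, kk_eq, kk_eq, kk_eq, zero_div, gg_at_zero, div_mul_div_comm, div_mul_div_comm,
      mul_one, add_div]
    exact div_le_div_of_nonneg_right (gg_sub m (by positivity) (by positivity)) (by positivity)
  · rw [kk_eq, zero_div, gg_at_zero, le_div_iff₀ hHN]
    have h1 := NN_upper hm1
    have h2 : √(π / m) ≤ 1 / (K * H) := by
      rw [Real.sqrt_le_left (by positivity), div_pow, one_pow, div_le_div_iff₀ hm0 (by positivity),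
        one_mul]
      linarith
    calc K * (H * NN m) = K * H * NN m := by ring
      _ ≤ K * H * (1 / (K * H)) := by
        have := h1.trans h2
        gcongr
      _ = 1 := by field_simp
  · have hS : MeasurableSet {s : ℝ | δ ≤ |s|} := measurableSet_le measurable_const
      (by fun_prop)
    have hint : Integrable (indicator (Icc (-H) H) fun _ : ℝ => δ / (2 * H)) :=
      (integrable_indicator_iff measurableSet_Icc).2 (by simp)
    calc ∫ s in {s : ℝ | δ ≤ |s|}, kk H m s
        ≤ ∫ s in {s : ℝ | δ ≤ |s|}, indicator (Icc (-H) H) (fun _ : ℝ => δ / (2 * H)) s := by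
          refine integral_mono_of_nonneg (Eventually.of_forall fun s => nn s) hint.integrableOn ?_
          refine (ae_restrict_iff' hS).2 (Eventually.of_forall fun s hs => ?_)
          by_cases h : s ∈ Icc (-H) H
          · rw [indicator_of_mem h]
            exact far s hs
          · rw [indicator_of_notMem h]
            refine (zero s ?_).le
            by_contra hc
            push Not at hc
            exact h ⟨(abs_lt.1 hc).1.le, (abs_lt.1 hc).2.le⟩
      _ ≤ ∫ s, indicator (Icc (-H) H) (fun _ : ℝ => δ / (2 * H)) s := by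
          refine setIntegral_le_integral hint (Eventually.of_forall fun s => ?_)
          exact indicator_nonneg (fun _ _ => by positivity) s
      _ = δ := by
          rw [integral_indicator measurableSet_Icc, setIntegral_const, Measure.real,
            Real.volume_Icc, ENNReal.toReal_ofReal (by linarith), smul_eq_mul]
          field_simp
          ring
  · intro s hs
    refine (far s (by linarith)).trans ?_
    rw [div_le_iff₀ (by positivity)]
    nlinarith

end Pool.Agent.H745.HV
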