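import Mathlib
import Pool.Agent.H745.HV.Stm

/-!
# Project HV (helper745), part LINES (helper553)
-/

set_option autoImplicit false

open MeasureTheory Set Metric Filter Topology
open scoped ENNReal Real

noncomputable section

namespace Pool.Agent.H745.HV.PLINES

open Pool.Agent.TH304.MI Pool.Agent.TH703.HU

theorem mk_cont : Continuous fun p : ℝ × ℝ => (⟨p.1, p.2⟩ : ℂ) := by
  have : (fun p : ℝ × ℝ => (⟨p.1, p.2⟩ : ℂ)) = fun p => (p.1 : ℂ) + (p.2 : ℂ) * Complex.I := by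
    funext p
    exact Complex.mk_eq_add_mul_I _ _
  rw [this]
  fun_prop

/-- the distance from the boundary of the rectangle -/
def dd (L δ : ℝ) (z : ℂ) : ℝ := min (min z.re (L - z.re)) (1 / 2 - δ - |z.im|)

theorem dd_cont (L δ : ℝ) : Continuous (dd L δ) := by
  unfold dd
  fun_prop

/-- the larger weight -/
def w0 (L κ δ : ℝ) (z : ℂ) : ℝ :=
  (1 - δ) * max 0 (1 - κ * z.re) * max 0 (min 1 (2 * dd L δ z / δ))

/-- the smaller weight -/
def uu (L κ δ : ℝ) (z : ℂ) : ℝ :=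
  (1 - δ) * max 0 (1 - κ * z.re) * max 0 (min 1 (2 * (dd L δ z - δ / 2) / δ))

theorem w0_cont (L κ δ : ℝ) : Continuous (w0 L κ δ) := by
  have := dd_cont L δ
  unfold w0
  fun_prop

theorem uu_cont (L κ δ : ℝ) : Continuous (uu L κ δ) := by
  have := dd_cont L δ
  unfold uu
  fun_prop

variable {L κ δ : ℝ}

theorem w0_nonneg (hδ1 : δ ≤ 1 / 100) (z : ℂ) : 0 ≤ w0 L κ δ z := by
  unfold w0
  have : 0 ≤ 1 - δ := by linarith
  positivity

theorem uu_nonneg (hδ1 : δ ≤ 1 / 100) (z : ℂ) : 0 ≤ uu L κ δ z := by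
  unfold uu
  have : 0 ≤ 1 - δ := by linarith
  positivity

theorem uu_le (hδ : 0 < δ) (hδ1 : δ ≤ 1 / 100) (z : ℂ) : uu L κ δ z ≤ w0 L κ δ z := by
  unfold uu w0
  have h1 : 0 ≤ 1 - δ := by linarith
  apply mul_le_mul_of_nonneg_left _ (by positivity)
  apply max_le_max le_rfl
  apply min_le_min le_rfl
  apply div_le_div_of_nonneg_right _ hδ.le
  linarith

theorem w0_zero (hδ : 0 < δ) {z : ℂ} (h : dd L δ z ≤ 0) : w0 L κ δ z = 0 := by
  unfold w0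
  have : min 1 (2 * dd L δ z / δ) ≤ 0 := (min_le_right _ _).trans
    (div_nonpos_of_nonpos_of_nonneg (by linarith) hδ.le)
  rw [max_eq_left this, mul_zero]

theorem dd_pos {z : ℂ} (h : 0 < dd L δ z) : 0 < z.re ∧ z.re < L ∧ |z.im| < 1 / 2 - δ := by
  unfold dd at h
  have h1 := lt_min_iff.mp h
  have h2 := lt_min_iff.mp h1.1
  exact ⟨h2.1, by linarith [h2.2], by linarith [h1.2]⟩

theorem w0_le (hκ : 0 < κ) (hκL : κ * L ≤ 1 / 4) (hδ : 0 < δ) (hδ1 : δ ≤ 1 / 100) {w : ℂ → ℝ}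
    (hw0 : ∀ z, 0 ≤ w z)
    (hw : ∀ z : ℂ, 0 < z.re → z.re < L → |z.im| ≤ 1 / 2 - δ → (1 - δ) * (1 - κ * z.re) ≤ w z)
    (z : ℂ) : w0 L κ δ z ≤ w z := by
  rcases le_or_gt (dd L δ z) 0 with h | h
  · rw [w0_zero hδ h]
    exact hw0 z
  · obtain ⟨h1, h2, h3⟩ := dd_pos h
    refine le_trans ?_ (hw z h1 h2 h3.le)
    have h4 : 0 ≤ 1 - κ * z.re := by
      have := mul_lt_mul_of_pos_left h2 hκ
      linarith
    unfold w0
    rw [max_eq_right h4]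
    have h5 : max 0 (min 1 (2 * dd L δ z / δ)) ≤ 1 := max_le zero_le_one (min_le_left _ _)
    have h6 : 0 ≤ (1 - δ) * (1 - κ * z.re) := mul_nonneg (by linarith) h4
    calc _ ≤ (1 - δ) * (1 - κ * z.re) * 1 := mul_le_mul_of_nonneg_left h5 h6
      _ = _ := mul_one _

theorem w0_pos (hκ : 0 < κ) (hκL : κ * L ≤ 1 / 4) (hδ : 0 < δ) (hδ1 : δ ≤ 1 / 100) {z : ℂ}
    (h : 0 < dd L δ z) : 0 < w0 L κ δ z := by
  obtain ⟨h1, h2, h3⟩ := dd_pos h
  have h4 : 0 < 1 - κ * z.re := by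
    have := mul_lt_mul_of_pos_left h2 hκ
    linarith
  unfold w0
  rw [max_eq_right h4.le]
  have h5 : 0 < max 0 (min 1 (2 * dd L δ z / δ)) :=
    lt_max_of_lt_right (lt_min one_pos (by positivity))
  exact mul_pos (mul_pos (by linarith) h4) h5

theorem uu_supp (hδ : 0 < δ) : Function.support (uu L κ δ) ⊆ {z | δ / 2 ≤ dd L δ z} := by
  intro z hz
  by_contra h
  have h' : dd L δ z < δ / 2 := not_le.mp h
  apply hz
  unfold uu
  have : min 1 (2 * (dd L δ z - δ / 2) / δ) ≤ 0 := (min_le_right _ _).trans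
    (div_nonpos_of_nonpos_of_nonneg (by linarith) hδ.le)
  rw [max_eq_left this, mul_zero]

theorem uu_tsupp (hδ : 0 < δ) : tsupport (uu L κ δ) ⊆ {z | δ / 2 ≤ dd L δ z} :=
  closure_minimal (uu_supp hδ) (isClosed_le continuous_const (dd_cont L δ))

theorem uu_cs (hδ : 0 < δ) : HasCompactSupport (uu L κ δ) := by
  apply HasCompactSupport.of_support_subset_isCompact (isCompact_closedBall (0 : ℂ) (|L| + 1))
  refine (uu_supp hδ).trans ?_
  intro z hz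
  have hz' : δ / 2 ≤ dd L δ z := hz
  obtain ⟨h1, h2, h3⟩ := dd_pos (z := z) (lt_of_lt_of_le (by positivity) hz')
  rw [mem_closedBall_zero_iff]
  have h4 := Complex.norm_le_abs_re_add_abs_im z
  have h5 : |z.re| ≤ |L| := by
    rw [abs_of_pos h1]
    exact h2.le.trans (le_abs_self L)
  linarith

theorem uu_val (hκ : 0 < κ) (hκL : κ * L ≤ 1 / 4) (hδ : 0 < δ) {z : ℂ}
    (h1 : 2 * δ ≤ z.re) (h2 : z.re ≤ L - 2 * δ) (h3 : |z.im| ≤ 1 / 2 - 2 * δ) :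
    uu L κ δ z = (1 - δ) * (1 - κ * z.re) := by
  have h4 : 0 ≤ 1 - κ * z.re := by
    have := mul_le_mul_of_nonneg_left h2 hκ.le
    nlinarith
  have h5 : δ ≤ dd L δ z := by
    unfold dd
    apply le_min (le_min _ _) <;> linarith
  have h6 : 1 ≤ 2 * (dd L δ z - δ / 2) / δ := by
    rw [le_div_iff₀ hδ]
    linarith
  unfold uu
  rw [max_eq_right h4, min_eq_left h6, max_eq_right zero_le_one, mul_one]

theorem PW_mono {w w' : ℂ → ℝ} {A : Set ℂ} {P : ℝ} (h : ∀ z, w' z ≤ w z) (hP : PW w A P) :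
    PW w' A P := by
  intro Y hY
  apply hP
  exact ⟨hY.cd, hY.cs, fun z hz => lt_of_lt_of_le (hY.sub hz) (h z), fun z => (hY.le z).trans (h z)⟩

theorem PW_nonneg {w : ℂ → ℝ} {A : Set ℂ} {P : ℝ} (h : ∀ z, 0 ≤ w z) (hP : PW w A P) :
    0 ≤ P := by
  have h1 : TW w (fun _ => 0) :=
    ⟨contDiff_const, HasCompactSupport.zero, by simp [tsupport], fun z => by simpa using h z⟩
  have h2 := hP _ h1
  have h3 : ∀ x, dv2 (fun _ : ℂ => (0 : ℂ)) x = 0 := by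
    intro x
    unfold dv2
    simp
  simp_rw [h3] at h2
  simpa using h2

/-- the sections -/
theorem meas_line (A : Set ℂ) (hA : MeasurableSet A) :
    MeasurableSet {p : ℝ × ℝ | (⟨p.1, p.2⟩ : ℂ) ∈ A} := mk_cont.measurable hA

theorem meas_SS (A : Set ℂ) (hA : MeasurableSet A) : MeasurableSet (SS L δ A) := by
  have h1 : MeasurableSet {p : ℝ × ℝ | |p.2| < 1 / 2 - 2 * δ ∧ (⟨p.1, p.2⟩ : ℂ) ∉ A} := by
    apply MeasurableSet.inter
    · exact measurableSet_lt (by fun_prop : Measurable fun p : ℝ × ℝ => |p.2|) measurable_const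
    · exact (meas_line A hA).compl
  have h2 := measurable_measure_prodMk_left (ν := (volume : Measure ℝ)) h1
  have h3 : SS L δ A = Ioo (2 * δ) (L - 2 * δ) ∩ {x | volume (Prod.mk x ⁻¹'
      {p : ℝ × ℝ | |p.2| < 1 / 2 - 2 * δ ∧ (⟨p.1, p.2⟩ : ℂ) ∉ A}) = 0} := by
    ext x
    simp only [SS, mem_ofPred_eq, mem_inter_iff, mem_Ioo, and_assoc]
    rfl
  rw [h3]
  exact measurableSet_Ioo.inter (h2 (measurableSet_singleton 0))

theorem NS_eq (A : Set ℂ) : NS L δ A = SS L δ Aᶜ := by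
  ext x
  simp only [SS, NS, mem_ofPred_eq, mem_compl_iff, not_not]

theorem meas_NS (A : Set ℂ) (hA : MeasurableSet A) : MeasurableSet (NS L δ A) := by
  rw [NS_eq]
  exact meas_SS Aᶜ hA.compl

/-- almost every horizontal line -/
theorem ae_SS (A : Set ℂ) (hA : MeasurableSet A) : ∀ᵐ y : ℝ, ∀ᵐ x : ℝ, x ∈ SS L δ A →
    |y| < 1 / 2 - 2 * δ → (⟨x, y⟩ : ℂ) ∈ A := by
  have h1 : MeasurableSet {p : ℝ × ℝ | p.1 ∈ SS L δ A → |p.2| < 1 / 2 - 2 * δ →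
      (⟨p.1, p.2⟩ : ℂ) ∈ A} := by
    have e1 : MeasurableSet {p : ℝ × ℝ | p.1 ∈ SS L δ A} := measurable_fst (meas_SS A hA)
    have e2 : MeasurableSet {p : ℝ × ℝ | |p.2| < 1 / 2 - 2 * δ} :=
      measurableSet_lt (by fun_prop : Measurable fun p : ℝ × ℝ => |p.2|) measurable_const
    have e3 := meas_line A hA
    have : {p : ℝ × ℝ | p.1 ∈ SS L δ A → |p.2| < 1 / 2 - 2 * δ → (⟨p.1, p.2⟩ : ℂ) ∈ A} =
        {p : ℝ × ℝ | p.1 ∈ SS L δ A}ᶜ ∪ ({p : ℝ × ℝ | |p.2| < 1 / 2 - 2 * δ}ᶜ ∪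
          {p : ℝ × ℝ | (⟨p.1, p.2⟩ : ℂ) ∈ A}) := by
      ext p
      simp only [mem_ofPred_eq, mem_union, mem_compl_iff]
      tauto
    rw [this]
    exact e1.compl.union (e2.compl.union e3)
  apply (Measure.ae_ae_comm h1).mp
  refine Eventually.of_forall ?_
  intro x
  by_cases hx : x ∈ SS L δ A
  · have h2 := hx.2.2
    rw [ae_iff]
    refine measure_mono_null ?_ h2
    intro y hy
    simp only [mem_ofPred_eq, Classical.not_imp] at hy
    exact ⟨hy.2.1, hy.2.2⟩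
  · exact Eventually.of_forall fun y h => absurd h hx

theorem pos_line {a b : ℝ} (A : Set ℂ) (hS : 0 < volume (SS L δ A ∩ Ioo a b)) {y : ℝ}
    (hy : |y| < 1 / 2 - 2 * δ) (h : ∀ᵐ x : ℝ, x ∈ SS L δ A → |y| < 1 / 2 - 2 * δ →
      (⟨x, y⟩ : ℂ) ∈ A) : 0 < volume ({t : ℝ | (⟨t, y⟩ : ℂ) ∈ A} ∩ Ioo a b) := by
  refine lt_of_lt_of_le hS (measure_mono_ae ?_)
  filter_upwards [h] with x hx hx'
  exact ⟨hx hx'.1 hy, hx'.2⟩

end Pool.Agent.H745.HV.PLINES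

namespace Pool.Agent.H745.HV

open Pool.Agent.TH304.MI Pool.Agent.TH703.HU PLINES

theorem lines (c2a : S_C2a) (c3 : Pool.Agent.TH703.HU.S_C3) : S_LINES := by
  intro L κ δ w A P hL hκ hκL hδ hδ1 hw0 hA hw hP
  have hP0 : 0 ≤ P := PW_nonneg hw0 hP
  have hwle := w0_le hκ hκL hδ hδ1 hw0 hw
  have key : ∀ α₁ α₂ : ℝ, 0 ≤ α₁ → 0 ≤ α₂ → α₁ ^ 2 + α₂ ^ 2 ≤ 1 → _ :=
    fun α₁ α₂ h1 h2 h3 => c2a (w0 L κ δ) (uu L κ δ) A P α₁ α₂ (w0_cont L κ δ) (w0_nonneg hδ1)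
      (uu_cont L κ δ) (uu_cs hδ) ((uu_tsupp hδ).trans fun z hz => w0_pos hκ hκL hδ hδ1
        (lt_of_lt_of_le (by positivity) hz)) (uu_nonneg hδ1) (uu_le hδ hδ1) hA (PW_mono hwle hP)
      h1 h2 h3
  have hmS := meas_SS (L := L) (δ := δ) A hA
  have hmN := meas_NS (L := L) (δ := δ) A hA
  set X := Ioo (2 * δ) (L - 2 * δ) \ (SS L δ A ∪ NS L δ A) with hX
  have hmX : MeasurableSet X := measurableSet_Ioo.diff (hmS.union hmN)
  have hXfin : volume X ≠ ∞ := ((measure_mono sdiff_subset).trans_lt measure_Ioo_lt_top).ne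
  have hc0 : 0 ≤ (1 - δ) * (1 - κ * L) := mul_nonneg (by linarith) (by linarith)
  -- the verticals
  have hvert : ENNReal.ofReal ((1 - δ) * (1 - κ * L) * volume.real X) ≤
      ∫⁻ x : ℝ, ev (fun t => uu L κ δ ⟨x, t⟩) {t | (⟨x, t⟩ : ℂ) ∈ A} := by
    have h1 : ∀ x ∈ X, ENNReal.ofReal ((1 - δ) * (1 - κ * L)) ≤
        ev (fun t => uu L κ δ ⟨x, t⟩) {t | (⟨x, t⟩ : ℂ) ∈ A} := by
      intro x hx
      obtain ⟨hx1, hx2⟩ := hx
      have hxS : x ∉ SS L δ A := fun h => hx2 (Or.inl h)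
      have hxN : x ∉ NS L δ A := fun h => hx2 (Or.inr h)
      have hS : volume {y : ℝ | |y| < 1 / 2 - 2 * δ ∧ (⟨x, y⟩ : ℂ) ∉ A} ≠ 0 :=
        fun h => hxS ⟨hx1.1, hx1.2, h⟩
      have hN : volume {y : ℝ | |y| < 1 / 2 - 2 * δ ∧ (⟨x, y⟩ : ℂ) ∈ A} ≠ 0 :=
        fun h => hxN ⟨hx1.1, hx1.2, h⟩
      refine (c3 (fun t => uu L κ δ ⟨x, t⟩) {t | (⟨x, t⟩ : ℂ) ∈ A} ?_ ?_ ?_).1
        (-(1 / 2 - 2 * δ)) (1 / 2 - 2 * δ) _ (by linarith) hc0 ?_ ?_ ?_
      · exact (uu_cont L κ δ).comp (mk_cont.comp (Continuous.prodMk_right x))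
      · exact fun t => uu_nonneg hδ1 _
      · exact (mk_cont.comp (Continuous.prodMk_right x)).measurable hA
      · intro t ht
        rw [uu_val hκ hκL hδ hx1.1.le hx1.2.le (abs_lt.mpr ht).le]
        apply mul_le_mul_of_nonneg_left _ (by linarith)
        have := mul_le_mul_of_nonneg_left (show x ≤ L by linarith [hx1.2]) hκ.le
        show 1 - κ * L ≤ 1 - κ * x
        linarith
      · refine lt_of_lt_of_le (pos_iff_ne_zero.mpr hN) (measure_mono ?_)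
        exact fun y hy => ⟨hy.2, abs_lt.mp hy.1⟩
      · refine lt_of_lt_of_le (pos_iff_ne_zero.mpr hS) (measure_mono ?_)
        exact fun y hy => ⟨abs_lt.mp hy.1, hy.2⟩
    calc ENNReal.ofReal ((1 - δ) * (1 - κ * L) * volume.real X) =
          ∫⁻ _ in X, ENNReal.ofReal ((1 - δ) * (1 - κ * L)) := by
          rw [setLIntegral_const, ENNReal.ofReal_mul hc0, Measure.real, ENNReal.ofReal_toReal hXfin]
      _ ≤ ∫⁻ x in X, ev (fun t => uu L κ δ ⟨x, t⟩) {t | (⟨x, t⟩ : ℂ) ∈ A} :=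
          setLIntegral_mono' hmX h1
      _ ≤ _ := setLIntegral_le_lintegral _ _
  -- the horizontals
  have haeS := ae_SS (L := L) (δ := δ) A hA
  have haeN := ae_SS (L := L) (δ := δ) Aᶜ hA.compl
  rw [← NS_eq] at haeN
  have hhor : ∀ c : ℝ, 0 ≤ c → (∀ᵐ y : ℝ, |y| < 1 / 2 - 2 * δ → ENNReal.ofReal c ≤
      ev (fun t => uu L κ δ ⟨t, y⟩) {t | (⟨t, y⟩ : ℂ) ∈ A}) →
      ENNReal.ofReal ((1 - 4 * δ) * c) ≤
        ∫⁻ y : ℝ, ev (fun t => uu L κ δ ⟨t, y⟩) {t | (⟨t, y⟩ : ℂ) ∈ A} := by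
    intro c hc h
    calc ENNReal.ofReal ((1 - 4 * δ) * c) =
          ∫⁻ _ in Ioo (-(1 / 2 - 2 * δ)) (1 / 2 - 2 * δ), ENNReal.ofReal c := by
          rw [setLIntegral_const, Real.volume_Ioo, mul_comm, ENNReal.ofReal_mul hc]
          congr 2
          ring
      _ ≤ ∫⁻ y in Ioo (-(1 / 2 - 2 * δ)) (1 / 2 - 2 * δ),
            ev (fun t => uu L κ δ ⟨t, y⟩) {t | (⟨t, y⟩ : ℂ) ∈ A} := by
          apply lintegral_mono_ae
          rw [ae_restrict_iff' measurableSet_Ioo]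
          filter_upwards [h] with y hy hy'
          exact hy (abs_lt.mpr hy')
      _ ≤ _ := setLIntegral_le_lintegral _ _
  have hcont : ∀ y : ℝ, Continuous fun t : ℝ => (⟨t, y⟩ : ℂ) := fun y =>
    mk_cont.comp (Continuous.prodMk_left y)
  have hnot : ∀ (y a b : ℝ), {t : ℝ | (⟨t, y⟩ : ℂ) ∈ Aᶜ} ∩ Ioo a b =
      Ioo a b \ {t : ℝ | (⟨t, y⟩ : ℂ) ∈ A} := by
    intro y a b
    ext t
    simp only [mem_inter_iff, Set.mem_sdiff, mem_ofPred_eq, mem_compl_iff]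
    tauto
  have hposN : ∀ (a b y : ℝ), 0 < volume (NS L δ A ∩ Ioo a b) → |y| < 1 / 2 - 2 * δ →
      (∀ᵐ x : ℝ, x ∈ NS L δ A → |y| < 1 / 2 - 2 * δ → (⟨x, y⟩ : ℂ) ∈ Aᶜ) →
      0 < volume (Ioo a b \ {t : ℝ | (⟨t, y⟩ : ℂ) ∈ A}) := by
    intro a b y h1 h2 h3
    rw [← hnot]
    rw [NS_eq] at h1 h3
    exact pos_line Aᶜ h1 h2 h3
  have hval : ∀ (a b y : ℝ), 2 * δ ≤ a → b ≤ L - 2 * δ → |y| < 1 / 2 - 2 * δ → ∀ t ∈ Ioo a b,
      (1 - δ) * (1 - κ * b) ≤ uu L κ δ ⟨t, y⟩ := by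
    intro a b y ha hb hy t ht
    rw [uu_val hκ hκL hδ (show 2 * δ ≤ t by linarith [ht.1]) (show t ≤ L - 2 * δ by
      linarith [ht.2]) hy.le]
    apply mul_le_mul_of_nonneg_left _ (by linarith)
    have := mul_le_mul_of_nonneg_left ht.2.le hκ.le
    show 1 - κ * b ≤ 1 - κ * t
    linarith
  have hbL : ∀ b : ℝ, b ≤ L - 2 * δ → (1 - δ) * (1 - κ * L) ≤ (1 - δ) * (1 - κ * b) := by
    intro b hb
    apply mul_le_mul_of_nonneg_left _ (by linarith)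
    have := mul_le_mul_of_nonneg_left (show b ≤ L by linarith) hκ.le
    linarith
  refine ⟨hmS, hmN, ?_, ?_, ?_⟩
  · have h1 := key 0 1 le_rfl zero_le_one (by norm_num)
    rw [ENNReal.ofReal_zero, zero_mul, zero_add, ENNReal.ofReal_one, one_mul] at h1
    exact (ENNReal.ofReal_le_ofReal_iff hP0).mp (hvert.trans h1)
  · intro a b ha hab hb hS hN α₁ α₂ h1 h2 h3
    have hcb : 0 ≤ (1 - δ) * (1 - κ * b) := hc0.trans (hbL b hb)
    have h4 := hhor ((1 - δ) * (1 - κ * b)) hcb (by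
      filter_upwards [haeS, haeN] with y hy1 hy2 hy
      exact (c3 (fun t => uu L κ δ ⟨t, y⟩) {t | (⟨t, y⟩ : ℂ) ∈ A} ((uu_cont L κ δ).comp (hcont y))
        (fun t => uu_nonneg hδ1 _) ((hcont y).measurable hA)).1 a b _ hab hcb
        (hval a b y ha hb hy) (pos_line A hS hy hy1) (hposN a b y hN hy hy2))
    have h5 := key α₁ α₂ h1 h2 h3
    apply (ENNReal.ofReal_le_ofReal_iff hP0).mp
    refine le_trans ?_ h5
    have h6 : 0 ≤ (1 - 4 * δ) * ((1 - δ) * (1 - κ * b)) := mul_nonneg (by linarith) hcb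
    have h7 : 0 ≤ (1 - δ) * (1 - κ * L) * volume.real X := mul_nonneg hc0 measureReal_nonneg
    rw [ENNReal.ofReal_add (mul_nonneg h1 h6) (mul_nonneg h2 h7), ENNReal.ofReal_mul h1,
      ENNReal.ofReal_mul h2]
    gcongr
  · intro a b a' b' ha hab hba' hab' hb' hS hN hS' hN'
    have h4 := hhor ((1 - δ) * (1 - κ * L) + (1 - δ) * (1 - κ * L)) (add_nonneg hc0 hc0) (by
      filter_upwards [haeS, haeN] with y hy1 hy2 hy
      exact (c3 (fun t => uu L κ δ ⟨t, y⟩) {t | (⟨t, y⟩ : ℂ) ∈ A} ((uu_cont L κ δ).comp (hcont y))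
        (fun t => uu_nonneg hδ1 _) ((hcont y).measurable hA)).2.1 a b a' b' _ _ hab hba' hab'
        hc0 hc0 (fun t ht => (hbL b (by linarith)).trans (hval a b y ha (by linarith) hy t ht))
        (fun t ht => (hbL b' hb').trans (hval a' b' y (by linarith) hb' hy t ht))
        (pos_line A hS hy hy1) (hposN a b y hN hy hy2) (pos_line A hS' hy hy1)
        (hposN a' b' y hN' hy hy2))
    have h5 := key 1 0 zero_le_one le_rfl (by norm_num)
    rw [ENNReal.ofReal_zero, zero_mul, add_zero, ENNReal.ofReal_one, one_mul] at h5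
    have h6 := (ENNReal.ofReal_le_ofReal_iff hP0).mp (h4.trans h5)
    linarith

end Pool.Agent.H745.HV
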