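import Mathlib
import Pool.Agent.H745.HV.Stm

/-!
# Project HV, task ORD: two sets on a line are ordered or interlaced
-/

set_option autoImplicit false

open MeasureTheory Set

namespace Pool.Agent.H745.HV.PORD

/-- the first point of a set of positive measure -/
lemma first (N : Set ℝ) {a b : ℝ} (hab : a < b) (h : 0 < volume (N ∩ Ioo a b)) :
    ∃ n : ℝ, a ≤ n ∧ n < b ∧ volume (N ∩ Ioo a n) = 0 ∧
      ∀ e : ℝ, n < e → 0 < volume (N ∩ Ioo n e) := by
  set Z : Set ℝ := {c | volume (N ∩ Ioo a c) = 0} with hZ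
  have haZ : a ∈ Z := by
    show volume (N ∩ Ioo a a) = 0
    rw [Ioo_self, inter_empty, measure_empty]
  have hbd : ∀ c ∈ Z, c ≤ b := by
    intro c hc
    by_contra hcb
    push Not at hcb
    have h1 : volume (N ∩ Ioo a b) ≤ volume (N ∩ Ioo a c) :=
      measure_mono (inter_subset_inter_right _ (Ioo_subset_Ioo_right hcb.le))
    rw [show volume (N ∩ Ioo a c) = 0 from hc] at h1
    exact absurd h (not_lt.2 h1)
  have hBA : BddAbove Z := ⟨b, hbd⟩
  obtain ⟨u, -, hu1, hu2⟩ := exists_seq_tendsto_sSup ⟨a, haZ⟩ hBA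
  set n : ℝ := sSup Z with hn
  have hnull : volume (N ∩ Ioo a n) = 0 := by
    refine measure_mono_null ?_ (measure_iUnion_null hu2)
    rintro x ⟨hxN, hxa, hxn⟩
    obtain ⟨k, hk⟩ := (hu1.eventually (lt_mem_nhds hxn)).exists
    exact mem_iUnion.2 ⟨k, hxN, hxa, hk⟩
  have han : a ≤ n := le_csSup hBA haZ
  have hnb : n ≤ b := csSup_le ⟨a, haZ⟩ hbd
  refine ⟨n, han, lt_of_le_of_ne hnb ?_, hnull, ?_⟩
  · intro h0
    rw [← h0, hnull] at h
    exact lt_irrefl _ h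
  · intro e he
    rw [pos_iff_ne_zero]
    intro h0
    have h1 : e ∈ Z := by
      show volume (N ∩ Ioo a e) = 0
      have h2 : N ∩ Ioo a e ⊆ (N ∩ Ioo a n) ∪ ({n} ∪ (N ∩ Ioo n e)) := by
        rintro x ⟨hxN, hxa, hxe⟩
        rcases lt_trichotomy x n with hx | hx | hx
        · exact Or.inl ⟨hxN, hxa, hx⟩
        · exact Or.inr (Or.inl hx)
        · exact Or.inr (Or.inr ⟨hxN, hx, hxe⟩)
      refine measure_mono_null h2 (measure_union_null hnull (measure_union_null ?_ h0))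
      exact Real.volume_singleton
    exact absurd (le_csSup hBA h1) (not_le.2 he)

/-- approximation from inside -/
lemma inner (S : Set ℝ) {p b : ℝ} (h : 0 < volume (S ∩ Ioo p b)) :
    ∃ c : ℝ, p < c ∧ c < b ∧ 0 < volume (S ∩ Ioo c b) := by
  by_contra hcon
  push Not at hcon
  apply h.ne'
  have h1 : S ∩ Ioo p b ⊆ ⋃ k : ℕ, S ∩ Ioo (p + 1 / ((k : ℝ) + 1)) b := by
    rintro x ⟨hxS, hxp, hxb⟩
    obtain ⟨k, hk⟩ := exists_nat_one_div_lt (sub_pos.2 hxp)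
    exact mem_iUnion.2 ⟨k, hxS, by linarith, hxb⟩
  refine measure_mono_null h1 (measure_iUnion_null fun k => ?_)
  by_cases hk : p + 1 / ((k : ℝ) + 1) < b
  · have h2 := hcon (p + 1 / ((k : ℝ) + 1)) (by linarith [Nat.one_div_pos_of_nat (α := ℝ) (n := k)]) hk
    exact le_antisymm h2 (zero_le)
  · rw [Ioo_eq_empty hk, inter_empty, measure_empty]

lemma mono_Ioo (S : Set ℝ) {a b c d : ℝ} (h1 : c ≤ a) (h2 : b ≤ d)
    (h : 0 < volume (S ∩ Ioo a b)) : 0 < volume (S ∩ Ioo c d) :=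
  h.trans_le (measure_mono (inter_subset_inter_right _ (Ioo_subset_Ioo h1 h2)))

/-- the case where `S` starts first -/
lemma half {S N : Set ℝ} {a b s n : ℝ} (has : a ≤ s) (hsn : s ≤ n) (hnb : n < b)
    (hN0 : volume (N ∩ Ioo a n) = 0) (hN : ∀ e : ℝ, n < e → 0 < volume (N ∩ Ioo n e))
    (hS : ∀ e : ℝ, s < e → 0 < volume (S ∩ Ioo s e)) :
    (∃ c : ℝ, a ≤ c ∧ c ≤ b ∧ volume (N ∩ Ioo a c) = 0 ∧ volume (S ∩ Ioo c b) = 0 ∧
      ∀ e : ℝ, c < e → e < b → 0 < volume (N ∩ Ioo c e)) ∨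
    (∃ c : ℝ, a < c ∧ c < b ∧ 0 < volume (S ∩ Ioo a c) ∧ 0 < volume (N ∩ Ioo a c) ∧
      0 < volume (S ∩ Ioo c b) ∧ 0 < volume (N ∩ Ioo c b)) := by
  by_cases h0 : volume (S ∩ Ioo n b) = 0
  · exact Or.inl ⟨n, has.trans hsn, hnb.le, hN0, h0, fun e he _ => hN e he⟩
  · right
    obtain ⟨c', hc', hcb', hS'⟩ := inner S (pos_iff_ne_zero.2 h0)
    obtain ⟨c, hc, hcc, hN'⟩ := inner N (hN c' hc')
    refine ⟨c, lt_of_le_of_lt (has.trans hsn) hc, hcc.trans hcb', ?_, ?_, ?_, ?_⟩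
    · exact mono_Ioo S has le_rfl (hS c (lt_of_le_of_lt hsn hc))
    · exact mono_Ioo N (has.trans hsn) le_rfl (hN c hc)
    · exact mono_Ioo S hcc.le le_rfl hS'
    · exact mono_Ioo N le_rfl hcb'.le hN'

end Pool.Agent.H745.HV.PORD

namespace Pool.Agent.H745.HV

open PORD

/-- **ORD** -/
theorem ord : S_ORD := by
  intro S N a b hab _ _ hS hN
  obtain ⟨n, han, hnb, hN0, hN1⟩ := first N hab hN
  obtain ⟨s, has, hsb, hS0, hS1⟩ := first S hab hS
  rcases le_total s n with hsn | hns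
  · rcases half has hsn hnb hN0 hN1 hS1 with h | h
    · exact Or.inl h
    · exact Or.inr (Or.inr h)
  · rcases half han hns hsb hS0 hS1 hN1 with h | ⟨c, h1, h2, h3, h4, h5, h6⟩
    · exact Or.inr (Or.inl h)
    · exact Or.inr (Or.inr ⟨c, h1, h2, h4, h3, h6, h5⟩)

end Pool.Agent.H745.HV
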