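import Mathlib
import Pool.Agent.H745.HV.Stm

/-! HV-OUT: the mass outside a rectangle. -/

set_option autoImplicit false

open MeasureTheory Set Metric Filter Topology
open scoped ENNReal Real

namespace Pool.Agent.H745.HV

open Pool.Agent.TH304.MI Pool.Agent.TH703.HU

namespace POUT

/-- the volume of an open rectangle -/
lemma vol_rect {a b c : ℝ} (hc : 0 < c) :
    volume.real {z : ℂ | a < z.re ∧ z.re < b ∧ |z.im| < c} = max (b - a) 0 * (2 * c) := by
  have h1 : {z : ℂ | a < z.re ∧ z.re < b ∧ |z.im| < c} =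
      Complex.measurableEquivRealProd ⁻¹' (Ioo a b ×ˢ Ioo (-c) c) := by
    ext z
    simp only [mem_ofPred_eq, mem_preimage, Complex.measurableEquivRealProd_apply, mem_prod,
      mem_Ioo, abs_lt, and_assoc]
  rw [measureReal_def, h1, Complex.volume_preserving_equiv_real_prod.measure_preimage
    (measurableSet_Ioo.prod measurableSet_Ioo).nullMeasurableSet, Measure.volume_eq_prod,
    Measure.prod_prod, Real.volume_Ioo, Real.volume_Ioo, ENNReal.toReal_mul,
    ENNReal.toReal_ofReal', ENNReal.toReal_ofReal (by linarith)]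
  ring

lemma mm_le {L κ : ℝ} (hL : 0 ≤ L) (hκ : 0 < κ) (hκ16 : κ ≤ 1 / 16) :
    MM κ (κ ^ 2) L ≤ L := by
  unfold MM
  have h1 : ∀ x ∈ Icc (0 : ℝ) L, rr κ (κ ^ 2) x ≤ 1 := by
    intro x hx
    unfold rr
    have h2 : 0 ≤ κ * x := mul_nonneg hκ.le hx.1
    have h3 : 0 ≤ κ * x * (1 - 2 * κ) := mul_nonneg h2 (by linarith)
    have h4 : 0 ≤ κ * (κ * x) ^ 2 := by positivity
    nlinarith
  have hc : Continuous (rr κ (κ ^ 2)) := by
    unfold rr
    fun_prop
  calc ∫ x in (0 : ℝ)..L, rr κ (κ ^ 2) x ≤ ∫ x in (0 : ℝ)..L, (1 : ℝ) :=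
        intervalIntegral.integral_mono_on hL (hc.intervalIntegrable _ _)
          (continuous_const.intervalIntegrable _ _) h1
    _ = L := by simp

end POUT

theorem out : S_OUT := by
  intro L κ w hL hκ hκL hκ16 hw0 _ hwi hwm hlow
  obtain ⟨p, hp⟩ : ∃ p, p = κ ^ 2 := ⟨_, rfl⟩
  have hp0 : 0 < p := by rw [hp]; positivity
  have hp1 : p ≤ 1 / 256 := by
    rw [hp]
    nlinarith
  rw [← hp] at hlow hwm ⊢
  obtain ⟨R, hR⟩ : ∃ R : Set ℂ, R = {z : ℂ | 2 * p < z.re ∧ z.re < L - 2 * p ∧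
      |z.im| < 1 / 2 - 2 * p} := ⟨_, rfl⟩
  rw [← hR]
  have hRo : IsOpen R := by
    rw [hR]
    exact (isOpen_lt continuous_const Complex.continuous_re).inter
      ((isOpen_lt Complex.continuous_re continuous_const).inter
        (isOpen_lt Complex.continuous_im.abs continuous_const))
  have hvol : volume.real R = (L - 4 * p) * (1 - 4 * p) := by
    rw [hR, POUT.vol_rect (by linarith), max_eq_left (by linarith)]
    ring
  have hfin : volume R ≠ ∞ := by
    intro h
    have h2 : volume.real R = 0 := by rw [measureReal_def, h, ENNReal.toReal_top]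
    rw [hvol] at h2
    have h3 : 0 < (L - 4 * p) * (1 - 4 * p) := mul_pos (by linarith) (by linarith)
    linarith
  have hk0 : 0 ≤ 1 - κ * L := by linarith
  have hRw : (1 - p) * (1 - κ * L) * ((L - 4 * p) * (1 - 4 * p)) ≤ ∫ z in R, w z := by
    rw [← hvol]
    refine setIntegral_ge_of_const_le_real hRo.measurableSet hfin ?_ hwi.integrableOn
    intro z hz
    rw [hR] at hz
    obtain ⟨z1, z2, z3⟩ := hz
    have h1 := hlow z (by linarith) (by linarith) (by linarith)
    refine le_trans ?_ h1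
    refine mul_le_mul_of_nonneg_left ?_ (by linarith)
    have : κ * z.re ≤ κ * L := mul_le_mul_of_nonneg_left (by linarith) hκ.le
    linarith
  have hmm : MM κ p L ≤ L := by
    rw [hp]
    exact POUT.mm_le (by linarith) hκ hκ16
  have hcompl : mu w Rᶜ = MM κ p L - ∫ z in R, w z := by
    unfold mu
    rw [setIntegral_compl hRo.measurableSet hwi, hwm]
  rw [hcompl]
  -- the estimate of the product
  have e1 : 1 - (p + κ * L) ≤ (1 - p) * (1 - κ * L) := by
    have : 0 ≤ p * (κ * L) := by positivity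
    nlinarith
  have e2 : L - (4 * p + 4 * p * L) ≤ (L - 4 * p) * (1 - 4 * p) := by nlinarith
  have e3 : 0 ≤ 1 - (p + κ * L) := by linarith
  have e4 : 0 ≤ L - (4 * p + 4 * p * L) := by nlinarith
  have e5 : (1 - (p + κ * L)) * (L - (4 * p + 4 * p * L)) ≤
      (1 - p) * (1 - κ * L) * ((L - 4 * p) * (1 - 4 * p)) :=
    mul_le_mul e1 e2 e4 (e3.trans e1)
  have e6 : L - (4 * p + 4 * p * L) - (p + κ * L) * L ≤
      (1 - (p + κ * L)) * (L - (4 * p + 4 * p * L)) := by
    have : 0 ≤ (p + κ * L) * (4 * p + 4 * p * L) := by positivity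
    nlinarith
  have e7 : 4 * p + 5 * p * L ≤ κ * L ^ 2 := by
    have h1 : p = κ * κ := by rw [hp]; ring
    have h2 : κ * (4 + 5 * L) ≤ L ^ 2 := by nlinarith
    have h3 : κ * (κ * (4 + 5 * L)) ≤ κ * L ^ 2 := mul_le_mul_of_nonneg_left h2 hκ.le
    rw [h1]
    linarith
  nlinarith

end Pool.Agent.H745.HV
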