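import Mathlib
import Pool.Agent.H745.HV.Stm

/-! # The planar theorem -/

set_option autoImplicit false

open MeasureTheory Set Metric Filter Topology
open scoped ENNReal Real

noncomputable section

namespace Pool.Agent.H745.HV

open Pool.Agent.TH304.MI Pool.Agent.TH703.HU

namespace PPLANE

lemma c2_ge {β : ℝ} (h0 : 0 < β) (h1 : β ≤ 1 / 8) :
    2 / 5 * β ≤ sg β / (cg β + β * sg β) := by
  unfold sg cg
  have hp : 0 < 1 + (β / 4) ^ 2 := by positivity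
  have hb : β ^ 2 ≤ 1 / 64 := by nlinarith
  have hden : 0 < (1 - (β / 4) ^ 2) + β * (2 * (β / 4)) := by nlinarith
  have e : 2 * (β / 4) / (1 + (β / 4) ^ 2) /
      ((1 - (β / 4) ^ 2) / (1 + (β / 4) ^ 2) + β * (2 * (β / 4) / (1 + (β / 4) ^ 2)))
      = 2 * (β / 4) / ((1 - (β / 4) ^ 2) + β * (2 * (β / 4))) := by
    rw [show (1 - (β / 4) ^ 2) / (1 + (β / 4) ^ 2) + β * (2 * (β / 4) / (1 + (β / 4) ^ 2))
      = ((1 - (β / 4) ^ 2) + β * (2 * (β / 4))) / (1 + (β / 4) ^ 2) by field_simp]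
    rw [div_div_div_cancel_right₀ hp.ne']
  rw [e, le_div_iff₀ hden]
  nlinarith

lemma ball_im {L H y : ℝ} (z : ℂ) (hz : z ∈ ball (⟨L / 2, y⟩ : ℂ) (2 * L)) (hy : |y| = H) :
    H - 2 * L ≤ |z.im| := by
  rw [mem_ball, Complex.dist_eq] at hz
  have h1 := Complex.abs_im_le_norm (z - ⟨L / 2, y⟩)
  have h2 : (z - ⟨L / 2, y⟩ : ℂ).im = z.im - y := by
    rw [Complex.sub_im]
  rw [h2] at h1
  have h3 := abs_sub_abs_le_abs_sub y z.im
  rw [abs_sub_comm] at h3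
  linarith

lemma UT_meas {L β H s : ℝ} (hD : IsOpen (DD L β H)) : MeasurableSet (UT L β H s) := by
  have e : UT L β H s = DD L β H ∩ ({z | aa β z.re ≤ |z.im|} ∩ {z | s < hh β z}) := by
    ext z
    rfl
  rw [e]
  refine hD.measurableSet.inter (MeasurableSet.inter ?_ ?_)
  · apply measurableSet_le
    · unfold aa
      fun_prop
    · fun_prop
  · apply measurableSet_lt
    · fun_prop
    · unfold hh aa
      fun_prop

end PPLANE

open PPLANE in
theorem plane (w0 : S_W0) (w1 : S_W1) (w2 : S_W2) (step1 : S_STEP1) (ext : S_EXT) : S_PLANE := by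
  intro L t Λ hL htL htL2 hΛt
  have hΛ : 0 < Λ := by
    by_contra hcon
    have h1 : Λ * (t - L / 2) ≤ 0 :=
      mul_nonpos_of_nonpos_of_nonneg (not_lt.mp hcon) (by linarith)
    linarith
  obtain ⟨κ₁, C₀, hκ₁, hC₀, hstep⟩ := step1 L t Λ hL htL htL2 hΛt
  obtain ⟨η, hη, hext⟩ := ext L t Λ hL (by linarith) htL2 hΛ
  have hm : 0 < min (1 / 4) η / C₀ := div_pos (lt_min (by norm_num) hη) hC₀
  refine ⟨min (min κ₁ (1 / (4 * L))) (min (1 / 16) ((min (1 / 4) η / C₀) ^ 2)),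
    lt_min (lt_min hκ₁ (by positivity)) (lt_min (by norm_num) (by positivity)), ?_⟩
  intro κ hκ hκle
  have hk1 : κ ≤ κ₁ := hκle.trans ((min_le_left _ _).trans (min_le_left _ _))
  have hk2 : κ ≤ 1 / (4 * L) := hκle.trans ((min_le_left _ _).trans (min_le_right _ _))
  have hk3 : κ ≤ 1 / 16 := hκle.trans ((min_le_right _ _).trans (min_le_left _ _))
  have hk4 : κ ≤ (min (1 / 4) η / C₀) ^ 2 :=
    hκle.trans ((min_le_right _ _).trans (min_le_right _ _))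
  have hκL : κ * L ≤ 1 / 4 := by
    rw [le_div_iff₀ (by positivity)] at hk2
    linarith
  have hsq : √κ ≤ min (1 / 4) η / C₀ := Real.sqrt_le_iff.mpr ⟨hm.le, hk4⟩
  have hCs : C₀ * √κ ≤ min (1 / 4) η := by
    rw [le_div_iff₀ hC₀] at hsq
    linarith
  have hCs1 : C₀ * √κ ≤ 1 / 4 := hCs.trans (min_le_left _ _)
  have hCs2 : C₀ * √κ ≤ η := hCs.trans (min_le_right _ _)
  have hβ0 : 0 < κ ^ 2 := by positivity
  have hβ1 : κ ^ 2 ≤ 1 / 256 := by nlinarith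
  have hβκ : 4 * κ ^ 2 ≤ κ := by nlinarith
  have hPar : Par L κ (κ ^ 2) := ⟨hL, hκ, hκL, hβ0, hβκ⟩
  refine ⟨hPar, ?_⟩
  have hH : 1 ≤ 8 * L / κ ^ 2 := by
    rw [le_div_iff₀ hβ0]
    linarith
  obtain ⟨K, hK, hE⟩ := hext κ (κ ^ 2) (8 * L / κ ^ 2) hPar (by linarith) hH
  refine ⟨8 * L / κ ^ 2, K, κ ^ 2, hH, hK, hβ0, by linarith, ?_⟩
  intro k hk A hA
  obtain ⟨a1, a2, a3, a4, a5, a6, a7, -⟩ :=
    w0 L κ (κ ^ 2) (8 * L / κ ^ 2) K (κ ^ 2) k hPar hH (by linarith) hβ0 hk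
  obtain ⟨b1, b2, b3⟩ :=
    w1 L κ (κ ^ 2) (8 * L / κ ^ 2) K (κ ^ 2) k hPar hH (by linarith) hβ0 hk
  obtain ⟨c1, -, -, -⟩ :=
    w2 L κ (κ ^ 2) (8 * L / κ ^ 2) K (κ ^ 2) k hPar hH hK hβ0 (by linarith) hk
  set w := ww L κ (κ ^ 2) k with hw
  have ht0 : 0 < t := by linarith
  have hmu : mu w {z | z.re < t} = MM κ (κ ^ 2) t := by
    have h1 := b1 0 t le_rfl ht0.le (by linarith)
    have h2 : MM κ (κ ^ 2) 0 = 0 := by
      unfold MM
      exact intervalIntegral.integral_same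
    rw [h2, sub_zero] at h1
    rw [← h1]
    unfold mu
    apply setIntegral_eq_of_subset_of_forall_sdiff_eq_zero
    · exact measurableSet_lt Complex.measurable_re measurable_const
    · intro z hz
      exact hz.2
    · intro z hz
      have hz1 : z.re < t := hz.1
      have hz2 : ¬ (0 < z.re) := fun h => hz.2 ⟨h, hz1⟩
      rw [hw]
      unfold ww
      rw [if_neg (fun h => hz2 h.1)]
  have hPW : PW w A (rr κ (κ ^ 2) t + Λ * (mu w A - MM κ (κ ^ 2) t)) := by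
    have := hA.min {z | z.re < t} (rr κ (κ ^ 2) t)
      (measurableSet_lt Complex.measurable_re measurable_const) hmu.le
      (b3 t ht0 (by linarith))
    rwa [hmu] at this
  have hS := hstep κ hκ hk1 w A a1 a2 a7 b2 (by
    intro z hz0 hzL hzi
    have haa : 1 / 2 ≤ aa (κ ^ 2) z.re := by
      unfold aa
      nlinarith [mul_nonneg hβ0.le hz0.le]
    exact c1 z ⟨hz0, hzL, by linarith⟩ (by linarith)) hA.meas hA.le hPW
  have hUB : mu w (A ∩ UB L (κ ^ 2) (t + 1 / 4)) ≤ η := by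
    refine le_trans ?_ (hS.trans hCs2)
    unfold mu
    apply setIntegral_mono_set a7.integrableOn
    · exact Eventually.of_forall (fun z => a1 z)
    · apply LE.le.eventuallyLE
      rintro z ⟨hz1, hz2⟩
      refine ⟨hz1, ?_⟩
      have : t + 1 / 4 < z.re := hz2.2
      show t + C₀ * √κ < z.re
      linarith
  obtain ⟨-, hUT⟩ := hE K (κ ^ 2) k le_rfl hβ0 (by linarith) hk _ A hA hUB
  have hUTm : MeasurableSet (UT L (κ ^ 2) (8 * L / κ ^ 2) (t + 1 / 2)) := UT_meas a4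
  have hvol : volume (A ∩ UT L (κ ^ 2) (8 * L / κ ^ 2) (t + 1 / 2)) = 0 := by
    unfold mu at hUT
    rw [setIntegral_eq_zero_iff_of_nonneg_ae (Eventually.of_forall (fun z => a1 z))
      a7.integrableOn] at hUT
    have hm2 := hA.meas.inter hUTm
    rw [Filter.EventuallyEq, ae_restrict_iff' hm2] at hUT
    refine measure_mono_null ?_ hUT
    intro z hz hcon
    have h1 : w z = 0 := hcon hz
    have h2 : z ∈ {z | 0 < w z} := by
      rw [a3]
      exact hz.2.1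
    have h3 : 0 < w z := h2
    linarith
  have key : ∀ y : ℝ, |y| = 8 * L / κ ^ 2 → ∀ z ∈ A ∩ DD L (κ ^ 2) (8 * L / κ ^ 2) ∩
      ball (⟨L / 2, y⟩ : ℂ) (2 * L), z ∈ A ∩ UT L (κ ^ 2) (8 * L / κ ^ 2) (t + 1 / 2) := by
    rintro y hy z ⟨⟨hzA, hzD⟩, hzb⟩
    have h1 := ball_im z hzb hy
    obtain ⟨hz0, hzL, hzH⟩ := hzD
    have hκ2L : κ ^ 2 * L ≤ 1 / 64 := by nlinarith
    have haa : aa (κ ^ 2) z.re ≤ 1 := by
      unfold aa
      have : κ ^ 2 * z.re ≤ κ ^ 2 * L := mul_le_mul_of_nonneg_left hzL.le hβ0.le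
      linarith
    have hHb : κ ^ 2 * (8 * L / κ ^ 2) = 8 * L := by
      field_simp
    have hHL : 2 * L + 1 ≤ 8 * L / κ ^ 2 := by
      rw [le_div_iff₀ hβ0]
      nlinarith
    refine ⟨hzA, ⟨hz0, hzL, hzH⟩, by linarith, ?_⟩
    have hc := c2_ge hβ0 (by linarith : κ ^ 2 ≤ 1 / 8)
    show t + 1 / 2 < z.re + sg (κ ^ 2) / (cg (κ ^ 2) + κ ^ 2 * sg (κ ^ 2)) *
      (|z.im| - aa (κ ^ 2) z.re)
    have h2 : 8 * L / κ ^ 2 - 2 * L - 1 ≤ |z.im| - aa (κ ^ 2) z.re := by linarith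
    have h3 : 2 / 5 * κ ^ 2 * (8 * L / κ ^ 2 - 2 * L - 1) ≤
        sg (κ ^ 2) / (cg (κ ^ 2) + κ ^ 2 * sg (κ ^ 2)) * (|z.im| - aa (κ ^ 2) z.re) :=
      mul_le_mul hc h2 (by linarith) (le_trans (by positivity) hc)
    have h4 : 2 / 5 * κ ^ 2 * (8 * L / κ ^ 2 - 2 * L - 1)
        = 2 / 5 * (8 * L - 2 * (κ ^ 2 * L) - κ ^ 2) := by
      linear_combination (2 / 5) * hHb
    linarith
  have hHpos : 0 < 8 * L / κ ^ 2 := by linarith
  constructor
  · exact measure_mono_null (key _ (abs_of_pos hHpos)) hvol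
  · exact measure_mono_null (key _ (by rw [abs_neg]; exact abs_of_pos hHpos)) hvol

end Pool.Agent.H745.HV
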