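import Mathlib
import Pool.Agent.H745.HV.Stm

set_option autoImplicit false

open MeasureTheory Set Metric Filter Topology
open scoped ENNReal Real

noncomputable section

namespace Pool.Agent.H745.HV

open Pool.Agent.TH304.MI Pool.Agent.TH703.HU

namespace PSTAR

lemma meas_UB (L β s : ℝ) : MeasurableSet (UB L β s) := by
  have h1 : Measurable fun z : ℂ => z.re := Complex.measurable_re
  have h2 : Measurable fun z : ℂ => |z.im| := (continuous_abs.comp Complex.continuous_im).measurable
  have h3 : Measurable fun z : ℂ => aa β z.re := by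
    unfold aa
    exact (h1.const_mul β).const_add _
  have e : UB L β s = (({z : ℂ | 0 < z.re} ∩ {z : ℂ | z.re < L}) ∩ {z : ℂ | |z.im| < aa β z.re}) ∩
      {z : ℂ | s < z.re} := by
    ext z
    unfold UB TT
    simp only [Set.mem_inter_iff, Set.mem_ofPred_eq]
    tauto
  rw [e]
  exact (((measurableSet_lt measurable_const h1).inter (measurableSet_lt h1 measurable_const)).inter
    (measurableSet_lt h2 h3)).inter (measurableSet_lt measurable_const h1)

lemma meas_UT (L β H s : ℝ) : MeasurableSet (UT L β H s) := by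
  have h1 : Measurable fun z : ℂ => z.re := Complex.measurable_re
  have h2 : Measurable fun z : ℂ => |z.im| := (continuous_abs.comp Complex.continuous_im).measurable
  have h3 : Measurable fun z : ℂ => aa β z.re := by
    unfold aa
    exact (h1.const_mul β).const_add _
  have h4 : Measurable fun z : ℂ => hh β z := by
    unfold hh
    exact h1.add ((h2.sub h3).const_mul _)
  have e : UT L β H s = (({z : ℂ | 0 < z.re} ∩ {z : ℂ | z.re < L}) ∩
      {z : ℂ | |z.im| < H + aa β z.re}) ∩ ({z : ℂ | aa β z.re ≤ |z.im|} ∩ {z : ℂ | s < hh β z}) := by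
    ext z
    unfold UT DD
    simp only [Set.mem_inter_iff, Set.mem_ofPred_eq]
    tauto
  rw [e]
  exact (((measurableSet_lt measurable_const h1).inter (measurableSet_lt h1 measurable_const)).inter
    (measurableSet_lt h2 (h3.const_add H))).inter
    ((measurableSet_le h3 h2).inter (measurableSet_lt measurable_const h4))

lemma disj (L β H s : ℝ) : Disjoint (UB L β s) (UT L β H s) := by
  rw [Set.disjoint_left]
  intro z h1 h2
  have a : |z.im| < aa β z.re := h1.1.2.2
  have b : aa β z.re ≤ |z.im| := h2.2.1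
  linarith

lemma dv2_zero (z : ℂ) : dv2 (fun _ => 0) z = 0 := by
  unfold dv2
  simp

lemma tw_zero {w : ℂ → ℝ} (hw : ∀ z, 0 ≤ w z) : TW w (fun _ => 0) where
  cd := contDiff_const
  cs := HasCompactSupport.zero
  sub := by
    have : tsupport (fun _ : ℂ => (0 : ℂ)) = ∅ := by
      rw [tsupport_eq_empty_iff]
      rfl
    rw [this]
    exact Set.empty_subset _
  le x := by
    rw [norm_zero]
    exact hw x

lemma pw_nonneg {w : ℂ → ℝ} (hw : ∀ z, 0 ≤ w z) {A : Set ℂ} {C : ℝ} (h : PW w A C) : 0 ≤ C := by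
  have := h _ (tw_zero hw)
  simpa only [dv2_zero, integral_zero] using this

/-- the least perimeter bound -/
lemma exists_least {w : ℂ → ℝ} (hw : ∀ z, 0 ≤ w z) {A : Set ℂ} (h : ∃ C, PW w A C) :
    ∃ C₀, PW w A C₀ ∧ ∀ C, PW w A C → C₀ ≤ C := by
  obtain ⟨C, hC⟩ := h
  have hb : BddBelow {C | PW w A C} := ⟨0, fun C hC => pw_nonneg hw hC⟩
  refine ⟨sInf {C | PW w A C}, ?_, fun C hC => csInf_le hb hC⟩
  intro Y hY
  exact le_csInf ⟨C, hC⟩ fun C' hC' => hC' Y hY

end PSTAR

open PSTAR

theorem star (w0 : S_W0) (cut : S_CUT) : S_STAR := by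
  obtain ⟨B, hB, hcut⟩ := cut
  refine ⟨B, hB, fun L κ β H Λ hP hβ hH hΛ => ?_⟩
  obtain ⟨K₁, hK₁, hc⟩ := hcut L κ β H Λ hP hβ hH hΛ
  refine ⟨K₁, hK₁, fun K δ k hK hδ hδ8 hk v A hA s d hs hsL hg Y hY => ?_⟩
  have hw0 := w0 L κ β H K δ k hP hH (by linarith) hδ hk
  have hw : ∀ z, 0 ≤ ww L κ β k z := hw0.1
  have hint : Integrable (ww L κ β k) := hw0.2.2.2.2.2.2.1
  set w := ww L κ β k with hwdef
  have hnn : ∀ S : Set ℂ, 0 ≤ mu w S := fun S => integral_nonneg hw
  have hUB := meas_UB L β s
  have hUT := meas_UT L β H s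
  have hv : 0 ≤ v := (hnn A).trans hA.le
  have hempty : PW w ∅ 0 := by
    intro Y _
    simp
  have hex : ∃ C, PW w A C := ⟨_, hA.min ∅ 0 MeasurableSet.empty (by
    unfold mu
    simpa using hv) hempty⟩
  obtain ⟨C₀, hC₀, hmin⟩ := exists_least hw hex
  have h1 := hc K δ k hK hδ hδ8 hk A C₀ hA.meas hC₀ s d hs hsL hg Y hY
  have hU : MeasurableSet (UB L β s ∪ UT L β H s) := hUB.union hUT
  have e1 : mu w A = mu w (A \ (UB L β s ∪ UT L β H s)) + mu w (A ∩ (UB L β s ∪ UT L β H s)) := by
    unfold mu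
    have := integral_inter_add_sdiff (μ := volume) (f := w) (s := A) hU hint.integrableOn
    linarith
  have e2 : mu w (A ∩ (UB L β s ∪ UT L β H s)) = mu w (A ∩ UB L β s) + mu w (A ∩ UT L β H s) := by
    unfold mu
    rw [Set.inter_union_distrib_left]
    exact setIntegral_union ((disj L β H s).mono Set.inter_subset_right Set.inter_subset_right)
      (hA.meas.inter hUT) hint.integrableOn hint.integrableOn
  have h2 := hA.min (A \ (UB L β s ∪ UT L β H s)) _ (hA.meas.diff hU)
    (by have := hnn (A ∩ (UB L β s ∪ UT L β H s)); linarith [hA.le]) h1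
  have h3 := hmin _ h2
  have h4 : mu w A - mu w (A \ (UB L β s ∪ UT L β H s)) =
      mu w (A ∩ UB L β s) + mu w (A ∩ UT L β H s) := by linarith
  rw [h4] at h3
  linarith

end Pool.Agent.H745.HV
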