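import Mathlib
import Pool.Agent.H745.HV.Stm

/-! # HV-STEP1: minimizers are close to a strip -/

set_option autoImplicit false

open MeasureTheory Set Metric Filter Topology
open scoped ENNReal Real

namespace Pool.Agent.H745.HV

open Pool.Agent.TH304.MI Pool.Agent.TH703.HU

namespace PSTEP1

/-- areas by vertical slices -/
theorem vol_slices (E : Set ℂ) (hE : MeasurableSet E) :
    volume E = ∫⁻ x : ℝ, volume {y : ℝ | (⟨x, y⟩ : ℂ) ∈ E} := by
  have h1 := Complex.volume_preserving_equiv_real_prod.symm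
  rw [← h1.measure_preimage hE.nullMeasurableSet, Measure.volume_eq_prod,
    Measure.prod_apply (h1.measurable hE)]
  rfl

/-- the rectangle -/
def Rc (L δ : ℝ) : Set ℂ := {z | 2 * δ < z.re ∧ z.re < L - 2 * δ ∧ |z.im| < 1 / 2 - 2 * δ}

theorem mRc (L δ : ℝ) : MeasurableSet (Rc L δ) := by
  have h1 : Measurable fun z : ℂ => z.re := Complex.measurable_re
  have h2 : Measurable fun z : ℂ => |z.im| := Complex.measurable_im.abs
  exact (measurableSet_lt measurable_const h1).inter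
    ((measurableSet_lt h1 measurable_const).inter (measurableSet_lt h2 measurable_const))

theorem mre {Y : Set ℝ} (hY : MeasurableSet Y) : MeasurableSet {z : ℂ | z.re ∈ Y} :=
  Complex.measurable_re hY

theorem vol_strip (L δ : ℝ) {Y : Set ℝ} (hY : MeasurableSet Y)
    (hYI : Y ⊆ Ioo (2 * δ) (L - 2 * δ)) :
    volume (Rc L δ ∩ {z : ℂ | z.re ∈ Y}) = ENNReal.ofReal (1 - 4 * δ) * volume Y := by
  rw [vol_slices _ ((mRc L δ).inter (mre hY))]
  have h1 : ∀ x : ℝ, volume {y : ℝ | (⟨x, y⟩ : ℂ) ∈ Rc L δ ∩ {z : ℂ | z.re ∈ Y}} =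
      Y.indicator (fun _ => ENNReal.ofReal (1 - 4 * δ)) x := by
    intro x
    by_cases hx : x ∈ Y
    · rw [indicator_of_mem hx]
      have h2 : {y : ℝ | (⟨x, y⟩ : ℂ) ∈ Rc L δ ∩ {z : ℂ | z.re ∈ Y}} =
          Ioo (-(1 / 2 - 2 * δ)) (1 / 2 - 2 * δ) := by
        ext y
        constructor
        · rintro ⟨⟨_, _, h3⟩, _⟩
          exact abs_lt.1 h3
        · intro h3
          exact ⟨⟨(hYI hx).1, (hYI hx).2, abs_lt.2 h3⟩, hx⟩
      rw [h2, Real.volume_Ioo]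
      congr 1
      ring
    · rw [indicator_of_notMem hx]
      have h2 : {y : ℝ | (⟨x, y⟩ : ℂ) ∈ Rc L δ ∩ {z : ℂ | z.re ∈ Y}} = ∅ := by
        ext y
        constructor
        · rintro ⟨_, h3⟩
          exact hx h3
        · intro h3
          exact absurd h3 (notMem_empty y)
      rw [h2, measure_empty]
  simp_rw [h1]
  rw [lintegral_indicator_const hY]

theorem null_strip (L δ : ℝ) {E : Set ℂ} (hE : MeasurableSet E) {Y : Set ℝ}
    (hY : MeasurableSet Y)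
    (h : ∀ x ∈ Y, volume {y : ℝ | |y| < 1 / 2 - 2 * δ ∧ (⟨x, y⟩ : ℂ) ∈ E} = 0) :
    volume (E ∩ (Rc L δ ∩ {z : ℂ | z.re ∈ Y})) = 0 := by
  rw [vol_slices _ (hE.inter ((mRc L δ).inter (mre hY)))]
  have h1 : ∀ x : ℝ, volume {y : ℝ | (⟨x, y⟩ : ℂ) ∈ E ∩ (Rc L δ ∩ {z : ℂ | z.re ∈ Y})} = 0 := by
    intro x
    by_cases hx : x ∈ Y
    · refine measure_mono_null ?_ (h x hx)
      rintro y ⟨h2, ⟨_, _, h3⟩, _⟩
      exact ⟨h3, h2⟩
    · have h2 : {y : ℝ | (⟨x, y⟩ : ℂ) ∈ E ∩ (Rc L δ ∩ {z : ℂ | z.re ∈ Y})} = ∅ := by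
        ext y
        constructor
        · rintro ⟨_, _, h3⟩
          exact hx h3
        · intro h3
          exact absurd h3 (notMem_empty y)
      rw [h2, measure_empty]
  simp_rw [h1]
  exact lintegral_zero

/-! ### masses -/

theorem rr_le {κ x : ℝ} (hκ : 0 < κ) (_hx : 0 ≤ x) :
    rr κ (κ ^ 2) x ≤ 1 - κ * x + 2 * κ ^ 2 * x := by
  unfold rr
  have : 0 ≤ κ ^ 3 * x ^ 2 := by positivity
  nlinarith

theorem rr_le_one {κ x : ℝ} (hκ : 0 < κ) (hκ1 : κ ≤ 1 / 2) (hx : 0 ≤ x) :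
    rr κ (κ ^ 2) x ≤ 1 := by
  refine (rr_le hκ hx).trans ?_
  have : 0 ≤ κ * x := by positivity
  nlinarith

theorem le_rr {κ x : ℝ} (hκ : 0 < κ) (hx : 0 ≤ x) (hx1 : κ * x ≤ 1) :
    1 - κ * x ≤ rr κ (κ ^ 2) x := by
  unfold rr
  have h1 : 0 ≤ 2 * κ ^ 2 * x := by positivity
  nlinarith

theorem rr_cont (κ β : ℝ) : Continuous (rr κ β) := by
  unfold rr
  fun_prop

theorem MM_le {κ t : ℝ} (hκ : 0 < κ) (hκ1 : κ ≤ 1 / 2) (ht : 0 ≤ t) : MM κ (κ ^ 2) t ≤ t := by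
  unfold MM
  have h1 : ∫ x in (0 : ℝ)..t, rr κ (κ ^ 2) x ≤ ∫ _ in (0 : ℝ)..t, (1 : ℝ) := by
    refine intervalIntegral.integral_mono_on ht ((rr_cont _ _).intervalIntegrable _ _)
      (continuous_const.intervalIntegrable _ _) ?_
    intro x hx
    exact rr_le_one hκ hκ1 hx.1
  refine h1.trans ?_
  rw [intervalIntegral.integral_const]
  simp

theorem le_MM {κ t : ℝ} (hκ : 0 < κ) (ht : 0 ≤ t) (ht1 : κ * t ≤ 1) :
    t - κ * t ^ 2 / 2 ≤ MM κ (κ ^ 2) t := by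
  unfold MM
  have h1 : ∫ x in (0 : ℝ)..t, (1 - κ * x) ≤ ∫ x in (0 : ℝ)..t, rr κ (κ ^ 2) x := by
    refine intervalIntegral.integral_mono_on ht
      (Continuous.intervalIntegrable (by fun_prop) _ _) ((rr_cont _ _).intervalIntegrable _ _) ?_
    intro x hx
    refine le_rr hκ hx.1 (le_trans ?_ ht1)
    exact mul_le_mul_of_nonneg_left hx.2 hκ.le
  refine le_trans (le_of_eq ?_) h1
  rw [intervalIntegral.integral_sub (continuous_const.intervalIntegrable _ _)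
    (Continuous.intervalIntegrable (by fun_prop) _ _), intervalIntegral.integral_const_mul,
    integral_id, intervalIntegral.integral_const]
  simp
  ring

theorem MM_sub {κ t L : ℝ} (hκ : 0 < κ) (ht : 0 ≤ t) (htL : t ≤ L) (hL1 : κ * L ≤ 1) :
    (L - t) * (1 - κ * L) ≤ MM κ (κ ^ 2) L - MM κ (κ ^ 2) t := by
  unfold MM
  rw [intervalIntegral.integral_interval_sub_left ((rr_cont _ _).intervalIntegrable _ _)
    ((rr_cont _ _).intervalIntegrable _ _)]
  have h1 : ∫ _ in t..L, (1 - κ * L) ≤ ∫ x in t..L, rr κ (κ ^ 2) x := by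
    refine intervalIntegral.integral_mono_on htL
      (Continuous.intervalIntegrable (by fun_prop) _ _) ((rr_cont _ _).intervalIntegrable _ _) ?_
    intro x hx
    have hx0 : 0 ≤ x := ht.trans hx.1
    have h2 : κ * x ≤ κ * L := mul_le_mul_of_nonneg_left hx.2 hκ.le
    have h3 := le_rr hκ hx0 (h2.trans hL1)
    linarith
  refine le_trans (le_of_eq ?_) h1
  rw [intervalIntegral.integral_const, smul_eq_mul]

/-- the measure with density `w` -/
noncomputable def nu (w : ℂ → ℝ) : Measure ℂ := volume.withDensity fun z => ENNReal.ofReal (w z)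

theorem nu_le (w : ℂ → ℝ) (hw1 : ∀ z, w z ≤ 1) {E : Set ℂ} (hE : MeasurableSet E) :
    nu w E ≤ volume E := by
  unfold nu
  rw [withDensity_apply _ hE]
  calc ∫⁻ z in E, ENNReal.ofReal (w z) ≤ ∫⁻ _ in E, 1 := by
        refine lintegral_mono fun z => ?_
        rw [← ENNReal.ofReal_one]
        exact ENNReal.ofReal_le_ofReal (hw1 z)
    _ = volume E := by simp

theorem nu_null (w : ℂ → ℝ) {E : Set ℂ} (hE : volume E = 0) : nu w E = 0 :=
  withDensity_absolutelyContinuous _ _ hE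

theorem nu_fin {w : ℂ → ℝ} (hw : Integrable w) : IsFiniteMeasure (nu w) := by
  unfold nu
  exact isFiniteMeasure_withDensity_ofReal hw.2

theorem mu_eq {w : ℂ → ℝ} (hw0 : ∀ z, 0 ≤ w z) (hw : Integrable w) {E : Set ℂ}
    (hE : MeasurableSet E) : mu w E = (nu w).real E := by
  unfold mu nu
  rw [Measure.real, withDensity_apply _ hE,
    ← ofReal_integral_eq_lintegral_ofReal hw.integrableOn (Eventually.of_forall hw0),
    ENNReal.toReal_ofReal (setIntegral_nonneg hE fun z _ => hw0 z)]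

theorem real_le (w : ℂ → ℝ) (hw1 : ∀ z, w z ≤ 1) {E : Set ℂ} (hE : MeasurableSet E) {a : ℝ}
    (ha : 0 ≤ a) (h : volume E ≤ ENNReal.ofReal a) : (nu w).real E ≤ a := by
  rw [Measure.real]
  refine ENNReal.toReal_le_of_le_ofReal ha ((nu_le w hw1 hE).trans h)

theorem strip_le (w : ℂ → ℝ) (hw1 : ∀ z, w z ≤ 1) (L δ : ℝ) (hδ : 0 < δ) {Y : Set ℝ}
    (hY : MeasurableSet Y) (hYI : Y ⊆ Ioo (2 * δ) (L - 2 * δ)) :
    (nu w).real (Rc L δ ∩ {z : ℂ | z.re ∈ Y}) ≤ volume.real Y := by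
  have hfin : volume Y ≠ ∞ := by
    refine ((measure_mono hYI).trans_lt ?_).ne
    rw [Real.volume_Ioo]
    exact ENNReal.ofReal_lt_top
  refine real_le w hw1 ((mRc L δ).inter (mre hY)) measureReal_nonneg ?_
  rw [vol_strip L δ hY hYI, ofReal_measureReal hfin]
  calc ENNReal.ofReal (1 - 4 * δ) * volume Y ≤ 1 * volume Y := by
        gcongr
        rw [← ENNReal.ofReal_one]
        exact ENNReal.ofReal_le_ofReal (by linarith)
    _ = volume Y := one_mul _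

theorem strip_ge (w : ℂ → ℝ) (hw : Integrable w) (L δ c : ℝ) (hδ1 : δ ≤ 1 / 100) (hc : 0 ≤ c)
    (hwc : ∀ z ∈ Rc L δ, c ≤ w z) {Y : Set ℝ}
    (hY : MeasurableSet Y) (hYI : Y ⊆ Ioo (2 * δ) (L - 2 * δ)) :
    c * ((1 - 4 * δ) * volume.real Y) ≤ (nu w).real (Rc L δ ∩ {z : ℂ | z.re ∈ Y}) := by
  have := nu_fin hw
  have hfin : volume Y ≠ ∞ := by
    refine ((measure_mono hYI).trans_lt ?_).ne
    rw [Real.volume_Ioo]
    exact ENNReal.ofReal_lt_top
  rw [Measure.real, Measure.real]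
  refine (ENNReal.ofReal_le_iff_le_toReal (measure_ne_top _ _)).1 ?_
  have hm : MeasurableSet (Rc L δ ∩ {z : ℂ | z.re ∈ Y}) := (mRc L δ).inter (mre hY)
  unfold nu
  rw [withDensity_apply _ hm]
  calc ENNReal.ofReal (c * ((1 - 4 * δ) * (volume Y).toReal))
      = ENNReal.ofReal c * (ENNReal.ofReal (1 - 4 * δ) * volume Y) := by
        rw [ENNReal.ofReal_mul hc, ENNReal.ofReal_mul (by linarith), ENNReal.ofReal_toReal hfin]
    _ = ∫⁻ _ in Rc L δ ∩ {z : ℂ | z.re ∈ Y}, ENNReal.ofReal c := by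
        rw [← vol_strip L δ hY hYI, setLIntegral_const]
    _ ≤ ∫⁻ z in Rc L δ ∩ {z : ℂ | z.re ∈ Y}, ENNReal.ofReal (w z) := by
        refine setLIntegral_mono' hm ?_
        intro z hz
        exact ENNReal.ofReal_le_ofReal (hwc z hz.1)

/-- the masses in terms of the lengths -/
theorem masses (L κ δ : ℝ) (w : ℂ → ℝ) (A : Set ℂ) (m : ℝ) (hδ : 0 < δ) (hδ1 : δ ≤ 1 / 100)
    (hκ : 0 < κ) (hκL : κ * L ≤ 1) (hw0 : ∀ z, 0 ≤ w z) (hw1 : ∀ z, w z ≤ 1) (hw : Integrable w)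
    (hwR : ∀ z : ℂ, 0 < z.re → z.re < L → |z.im| ≤ 1 / 2 - δ → (1 - δ) * (1 - κ * z.re) ≤ w z)
    (hA : MeasurableSet A) (hm : mu w (Rc L δ)ᶜ ≤ m) (hSm : MeasurableSet (SS L δ A))
    (hNm : MeasurableSet (NS L δ A)) :
    mu w A ≤ volume.real (SS L δ A) +
      volume.real (Ioo (2 * δ) (L - 2 * δ) \ (SS L δ A ∪ NS L δ A)) + m ∧
    (∫ z, w z) - mu w A ≤ volume.real (NS L δ A) +
      volume.real (Ioo (2 * δ) (L - 2 * δ) \ (SS L δ A ∪ NS L δ A)) + m ∧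
    (1 - δ) * (1 - κ * L) * ((1 - 4 * δ) * volume.real (SS L δ A)) ≤ mu w A ∧
    ∀ c s : ℝ, c ≤ s → volume (SS L δ A ∩ Ioo c (L - 2 * δ)) = 0 →
      mu w (A ∩ {z | s < z.re}) ≤
        volume.real (Ioo (2 * δ) (L - 2 * δ) \ (SS L δ A ∪ NS L δ A)) + m := by
  have hfin := nu_fin hw
  set S := SS L δ A with hS
  set N := NS L δ A with hN
  set X := Ioo (2 * δ) (L - 2 * δ) \ (S ∪ N) with hX
  have hXm : MeasurableSet X := measurableSet_Ioo.diff (hSm.union hNm)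
  have hSI : S ⊆ Ioo (2 * δ) (L - 2 * δ) := fun x hx => ⟨hx.1, hx.2.1⟩
  have hNI : N ⊆ Ioo (2 * δ) (L - 2 * δ) := fun x hx => ⟨hx.1, hx.2.1⟩
  have hXI : X ⊆ Ioo (2 * δ) (L - 2 * δ) := sdiff_subset
  have hmR : (nu w).real (Rc L δ)ᶜ ≤ m := by
    rw [← mu_eq hw0 hw (mRc L δ).compl]
    exact hm
  have hXle := strip_le w hw1 L δ hδ hXm hXI
  have hSle := strip_le w hw1 L δ hδ hSm hSI
  have hNle := strip_le w hw1 L δ hδ hNm hNI
  have hAN : (nu w).real (A ∩ (Rc L δ ∩ {z : ℂ | z.re ∈ N})) = 0 := by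
    rw [Measure.real, nu_null w (null_strip L δ hA hNm fun x hx => hx.2.2), ENNReal.toReal_zero]
  have hAS : (nu w).real (Aᶜ ∩ (Rc L δ ∩ {z : ℂ | z.re ∈ S})) = 0 := by
    rw [Measure.real, nu_null w (null_strip L δ hA.compl hSm fun x hx => hx.2.2),
      ENNReal.toReal_zero]
  -- decomposition of the plane
  have hdec : ∀ z : ℂ, z ∈ (Rc L δ)ᶜ ∨ z ∈ Rc L δ ∩ {z : ℂ | z.re ∈ S} ∨
      z ∈ Rc L δ ∩ {z : ℂ | z.re ∈ X} ∨ z ∈ Rc L δ ∩ {z : ℂ | z.re ∈ N} := by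
    intro z
    by_cases h1 : z ∈ Rc L δ
    · by_cases h2 : z.re ∈ S
      · exact Or.inr (Or.inl ⟨h1, h2⟩)
      · by_cases h3 : z.re ∈ N
        · exact Or.inr (Or.inr (Or.inr ⟨h1, h3⟩))
        · refine Or.inr (Or.inr (Or.inl ⟨h1, ⟨h1.1, h1.2.1⟩, ?_⟩))
          rintro (h4 | h4)
          · exact h2 h4
          · exact h3 h4
    · exact Or.inl h1
  have hmono : ∀ E E' : Set ℂ, E ⊆ E' → (nu w).real E ≤ (nu w).real E' := fun E E' h =>
    measureReal_mono h (measure_ne_top _ _)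
  refine ⟨?_, ?_, ?_, ?_⟩
  · rw [mu_eq hw0 hw hA]
    have h1 : A ⊆ ((Rc L δ)ᶜ ∪ (Rc L δ ∩ {z : ℂ | z.re ∈ S})) ∪
        ((Rc L δ ∩ {z : ℂ | z.re ∈ X}) ∪ (A ∩ (Rc L δ ∩ {z : ℂ | z.re ∈ N}))) := by
      intro z hz
      rcases hdec z with h | h | h | h
      · exact Or.inl (Or.inl h)
      · exact Or.inl (Or.inr h)
      · exact Or.inr (Or.inl h)
      · exact Or.inr (Or.inr ⟨hz, h⟩)
    have h2 := hmono _ _ h1
    have h3 := measureReal_union_le (μ := nu w) ((Rc L δ)ᶜ ∪ (Rc L δ ∩ {z : ℂ | z.re ∈ S}))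
      ((Rc L δ ∩ {z : ℂ | z.re ∈ X}) ∪ (A ∩ (Rc L δ ∩ {z : ℂ | z.re ∈ N})))
    have h4 := measureReal_union_le (μ := nu w) (Rc L δ)ᶜ (Rc L δ ∩ {z : ℂ | z.re ∈ S})
    have h5 := measureReal_union_le (μ := nu w) (Rc L δ ∩ {z : ℂ | z.re ∈ X})
      (A ∩ (Rc L δ ∩ {z : ℂ | z.re ∈ N}))
    linarith
  · have h0 : (∫ z, w z) - mu w A = (nu w).real Aᶜ := by
      rw [measureReal_compl hA, ← mu_eq hw0 hw hA, ← mu_eq hw0 hw MeasurableSet.univ]
      unfold mu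
      rw [Measure.restrict_univ]
    rw [h0]
    have h1 : Aᶜ ⊆ ((Rc L δ)ᶜ ∪ (Rc L δ ∩ {z : ℂ | z.re ∈ N})) ∪
        ((Rc L δ ∩ {z : ℂ | z.re ∈ X}) ∪ (Aᶜ ∩ (Rc L δ ∩ {z : ℂ | z.re ∈ S}))) := by
      intro z hz
      rcases hdec z with h | h | h | h
      · exact Or.inl (Or.inl h)
      · exact Or.inr (Or.inr ⟨hz, h⟩)
      · exact Or.inr (Or.inl h)
      · exact Or.inl (Or.inr h)
    have h2 := hmono _ _ h1
    have h3 := measureReal_union_le (μ := nu w) ((Rc L δ)ᶜ ∪ (Rc L δ ∩ {z : ℂ | z.re ∈ N}))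
      ((Rc L δ ∩ {z : ℂ | z.re ∈ X}) ∪ (Aᶜ ∩ (Rc L δ ∩ {z : ℂ | z.re ∈ S})))
    have h4 := measureReal_union_le (μ := nu w) (Rc L δ)ᶜ (Rc L δ ∩ {z : ℂ | z.re ∈ N})
    have h5 := measureReal_union_le (μ := nu w) (Rc L δ ∩ {z : ℂ | z.re ∈ X})
      (Aᶜ ∩ (Rc L δ ∩ {z : ℂ | z.re ∈ S}))
    linarith
  · rw [mu_eq hw0 hw hA]
    have h1 : Rc L δ ∩ {z : ℂ | z.re ∈ S} ⊆ A ∪ (Aᶜ ∩ (Rc L δ ∩ {z : ℂ | z.re ∈ S})) := by
      intro z hz
      by_cases h : z ∈ A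
      · exact Or.inl h
      · exact Or.inr ⟨h, hz⟩
    have h2 := hmono _ _ h1
    have h3 := measureReal_union_le (μ := nu w) A (Aᶜ ∩ (Rc L δ ∩ {z : ℂ | z.re ∈ S}))
    have h4 := strip_ge w hw L δ ((1 - δ) * (1 - κ * L)) hδ1
      (mul_nonneg (by linarith) (by linarith)) (by
        intro z hz
        refine le_trans ?_ (hwR z (by linarith [hz.1]) (by linarith [hz.2.1])
          (by linarith [hz.2.2]))
        have h5 : κ * z.re ≤ κ * L := mul_le_mul_of_nonneg_left (by linarith [hz.2.1]) hκ.le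
        exact mul_le_mul_of_nonneg_left (by linarith) (by linarith)) hSm hSI
    linarith
  · intro c s hcs hS0
    have hEm : MeasurableSet {z : ℂ | s < z.re} :=
      measurableSet_lt measurable_const Complex.measurable_re
    rw [mu_eq hw0 hw (hA.inter hEm)]
    have h0 : (nu w).real (Rc L δ ∩ {z : ℂ | z.re ∈ S ∩ Ioo c (L - 2 * δ)}) = 0 := by
      rw [Measure.real, nu_null w, ENNReal.toReal_zero]
      rw [vol_strip L δ (hSm.inter measurableSet_Ioo) (inter_subset_left.trans hSI), hS0, mul_zero]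
    have h1 : A ∩ {z : ℂ | s < z.re} ⊆ ((Rc L δ)ᶜ ∪
        (Rc L δ ∩ {z : ℂ | z.re ∈ S ∩ Ioo c (L - 2 * δ)})) ∪
        ((Rc L δ ∩ {z : ℂ | z.re ∈ X}) ∪ (A ∩ (Rc L δ ∩ {z : ℂ | z.re ∈ N}))) := by
      rintro z ⟨hz, hz2⟩
      rcases hdec z with h | h | h | h
      · exact Or.inl (Or.inl h)
      · refine Or.inl (Or.inr ⟨h.1, h.2, ?_, h.1.2.1⟩)
        exact lt_of_le_of_lt hcs hz2
      · exact Or.inr (Or.inl h)
      · exact Or.inr (Or.inr ⟨hz, h⟩)
    have h2 := hmono _ _ h1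
    have h3 := measureReal_union_le (μ := nu w) ((Rc L δ)ᶜ ∪
        (Rc L δ ∩ {z : ℂ | z.re ∈ S ∩ Ioo c (L - 2 * δ)}))
      ((Rc L δ ∩ {z : ℂ | z.re ∈ X}) ∪ (A ∩ (Rc L δ ∩ {z : ℂ | z.re ∈ N})))
    have h4 := measureReal_union_le (μ := nu w) (Rc L δ)ᶜ
      (Rc L δ ∩ {z : ℂ | z.re ∈ S ∩ Ioo c (L - 2 * δ)})
    have h5 := measureReal_union_le (μ := nu w) (Rc L δ ∩ {z : ℂ | z.re ∈ X})
      (A ∩ (Rc L δ ∩ {z : ℂ | z.re ∈ N}))
    linarith

/-! ### numerical inequalities -/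

theorem n1 {δ y : ℝ} (hδ0 : 0 < δ) (hδ : δ ≤ 1 / 100) (hy0 : 0 ≤ y) (hy : y ≤ 1 / 64) :
    3 / 4 ≤ (1 - δ) * (1 - y) := by
  nlinarith

theorem n2 {δ y : ℝ} (hδ0 : 0 ≤ δ) (hy0 : 0 ≤ y) : 1 - y - δ ≤ (1 - δ) * (1 - y) := by
  have : 0 ≤ δ * y := mul_nonneg hδ0 hy0
  linarith [show (1 - δ) * (1 - y) = 1 - y - δ + δ * y by ring]

theorem n3 {δ y : ℝ} (hδ0 : 0 ≤ δ) (hδ : δ ≤ 1 / 100) (hy0 : 0 ≤ y) :
    1 - y - 5 * δ ≤ (1 - 4 * δ) * ((1 - δ) * (1 - y)) := by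
  have h1 := mul_le_mul_of_nonneg_left (n2 hδ0 hy0) (by linarith : (0 : ℝ) ≤ 1 - 4 * δ)
  refine le_trans ?_ h1
  have : 0 ≤ δ * y := mul_nonneg hδ0 hy0
  have h2 : 0 ≤ δ * δ := mul_nonneg hδ0 hδ0
  linarith [show (1 - 4 * δ) * (1 - y - δ) = 1 - y - 5 * δ + 4 * (δ * y) + 4 * (δ * δ) by ring]

theorem n4 {κ δ L : ℝ} (hκ : 0 < κ) (hκ1 : κ ≤ 1 / 256) (hδ0 : 0 < δ) (hδ : δ ≤ κ / 256)
    (hL : 4 ≤ L) :
    1 - κ * (L + 6) ≤ (1 - κ) * ((1 - 4 * δ) * ((1 - δ) * (1 - κ * (L - 2 * δ)))) := by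
  have hL2 : 0 ≤ L - 2 * δ := by linarith
  have hy0 : 0 ≤ κ * (L - 2 * δ) := mul_nonneg hκ.le hL2
  have h1 := n3 hδ0.le (by linarith) hy0
  have h2 := mul_le_mul_of_nonneg_left h1 (by linarith : (0 : ℝ) ≤ 1 - κ)
  refine le_trans ?_ h2
  have h3 : 0 ≤ κ * (κ * (L - 2 * δ)) := mul_nonneg hκ.le hy0
  have h4 : 0 ≤ κ * δ := by positivity
  linarith [show (1 - κ) * (1 - κ * (L - 2 * δ) - 5 * δ) =
    1 - κ * (L + 6) + 5 * κ - 5 * δ + 2 * (κ * δ) + κ * (κ * (L - 2 * δ)) + 5 * (κ * δ) by ring]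

theorem n5 {q κ x L P B : ℝ} (hq0 : 0 < q) (hqq : q ^ 2 = κ) (hx0 : 0 ≤ x) (hP1 : P ≤ 1)
    (hB : 3 / 4 ≤ B) (h : (1 - κ * (L + 6)) + q * (B * x) ≤ P) : x ≤ 2 * (L + 6) * q := by
  have h1 : q * (B * x) ≤ q * (q * (L + 6)) := by
    have : q * (q * (L + 6)) = κ * (L + 6) := by rw [← hqq]; ring
    linarith
  have h2 : B * x ≤ q * (L + 6) := le_of_mul_le_mul_left h1 hq0
  have h3 : 3 / 4 * x ≤ B * x := mul_le_mul_of_nonneg_right hB hx0
  linarith

end PSTEP1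

open PSTEP1 in
theorem step1 (lines : S_LINES) (out : S_OUT) (ord : S_ORD) : S_STEP1 := by
  intro L t Λ hL ht1 ht2 hΛ
  have hL0 : 0 < L := by linarith
  have ht0 : 0 < t := by linarith
  have hΛ0 : 0 < Λ := by
    by_contra h
    have h' := not_lt.1 h
    nlinarith
  have hΛ1 : 1 / Λ ≤ (t - L / 2) / 4 := by
    rw [div_le_iff₀ hΛ0]
    linarith
  set C₁ : ℝ := 2 * (L + 6) with hC₁
  set C₂ : ℝ := C₁ + 2 * L ^ 2 + L ^ 2 / 2 + (3 * L + 5) / Λ with hC₂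
  set C₄ : ℝ := C₂ + 2 * L + 5 with hC₄
  set C₀ : ℝ := C₁ + 2 * L ^ 2 + L * (L + 5) + 2 with hC₀
  have hC₁0 : 0 < C₁ := by positivity
  have hC₂0 : 0 < C₂ := by positivity
  have hC₄0 : 0 < C₄ := by positivity
  have hC₀0 : 0 < C₀ := by positivity
  have h2tL : 0 < 2 * t - L := by linarith
  refine ⟨min (1 / (16 * L ^ 2)) (((2 * t - L) / (4 * C₄)) ^ 2), C₀, ?_, hC₀0, ?_⟩
  · exact lt_min (by positivity) (by positivity)
  intro κ hκ hκ0 w A hw0 hw1 hwi hwL hwR hA hAv hP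
  have hκ1 : κ ≤ 1 / (16 * L ^ 2) := hκ0.trans (min_le_left _ _)
  have hκ2 : κ ≤ ((2 * t - L) / (4 * C₄)) ^ 2 := hκ0.trans (min_le_right _ _)
  have hκL2 : κ * L ^ 2 ≤ 1 / 16 := by
    rw [le_div_iff₀ (by positivity)] at hκ1
    linarith
  have hκL : κ * L ≤ 1 / 64 := by
    have h1 : κ * L * 4 ≤ κ * L * L := mul_le_mul_of_nonneg_left hL (by positivity)
    nlinarith
  have hκL0 : 0 < κ * L := by positivity
  have hκs : κ ≤ 1 / 256 := by
    have h1 : κ * 4 ≤ κ * L := mul_le_mul_of_nonneg_left hL hκ.le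
    linarith
  obtain ⟨δ, hδ⟩ : ∃ δ : ℝ, δ = κ ^ 2 := ⟨_, rfl⟩
  have hδ0 : 0 < δ := by rw [hδ]; positivity
  have hδκ : δ ≤ κ / 256 := by rw [hδ]; nlinarith
  have hδ1 : δ ≤ 1 / 100 := by linarith
  obtain ⟨q, hq⟩ : ∃ q : ℝ, q = √κ := ⟨_, rfl⟩
  have hq0 : 0 < q := by rw [hq]; exact Real.sqrt_pos.2 hκ
  have hqq : q ^ 2 = κ := by rw [hq]; exact Real.sq_sqrt hκ.le
  have hq1 : q ≤ 1 / 16 := by
    by_contra h
    have h' := not_le.1 h
    nlinarith
  have hκq : κ ≤ q := by nlinarith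
  have hq2 : C₄ * q ≤ (2 * t - L) / 4 := by
    have h1 : q ≤ (2 * t - L) / (4 * C₄) := by
      by_contra h
      have h' := not_le.1 h
      have h2 : 0 < (2 * t - L) / (4 * C₄) := by positivity
      nlinarith
    rw [le_div_iff₀ (by positivity)] at h1
    linarith
  rw [← hδ] at hwR hP hAv hwL
  rw [← hq]
  -- the perimeter
  obtain ⟨P, hPd⟩ : ∃ P : ℝ, P = rr κ δ t + Λ * (mu w A - MM κ δ t) := ⟨_, rfl⟩
  rw [← hPd] at hP
  have hP0 : 0 ≤ P := by
    have h1 := hP (fun _ => 0) ⟨contDiff_const, HasCompactSupport.zero, by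
      rw [show (fun _ : ℂ => (0 : ℂ)) = 0 from rfl, tsupport_zero]; exact empty_subset _,
      fun x => by rw [norm_zero]; exact hw0 x⟩
    have h2 : ∀ x : ℂ, dv2 (fun _ => 0) x = 0 := by
      intro x
      unfold dv2
      simp
    simp only [h2, integral_zero] at h1
    exact h1
  have hrr1 : rr κ δ t ≤ 1 - κ * t + 2 * δ * t := by
    have := rr_le hκ ht0.le
    rw [← hδ] at this
    exact this
  have hκt : κ * t ≤ κ * L := mul_le_mul_of_nonneg_left (by linarith) hκ.le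
  have hκt0 : 0 < κ * t := by positivity
  have hδt : δ * t ≤ κ * t / 256 := by
    have := mul_le_mul_of_nonneg_right hδκ ht0.le
    linarith
  have hδt0 : 0 < δ * t := by positivity
  have hrr2 : rr κ δ t ≤ 1 := by linarith
  have hP1 : P ≤ 1 := by
    have : Λ * (mu w A - MM κ δ t) ≤ 0 :=
      mul_nonpos_of_nonneg_of_nonpos hΛ0.le (by linarith)
    linarith
  have hv1 : MM κ δ t ≤ t := by
    have := MM_le hκ (by linarith : κ ≤ 1 / 2) ht0.le
    rw [← hδ] at this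
    exact this
  have hv2 : t - κ * t ^ 2 / 2 ≤ MM κ δ t := by
    have := le_MM hκ ht0.le (by linarith : κ * t ≤ 1)
    rw [← hδ] at this
    exact this
  have hv3 : (L - t) * (1 - κ * L) ≤ MM κ δ L - MM κ δ t := by
    have := MM_sub hκ ht0.le (by linarith : t ≤ L) (by linarith : κ * L ≤ 1)
    rw [← hδ] at this
    exact this
  have hout : mu w (Rc L δ)ᶜ ≤ 2 * κ * L ^ 2 := by
    have h1 := out L κ w hL hκ (by linarith) (by linarith) hw0 hw1 hwi (by rw [← hδ]; exact hwL)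
      (by rw [← hδ]; exact hwR)
    rw [← hδ] at h1
    exact h1
  obtain ⟨hSm, hNm, hX1, hX2, hX3⟩ := lines L κ δ w A P hL hκ (by linarith) hδ0 hδ1 hw0 hA hwR hP
  obtain ⟨hM1, hM2, hM3, hM4⟩ := masses L κ δ w A (2 * κ * L ^ 2) hδ0 hδ1 hκ (by linarith) hw0 hw1
    hwi hwR hA hout hSm hNm
  rw [hwL] at hM2
  obtain ⟨S, hS⟩ : ∃ S : Set ℝ, S = SS L δ A := ⟨_, rfl⟩
  obtain ⟨N, hN⟩ : ∃ N : Set ℝ, N = NS L δ A := ⟨_, rfl⟩
  rw [← hS] at hSm hX1 hX2 hX3 hM1 hM2 hM3 hM4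
  rw [← hN] at hNm hX1 hX2 hX3 hM1 hM2 hM4
  have hSI : S ⊆ Ioo (2 * δ) (L - 2 * δ) := by rw [hS]; exact fun x hx => ⟨hx.1, hx.2.1⟩
  have hNI : N ⊆ Ioo (2 * δ) (L - 2 * δ) := by rw [hN]; exact fun x hx => ⟨hx.1, hx.2.1⟩
  obtain ⟨x, hx⟩ : ∃ x : ℝ, x = volume.real (Ioo (2 * δ) (L - 2 * δ) \ (S ∪ N)) := ⟨_, rfl⟩
  have hx0 : 0 ≤ x := by rw [hx]; exact measureReal_nonneg
  rw [← hx] at hX1 hM1 hM2 hM4
  obtain ⟨a, ha⟩ : ∃ a : ℝ, a = mu w A := ⟨_, rfl⟩
  obtain ⟨v, hv⟩ : ∃ v : ℝ, v = MM κ δ t := ⟨_, rfl⟩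
  rw [← ha] at hM1 hM2 hM3 hAv hPd
  rw [← hv] at hAv hPd hv1 hv2 hv3
  have hs0 : 0 ≤ volume.real S := measureReal_nonneg
  have hn0 : 0 ≤ volume.real N := measureReal_nonneg
  -- first estimates
  have h34 : 3 / 4 ≤ (1 - δ) * (1 - κ * L) := n1 hδ0 hδ1 hκL0.le hκL
  have hx75 : x ≤ 7 / 5 := by
    have h1 := h34
    have h2 : 3 / 4 * x ≤ (1 - δ) * (1 - κ * L) * x := mul_le_mul_of_nonneg_right h1 hx0
    linarith
  have hva : v - a ≤ 1 / Λ := by
    rw [le_div_iff₀ hΛ0]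
    have h1 : (v - a) * Λ = -(Λ * (a - v)) := by ring
    linarith
  have htL2 : t ^ 2 ≤ L ^ 2 := pow_le_pow_left₀ ht0.le (by linarith) 2
  have hκt2 : κ * t ^ 2 ≤ κ * L ^ 2 := mul_le_mul_of_nonneg_left htL2 hκ.le
  have hSpos : 0 < volume.real S := by linarith
  have hNpos : 0 < volume.real N := by
    have h1 : 2 * (1 - κ * L) ≤ (L - t) * (1 - κ * L) :=
      mul_le_mul_of_nonneg_right (by linarith) (by linarith)
    linarith
  have hSv : 0 < volume S := (ENNReal.toReal_pos_iff.1 hSpos).1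
  have hNv : 0 < volume N := (ENNReal.toReal_pos_iff.1 hNpos).1
  have hSint : S ∩ Ioo (2 * δ) (L - 2 * δ) = S := inter_eq_left.2 hSI
  have hNint : N ∩ Ioo (2 * δ) (L - 2 * δ) = N := inter_eq_left.2 hNI
  have hab : 2 * δ < L - 2 * δ := by linarith
  -- the exceptional set is small
  have hxq : x ≤ C₁ * q := by
    have h1 := hX2 (2 * δ) (L - 2 * δ) le_rfl hab le_rfl (by rw [hSint]; exact hSv)
      (by rw [hNint]; exact hNv) (1 - κ) q (by linarith) hq0.le (by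
        rw [hqq]
        have : κ * κ ≤ κ * 1 := mul_le_mul_of_nonneg_left (by linarith) hκ.le
        linarith [show (1 - κ) ^ 2 = 1 - 2 * κ + κ * κ by ring])
    rw [← hx] at h1
    have h2 := n4 hκ hκs hδ0 hδκ hL
    exact n5 hq0 hqq hx0 hP1 h34 (by linarith)
  have hκL2q : 2 * κ * L ^ 2 ≤ 2 * L ^ 2 * q := by
    have := mul_le_mul_of_nonneg_right hκq (by positivity : (0 : ℝ) ≤ 2 * L ^ 2)
    linarith
  rcases ord S N (2 * δ) (L - 2 * δ) hab hSm hNm (by rw [hSint]; exact hSv)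
    (by rw [hNint]; exact hNv) with ⟨c, hc1, hc2, hN0, hS0, -⟩ | ⟨c, hc1, hc2, hS0, hN0, hSc⟩ |
      ⟨c, hc1, hc2, h1, h2, h3, h4⟩
  · -- first alternative
    have hcS : c - 2 * δ ≤ volume.real S + x := by
      have h1 : Ioo (2 * δ) c ⊆ S ∪ ((Ioo (2 * δ) (L - 2 * δ) \ (S ∪ N)) ∪ (N ∩ Ioo (2 * δ) c)) := by
        intro y hy
        by_cases h2 : y ∈ S
        · exact Or.inl h2
        · by_cases h3 : y ∈ N
          · exact Or.inr (Or.inr ⟨h3, hy⟩)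
          · refine Or.inr (Or.inl ⟨⟨hy.1, hy.2.trans_le hc2⟩, ?_⟩)
            rintro (h4 | h4)
            · exact h2 h4
            · exact h3 h4
      have hfin : volume (S ∪ ((Ioo (2 * δ) (L - 2 * δ) \ (S ∪ N)) ∪ (N ∩ Ioo (2 * δ) c))) ≠ ∞ := by
        refine ((measure_mono ?_).trans_lt (b := volume (Ioo (2 * δ) (L - 2 * δ))) ?_).ne
        · refine union_subset hSI (union_subset sdiff_subset (inter_subset_left.trans hNI))
        · rw [Real.volume_Ioo]; exact ENNReal.ofReal_lt_top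
      have h2 := measureReal_mono h1 hfin
      have h3 := measureReal_union_le (μ := volume) S
        ((Ioo (2 * δ) (L - 2 * δ) \ (S ∪ N)) ∪ (N ∩ Ioo (2 * δ) c))
      have h4 := measureReal_union_le (μ := volume) (Ioo (2 * δ) (L - 2 * δ) \ (S ∪ N))
        (N ∩ Ioo (2 * δ) c)
      have h5 : volume.real (N ∩ Ioo (2 * δ) c) = 0 := by
        rw [Measure.real, hN0, ENNReal.toReal_zero]
      have h6 : volume.real (Ioo (2 * δ) c) = c - 2 * δ := by
        rw [Real.volume_real_Ioo_of_le hc1]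
      linarith
    have hSL : volume.real S ≤ L := by
      have h1 := measureReal_mono hSI (by rw [Real.volume_Ioo]; exact ENNReal.ofReal_ne_top)
      rw [Real.volume_real_Ioo_of_le hab.le] at h1
      linarith
    have hSt : volume.real S ≤ t + κ * (L + 5) * L := by
      have h1 : (1 - κ * L - 5 * δ) ≤ (1 - δ) * (1 - κ * L) * (1 - 4 * δ) := by
        refine (n3 hδ0.le hδ1 hκL0.le).trans (le_of_eq ?_)
        ring
      have h2 : (1 - κ * L - 5 * δ) * volume.real S ≤ a := by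
        refine le_trans (mul_le_mul_of_nonneg_right h1 hs0) ?_
        linarith
      have h3 : (κ * L + 5 * δ) * volume.real S ≤ (κ * L + 5 * δ) * L :=
        mul_le_mul_of_nonneg_left hSL (by positivity)
      have h4 : (κ * L + 5 * δ) * L ≤ κ * (L + 5) * L := by
        refine mul_le_mul_of_nonneg_right ?_ hL0.le
        linarith
      linarith
    have hct : c ≤ t + C₀ * q := by
      have h1 : κ * (L + 5) * L ≤ q * (L + 5) * L := by
        have := mul_le_mul_of_nonneg_right hκq (by positivity : (0 : ℝ) ≤ (L + 5) * L)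
        linarith
      have h2 : 0 ≤ L ^ 2 * q := by positivity
      have h3 : C₀ * q = C₁ * q + 2 * (L ^ 2 * q) + q * (L + 5) * L + 2 * q := by
        rw [hC₀]; ring
      rw [h3]
      linarith
    have h1 := hM4 c (t + C₀ * q) hct hS0
    have h2 : 0 ≤ (L * (L + 5) + 2) * q := by positivity
    have h3 : C₀ * q = C₁ * q + 2 * L ^ 2 * q + (L * (L + 5) + 2) * q := by
      rw [hC₀]; ring
    linarith
  · -- second alternative
    exfalso
    have hcb : c < L - 2 * δ := by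
      rcases eq_or_lt_of_le hc2 with h | h
      · rw [h, hSint] at hS0
        exact absurd hS0 hSv.ne'
      · exact h
    have hNc : ∀ e : ℝ, c < e → 0 < volume (N ∩ Ioo (2 * δ) e) := by
      intro e he
      by_contra h0
      have h0' : volume (N ∩ Ioo (2 * δ) e) = 0 := by
        by_contra h1
        exact h0 (pos_iff_ne_zero.2 h1)
      have h1 : N ⊆ (N ∩ Ioo (2 * δ) e) ∪ (N ∩ Ioo c (L - 2 * δ)) := by
        intro y hy
        by_cases h2 : y < e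
        · exact Or.inl ⟨hy, (hNI hy).1, h2⟩
        · exact Or.inr ⟨hy, he.trans_le (not_lt.1 h2), (hNI hy).2⟩
      have h2 := measure_mono_null h1 (measure_union_null h0' hN0)
      exact hNv.ne' h2
    have hkey : (1 - 4 * δ) * ((1 - δ) * (1 - κ * c)) ≤ P := by
      refine le_of_forall_pos_le_add fun ε hε => ?_
      obtain ⟨e, he1, he2, he3⟩ : ∃ e : ℝ, c < e ∧ e < L - 2 * δ ∧ e ≤ c + ε := by
        refine ⟨min (c + ε) ((c + (L - 2 * δ)) / 2), lt_min (by linarith) (by linarith), ?_,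
          min_le_left _ _⟩
        exact (min_le_right _ _).trans_lt (by linarith)
      have h1 := hX2 (2 * δ) e le_rfl (hc1.trans_lt he1) he2.le (lt_of_lt_of_le (hSc e he1 he2)
        (measure_mono (inter_subset_inter_right _ (Ioo_subset_Ioo_left hc1)))) (hNc e he1) 1 0
        zero_le_one le_rfl (by norm_num)
      have h2 : (1 - 4 * δ) * ((1 - δ) * (1 - κ * e)) ≤ P := by linarith
      have h3 : (1 - 4 * δ) * ((1 - δ) * (κ * (e - c))) ≤ ε := by
        have h5 : 0 ≤ κ * (e - c) := mul_nonneg hκ.le (by linarith)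
        have h4 : κ * (e - c) ≤ ε := by
          have : κ * (e - c) ≤ 1 * (e - c) := mul_le_mul_of_nonneg_right (by linarith) (by linarith)
          linarith
        have h7 : 0 ≤ (1 - δ) * (κ * (e - c)) := mul_nonneg (by linarith) h5
        have h6 : (1 - δ) * (κ * (e - c)) ≤ 1 * (κ * (e - c)) :=
          mul_le_mul_of_nonneg_right (by linarith) h5
        have h9 : (1 - 4 * δ) * ((1 - δ) * (κ * (e - c))) ≤ 1 * ((1 - δ) * (κ * (e - c))) :=
          mul_le_mul_of_nonneg_right (by linarith) h7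
        linarith
      have h8 : (1 - 4 * δ) * ((1 - δ) * (1 - κ * c)) =
          (1 - 4 * δ) * ((1 - δ) * (1 - κ * e)) + (1 - 4 * δ) * ((1 - δ) * (κ * (e - c))) := by
        ring
      linarith
    have hcL : c ≤ L := by linarith
    have hc0 : 0 ≤ c := by linarith
    have hκc : κ * c ≤ κ * L := mul_le_mul_of_nonneg_left hcL hκ.le
    have hκc0 : 0 ≤ κ * c := mul_nonneg hκ.le hc0
    have hkey2 : 1 - κ * c - 5 * δ ≤ P := (n3 hδ0.le hδ1 hκc0).trans hkey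
    have hdiff : Λ * (v - a) ≤ κ * (c - t) + κ ^ 2 * (2 * L + 5) := by
      have h1 : δ * t ≤ δ * L := mul_le_mul_of_nonneg_left (by linarith) hδ0.le
      rw [← hδ]
      linarith [show Λ * (v - a) = -(Λ * (a - v)) by ring,
        show κ * (c - t) + δ * (2 * L + 5) = κ * c - κ * t + 2 * (δ * L) + 5 * δ by ring]
    have hva0 : 0 ≤ v - a := by linarith
    have haS : a ≤ L - c + (C₁ + 2 * L ^ 2) * q := by
      have h1 : volume.real S ≤ L - 2 * δ - c := by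
        have h2 : S ⊆ (S ∩ Ioo (2 * δ) c) ∪ Ico c (L - 2 * δ) := by
          intro y hy
          by_cases h3 : y < c
          · exact Or.inl ⟨hy, (hSI hy).1, h3⟩
          · exact Or.inr ⟨not_lt.1 h3, (hSI hy).2⟩
        have hfin : volume ((S ∩ Ioo (2 * δ) c) ∪ Ico c (L - 2 * δ)) ≠ ∞ := by
          refine (measure_union_lt_top ?_ ?_).ne
          · rw [hS0]; exact ENNReal.zero_lt_top
          · rw [Real.volume_Ico]; exact ENNReal.ofReal_lt_top
        have h3 := measureReal_mono h2 hfin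
        have h4 := measureReal_union_le (μ := volume) (S ∩ Ioo (2 * δ) c) (Ico c (L - 2 * δ))
        have h5 : volume.real (S ∩ Ioo (2 * δ) c) = 0 := by
          rw [Measure.real, hS0, ENNReal.toReal_zero]
        have h6 : volume.real (Ico c (L - 2 * δ)) = L - 2 * δ - c := by
          rw [Real.volume_real_Ico_of_le hcb.le]
        linarith
      linarith [show (C₁ + 2 * L ^ 2) * q = C₁ * q + 2 * L ^ 2 * q by ring]
    have hκ2κ : κ ^ 2 * (2 * L + 5) ≤ κ * (2 * L + 5) := by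
      have : κ ^ 2 ≤ κ := by
        rw [← hδ]
        linarith
      exact mul_le_mul_of_nonneg_right this (by linarith)
    have hvaκ : v - a ≤ κ * ((3 * L + 5) / Λ) := by
      rw [← mul_div_assoc, le_div_iff₀ hΛ0]
      linarith [show (v - a) * Λ = Λ * (v - a) by ring,
        show κ * (c - t) = κ * c - κ * t by ring,
        show κ * (3 * L + 5) = κ * L + κ * (2 * L + 5) by ring]
    have hcbound : c ≤ L - t + C₂ * q := by
      have h1 : κ * (L ^ 2 / 2) ≤ q * (L ^ 2 / 2) := mul_le_mul_of_nonneg_right hκq (by positivity)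
      have h2 : κ * ((3 * L + 5) / Λ) ≤ q * ((3 * L + 5) / Λ) :=
        mul_le_mul_of_nonneg_right hκq (by positivity)
      have h3 : C₂ * q = (C₁ + 2 * L ^ 2) * q + q * (L ^ 2 / 2) + q * ((3 * L + 5) / Λ) := by
        rw [hC₂]; ring
      rw [h3]
      linarith
    have hfinal : c - t + κ * (2 * L + 5) ≤ -((2 * t - L) / 2) := by
      have h1 : κ * (2 * L + 5) ≤ q * (2 * L + 5) := mul_le_mul_of_nonneg_right hκq (by linarith)
      have h2 : C₂ * q + q * (2 * L + 5) = C₄ * q := by rw [hC₄]; ring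
      linarith
    have h1 : 0 ≤ Λ * (v - a) := mul_nonneg hΛ0.le hva0
    have h2 : κ * (c - t) + κ ^ 2 * (2 * L + 5) = κ * (c - t + κ * (2 * L + 5)) := by ring
    have h3 : κ * (c - t + κ * (2 * L + 5)) ≤ κ * (-((2 * t - L) / 2)) :=
      mul_le_mul_of_nonneg_left hfinal hκ.le
    have h4 : κ * (-((2 * t - L) / 2)) < 0 := mul_neg_of_pos_of_neg hκ (by linarith)
    linarith
  · -- third alternative
    exfalso
    have h5 := hX3 (2 * δ) c c (L - 2 * δ) le_rfl hc1 le_rfl hc2 le_rfl h1 h2 h3 h4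
    have h7 : 96 / 100 * (3 / 4) ≤ (1 - 4 * δ) * ((1 - δ) * (1 - κ * L)) :=
      mul_le_mul (by linarith) h34 (by norm_num) (by linarith)
    linarith

end Pool.Agent.H745.HV
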