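import Mathlib
import Pool.Agent.H745.HV.Stm

set_option autoImplicit false

open MeasureTheory Set Metric Filter Topology
open scoped ENNReal Real

namespace Pool.Agent.H745.HV

open Pool.Agent.TH304.MI Pool.Agent.TH703.HU

namespace PW0

variable {L κ β H K δ : ℝ} {k : ℝ → ℝ}

lemma zero_of (hk : Ker H K δ k) {s : ℝ} (hs : H ≤ |s|) : k s = 0 := by
  apply le_antisymm _ (hk.nonneg s)
  by_contra h
  push Not at h
  exact absurd ((hk.pos s).1 h) (not_lt.2 hs)

lemma integrable (hk : Ker H K δ k) : Integrable k := by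
  apply hk.cont.integrable_of_hasCompactSupport
  apply HasCompactSupport.intro (isCompact_Icc (a := -H) (b := H))
  intro x hx
  apply zero_of hk
  by_contra h
  push Not at h
  exact hx ⟨(abs_lt.1 h).1.le, (abs_lt.1 h).2.le⟩

lemma int_nonneg (hk : Ker H K δ k) {a b : ℝ} (hab : a ≤ b) : 0 ≤ ∫ s in a..b, k s :=
  intervalIntegral.integral_nonneg hab fun s _ => hk.nonneg s

lemma int_le_one (hk : Ker H K δ k) {a b : ℝ} (hab : a ≤ b) : ∫ s in a..b, k s ≤ 1 := by
  rw [intervalIntegral.integral_of_le hab, ← hk.int]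
  exact setIntegral_le_integral (integrable hk) (Eventually.of_forall hk.nonneg)

lemma int_pos (hk : Ker H K δ k) (hH : 1 ≤ H) {v a : ℝ} (ha : 0 < a) :
    0 < (∫ s in (v - a)..(v + a), k s) ↔ |v| < H + a := by
  constructor
  · intro h
    by_contra hv
    push Not at hv
    have h0 : (∫ s in (v - a)..(v + a), k s) = 0 := by
      rw [intervalIntegral.integral_congr (g := fun _ => (0 : ℝ)), intervalIntegral.integral_zero]
      intro s hs
      rw [uIcc_of_le (by linarith)] at hs
      apply zero_of hk
      rcases le_total 0 v with h1 | h1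
      · rw [abs_of_nonneg h1] at hv
        exact le_trans (by linarith [hs.1]) (le_abs_self s)
      · rw [abs_of_nonpos h1] at hv
        exact le_trans (by linarith [hs.2]) (neg_le_abs s)
    linarith
  · intro hv
    obtain ⟨h1, h2⟩ := abs_lt.1 hv
    apply intervalIntegral.integral_pos (by linarith) hk.cont.continuousOn
      (fun s _ => hk.nonneg s)
    by_cases h3 : |v| < H
    · exact ⟨v, ⟨by linarith, by linarith⟩, (hk.pos v).2 h3⟩
    · push Not at h3
      rcases le_total 0 v with h4 | h4
      · rw [abs_of_nonneg h4] at h3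
        refine ⟨(v - a + H) / 2 ⊔ 0, ⟨?_, ?_⟩, (hk.pos _).2 ?_⟩
        · exact le_trans (by linarith) (le_max_left _ _)
        · exact max_le (by linarith) (by linarith)
        · rw [abs_of_nonneg (le_max_right _ _)]
          exact max_lt (by linarith) (by linarith)
      · rw [abs_of_nonpos h4] at h3
        refine ⟨-((-v - a + H) / 2 ⊔ 0), ⟨?_, ?_⟩, (hk.pos _).2 ?_⟩
        · have : (-v - a + H) / 2 ⊔ 0 ≤ -v + a := max_le (by linarith) (by linarith)
          linarith
        · have := le_max_left ((-v - a + H) / 2) 0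
          linarith
        · rw [abs_neg, abs_of_nonneg (le_max_right _ _)]
          exact max_lt (by linarith) (by linarith)

/-- the primitive -/
noncomputable def Φ (k : ℝ → ℝ) (t : ℝ) : ℝ := ∫ s in (0 : ℝ)..t, k s

lemma Φ_deriv (hk : Ker H K δ k) (t : ℝ) : HasDerivAt (Φ k) (k t) t :=
  intervalIntegral.integral_hasDerivAt_right (hk.cont.intervalIntegrable _ _)
    (hk.cont.stronglyMeasurableAtFilter _ _) hk.cont.continuousAt

lemma Φ_contDiff (hk : Ker H K δ k) : ContDiff ℝ 1 (Φ k) := by
  rw [contDiff_one_iff_deriv]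
  refine ⟨fun t => (Φ_deriv hk t).differentiableAt, ?_⟩
  have : deriv (Φ k) = k := funext fun t => (Φ_deriv hk t).deriv
  rw [this]
  exact hk.cont

lemma int_eq (hk : Ker H K δ k) (a b : ℝ) : (∫ s in a..b, k s) = Φ k b - Φ k a := by
  unfold Φ
  rw [intervalIntegral.integral_interval_sub_left (hk.cont.intervalIntegrable _ _)
    (hk.cont.intervalIntegrable _ _)]

/-- the smooth extension of the weight -/
noncomputable def GG (κ β : ℝ) (k : ℝ → ℝ) (z : ℂ) : ℝ :=
  (1 - κ * z.re) * (Φ k (z.im + aa β z.re) - Φ k (z.im - aa β z.re))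

lemma ww_eq (hk : Ker H K δ k) {z : ℂ} (hz : 0 < z.re ∧ z.re < L) :
    ww L κ β k z = GG κ β k z := by
  unfold ww GG
  rw [if_pos hz, int_eq hk]

lemma aa_deriv (z : ℂ) : HasFDerivAt (fun z : ℂ => aa β z.re) (β • Complex.reCLM) z := by
  unfold aa
  exact (Complex.reCLM.hasFDerivAt.const_mul β).const_add _

lemma GG_deriv (hk : Ker H K δ k) (z : ℂ) : HasFDerivAt (GG κ β k)
    ((1 - κ * z.re) • (k (z.im + aa β z.re) • (Complex.imCLM + β • Complex.reCLM) -
      k (z.im - aa β z.re) • (Complex.imCLM - β • Complex.reCLM)) +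
      (Φ k (z.im + aa β z.re) - Φ k (z.im - aa β z.re)) • (-(κ • Complex.reCLM))) z := by
  unfold GG
  have h1 : HasFDerivAt (fun z : ℂ => 1 - κ * z.re) (-(κ • Complex.reCLM)) z :=
    (Complex.reCLM.hasFDerivAt.const_mul κ).const_sub 1
  have h2 : HasFDerivAt (fun z : ℂ => z.im + aa β z.re) (Complex.imCLM + β • Complex.reCLM) z :=
    Complex.imCLM.hasFDerivAt.add (aa_deriv z)
  have h3 : HasFDerivAt (fun z : ℂ => z.im - aa β z.re) (Complex.imCLM - β • Complex.reCLM) z :=
    Complex.imCLM.hasFDerivAt.sub (aa_deriv z)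
  have h4 := (Φ_deriv hk (z.im + aa β z.re)).comp_hasFDerivAt z h2
  have h5 := (Φ_deriv hk (z.im - aa β z.re)).comp_hasFDerivAt z h3
  exact h1.mul (h4.sub h5)

lemma GG_contDiff (hk : Ker H K δ k) : ContDiff ℝ 1 (GG κ β k) := by
  unfold GG aa
  have hre : ContDiff ℝ 1 (fun z : ℂ => z.re) := Complex.reCLM.contDiff
  have him : ContDiff ℝ 1 (fun z : ℂ => z.im) := Complex.imCLM.contDiff
  have ha : ContDiff ℝ 1 (fun z : ℂ => 1 / 2 + β * z.re) :=
    contDiff_const.add (contDiff_const.mul hre)
  have hΦ := Φ_contDiff hk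
  exact (contDiff_const.sub (contDiff_const.mul hre)).mul
    ((hΦ.comp (him.add ha)).sub (hΦ.comp (him.sub ha)))

lemma DD_open (L β H : ℝ) : IsOpen (DD L β H) := by
  unfold DD aa
  have h1 : IsOpen {z : ℂ | 0 < z.re} := isOpen_lt continuous_const Complex.continuous_re
  have h2 : IsOpen {z : ℂ | z.re < L} := isOpen_lt Complex.continuous_re continuous_const
  have h3 : IsOpen {z : ℂ | |z.im| < H + (1 / 2 + β * z.re)} :=
    isOpen_lt Complex.continuous_im.abs
      (continuous_const.add (continuous_const.add (continuous_const.mul Complex.continuous_re)))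
  exact h1.inter (h2.inter h3)

end PW0

open PW0 in
theorem w0 : S_W0 := by
  intro L κ β H K δ k hP hH hK hδ hk
  obtain ⟨hL4, hκ0, hκL, hβ0, hβκ⟩ := hP
  have ha : ∀ x : ℝ, 0 < x → 0 < aa β x := fun x hx => by
    unfold aa; positivity
  have hκx : ∀ x : ℝ, 0 < x → x < L → 3 / 4 ≤ 1 - κ * x ∧ 1 - κ * x ≤ 1 := fun x hx hxL => by
    have h1 : κ * x ≤ κ * L := by nlinarith
    have h2 : 0 < κ * x := by positivity
    constructor <;> linarith
  have h0 : ∀ z, 0 ≤ ww L κ β k z := by
    intro z
    unfold ww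
    split_ifs with hz
    · have h1 := hκx z.re hz.1 hz.2
      have h2 := int_nonneg hk (a := z.im - aa β z.re) (b := z.im + aa β z.re)
        (by linarith [ha _ hz.1])
      have : 0 ≤ 1 - κ * z.re := by linarith [h1.1]
      positivity
    · exact le_rfl
  have h1 : ∀ z, ww L κ β k z ≤ 1 := by
    intro z
    unfold ww
    split_ifs with hz
    · have h1 := hκx z.re hz.1 hz.2
      have h2 := int_nonneg hk (a := z.im - aa β z.re) (b := z.im + aa β z.re)
        (by linarith [ha _ hz.1])
      have h3 := int_le_one hk (a := z.im - aa β z.re) (b := z.im + aa β z.re)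
        (by linarith [ha _ hz.1])
      exact mul_le_one₀ h1.2 h2 h3
    · norm_num
  have h2 : {z | 0 < ww L κ β k z} = DD L β H := by
    ext z
    simp only [mem_ofPred_eq, DD]
    constructor
    · intro h
      by_cases hz : 0 < z.re ∧ z.re < L
      · refine ⟨hz.1, hz.2, ?_⟩
        unfold ww at h
        rw [if_pos hz] at h
        have h3 := hκx z.re hz.1 hz.2
        have h4 : 0 < 1 - κ * z.re := by linarith [h3.1]
        exact (int_pos hk hH (ha _ hz.1)).1 ((mul_pos_iff_of_pos_left h4).1 h)
      · unfold ww at h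
        rw [if_neg hz] at h
        exact absurd h (lt_irrefl _)
    · rintro ⟨hz1, hz2, hz3⟩
      unfold ww
      rw [if_pos ⟨hz1, hz2⟩]
      have h3 := hκx z.re hz1 hz2
      have h4 : 0 < 1 - κ * z.re := by linarith [h3.1]
      exact mul_pos h4 ((int_pos hk hH (ha _ hz1)).2 hz3)
  have hmeas : Measurable (ww L κ β k) := by
    have h3 : ww L κ β k = fun z => if 0 < z.re ∧ z.re < L then GG κ β k z else 0 := by
      funext z
      by_cases hz : 0 < z.re ∧ z.re < L
      · rw [if_pos hz, ww_eq hk hz]
      · unfold ww; rw [if_neg hz, if_neg hz]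
    rw [h3]
    refine Measurable.ite ?_ (GG_contDiff hk).continuous.measurable measurable_const
    exact (measurableSet_lt measurable_const Complex.measurable_re).inter
      (measurableSet_lt Complex.measurable_re measurable_const)
  refine ⟨h0, h1, h2, DD_open L β H, ?_, hmeas, ?_, ?_⟩
  · exact (GG_contDiff hk).contDiffOn.congr fun z hz => ww_eq hk ⟨hz.1, hz.2.1⟩
  · have hsub : Function.support (ww L κ β k) ⊆ closedBall (0 : ℂ) (L + (H + (1 / 2 + β * L))) := by
      intro z hz
      have h3 : z ∈ DD L β H := by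
        rw [← h2]
        exact lt_of_le_of_ne (h0 z) (Ne.symm hz)
      obtain ⟨h4, h5, h6⟩ := h3
      rw [mem_closedBall_zero_iff]
      have h7 := Complex.norm_le_abs_re_add_abs_im z
      rw [abs_of_pos h4] at h7
      unfold aa at h6
      have h8 : β * z.re ≤ β * L := by nlinarith
      linarith
    rw [← integrableOn_iff_integrable_of_support_subset hsub]
    refine Measure.integrableOn_of_bounded (M := 1) ?_ hmeas.aestronglyMeasurable ?_
    · exact (isCompact_closedBall _ _).measure_lt_top.ne
    · refine Eventually.of_forall fun z => ?_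
      rw [Real.norm_eq_abs, abs_of_nonneg (h0 z)]
      exact h1 z
  · intro z hz
    have heq : ww L κ β k =ᶠ[𝓝 z] GG κ β k := by
      filter_upwards [(DD_open L β H).mem_nhds hz] with y hy
      exact ww_eq hk ⟨hy.1, hy.2.1⟩
    rw [heq.fderiv_eq, (GG_deriv hk z).fderiv, int_eq hk]
    constructor
    · simp only [add_apply, sub_apply, smul_apply, neg_apply, Complex.reCLM_apply,
        Complex.imCLM_apply, Complex.one_re, Complex.one_im, smul_eq_mul]
      ring
    · simp only [add_apply, sub_apply, smul_apply, neg_apply, Complex.reCLM_apply,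
        Complex.imCLM_apply, Complex.I_re, Complex.I_im, smul_eq_mul]
      ring

end Pool.Agent.H745.HV

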