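import Mathlib
import Pool.Agent.H745.HV.Stm
import Pool.Graph.R_seed8.TH584.HU.Wt

/-! Project HV, task W1: masses of strips, perimeter of a strip. -/

set_option autoImplicit false

open MeasureTheory Set Metric Filter Topology
open scoped ENNReal Real

noncomputable section

namespace Pool.Agent.H745.HV

open Pool.Agent.TH304.MI Pool.Agent.TH703.HU

namespace PW1

open Pool.Agent.TH584.HU (mk_hasDerivAt_re mk_hasDerivAt_im)

/-! ### Fubini -/

lemma fub_int {f : ℂ → ℝ} (hf : Integrable f) :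
    Integrable (fun p : ℝ × ℝ => f ⟨p.1, p.2⟩) ((volume : Measure ℝ).prod volume) :=
  ((Complex.volume_preserving_equiv_real_prod.symm
    Complex.measurableEquivRealProd).integrable_comp_emb
      Complex.measurableEquivRealProd.symm.measurableEmbedding).2 hf

lemma fub0 (f : ℂ → ℝ) :
    ∫ z, f z = ∫ p : ℝ × ℝ, f ⟨p.1, p.2⟩ ∂((volume : Measure ℝ).prod volume) :=
  ((Complex.volume_preserving_equiv_real_prod.symm
    Complex.measurableEquivRealProd).integral_comp
      Complex.measurableEquivRealProd.symm.measurableEmbedding f).symm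

lemma fub1 {f : ℂ → ℝ} (hf : Integrable f) : ∫ z, f z = ∫ x : ℝ, ∫ v : ℝ, f ⟨x, v⟩ := by
  rw [fub0]
  exact integral_prod _ (fub_int hf)

lemma fub2 {f : ℂ → ℝ} (hf : Integrable f) : ∫ z, f z = ∫ v : ℝ, ∫ x : ℝ, f ⟨x, v⟩ := by
  rw [fub0]
  exact integral_prod_symm _ (fub_int hf)

/-! ### The kernel -/

lemma ker_int {H K δ : ℝ} {k : ℝ → ℝ} (hk : Ker H K δ k) : Integrable k := by
  by_contra h
  have h1 := hk.int
  rw [integral_undef h] at h1
  exact zero_ne_one h1

lemma slice {H K δ : ℝ} {k : ℝ → ℝ} (hk : Ker H K δ k) {a : ℝ} (ha : 0 ≤ a) :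
    Integrable (fun v : ℝ => ∫ s in (v - a)..(v + a), k s) ∧
      ∫ v : ℝ, (∫ s in (v - a)..(v + a), k s) = 2 * a := by
  have e : ∀ v : ℝ, ∫ s in (v - a)..(v + a), k s = ∫ u in Ioc (-a) a, k (v + u) := by
    intro v
    rw [← intervalIntegral.integral_of_le (by linarith : -a ≤ a),
      intervalIntegral.integral_comp_add_left, sub_eq_add_neg]
  have hF : Integrable (fun p : ℝ × ℝ => k (p.1 + p.2))
      ((volume : Measure ℝ).prod (volume.restrict (Ioc (-a) a))) := by
    have hm : AEStronglyMeasurable (fun p : ℝ × ℝ => k (p.1 + p.2))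
        ((volume : Measure ℝ).prod (volume.restrict (Ioc (-a) a))) :=
      (hk.cont.comp continuous_add).aestronglyMeasurable
    rw [integrable_prod_iff' hm]
    refine ⟨Eventually.of_forall fun y => (ker_int hk).comp_add_right y, ?_⟩
    have h1 : ∀ y : ℝ, ∫ x : ℝ, ‖k (x + y)‖ = ∫ x : ℝ, ‖k x‖ := fun y =>
      integral_add_right_eq_self (fun x => ‖k x‖) y
    simp only [h1]
    exact integrable_const _
  simp only [e]
  refine ⟨hF.integral_prod_left, ?_⟩
  rw [integral_integral_swap hF]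
  have h1 : ∀ y : ℝ, ∫ x : ℝ, k (x + y) = 1 := fun y => by
    rw [integral_add_right_eq_self k y, hk.int]
  simp only [h1]
  rw [setIntegral_const, smul_eq_mul, mul_one, Real.volume_real_Ioc_of_le (by linarith)]
  ring

lemma ww_in {L κ β : ℝ} {k : ℝ → ℝ} {x : ℝ} (h0 : 0 < x) (hL : x < L) (v : ℝ) :
    ww L κ β k ⟨x, v⟩ = (1 - κ * x) * ∫ s in (v - aa β x)..(v + aa β x), k s :=
  if_pos ⟨h0, hL⟩

lemma ww_out {L κ β : ℝ} {k : ℝ → ℝ} {z : ℂ} (h : ¬ (0 < z.re ∧ z.re < L)) :
    ww L κ β k z = 0 := if_neg h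

lemma ww_slice {L κ β H K δ : ℝ} {k : ℝ → ℝ} (hp : Par L κ β) (hk : Ker H K δ k) {x : ℝ}
    (h0 : 0 < x) (hL : x < L) : Integrable (fun v : ℝ => ww L κ β k ⟨x, v⟩) ∧
      ∫ v : ℝ, ww L κ β k ⟨x, v⟩ = rr κ β x := by
  have ha : 0 ≤ aa β x := by
    unfold aa
    have := mul_pos hp.β0 h0
    linarith
  obtain ⟨h1, h2⟩ := slice hk ha
  simp only [ww_in h0 hL]
  refine ⟨h1.const_mul _, ?_⟩
  rw [integral_const_mul, h2]
  unfold rr aa
  ring

lemma rr_cont (κ β : ℝ) : Continuous (rr κ β) := by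
  unfold rr
  fun_prop

/-! ### Masses -/

lemma mass {L κ β H K δ : ℝ} {k : ℝ → ℝ} (hp : Par L κ β) (hk : Ker H K δ k)
    (hi : Integrable (ww L κ β k)) {s t : ℝ} (hs : 0 ≤ s) (hst : s ≤ t) (ht : t ≤ L) :
    mu (ww L κ β k) {z | s < z.re ∧ z.re < t} = MM κ β t - MM κ β s := by
  have hA : MeasurableSet {z : ℂ | s < z.re ∧ z.re < t} :=
    (measurableSet_lt measurable_const Complex.measurable_re).inter
      (measurableSet_lt Complex.measurable_re measurable_const)
  unfold mu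
  rw [← integral_indicator hA, fub1 (hi.indicator hA)]
  have h1 : ∀ x : ℝ, ∫ v : ℝ, {z : ℂ | s < z.re ∧ z.re < t}.indicator (ww L κ β k) ⟨x, v⟩ =
      (Ioo s t).indicator (rr κ β) x := by
    intro x
    by_cases hx : s < x ∧ x < t
    · rw [indicator_of_mem (show x ∈ Ioo s t from hx)]
      rw [← (ww_slice hp hk (lt_of_le_of_lt hs hx.1) (lt_of_lt_of_le hx.2 ht)).2]
      refine integral_congr_ae (Eventually.of_forall fun v => ?_)
      exact indicator_of_mem (show (⟨x, v⟩ : ℂ) ∈ {z : ℂ | s < z.re ∧ z.re < t} from hx) _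
    · rw [indicator_of_notMem (show x ∉ Ioo s t from hx)]
      rw [show (0 : ℝ) = ∫ _ : ℝ, (0 : ℝ) by simp]
      refine integral_congr_ae (Eventually.of_forall fun v => ?_)
      exact indicator_of_notMem (show (⟨x, v⟩ : ℂ) ∉ {z : ℂ | s < z.re ∧ z.re < t} from hx) _
  simp only [h1]
  rw [integral_indicator measurableSet_Ioo, ← integral_Ioc_eq_integral_Ioo,
    ← intervalIntegral.integral_of_le hst]
  unfold MM
  rw [intervalIntegral.integral_interval_sub_left]
  · exact (rr_cont κ β).intervalIntegrable _ _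
  · exact (rr_cont κ β).intervalIntegrable _ _

/-! ### Lines -/

lemma emb_re (v : ℝ) : IsClosedEmbedding (fun x : ℝ => (⟨x, v⟩ : ℂ)) :=
  Isometry.isClosedEmbedding (Isometry.of_dist_eq fun _ _ => Complex.dist_of_im_eq rfl)

lemma emb_im (x : ℝ) : IsClosedEmbedding (fun v : ℝ => (⟨x, v⟩ : ℂ)) :=
  Isometry.isClosedEmbedding (Isometry.of_dist_eq fun _ _ => Complex.dist_of_re_eq rfl)

section

variable {Y : ℂ → ℂ}

lemma der_re (hY : ContDiff ℝ 1 Y) (v x : ℝ) :
    HasDerivAt (fun x : ℝ => (Y ⟨x, v⟩).re) ((fderiv ℝ Y ⟨x, v⟩ 1).re) x := by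
  have h1 := ((hY.differentiable (by norm_num)) (⟨x, v⟩ : ℂ)).hasFDerivAt.comp_hasDerivAt x
    (mk_hasDerivAt_re v x)
  exact Complex.reCLM.hasFDerivAt.comp_hasDerivAt x h1

lemma der_im (hY : ContDiff ℝ 1 Y) (x v : ℝ) :
    HasDerivAt (fun v : ℝ => (Y ⟨x, v⟩).im) ((fderiv ℝ Y ⟨x, v⟩ Complex.I).im) v := by
  have h1 := ((hY.differentiable (by norm_num)) (⟨x, v⟩ : ℂ)).hasFDerivAt.comp_hasDerivAt v
    (mk_hasDerivAt_im x v)
  exact Complex.imCLM.hasFDerivAt.comp_hasDerivAt v h1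

/-- the two terms of the divergence -/
def d1 (Y : ℂ → ℂ) (z : ℂ) : ℝ := (fderiv ℝ Y z 1).re

/-- the two terms of the divergence -/
def d2 (Y : ℂ → ℂ) (z : ℂ) : ℝ := (fderiv ℝ Y z Complex.I).im

lemma d1_cont (hY : ContDiff ℝ 1 Y) : Continuous (d1 Y) :=
  Complex.continuous_re.comp ((hY.continuous_fderiv (by norm_num)).clm_apply continuous_const)

lemma d2_cont (hY : ContDiff ℝ 1 Y) : Continuous (d2 Y) :=
  Complex.continuous_im.comp ((hY.continuous_fderiv (by norm_num)).clm_apply continuous_const)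

lemma d1_cs (hc : HasCompactSupport Y) : HasCompactSupport (d1 Y) :=
  (hc.fderiv ℝ).comp_left (g := fun T : ℂ →L[ℝ] ℂ => (T 1).re) rfl

lemma d2_cs (hc : HasCompactSupport Y) : HasCompactSupport (d2 Y) :=
  (hc.fderiv ℝ).comp_left (g := fun T : ℂ →L[ℝ] ℂ => (T Complex.I).im) rfl

lemma line_im (hY : ContDiff ℝ 1 Y) (hc : HasCompactSupport Y) (x : ℝ) :
    ∫ v : ℝ, d2 Y ⟨x, v⟩ = 0 := by
  have hcont : Continuous fun v : ℝ => (⟨x, v⟩ : ℂ) := (emb_im x).continuous
  refine integral_eq_zero_of_hasDerivAt_of_integrable (f := fun v : ℝ => (Y ⟨x, v⟩).im)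
    (fun v => der_im hY x v) ?_ ?_
  · exact ((d2_cont hY).comp hcont).integrable_of_hasCompactSupport
      ((d2_cs hc).comp_isClosedEmbedding (emb_im x))
  · exact (Complex.continuous_im.comp (hY.continuous.comp hcont)).integrable_of_hasCompactSupport
      ((hc.comp_isClosedEmbedding (emb_im x)).comp_left (g := Complex.im) rfl)

lemma line_re (hY : ContDiff ℝ 1 Y) (hc : HasCompactSupport Y) (t v : ℝ) :
    ∫ x in Iio t, d1 Y ⟨x, v⟩ = (Y ⟨t, v⟩).re := by
  have hcont : Continuous fun x : ℝ => (⟨x, v⟩ : ℂ) := (emb_re v).continuous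
  have h1 : Continuous fun x : ℝ => (Y ⟨x, v⟩).re :=
    Complex.continuous_re.comp (hY.continuous.comp hcont)
  have h2 : HasCompactSupport fun x : ℝ => (Y ⟨x, v⟩).re :=
    (hc.comp_isClosedEmbedding (emb_re v)).comp_left (g := Complex.re) rfl
  have h3 : Tendsto (fun x : ℝ => (Y ⟨x, v⟩).re) atBot (𝓝 0) := by
    rw [hasCompactSupport_iff_eventuallyEq, Filter.coclosedCompact_eq_cocompact] at h2
    exact (h2.filter_mono _root_.atBot_le_cocompact).tendsto
  rw [← integral_Iic_eq_integral_Iio]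
  have h4 := integral_Iic_of_hasDerivAt_of_tendsto' (a := t) (fun x _ => der_re hY v x)
    (((d1_cont hY).comp hcont).integrable_of_hasCompactSupport
      ((d1_cs hc).comp_isClosedEmbedding (emb_re v))).integrableOn h3
  rw [sub_zero] at h4
  exact h4

end

end PW1

open PW1 in
theorem w1 (w0 : S_W0) : S_W1 := by
  intro L κ β H K δ k hp hH hK hδ hk
  obtain ⟨hnn, hle, hset, hopen, hcd, hmeas, hi, -⟩ := w0 L κ β H K δ k hp hH hK hδ hk
  have hL : 0 < L := lt_of_lt_of_le (by norm_num) hp.L4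
  refine ⟨fun s t hs hst ht => mass hp hk hi hs hst ht, ?_, ?_⟩
  · have h1 := mass hp hk hi le_rfl hL.le le_rfl
    unfold mu at h1
    have h2 : ∫ z in {z : ℂ | 0 < z.re ∧ z.re < L}, ww L κ β k z = ∫ z, ww L κ β k z :=
      setIntegral_eq_integral_of_forall_compl_eq_zero (fun z hz => ww_out hz)
    rw [← h2, h1]
    unfold MM
    rw [intervalIntegral.integral_same, sub_zero]
  · intro t ht htL Y hY
    have hA : MeasurableSet {z : ℂ | z.re < t} :=
      measurableSet_lt Complex.measurable_re measurable_const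
    have i1 : Integrable (d1 Y) := (d1_cont hY.cd).integrable_of_hasCompactSupport (d1_cs hY.cs)
    have i2 : Integrable (d2 Y) := (d2_cont hY.cd).integrable_of_hasCompactSupport (d2_cs hY.cs)
    have e0 : ∫ z in {z : ℂ | z.re < t}, dv2 Y z =
        (∫ z in {z : ℂ | z.re < t}, d1 Y z) + ∫ z in {z : ℂ | z.re < t}, d2 Y z :=
      integral_add i1.integrableOn i2.integrableOn
    have e2 : ∫ z in {z : ℂ | z.re < t}, d2 Y z = 0 := by
      rw [← integral_indicator hA, fub1 (i2.indicator hA)]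
      rw [show (0 : ℝ) = ∫ _ : ℝ, (0 : ℝ) by simp]
      refine integral_congr_ae (Eventually.of_forall fun x => ?_)
      by_cases hx : x < t
      · rw [show (0 : ℝ) = ∫ v : ℝ, d2 Y ⟨x, v⟩ from (line_im hY.cd hY.cs x).symm]
        refine integral_congr_ae (Eventually.of_forall fun v => ?_)
        exact indicator_of_mem (show (⟨x, v⟩ : ℂ) ∈ {z : ℂ | z.re < t} from hx) _
      · rw [show (0 : ℝ) = ∫ _ : ℝ, (0 : ℝ) by simp]
        refine integral_congr_ae (Eventually.of_forall fun v => ?_)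
        exact indicator_of_notMem (show (⟨x, v⟩ : ℂ) ∉ {z : ℂ | z.re < t} from hx) _
    have e1 : ∫ z in {z : ℂ | z.re < t}, d1 Y z = ∫ v : ℝ, (Y ⟨t, v⟩).re := by
      rw [← integral_indicator hA, fub2 (i1.indicator hA)]
      refine integral_congr_ae (Eventually.of_forall fun v => ?_)
      show ∫ x : ℝ, {z : ℂ | z.re < t}.indicator (d1 Y) ⟨x, v⟩ = (Y ⟨t, v⟩).re
      rw [← line_re hY.cd hY.cs t v, ← integral_indicator measurableSet_Iio]
      refine integral_congr_ae (Eventually.of_forall fun x => ?_)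
      by_cases hx : x < t
      · exact (indicator_of_mem (show (⟨x, v⟩ : ℂ) ∈ {z : ℂ | z.re < t} from hx) _).trans
          (indicator_of_mem (show x ∈ Iio t from hx) (fun x => d1 Y ⟨x, v⟩)).symm
      · exact (indicator_of_notMem (show (⟨x, v⟩ : ℂ) ∉ {z : ℂ | z.re < t} from hx) _).trans
          (indicator_of_notMem (show x ∉ Iio t from hx) (fun x => d1 Y ⟨x, v⟩)).symm
    rw [e0, e1, e2, add_zero]
    obtain ⟨j1, j2⟩ := ww_slice hp hk ht htL
    rw [← j2]
    refine integral_mono ?_ j1 fun v => ?_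
    · exact (Complex.continuous_re.comp
        (hY.cd.continuous.comp (emb_im t).continuous)).integrable_of_hasCompactSupport
          ((hY.cs.comp_isClosedEmbedding (emb_im t)).comp_left (g := Complex.re) rfl)
    · exact (Complex.re_le_norm _).trans (hY.le _)

end Pool.Agent.H745.HV
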