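import Mathlib
import Pool.Agent.H745.HV.Stm

set_option autoImplicit false

open MeasureTheory Set Metric Filter Topology
open scoped ENNReal Real

namespace Pool.Agent.H745.HV

open Pool.Agent.TH304.MI Pool.Agent.TH703.HU

namespace PW2

variable {H K δ : ℝ} {k : ℝ → ℝ}

theorem integ (h : Ker H K δ k) : Integrable k := by
  by_contra hn
  have h1 := h.int
  rw [integral_undef hn] at h1
  norm_num at h1

theorem ii (h : Ker H K δ k) (a b : ℝ) : IntervalIntegrable k volume a b :=
  h.cont.intervalIntegrable a b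

theorem mono (h : Ker H K δ k) {a b c d : ℝ} (h1 : c ≤ a) (h2 : a ≤ b) (h3 : b ≤ d) :
    ∫ s in a..b, k s ≤ ∫ s in c..d, k s :=
  intervalIntegral.integral_mono_interval h1 h2 h3
    (ae_of_all _ fun s => h.nonneg s) (ii h c d)

theorem nn (h : Ker H K δ k) {a b : ℝ} (hab : a ≤ b) : 0 ≤ ∫ s in a..b, k s :=
  intervalIntegral.integral_nonneg hab fun s _ => h.nonneg s

/-- symmetry -/
theorem symm (h : Ker H K δ k) (a b : ℝ) : ∫ s in (-b)..(-a), k s = ∫ s in a..b, k s := by
  rw [← intervalIntegral.integral_comp_neg]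
  exact intervalIntegral.integral_congr fun s _ => h.even s

theorem half (h : Ker H K δ k) (b : ℝ) : ∫ s in (-b)..b, k s = 2 * ∫ s in (0 : ℝ)..b, k s := by
  rw [← intervalIntegral.integral_add_adjacent_intervals (ii h (-b) 0) (ii h 0 b)]
  have h1 := symm h 0 b
  rw [neg_zero] at h1
  rw [h1]
  ring

theorem le_one (h : Ker H K δ k) {a b : ℝ} (hab : a ≤ b) : ∫ s in a..b, k s ≤ 1 := by
  rw [intervalIntegral.integral_of_le hab, ← h.int]
  exact setIntegral_le_integral (integ h) (ae_of_all _ fun s => h.nonneg s)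

/-- concentration -/
theorem conc (h : Ker H K δ k) {b : ℝ} (hb : δ ≤ b) (hb0 : 0 ≤ b) :
    1 - δ ≤ ∫ s in (-b)..b, k s := by
  rw [intervalIntegral.integral_of_le (by linarith)]
  have h1 := integral_add_compl (measurableSet_Ioc (a := -b) (b := b)) (integ h)
  rw [h.int] at h1
  have h2 : ∫ s in (Ioc (-b) b)ᶜ, k s ≤ ∫ s in {s | δ ≤ |s|}, k s := by
    refine setIntegral_mono_set (integ h).integrableOn (ae_of_all _ fun s => h.nonneg s) ?_
    refine Eventually.of_forall fun s hs => ?_
    show δ ≤ |s|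
    have hs' : ¬ (-b < s ∧ s ≤ b) := hs
    by_contra hc
    apply hs'
    have h3 : |s| < b := lt_of_lt_of_le (not_le.1 hc) hb
    rw [abs_lt] at h3
    exact ⟨h3.1, h3.2.le⟩
  have h3 := h.conc
  linarith

/-- the integral only depends on the absolute value of the centre -/
theorem absc (h : Ker H K δ k) (v a : ℝ) :
    ∫ s in (v - a)..(v + a), k s = ∫ s in (|v| - a)..(|v| + a), k s := by
  rcases le_total 0 v with hv | hv
  · rw [abs_of_nonneg hv]
  · rw [abs_of_nonpos hv, ← symm h (v - a) (v + a)]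
    have e1 : -(v + a) = -v - a := by ring
    have e2 : -(v - a) = -v + a := by ring
    rw [e1, e2]

theorem tail (h : Ker H K δ k) {r b : ℝ} (hr : 0 ≤ r) (hb : 0 ≤ b) :
    k 0 * (∫ s in r..(r + b), k s) ≤ k r / 2 := by
  have h1 : ∫ s in r..(r + b), k s = ∫ u in (0 : ℝ)..b, k (r + u) := by
    rw [intervalIntegral.integral_comp_add_left (fun s => k s) r, add_zero]
  rw [h1, ← intervalIntegral.integral_const_mul]
  have h2 : ∫ u in (0 : ℝ)..b, k 0 * k (r + u) ≤ ∫ u in (0 : ℝ)..b, k r * k u := by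
    refine intervalIntegral.integral_mono_on hb ?_ ?_ ?_
    · exact (continuous_const.mul (h.cont.comp (continuous_const.add continuous_id))).intervalIntegrable _ _
    · exact (continuous_const.mul h.cont).intervalIntegrable _ _
    · intro u hu
      have := h.sub r u hr hu.1
      linarith
  refine h2.trans ?_
  rw [intervalIntegral.integral_const_mul]
  have h3 : ∫ u in (0 : ℝ)..b, k u ≤ 1 / 2 := by
    have h4 := half h b
    have h5 := le_one h (show -b ≤ b by linarith)
    linarith
  have h4 := h.nonneg r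
  nlinarith

end PW2

/-- **W2.** The weight in the bulk and in the tail. -/
theorem w2 (_w0 : S_W0) : S_W2 := by
  intro L κ β H K δ k hP hH hK hδ hδ8 hk
  have hβ := hP.β0
  have hκ := hP.κ0
  have hκL := hP.κL
  refine ⟨?_, ?_, ?_, ?_⟩
  · rintro z ⟨hz1, hz2, hz3⟩ hz4
    have ha : 1 / 2 ≤ aa β z.re := by
      unfold aa
      have := mul_pos hβ hz1
      linarith
    have h1 : 0 ≤ 1 - κ * z.re := by nlinarith
    unfold ww
    rw [if_pos ⟨hz1, hz2⟩, mul_comm (1 - δ)]
    refine mul_le_mul_of_nonneg_left ?_ h1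
    refine (PW2.conc hk le_rfl hδ.le).trans (PW2.mono hk ?_ (by linarith) ?_)
    · have := (abs_le.1 hz4).2
      linarith
    · have := (abs_le.1 hz4).1
      linarith
  · rintro z ⟨hz1, hz2, hz3⟩
    have ha : 1 / 2 ≤ aa β z.re := by
      unfold aa
      have := mul_pos hβ hz1
      linarith
    have h1 : 3 / 4 ≤ 1 - κ * z.re := by nlinarith
    unfold ww
    rw [if_pos ⟨hz1, hz2⟩, PW2.absc hk]
    have h2 : 7 / 8 ≤ 2 * ∫ s in (0 : ℝ)..(1 / 2), k s := by
      rw [← PW2.half hk]
      have := PW2.conc hk (b := 1 / 2) (by linarith) (by norm_num)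
      linarith
    have h3 : ∫ s in (0 : ℝ)..(1 / 2), k s ≤
        ∫ s in (|z.im| - aa β z.re)..(|z.im| + aa β z.re), k s := by
      have := abs_nonneg z.im
      exact PW2.mono hk (by linarith) (by norm_num) (by linarith)
    nlinarith
  · intro z hz ha
    rw [PW2.absc hk]
    have h1 := PW2.tail hk (r := |z.im| - aa β z.re) (b := 2 * aa β z.re) (by linarith)
      (by linarith)
    have e : |z.im| - aa β z.re + 2 * aa β z.re = |z.im| + aa β z.re := by ring
    rw [e] at h1
    have h2 : 0 ≤ ∫ s in (|z.im| - aa β z.re)..(|z.im| + aa β z.re), k s :=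
      PW2.nn hk (by linarith)
    have h3 := hk.big
    nlinarith
  · rintro z ⟨hz1, hz2, hz3⟩ hz
    have ha : 1 / 2 ≤ aa β z.re := by
      unfold aa
      have := mul_pos hβ hz1
      linarith
    have h1 := hk.sub (|z.im| - aa β z.re) (2 * aa β z.re) (by linarith) (by linarith)
    have e : |z.im| - aa β z.re + 2 * aa β z.re = |z.im| + aa β z.re := by ring
    rw [e] at h1
    have h2 : k (2 * aa β z.re) ≤ 1 / 8 := by
      refine (hk.tail (2 * aa β z.re) ?_).trans hδ8
      rw [abs_of_nonneg (by linarith)]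
      linarith
    have h3 := hk.big
    have h4 := hk.nonneg (|z.im| - aa β z.re)
    have h5 := hk.nonneg (|z.im| + aa β z.re)
    have h6 : k (|z.im| + aa β z.re) ≤ k (|z.im| + aa β z.re) * k 0 := by nlinarith
    have h7 : k (|z.im| - aa β z.re) * k (2 * aa β z.re) ≤ k (|z.im| - aa β z.re) * (1 / 8) :=
      mul_le_mul_of_nonneg_left h2 h4
    linarith

end Pool.Agent.H745.HV
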